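import Pool.Agent.P.MP_9cbceb_lc.Stm

/-! An optimal cut exists and is described by a list no longer than the input. -/

namespace Pool.Agent.P.MP_9cbceb_lc

theorem sanity_len {n : ℕ} {D : List (ℕ × ℕ × ℚ)} (h : Total n D) : n ≤ D.length + 1 := by
  have h1 : Finset.Ico 1 n ⊆ (D.map fun e => e.2.1).toFinset := fun y hy => by
    rw [Finset.mem_Ico] at hy
    obtain ⟨r, hr⟩ := h 0 y hy.1 hy.2
    exact List.mem_toFinset.2 (List.mem_map.2 ⟨_, hr, rfl⟩)
  have h2 := (Finset.card_le_card h1).trans (List.toFinset_card_le _)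
  rw [Nat.card_Ico, List.length_map] at h2
  omega

theorem sanity_cut {n : ℕ} {w : List (ℕ × ℕ × ℚ)} (h : Simple n w) (T : List Bool) :
    cut w (List.ofFn fun i : Fin n => T.getD i false) = cut w T := by
  have e : ∀ x < n, (List.ofFn fun i : Fin n => T.getD i false).getD x false = T.getD x false :=
    fun x hx => by simp [List.getD_eq_getElem?_getD, hx]
  refine congrArg List.sum (List.map_congr_left fun z hz => ?_)
  obtain ⟨h1, h2, -⟩ := h.2 z hz
  rw [e _ h2, e _ (h1.trans h2)]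

theorem sanity_opt : ∃ A : ℕ × List (ℕ × ℕ × ℚ) × List (ℕ × ℕ × ℚ) → List Bool,
    (∀ p, (A p).length ≤ p.2.2.length + 1) ∧ Approx 1 A := by
  have key : ∀ p : ℕ × List (ℕ × ℕ × ℚ) × List (ℕ × ℕ × ℚ), ∃ S : List Bool,
      S.length ≤ p.2.2.length + 1 ∧ (Simple p.1 p.2.1 → Simple p.1 p.2.2 → Total p.1 p.2.2 →
        ∀ T : List Bool, 0 < cut p.2.2 T → 0 < cut p.2.2 S ∧
          cut p.2.1 S / cut p.2.2 S ≤ cut p.2.1 T / cut p.2.2 T) := by
    rintro ⟨n, c, D⟩
    by_cases h : Total n D ∧ ∃ f : Fin n → Bool, 0 < cut D (List.ofFn f)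
    · obtain ⟨h1, f0, h2⟩ := h
      obtain ⟨f, hf, hm⟩ := Finset.exists_min_image
        (Finset.univ.filter fun f : Fin n → Bool => 0 < cut D (List.ofFn f))
        (fun f => cut c (List.ofFn f) / cut D (List.ofFn f)) ⟨f0, by simpa using h2⟩
      refine ⟨List.ofFn f, by simpa using sanity_len h1, fun s1 s2 _ T hT =>
        ⟨(Finset.mem_filter.1 hf).2, ?_⟩⟩
      have := hm (fun i => T.getD i false)
        (Finset.mem_filter.2 ⟨Finset.mem_univ _, by rwa [sanity_cut s2]⟩)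
      rwa [sanity_cut s1, sanity_cut s2] at this
    · exact ⟨[], by simp, fun _ s2 s3 T hT =>
        absurd ⟨s3, fun i => T.getD i false, by rwa [sanity_cut s2]⟩ h⟩
  choose A h1 h2 using key
  refine ⟨A, h1, fun n c D s1 s2 s3 T hT => ?_⟩
  obtain ⟨q1, q2⟩ := h2 (n, c, D) s1 s2 s3 T hT
  exact ⟨q1, by rw [one_mul]; exact_mod_cast q2⟩

end Pool.Agent.P.MP_9cbceb_lc
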