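import Pool.Agent.P.MP_9cbceb_lc.Basic

/-! Alphabet reduction. -/

namespace Pool.Agent.P.MP_9cbceb_lc

open Pool.Agent.Lib.helper21 Pool.Agent.Lib.helper26 Finset

noncomputable section

/-- Numbering of pairs of a number and an element of a finite type. -/
def ar_num {T : Type} [Fintype T] (x : ℕ) (t : T) : ℕ :=
  x * Fintype.card T + (Fintype.equivFin T t : ℕ)

theorem ar_num_inj {T : Type} [Fintype T] {x x' : ℕ} {t t' : T} (h : ar_num x t = ar_num x' t') :
    x = x' ∧ t = t' := by
  have h1 := (Fintype.equivFin T t).2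
  have h2 := (Fintype.equivFin T t').2
  have e : ∀ (y : ℕ) (u : ℕ), u < Fintype.card T →
      (y * Fintype.card T + u) / Fintype.card T = y := fun y u hu => by
    rw [add_comm, Nat.add_mul_div_right _ _ (by omega), Nat.div_eq_of_lt hu, zero_add]
  have h3 : x = x' := by
    rw [← e x _ h1, ← e x' _ h2]
    exact congrArg (· / Fintype.card T) h
  subst h3
  exact ⟨rfl, (Fintype.equivFin T).injective (Fin.ext (Nat.add_left_cancel h))⟩

theorem ar_num_le {T : Type} [Fintype T] (t : T) {x M c : ℕ} (hx : x ≤ M)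
    (hc : 3 * Fintype.card T + 2 ≤ c) : 3 * ar_num x t + 2 ≤ c * (M + 1) := by
  have h1 := (Fintype.equivFin T t).2
  have h2 : x * Fintype.card T ≤ M * Fintype.card T := Nat.mul_le_mul_right _ hx
  have h3 : (3 * Fintype.card T + 2) * (M + 1) ≤ c * (M + 1) := Nat.mul_le_mul_right _ hc
  unfold ar_num
  nlinarith

/-- The variables of the new instance. -/
abbrev ar_V (q : ℕ) : Type :=
  (ℕ × (Fin q → ZMod 2)) ⊕ (ℕ × (Fin q × Fin q → ZMod 2)) ⊕ (ℕ × Smp (Fin q))

def ar_id {q : ℕ} : ar_V q → ℕ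
  | .inl p => 3 * ar_num p.1 p.2
  | .inr (.inl p) => 3 * ar_num p.1 p.2 + 1
  | .inr (.inr p) => 3 * ar_num p.1 p.2 + 2

theorem ar_id_inj {q : ℕ} : Function.Injective (ar_id : ar_V q → ℕ) := by
  rintro (p | p | p) (p' | p' | p') h <;> simp only [ar_id] at h <;> try omega
  all_goals
    obtain ⟨h1, h2⟩ := ar_num_inj (show ar_num p.1 p.2 = ar_num p'.1 p'.2 by omega)
    rw [Prod.ext h1 h2]

/-- The indicator function of the relation coded by `c`. -/
def ar_r (q c : ℕ) : Fin q × Fin q → ZMod 2 := fun z => if rel q c z.1 z.2 = true then 1 else 0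

/-- The function at which the table of the constraint is read. -/
def ar_F {q : ℕ} (r : Fin q × Fin q → ZMod 2) (s : Smp (Fin q)) :
    Fin 10 → Fin q × Fin q → ZMod 2 :=
  ![s.1, s.2.1, s.1 + s.2.1, s.1 * s.2.1 + s.2.2.1, s.2.2.1, r + s.2.2.1,
    (fun z => s.2.2.2 z.1) + s.2.2.1, 0, (fun z => s.2.2.2 z.2) + s.2.2.1, 0]

/-- The variable of the query `k`. -/
def ar_q {q : ℕ} (j : ℕ) (e : ℕ × ℕ × ℕ) (s : Smp (Fin q)) (k : Fin 10) : ar_V q :=
  if k = 7 then .inl (e.1, s.2.2.2) else if k = 9 then .inl (e.2.1, s.2.2.2)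
  else .inr (.inl (j, ar_F (ar_r q e.2.2) s k))

theorem ar_bits {q : ℕ} (j : ℕ) (e : ℕ × ℕ × ℕ) (s : Smp (Fin q)) (β : ar_V q → ZMod 2)
    (k : Fin 10) : bits (ar_r q e.2.2) (fun F => β (.inr (.inl (j, F))))
      (fun f => β (.inl (e.1, f))) (fun f => β (.inl (e.2.1, f))) s k = β (ar_q j e s k) := by
  fin_cases k <;> rfl

theorem ar_PT (q : ℕ) (i : Smp (Fin q) × Fin 10) : ∃ g : ℕ × ℕ × ℕ × ℕ → ℕ, PT g ∧
    ∀ j e, e.2.2 < 2 ^ (q * q) → g (j, e) = ar_id (ar_q j e i.1 i.2) := by
  obtain ⟨s, k⟩ := i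
  by_cases h7 : k = 7
  · refine ⟨fun p => 3 * ar_num p.2.1 s.2.2.2, ?_, fun j e _ => ?_⟩
    · unfold ar_num
      fun_prop
    · simp only [ar_q, h7, if_true, ar_id]
  by_cases h9 : k = 9
  · refine ⟨fun p => 3 * ar_num p.2.2.1 s.2.2.2, ?_, fun j e _ => ?_⟩
    · unfold ar_num
      fun_prop
    · rw [ar_q, if_neg h7, if_pos h9]
      rfl
  obtain ⟨t, ht, e1⟩ := PT_table (2 ^ (q * q))
    fun l => (Fintype.equivFin _ (ar_F (ar_r q (l.getD 0 0)) s k) : ℕ)
  refine ⟨fun p => 3 * (p.1 * Fintype.card (Fin q × Fin q → ZMod 2) + t [p.2.2.2]) + 1, ?_,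
    fun j e he => ?_⟩
  · have h1 : PT fun p : ℕ × ℕ × ℕ × ℕ => t [p.2.2.2] := by fun_prop
    fun_prop
  · rw [ar_q, if_neg h7, if_neg h9]
    simp only [ar_id, ar_num]
    rw [e1 [e.2.2] (Nat.one_le_two_pow) (by simpa using he.le)]
    rfl

theorem ar_getD_mem {I : Inst} {j : ℕ} (hj : j < I.length) : I.getD j (0, 0, 0) ∈ I := by
  rw [List.getD_eq_getElem _ _ hj]
  exact List.getElem_mem hj

theorem ar_countP (I : Inst) (p : ℕ × ℕ × ℕ → Bool) :
    I.countP p = ∑ j ∈ range I.length, if p (I.getD j (0, 0, 0)) = true then 1 else 0 := by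
  induction I with
  | nil => simp
  | cons e I ih =>
    rw [List.length_cons, sum_range_succ', List.countP_cons, ih]
    simp

theorem ar_sum_range (n : ℕ) (F : ℕ → ℕ) : ((List.range n).map F).sum = ∑ j ∈ range n, F j := by
  induction n with
  | zero => simp
  | succ n ih => rw [List.range_succ, List.map_append, List.sum_append, ih, sum_range_succ]; simp

theorem ar_countP_univ {T : Type} [Fintype T] (p : T → Bool) :
    (univ : Finset T).toList.countP p = #{t : T | p t = true} := by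
  rw [List.countP_eq_length_filter, Finset.card, Finset.filter_val, ← Multiset.countP_eq_card_filter,
    ← Finset.coe_toList, Multiset.coe_countP, List.countP_eq_length_filter]
  simp

/-- The new instance. -/
def ar_f {q : ℕ} (g : Smp (Fin q) × Fin 10 → ℕ × ℕ × ℕ × ℕ → ℕ) (code : Fin 10 → ℕ)
    (I : Inst) : Inst :=
  (List.range I.length).flatMap fun j => (univ : Finset (Smp (Fin q) × Fin 10)).toList.map fun i =>
    (3 * ar_num j i.1 + 2, g i (j, I.getD j (0, 0, 0)), code i.2)

section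

variable {q : ℕ} {g : Smp (Fin q) × Fin 10 → ℕ × ℕ × ℕ × ℕ → ℕ} {code : Fin 10 → ℕ}

theorem ar_f_PT (hg : ∀ i, PT (g i)) : PT (ar_f g code) := by
  have h : PT fun p : Inst × ℕ => (univ : Finset (Smp (Fin q) × Fin 10)).toList.map fun i =>
      (3 * ar_num p.2 i.1 + 2, g i (p.2, p.1.getD p.2 (0, 0, 0)), code i.2) := by
    refine PT_mapConst _ fun i => ?_
    have := hg i
    unfold ar_num
    fun_prop
  unfold ar_f
  fun_prop

theorem ar_f_length (I : Inst) :
    (ar_f g code I).length = I.length * (Fintype.card (Smp (Fin q)) * 10) := by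
  rw [ar_f, List.length_flatMap, ar_sum_range]
  simp only [List.length_map, Finset.length_toList, card_univ, Fintype.card_prod (Smp (Fin q)),
    Fintype.card_fin, sum_const, card_range, smul_eq_mul]

theorem ar_f_mem {I : Inst} {e : ℕ × ℕ × ℕ} (he : e ∈ ar_f g code I) : ∃ j < I.length, ∃ i,
    e = (3 * ar_num j i.1 + 2, g i (j, I.getD j (0, 0, 0)), code i.2) := by
  obtain ⟨j, hj, h⟩ := List.mem_flatMap.1 he
  obtain ⟨i, -, rfl⟩ := List.mem_map.1 h
  exact ⟨j, List.mem_range.1 hj, i, rfl⟩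

theorem ar_f_viol (Q : ℕ) (I : Inst) (a b : ℕ → ℕ) : viol Q (ar_f g code I) a b =
    ∑ j ∈ range I.length, #{i : Smp (Fin q) × Fin 10 | rel Q (code i.2) (a (3 * ar_num j i.1 + 2))
      (b (g i (j, I.getD j (0, 0, 0)))) = false} := by
  rw [viol, ar_f, List.countP_flatMap, ar_sum_range]
  refine sum_congr rfl fun j _ => ?_
  rw [Function.comp_apply, List.countP_map, ar_countP_univ]
  simp only [Function.comp_apply, Bool.not_eq_true']

end

theorem ar_gen (h : LongSt) (Q : ℕ) (hQ : 2 ≤ Q) (eb : (Fin 10 → ZMod 2) ≃ Fin Q) (q : ℕ)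
    (hq : 0 < q) : ∃ (c : ℕ) (f : Inst → Inst), PT f ∧ ∀ I, WF q I →
    WF Q (f I) ∧ (f I).length ≤ c * I.length ∧
    (∀ B, Ids I B → Ids (f I) (c * (B + I.length + 1))) ∧ (Sat q I → Sat Q (f I)) ∧
    ∀ ε : ℝ, 0 ≤ ε → Gap q I ε → Gap2 Q (f I) (ε / 360) := by
  classical
  obtain ⟨hU, hC, hS⟩ := h (Fin q)
  choose g hg hge using ar_PT q
  let bt : ℕ → Fin 10 → ZMod 2 := fun a => if h : a < Q then eb.symm ⟨a, h⟩ else 0
  have hbt : ∀ v, bt (eb v) = v := fun v => by
    simp only [bt, dif_pos (eb v).2, Fin.eta, Equiv.symm_apply_apply]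
  choose code hc hce using fun k : Fin 10 =>
    code_ex Q fun a b => decide (pass (bt a) ∧ bt a k = (b : ZMod 2))
  have hns : 0 < Fintype.card (Smp (Fin q)) := Fintype.card_pos
  refine ⟨Fintype.card (Smp (Fin q)) * 10 + 3 * Fintype.card (Fin q → ZMod 2) +
    3 * Fintype.card (Fin q × Fin q → ZMod 2) + 2, ar_f g code, ar_f_PT hg, fun I hI => ?_⟩
  have hge' : ∀ j < I.length, ∀ i, g i (j, I.getD j (0, 0, 0)) =
      ar_id (ar_q j (I.getD j (0, 0, 0)) i.1 i.2) :=
    fun j hj i => hge i j _ (hI.2 _ (ar_getD_mem hj))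
  refine ⟨⟨fun h0 => ?_, fun e he => ?_⟩, ?_, fun B hB e he => ?_, ?_, fun ε hε hG a b ha hb => ?_⟩
  · have h1 := ar_f_length (g := g) (code := code) I
    rw [h0, List.length_nil] at h1
    have h2 := List.length_pos_iff.2 hI.1
    exact absurd h1 (Nat.mul_pos h2 (by omega)).ne
  · obtain ⟨j, -, i, rfl⟩ := ar_f_mem he
    exact hc _
  · rw [ar_f_length, mul_comm]
    exact Nat.mul_le_mul_right _ (by omega)
  · obtain ⟨j, hj, i, rfl⟩ := ar_f_mem he
    refine ⟨ar_num_le _ (by omega) (by omega), ?_⟩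
    obtain ⟨h1, h2⟩ := hB _ (ar_getD_mem hj)
    simp only [hge' j hj, ar_q]
    split_ifs
    · exact (Nat.le_add_right _ 2).trans (ar_num_le _ (h1.trans (Nat.le_add_right _ _)) (by omega))
    · exact (Nat.le_add_right _ 2).trans (ar_num_le _ (h2.trans (Nat.le_add_right _ _)) (by omega))
    · exact (Nat.le_succ _).trans (ar_num_le _ (by omega) (by omega))
  · rintro ⟨a, ha, h0⟩
    let z : ℕ → Fin q × Fin q := fun j =>
      (⟨a (I.getD j (0, 0, 0)).1, ha _⟩, ⟨a (I.getD j (0, 0, 0)).2.1, ha _⟩)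
    let β : ar_V q → ZMod 2 := Sum.elim (fun p => p.2 ⟨a p.1, ha _⟩)
      (Sum.elim (fun p => p.2 (z p.1)) fun _ => 0)
    let val : ar_V q → ℕ := Sum.elim (fun p => (β (.inl p)).val)
      (Sum.elim (fun p => (β (.inr (.inl p))).val)
        fun p => eb fun k => β (ar_q p.1 (I.getD p.1 (0, 0, 0)) p.2 k))
    have hval : ∀ v, val v < Q := by
      rintro (p | p | p)
      · exact (ZMod.val_lt _).trans_le hQ
      · exact (ZMod.val_lt _).trans_le hQ
      · exact Fin.is_lt _
    have hB : Bnd Q (Function.extend ar_id val fun _ => 0) := fun y => by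
      by_cases hy : ∃ v : ar_V q, ar_id v = y
      · obtain ⟨v, rfl⟩ := hy
        rw [ar_id_inj.extend_apply]
        exact hval v
      · rw [Function.extend_apply' _ _ _ hy]
        omega
    refine ⟨_, hB, ?_⟩
    rw [ar_f_viol]
    refine sum_eq_zero fun j hj => card_eq_zero.2 (filter_eq_empty_iff.2 fun i _ => ?_)
    rw [mem_range] at hj
    rw [hce _ _ (hB _) _ (hB _), hge' j hj, ar_id_inj.extend_apply,
      show 3 * ar_num j i.1 + 2 = ar_id (.inr (.inr (j, i.1)) : ar_V q) from rfl,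
      ar_id_inj.extend_apply, decide_eq_false_iff_not, not_not]
    have e1 : bt (val (.inr (.inr (j, i.1)))) =
        fun k => β (ar_q j (I.getD j (0, 0, 0)) i.1 k) := hbt _
    rw [e1]
    constructor
    · have h1 : ar_r q (I.getD j (0, 0, 0)).2.2 (z j) = 1 := by
        rw [viol, List.countP_eq_zero] at h0
        have h2 := h0 _ (ar_getD_mem hj)
        rw [Bool.not_eq_true', Bool.not_eq_false] at h2
        exact if_pos h2
      have h2 := hC _ _ h1 i.1
      rwa [show bits (ar_r q (I.getD j (0, 0, 0)).2.2) (fun F => F (z j)) (fun f => f (z j).1)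
        (fun f => f (z j).2) i.1 = fun k => β (ar_q j (I.getD j (0, 0, 0)) i.1 k) from
        funext (ar_bits j _ i.1 β)] at h2
    · simp only [ar_q]
      split_ifs <;> exact (ZMod.natCast_zmod_val _).symm
  · let β : ar_V q → ZMod 2 := fun v => (b (ar_id v) : ZMod 2)
    let dec : ℕ → ℕ := fun x =>
      if h : ∃ z : Fin q, Near (fun f => β (.inl (x, f))) z then (h.choose : ℕ) else 0
    have hdec : ∀ (x : ℕ) (z : Fin q), Near (fun f => β (.inl (x, f))) z → dec x = z :=
      fun x z hz => by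
        have h1 : ∃ z : Fin q, Near (fun f => β (.inl (x, f))) z := ⟨z, hz⟩
        simp only [dec, dif_pos h1]
        rw [hU _ _ _ h1.choose_spec hz]
    have hB : Bnd q dec := fun x => by
      simp only [dec]
      split_ifs
      · exact Fin.is_lt _
      · exact hq
    have key : viol q I dec dec * Fintype.card (Smp (Fin q)) ≤ 36 * viol Q (ar_f g code I) a b := by
      rw [ar_f_viol, viol, ar_countP, sum_mul, mul_sum]
      refine sum_le_sum fun j hj => ?_
      rw [mem_range] at hj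
      split_ifs with h1
      · rw [one_mul]
        by_contra h2
        obtain ⟨z, z1, z2, z3⟩ := hS (ar_r q (I.getD j (0, 0, 0)).2.2)
          (fun F => β (.inr (.inl (j, F)))) (fun f => β (.inl ((I.getD j (0, 0, 0)).1, f)))
          (fun f => β (.inl ((I.getD j (0, 0, 0)).2.1, f))) (by
            refine lt_of_le_of_lt (Nat.mul_le_mul_left _ ?_) (not_le.1 h2)
            refine le_trans (card_le_card fun s hs => ?_) (card_image_le (f := Prod.fst))
            by_contra h3
            refine (mem_filter.1 hs).2 ?_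
            have h4 : ∀ k, pass (bt (a (3 * ar_num j s + 2))) ∧ bt (a (3 * ar_num j s + 2)) k =
                β (ar_q j (I.getD j (0, 0, 0)) s k) := fun k => by
              by_contra h5
              refine h3 (mem_image.2 ⟨(s, k), mem_filter.2 ⟨mem_univ _, ?_⟩, rfl⟩)
              rw [hce _ _ (ha _) _ (hb _), hge' j hj, decide_eq_false_iff_not]
              exact h5
            rw [show bits _ _ _ _ s = bt (a (3 * ar_num j s + 2)) from
              funext fun k => (ar_bits j _ s β k).trans (h4 k).2.symm]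
            exact (h4 0).1)
        rw [hdec _ _ z2, hdec _ _ z3] at h1
        unfold ar_r at z1
        split_ifs at z1 with h3
        · rw [h3] at h1
          exact Bool.noConfusion h1
        · exact zero_ne_one z1
      · rw [zero_mul]
        exact Nat.zero_le _
    have h1 := hG dec hB
    have h2 : (viol q I dec dec : ℝ) * Fintype.card (Smp (Fin q)) ≤
        36 * viol Q (ar_f g code I) a b := by exact_mod_cast key
    have h3 := mul_le_mul_of_nonneg_right h1 (Nat.cast_nonneg (Fintype.card (Smp (Fin q))))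
    rw [ar_f_length]
    push_cast
    linarith

theorem ar_ok (h : LongSt) : ARSt := fun q hq =>
  ar_gen h 1024 (by norm_num) (Fintype.equivFinOfCardEq (by simp)) q hq

end

end Pool.Agent.P.MP_9cbceb_lc
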