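import Pool.Agent.P.MP_9cbceb_lc.Basic

/-! Two bounds on the correlations `psi`. -/

namespace Pool.Agent.P.MP_9cbceb_lc

open Finset
open scoped BigOperators

section

variable {Q : Type} [Fintype Q] [DecidableEq Q]

lemma anaac_psi_sub (K w : ℕ) (f f' : (Q → ℕ) → ℝ) (ξ : Xi Q K) (c : Q) :
    psi K w f ξ c - psi K w f' ξ c = psi K w (fun s => f s - f' s) ξ c := by
  simp only [psi, cex, expect_sub_distrib, sub_mul]

omit [Fintype Q] in
lemma anaac_sums {K w : ℕ} (x : Fin K → Q → Bool) (U : Q → Fin w) (k : Fin K) (A : Finset Q) :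
    sums (Function.update x k fun c => decide (c ∈ A), U)
      = sums (Function.update x k fun _ => false, U) + ind A := by
  funext c
  have e : ∀ v : Q → Bool, #{j | Function.update x k v j c = true}
      = (if v c = true then 1 else 0) + ∑ j ∈ univ.erase k, if x j c = true then 1 else 0 :=
    fun v => by
      rw [card_filter, ← add_sum_erase _ _ (mem_univ k), Function.update_self,
        sum_congr rfl fun j hj => by rw [Function.update_of_ne (ne_of_mem_erase hj)]]
  simp only [sums, ind, Pi.add_apply, e, decide_eq_true_eq, Bool.false_eq_true, if_false]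
  omega

lemma anaac_cex (K w : ℕ) (f : (Q → ℕ) → ℝ) (ξ : Xi Q K) (A : Finset Q) :
    cex K w f (ξ.1 + 1) (Function.update ξ.2 ξ.1 fun c => decide (c ∈ A))
      = 𝔼 ω : Om Q K w, f (sums (Function.update
        (fun j : Fin K => if (j : ℕ) < ξ.1 + 1 then ξ.2 j else ω.1 j) ξ.1 fun _ => false, ω.2)
          + ind A) := by
  refine expect_congr rfl fun ω _ => ?_
  rw [← anaac_sums]
  congr 3
  funext j
  by_cases h : j = ξ.1
  · simp [h]
  · simp [h]

end

theorem anaA_ok (h1 : CubeSt) (h2 : MartSt) : AnaASt := by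
  intro Q _ _ K w f f' ρ hK hw hρ
  have : Nonempty (Fin w) := ⟨⟨0, hw⟩⟩
  simp only [anaac_psi_sub]
  set g : (Q → ℕ) → ℝ := fun s => f s - f' s
  have e : 𝔼 ξ : Xi Q K, ∑ c, psi K w g ξ c ^ 2
      = (∑ k : Fin K, 𝔼 b : Fin K → Q → Bool, ∑ c, psi K w g (k, b) c ^ 2) / K := by
    rw [← univ_product_univ, expect_product, Fintype.expect_eq_sum_div_card, Fintype.card_fin]
  rw [e]
  refine div_le_div_of_nonneg_right ?_ (Nat.cast_nonneg K)
  refine (sum_le_sum fun (k : Fin K) _ => expect_le_expect fun b _ =>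
    (h1 Q fun β => cex K w g (k + 1) (Function.update b k β)).1).trans ?_
  rw [h2 Q K w g hw]
  refine (sub_le_self _ (sq_nonneg _)).trans (expect_le univ_nonempty fun b _ => ?_)
  refine sq_le_sq' ?_ ?_
  · exact le_expect univ_nonempty fun U _ => (abs_le.1 (hρ _)).1
  · exact expect_le univ_nonempty fun U _ => (abs_le.1 (hρ _)).2

theorem anaC_ok (h1 : CubeSt) (h3 : SmoothSt) : AnaCSt := by
  intro Q _ _ K w f A hw hf hA ξ
  have : Nonempty (Fin w) := ⟨⟨0, hw⟩⟩
  obtain ⟨a0, D, hD⟩ := h3 Q K w f hw hf ξ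
  have h4 := ((h1 Q _).2 a0 _ D hD).2
  set e : ℝ := 2 * (Fintype.card Q : ℝ) ^ 2 / w
  have he : 0 ≤ e := by positivity
  have s1 : ∀ B : Finset Q, (∑ c, if decide (c ∈ B) = true then D c else 0) = ∑ c ∈ B, D c :=
    fun B => by simp
  have a1 := hD fun c => decide (c ∈ A.filter fun c => 0 ≤ D c)
  have a2 := hD fun c => decide (c ∈ A.filter fun c => ¬ 0 ≤ D c)
  rw [s1, anaac_cex, abs_le] at a1 a2
  have a3 := expect_le (univ_nonempty (α := Om Q K w)) fun ω _ => hA (sums (Function.update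
    (fun j : Fin K => if (j : ℕ) < ξ.1 + 1 then ξ.2 j else ω.1 j) ξ.1 fun _ => false, ω.2))
    _ (filter_subset (fun c => 0 ≤ D c) A) _ (filter_subset (fun c => ¬ 0 ≤ D c) A)
  rw [expect_sub_distrib] at a3
  have a4 : ∑ c ∈ A, |D c| = ∑ c ∈ A.filter fun c => 0 ≤ D c, D c
      - ∑ c ∈ A.filter fun c => ¬ 0 ≤ D c, D c := by
    rw [← sum_filter_add_sum_filter_not A fun c => 0 ≤ D c, sub_eq_add_neg, ← sum_neg_distrib]
    exact congrArg₂ _ (sum_congr rfl fun c hc => abs_of_nonneg (mem_filter.1 hc).2)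
      (sum_congr rfl fun c hc => abs_of_neg (not_le.1 (mem_filter.1 hc).2))
  have a5 : ∑ c ∈ A, |psi K w f ξ c| ≤ ∑ c ∈ A, (|D c| / 2 + e) := sum_le_sum fun c _ => by
    have := abs_le.1 (h4 c)
    have := le_abs_self (D c)
    have := neg_abs_le (D c)
    rw [psi, abs_le]
    constructor <;> linarith
  rw [sum_add_distrib, ← sum_div, sum_const, nsmul_eq_mul] at a5
  have a6 : (#A : ℝ) * e ≤ Fintype.card Q * e :=
    mul_le_mul_of_nonneg_right (by exact_mod_cast card_le_univ A) he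
  linarith [a1.1, a2.2]

end Pool.Agent.P.MP_9cbceb_lc
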