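import Pool.Agent.P.MP_9cbceb_lc.Basic

/-! The spread is bounded by the correlations. -/

namespace Pool.Agent.P.MP_9cbceb_lc

open Finset
open scoped BigOperators

section

variable {Ω : Type} [Fintype Ω] [Nonempty Ω]

theorem anab_shift (F : Ω → ℝ) (a : ℝ) :
    𝔼 x, (F x - a) ^ 2 = (𝔼 x, F x ^ 2) - 2 * a * (𝔼 x, F x) + a ^ 2 := by
  have e : ∀ x, (F x - a) ^ 2 = F x ^ 2 - 2 * a * F x + a ^ 2 := fun x => by ring
  simp only [e, expect_add_distrib, expect_sub_distrib, ← mul_expect, Fintype.expect_const]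

theorem anab_jensen (F : Ω → ℝ) : (𝔼 x, F x) ^ 2 ≤ 𝔼 x, F x ^ 2 := by
  have h1 := anab_shift F (𝔼 x, F x)
  have h2 : 0 ≤ 𝔼 x, (F x - 𝔼 x, F x) ^ 2 := expect_nonneg fun _ _ => sq_nonneg _
  nlinarith

theorem anab_var (F : Ω → ℝ) (a β : ℝ) (h : ∀ x, |F x - a| ≤ β) :
    (𝔼 x, F x ^ 2) ≤ (𝔼 x, F x) ^ 2 + β ^ 2 := by
  have h1 := anab_shift F a
  have h2 : 𝔼 x, (F x - a) ^ 2 ≤ β ^ 2 :=
    expect_le univ_nonempty fun x _ => sq_le_sq' (abs_le.1 (h x)).1 (abs_le.1 (h x)).2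
  nlinarith [sq_nonneg ((𝔼 x, F x) - a)]

theorem anab_spread (F : Ω → ℝ) :
    (𝔼 x, 𝔼 y, |F x - F y|) ^ 2 ≤ 2 * ((𝔼 x, F x ^ 2) - (𝔼 x, F x) ^ 2) := by
  refine (anab_jensen _).trans ((expect_le_expect fun x _ => anab_jensen _).trans (le_of_eq ?_))
  have e : ∀ x, 𝔼 y, |F x - F y| ^ 2 = (𝔼 y, F y ^ 2) - 2 * (𝔼 y, F y) * F x + F x ^ 2 :=
    fun x => by
      simp only [abs_sub_comm (F x), sq_abs, anab_shift]
      ring
  simp only [e, expect_add_distrib, expect_sub_distrib, ← mul_expect, Fintype.expect_const]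
  ring

end

theorem anaB_ok (h1 : CubeSt) (h2 : MartSt) (h3 : SmoothSt) : AnaBSt := by
  intro Q _ _ K w f β hK hw hf hβ
  have : Nonempty (Fin w) := ⟨⟨0, hw⟩⟩
  have : Nonempty (Fin K) := ⟨⟨0, hK⟩⟩
  have a1 := anab_spread fun ω : Om Q K w => f (sums ω)
  have a2 : (𝔼 ω : Om Q K w, f (sums ω) ^ 2) ≤
      (𝔼 b : Fin K → Q → Bool, (𝔼 U : Q → Fin w, f (sums (b, U))) ^ 2) + β ^ 2 := by
    rw [← univ_product_univ, expect_product, ← Fintype.expect_const (ι := Fin K → Q → Bool) (β ^ 2),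
      ← expect_add_distrib]
    refine expect_le_expect fun b _ => anab_var _ (f fun c => #{k | b k c = true}) β fun U => ?_
    have e : sums (b, U) = (fun c => #{k | b k c = true}) + fun c => (U c : ℕ) :=
      funext fun c => add_comm _ _
    rw [e]
    exact hβ _ _ fun c => (U c).2
  have a3 := h2 Q K w f hw
  have a4 : ∀ (k : Fin K) (b : Fin K → Q → Bool),
      (𝔼 β, cex K w f (k + 1) (Function.update b k β) ^ 2) -
        (𝔼 β, cex K w f (k + 1) (Function.update b k β)) ^ 2 ≤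
      ∑ c, psi K w f (k, b) c ^ 2 + (2 * (Fintype.card Q : ℝ) ^ 2 / w) ^ 2 := fun k b => by
    obtain ⟨a0, D, hD⟩ := h3 Q K w f hw hf (k, b)
    exact ((h1 Q fun β => cex K w f (k + 1) (Function.update b k β)).2 a0 _ D hD).1
  have a5 := a3.ge.trans (sum_le_sum fun k _ => expect_le_expect fun b _ => a4 k b)
  have a6 : (𝔼 ξ : Xi Q K, ∑ c, psi K w f ξ c ^ 2) =
      (∑ k : Fin K, 𝔼 b : Fin K → Q → Bool, ∑ c, psi K w f (k, b) c ^ 2) / K := by
    rw [← univ_product_univ, expect_product, Fintype.expect_eq_sum_div_card, Fintype.card_fin]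
  have hK' : (K : ℝ) ≠ 0 := by positivity
  simp only [expect_add_distrib, Fintype.expect_const, sum_add_distrib, sum_const, card_univ,
    Fintype.card_fin, nsmul_eq_mul] at a5
  rw [a6, mul_add (K : ℝ), mul_div_cancel₀ _ hK', spread]
  linarith

end Pool.Agent.P.MP_9cbceb_lc
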