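import Pool.Agent.P.MP_9cbceb_lc.Basic

/-! The linearity test. -/

namespace Pool.Agent.P.MP_9cbceb_lc

open Finset

section

variable {G : Type} [AddCommGroup G] [Fintype G]

omit [AddCommGroup G] in
theorem blr_maj (V : G → ZMod 2) : ∃ c : ZMod 2, 2 * #{y | V y ≠ c} ≤ Fintype.card G := by
  have h := card_filter_add_card_filter_not (s := (univ : Finset G)) fun y => V y ≠ 0
  rw [card_univ] at h
  by_cases h0 : 2 * #{y | V y ≠ 0} ≤ Fintype.card G
  · exact ⟨0, h0⟩
  · refine ⟨1, ?_⟩
    have e : ∀ a : ZMod 2, a ≠ 1 ↔ ¬ a ≠ 0 := by decide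
    simp only [e]
    omega

theorem blr_shift (B : G → ZMod 2) (x : G) :
    #{p : G × G | B (x + p.1) + B p.2 ≠ B (x + p.1 + p.2)} =
      #{p : G × G | B p.1 + B p.2 ≠ B (p.1 + p.2)} :=
  card_equiv ((Equiv.addLeft x).prodCongr (Equiv.refl G)) fun p => by simp

theorem blr_shift' (B : G → ZMod 2) (x : G) :
    #{p : G × G | B (x + p.2) + B p.1 ≠ B (x + p.2 + p.1)} =
      #{p : G × G | B p.1 + B p.2 ≠ B (p.1 + p.2)} := by
  rw [← blr_shift B x]
  exact card_equiv (Equiv.prodComm G G) fun p => by simp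

theorem blr_coll (B : G → ZMod 2) (x : G) (c : ZMod 2)
    (hc : 2 * #{y | B (x + y) + B y ≠ c} ≤ Fintype.card G) :
    #{y | B (x + y) + B y ≠ c} * Fintype.card G ≤
      2 * #{p : G × G | B p.1 + B p.2 ≠ B (p.1 + p.2)} := by
  classical
  have h := card_filter_add_card_filter_not (s := (univ : Finset G))
    fun y => B (x + y) + B y ≠ c
  rw [card_univ] at h
  set bad := ({y | B (x + y) + B y ≠ c} : Finset G) with hbad
  set good := ({y | ¬ B (x + y) + B y ≠ c} : Finset G) with hgood
  have hd : Disjoint (bad ×ˢ good) (good ×ˢ bad) := by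
    rw [disjoint_left]
    intro p h1 h2
    simp only [hbad, hgood, mem_product, mem_filter] at h1 h2
    exact h2.1.2 h1.1.2
  have e : ∀ a b a' b' c d : ZMod 2, a + b ≠ c → ¬ a' + b' ≠ c → a + b' ≠ d ∨ a' + b ≠ d := by
    decide
  have hsub : bad ×ˢ good ∪ good ×ˢ bad ⊆
      ({p : G × G | B (x + p.1) + B p.2 ≠ B (x + p.1 + p.2)} : Finset (G × G)) ∪
        ({p : G × G | B (x + p.2) + B p.1 ≠ B (x + p.2 + p.1)} : Finset (G × G)) := by
    intro p hp
    simp only [hbad, hgood, mem_union, mem_product, mem_filter, mem_univ, true_and] at hp ⊢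
    rw [add_right_comm x p.2 p.1]
    rcases hp with hp | hp
    · exact e _ _ _ _ _ _ hp.1 hp.2
    · exact (e _ _ _ _ _ _ hp.2 hp.1).symm
  have h1 := (card_le_card hsub).trans (card_union_le _ _)
  rw [card_union_of_disjoint hd, card_product, card_product, blr_shift, blr_shift'] at h1
  rw [← h] at hc ⊢
  nlinarith

end

theorem blr_ok : BLRSt := by
  intro G _ _ B hR
  classical
  choose g hg using fun x : G => blr_maj fun y => B (x + y) + B y
  have hb := fun x => blr_coll B x (g x) (hg x)
  have hadd : ∀ x x', g (x + x') = g x + g x' := by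
    intro x x'
    have e1 : #{y | B (x + (x' + y)) + B (x' + y) ≠ g x} = #{y | B (x + y) + B y ≠ g x} :=
      card_equiv (Equiv.addLeft x') fun y => by simp
    by_contra hne
    have e : ∀ a b c u v w : ZMod 2, ¬ w = u + v → (a + b ≠ u ∨ b + c ≠ v) ∨ a + c ≠ w := by
      decide
    have hsub : (univ : Finset G) ⊆ (({y | B (x + (x' + y)) + B (x' + y) ≠ g x} : Finset G) ∪
        ({y | B (x' + y) + B y ≠ g x'} : Finset G)) ∪
        ({y | B (x + x' + y) + B y ≠ g (x + x')} : Finset G) := by
      intro y _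
      simp only [mem_union, mem_filter, mem_univ, true_and]
      rw [add_assoc x x' y]
      exact e _ _ _ _ _ _ hne
    have h1 := (card_le_card hsub).trans ((card_union_le _ _).trans
      (Nat.add_le_add_right (card_union_le _ _) _))
    rw [e1, card_univ] at h1
    have h2 := Nat.mul_le_mul_right (Fintype.card G) h1
    have := hb x
    have := hb x'
    have := hb (x + x')
    rw [add_mul, add_mul, ← pow_two] at h2
    omega
  refine ⟨AddMonoidHom.mk' g hadd, ?_⟩
  simp only [AddMonoidHom.mk'_apply]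
  have e1 : #{p : G × G | B p.1 + B p.2 ≠ B (p.1 + p.2)} =
      ∑ x, #{y | B x + B y ≠ B (x + y)} := by
    simp only [card_filter]
    exact Fintype.sum_prod_type _
  rw [e1, mul_sum, card_filter, sum_mul]
  refine sum_le_sum fun x _ => ?_
  split_ifs with hx
  · have h := card_filter_add_card_filter_not (s := (univ : Finset G))
      fun y => B (x + y) + B y ≠ g x
    rw [card_univ] at h
    have e : ∀ a b c u : ZMod 2, a ≠ u → ¬ c + b ≠ u → a + b ≠ c := by decide
    have h1 : #{y | ¬ B (x + y) + B y ≠ g x} ≤ #{y | B x + B y ≠ B (x + y)} :=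
      card_le_card fun y hy => by
        simp only [mem_filter, mem_univ, true_and] at hy ⊢
        exact e _ _ _ _ hx hy
    have := hg x
    omega
  · simp

end Pool.Agent.P.MP_9cbceb_lc
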