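import Pool.Agent.P.MP_9cbceb_lc.Basic

/-! The base instance in the negative case. -/

namespace Pool.Agent.P.MP_9cbceb_lc

open Finset
open scoped BigOperators

theorem basen_sep_comm (a b : Bool) : sep a b = sep b a := by cases a <;> cases b <;> rfl

theorem basen_sep_not (a b : Bool) : sep (!a) (!b) = sep a b := by cases a <;> cases b <;> rfl

theorem basen_sep_le_one (a b : Bool) : sep a b ≤ 1 := by cases a <;> cases b <;> simp [sep]

theorem basen_sep_le_add (a b : Bool) :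
    sep a b ≤ (if a = true then 1 else 0) + if b = true then 1 else 0 := by
  cases a <;> cases b <;> simp [sep]

theorem basen_seg (L : ℕ) {a b : ℕ} (hab : a ≤ b) :
    ∑ i ∈ range L, sep (decide (i ≤ a)) (decide (i ≤ b)) ≤ b - a := by
  have h1 : ∀ i, sep (decide (i ≤ a)) (decide (i ≤ b)) = if i ∈ Ioc a b then 1 else 0 := by
    intro i
    simp only [sep, decide_eq_decide, mem_Ioc]
    split_ifs <;> omega
  simp only [h1]
  rw [← card_filter, ← Nat.card_Ioc]
  exact card_le_card fun i hi => (mem_filter.1 hi).2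

theorem basen_seg_abs (L a b : ℕ) :
    ((∑ i ∈ range L, sep (decide (i ≤ a)) (decide (i ≤ b)) : ℕ) : ℝ) ≤ |(a : ℝ) - b| := by
  rcases le_total a b with h | h
  · have h1 : ((∑ i ∈ range L, sep (decide (i ≤ a)) (decide (i ≤ b)) : ℕ) : ℝ) ≤
        ((b - a : ℕ) : ℝ) := by exact_mod_cast basen_seg L h
    rw [Nat.cast_sub h] at h1
    exact h1.trans (by rw [abs_sub_comm]; exact le_abs_self _)
  · have h1 : ((∑ i ∈ range L, sep (decide (i ≤ b)) (decide (i ≤ a)) : ℕ) : ℝ) ≤
        ((a - b : ℕ) : ℝ) := by exact_mod_cast basen_seg L h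
    rw [Nat.cast_sub h] at h1
    simp only [basen_sep_comm (decide (_ ≤ a))]
    exact h1.trans (le_abs_self _)

section

variable {E : Type} [Fintype E] {N q : ℕ}

theorem basen_cap_not (g : Game E (Fin q)) (h : ℕ) (S : Pt (Fin N) (Fin q) → ℕ → Bool) :
    capG g N h (fun x i => !S x i) = capG g N h S := by
  simp only [capG, capF, arcs, basen_sep_not]

theorem basen_dem_not (g : Game E (Fin q)) (K w a0 h : ℕ) (S : Pt (Fin N) (Fin q) → ℕ → Bool) :
    demG g N K w a0 h (fun x i => !S x i) = demG g N K w a0 h S := by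
  simp only [demG, basen_sep_not]

/-- The slot that keeps the array fixed. -/
def basen_slot (a0 h : ℕ) (s : Co (Fin N) (Fin q) → ℕ) : Slot (Fin N) (Fin q) h :=
  (∅, fun c => ⟨clamp a0 h s c, Nat.lt_succ_of_le (min_le_left _ _)⟩,
    fun c => ⟨clamp a0 h s c, Nat.lt_succ_of_le (min_le_left _ _)⟩)

omit [Fintype E] in
theorem basen_pt1 (g : Game E (Fin q)) (a0 h : ℕ) (s : Co (Fin N) (Fin q) → ℕ)
    (W : Fin N × Fin N → E) : pt1 g h (W, basen_slot a0 h s) = (view g W, clamp a0 h s) := rfl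

theorem basen_card (h : ℕ) : mu N q h * Fintype.card E ^ (N * N) =
    4 * Fintype.card ((Fin N × Fin N → E) × Slot (Fin N) (Fin q) h) := by
  rw [Fintype.card_prod (Fin N × Fin N → E), Fintype.card_fun, Fintype.card_prod (Fin N),
    Fintype.card_fin, mu]
  ring

theorem basen_same (hL : LayerSt) (g : Game E (Fin q)) (K w a0 h : ℕ)
    (S : Pt (Fin N) (Fin q) → ℕ → Bool) (h0 : ∀ x, S x 0 = false)
    (h1 : ∀ x, S x (N * h + 1) = false) :
    demG g N K w a0 h S ≤
      Fintype.card (Om (Co (Fin N) (Fin q)) K w) ^ 2 * (N * h + 1) * 2 * capG g N h S := by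
  have h2 := (hL _ _ (N * h + 1) (pt1 g h) (pt2 g h) S (Nat.succ_pos _)).2.1 h0 h1
  have h3 : ∀ (s : Co (Fin N) (Fin q) → ℕ), ∀ i ∈ range (N * h + 1),
      ∑ W : Fin N × Fin N → E, (if S (view g W, clamp a0 h s) i = true then 1 else 0) ≤
        capG g N h S := by
    intro s i hi
    refine le_trans ?_ (h2 i (mem_range.1 hi))
    rw [← card_filter]
    refine card_le_card_of_injOn (fun W => (W, basen_slot a0 h s)) (fun W hW => ?_)
      fun W _ W' _ e => congrArg Prod.fst e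
    simp only [coe_filter, mem_univ, true_and, Set.mem_ofPred_eq] at hW ⊢
    rw [basen_pt1]; exact hW
  unfold demG
  rw [sum_comm]
  have h4 : ∀ ω : Om (Co (Fin N) (Fin q)) K w, ∑ W : Fin N × Fin N → E,
      ∑ ω' : Om (Co (Fin N) (Fin q)) K w, ∑ i ∈ range (N * h + 1),
        sep (S (view g W, clamp a0 h (sums ω)) i) (S (view g W, clamp a0 h (sums ω')) i) ≤
      Fintype.card (Om (Co (Fin N) (Fin q)) K w) * ((N * h + 1) * (2 * capG g N h S)) := by
    intro ω
    rw [sum_comm]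
    refine le_trans (sum_le_card_nsmul _ _ ((N * h + 1) * (2 * capG g N h S)) fun ω' _ => ?_)
      (by simp)
    rw [sum_comm]
    refine le_trans (sum_le_card_nsmul _ _ (2 * capG g N h S) fun i hi => ?_) (by simp)
    refine le_trans (sum_le_sum fun W _ => basen_sep_le_add _ _) ?_
    rw [sum_add_distrib, two_mul]
    exact add_le_add (h3 _ i hi) (h3 _ i hi)
  refine le_trans (sum_le_card_nsmul _ _ _ fun ω _ => h4 ω) (le_of_eq ?_)
  rw [card_univ, smul_eq_mul]
  ring

open Classical in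
/-- The final averaging step. -/
theorem basen_abs {Ω : Type} [Fintype Ω] [Nonempty Ω] (Good : Ω → Prop) (D sp : Ω → ℝ)
    {η p a L b : ℝ} (hη : 0 ≤ η) (hp : 0 < p) (ha : 0 ≤ a) (hL : 0 ≤ L)
    (hc : η ≤ (𝔼 W, if Good W then sp W else 0) → p ≤ pr fun W => ¬ Good W)
    (hbad : ∑ W, (if Good W then (0 : ℝ) else 1) ≤ b) (hD1 : ∀ W, D W ≤ a * L)
    (hD2 : ∀ W, Good W → D W ≤ a * sp W) :
    ∑ W, D W ≤ η * a * Fintype.card Ω + a * L * (2 + 1 / p) * (2 * b) := by
  have hn0 : (0 : ℝ) < Fintype.card Ω := by exact_mod_cast Fintype.card_pos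
  have hb0 : 0 ≤ b := le_trans (sum_nonneg fun W _ => by split_ifs <;> norm_num) hbad
  have hk : 0 ≤ a * L := mul_nonneg ha hL
  have hp' : 0 < 1 / p := by positivity
  have h12 := mul_nonneg hk hb0
  have h13 := mul_nonneg h12 hp'.le
  by_cases hcase : η ≤ 𝔼 W, if Good W then sp W else 0
  · have h6 := hc hcase
    rw [pr, Fintype.expect_eq_sum_div_card, le_div_iff₀ hn0] at h6
    have h7 : p * Fintype.card Ω ≤ b := by
      refine h6.trans (le_trans (le_of_eq (sum_congr rfl fun W _ => ?_)) hbad)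
      by_cases hW : Good W <;> simp [hW]
    have h8 : (Fintype.card Ω : ℝ) ≤ 1 / p * b := by
      rw [one_div, inv_mul_eq_div, le_div_iff₀ hp]; linarith
    have h9 : ∑ W, D W ≤ Fintype.card Ω * (a * L) := by
      have := sum_le_card_nsmul univ D _ fun W _ => hD1 W
      rwa [card_univ, nsmul_eq_mul] at this
    have h10 := mul_le_mul_of_nonneg_right h8 hk
    have h11 : 0 ≤ η * a * Fintype.card Ω := by positivity
    linarith
  · rw [not_le, Fintype.expect_eq_sum_div_card, div_lt_iff₀ hn0] at hcase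
    have h6 : ∑ W, D W ≤ ∑ W, (a * (if Good W then sp W else 0) +
        a * L * if Good W then (0 : ℝ) else 1) := by
      refine sum_le_sum fun W _ => ?_
      by_cases hW : Good W
      · rw [if_pos hW, if_pos hW, mul_zero, add_zero]; exact hD2 W hW
      · rw [if_neg hW, if_neg hW, mul_zero, zero_add, mul_one]; exact hD1 W
    rw [sum_add_distrib, ← mul_sum, ← mul_sum] at h6
    have h7 := mul_le_mul_of_nonneg_left hcase.le ha
    have h8 := mul_le_mul_of_nonneg_left hbad hk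
    linarith

/-- No arc over `W` has a back edge. -/
def basen_good (g : Game E (Fin q)) (h : ℕ) (S : Pt (Fin N) (Fin q) → ℕ → Bool)
    (W : Fin N × Fin N → E) : Prop :=
  ∀ σ : Slot (Fin N) (Fin q) h, arcs bk (N * h + 1) (pt1 g h) (pt2 g h) S (W, σ) = 0

/-- Demand over `W`. -/
def basen_D (g : Game E (Fin q)) (K w a0 h : ℕ) (S : Pt (Fin N) (Fin q) → ℕ → Bool)
    (W : Fin N × Fin N → E) : ℕ :=
  ∑ ω : Om (Co (Fin N) (Fin q)) K w, ∑ ω' : Om (Co (Fin N) (Fin q)) K w,
    ∑ i ∈ range (N * h + 1), sep (S (view g W, clamp a0 h (sums ω)) i)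
      (S (view g W, clamp a0 h (sums ω')) i)

open Classical in
theorem basen_bad (g : Game E (Fin q)) (h : ℕ) (S : Pt (Fin N) (Fin q) → ℕ → Bool) :
    ∑ W, (if basen_good g h S W then (0 : ℝ) else 1) ≤
      backF (N * h + 1) (pt1 g h) (pt2 g h) S := by
  rw [backF, Fintype.sum_prod_type, Nat.cast_sum]
  refine sum_le_sum fun W _ => ?_
  split_ifs with hW
  · exact Nat.cast_nonneg _
  · obtain ⟨σ, hσ⟩ := not_forall.1 hW
    have := single_le_sum (f := fun σ => arcs bk (N * h + 1) (pt1 g h) (pt2 g h) S (W, σ))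
      (fun _ _ => Nat.zero_le _) (mem_univ σ)
    exact_mod_cast (Nat.one_le_iff_ne_zero.2 hσ).trans this

omit [Fintype E] in
theorem basen_D1 (g : Game E (Fin q)) (K w a0 h : ℕ) (S : Pt (Fin N) (Fin q) → ℕ → Bool)
    (W : Fin N × Fin N → E) : (basen_D g K w a0 h S W : ℝ) ≤
      (Fintype.card (Om (Co (Fin N) (Fin q)) K w) : ℝ) ^ 2 * (N * h + 1 : ℕ) := by
  have : basen_D g K w a0 h S W ≤ Fintype.card (Om (Co (Fin N) (Fin q)) K w) *
      (Fintype.card (Om (Co (Fin N) (Fin q)) K w) * (N * h + 1)) := by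
    refine le_trans (sum_le_card_nsmul _ _ _ fun ω _ => sum_le_card_nsmul _ _ _ fun ω' _ =>
      sum_le_card_nsmul _ _ 1 fun i _ => basen_sep_le_one _ _) (le_of_eq ?_)
    rw [card_univ, card_range, smul_eq_mul, smul_eq_mul, smul_eq_mul, mul_one]
  rw [pow_two, mul_assoc]
  exact_mod_cast this

omit [Fintype E] in
theorem basen_D2 (g : Game E (Fin q)) (K w a0 h : ℕ) (hw : 0 < w)
    (S : Pt (Fin N) (Fin q) → ℕ → Bool) (W : Fin N × Fin N → E) (G : Pt (Fin N) (Fin q) → ℕ)
    (h6 : ∀ s, ∀ i ∈ range (N * h + 1), S (view g W, clamp a0 h s) i =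
      decide (i ≤ G (view g W, clamp a0 h s))) :
    (basen_D g K w a0 h S W : ℝ) ≤ (Fintype.card (Om (Co (Fin N) (Fin q)) K w) : ℝ) ^ 2 *
      spread K w fun s => (G (view g W, clamp a0 h s) : ℝ) := by
  have : Nonempty (Om (Co (Fin N) (Fin q)) K w) := ⟨(fun _ _ => true, fun _ => ⟨0, hw⟩)⟩
  have hc0 : (0 : ℝ) < Fintype.card (Om (Co (Fin N) (Fin q)) K w) := by
    exact_mod_cast Fintype.card_pos
  have h7 : ∀ c x : ℝ, 0 < c → c ^ 2 * (x / c / c) = x := by
    intro c x hc; field_simp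
  rw [spread]
  simp only [Fintype.expect_eq_sum_div_card, ← sum_div]
  rw [h7 _ _ hc0, basen_D, Nat.cast_sum]
  refine sum_le_sum fun ω _ => ?_
  rw [Nat.cast_sum]
  refine sum_le_sum fun ω' _ => ?_
  rw [sum_congr rfl fun i hi => by rw [h6 _ i hi, h6 _ i hi]]
  exact basen_seg_abs _ _ _

open Classical in
theorem basen_diff (hL : LayerSt) [Nonempty E] (g : Game E (Fin q)) (K w a0 h : ℕ) {η p : ℝ}
    (hw : 0 < w) (hη : 0 ≤ η) (hp : 0 < p)
    (hc : ∀ (G : Pt (Fin N) (Fin q) → ℝ) (Good : (Fin N × Fin N → E) → Prop),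
      (∀ W, Good W → LipAt g h G W) →
      η ≤ (𝔼 W, if Good W then spread K w fun s => G (view g W, clamp a0 h s) else 0) →
      p ≤ pr fun W => ¬ Good W)
    (S : Pt (Fin N) (Fin q) → ℕ → Bool) (h0 : ∀ x, S x 0 = true)
    (h1 : ∀ x, S x (N * h + 1) = false) :
    mu N q h * Fintype.card E ^ (N * N) ≤ capG g N h S ∧ demG g N K w a0 h S ≤
      η * (Fintype.card (Om (Co (Fin N) (Fin q)) K w) : ℝ) ^ 2 * (Fintype.card E : ℝ) ^ (N * N) +
        (Fintype.card (Om (Co (Fin N) (Fin q)) K w) : ℝ) ^ 2 * (N * h + 1 : ℕ) * (2 + 1 / p) *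
          (capG g N h S - (mu N q h * Fintype.card E ^ (N * N) : ℕ)) := by
  obtain ⟨h2, h3⟩ := (hL _ _ (N * h + 1) (pt1 g h) (pt2 g h) S (Nat.succ_pos _)).1 h0 h1
  have h4 : capG g N h S = mu N q h * Fintype.card E ^ (N * N) +
      2 * backF (N * h + 1) (pt1 g h) (pt2 g h) S := by rw [basen_card]; exact h2
  refine ⟨by omega, ?_⟩
  have h5 : (capG g N h S : ℝ) - (mu N q h * Fintype.card E ^ (N * N) : ℕ) =
      2 * (backF (N * h + 1) (pt1 g h) (pt2 g h) S : ℝ) := by
    rw [h4, Nat.cast_add, Nat.cast_mul 2, Nat.cast_ofNat]; ring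
  have hn' : (Fintype.card E : ℝ) ^ (N * N) = (Fintype.card (Fin N × Fin N → E) : ℝ) := by
    rw [Fintype.card_fun, Fintype.card_prod, Fintype.card_fin, Nat.cast_pow]
  have hlip : ∀ W, basen_good g h S W →
      LipAt g h (fun x => (ht (N * h + 1) S x : ℝ)) W := by
    intro W hW Rm t t' ht1 ht2 hv
    obtain ⟨-, h6, h7⟩ := h3 _ (hW (Rm, fun c => ⟨t c, Nat.lt_succ_of_le (ht1 c)⟩,
      fun c => ⟨t' c, Nat.lt_succ_of_le (ht2 c)⟩))
    rw [pt2, if_pos hv] at h6 h7
    have h6' : (ht (N * h + 1) S (view g W, t) : ℝ) ≤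
        ht (N * h + 1) S (mask Rm (view g W), t') + 1 := by exact_mod_cast h6
    have h7' : (ht (N * h + 1) S (mask Rm (view g W), t') : ℝ) ≤
        ht (N * h + 1) S (view g W, t) + 1 := by exact_mod_cast h7
    rw [abs_le]; constructor <;> linarith
  have hdem : (demG g N K w a0 h S : ℝ) = ∑ W, (basen_D g K w a0 h S W : ℝ) := by
    rw [← Nat.cast_sum]; rfl
  have h8 := hc _ _ hlip
  have h9 : ∀ W, basen_good g h S W → (basen_D g K w a0 h S W : ℝ) ≤
      (Fintype.card (Om (Co (Fin N) (Fin q)) K w) : ℝ) ^ 2 *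
        spread K w fun s => (ht (N * h + 1) S (view g W, clamp a0 h s) : ℝ) := fun W hW =>
    basen_D2 g K w a0 h hw S W (ht (N * h + 1) S) fun s i hi =>
      (h3 _ (hW (basen_slot a0 h s))).1 i (mem_range.1 hi)
  have h10 := basen_abs (basen_good g h S) (fun W => (basen_D g K w a0 h S W : ℝ))
    (fun W => spread K w fun s => (ht (N * h + 1) S (view g W, clamp a0 h s) : ℝ)) hη hp
    (sq_nonneg _) (Nat.cast_nonneg _) h8 (basen_bad g h S) (basen_D1 g K w a0 h S) h9
  rw [h5, hdem, hn']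
  exact h10

end

theorem baseNo_ok (h : LayerSt) : BaseNoSt := by
  intro N q K w a0 m η p hw hη hp
  have hp' : 0 < 1 / p := by positivity
  refine ⟨(Fintype.card (Om (Co (Fin N) (Fin q)) K w) : ℝ) ^ 2 * (N * m + 1 : ℕ) * (2 + 1 / p),
    by positivity, ?_⟩
  intro E _ _ g hc S s0 s1 h0 h1
  have same : ∀ S : Pt (Fin N) (Fin q) → ℕ → Bool, (∀ x, S x 0 = false) →
      (∀ x, S x (N * m + 1) = false) → (demG g N K w a0 m S : ℝ) ≤
        (Fintype.card (Om (Co (Fin N) (Fin q)) K w) : ℝ) ^ 2 * (N * m + 1 : ℕ) * (2 + 1 / p) *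
          capG g N m S := by
    intro S h0 h1
    have h2 : (demG g N K w a0 m S : ℝ) ≤
        (Fintype.card (Om (Co (Fin N) (Fin q)) K w) : ℝ) ^ 2 * (N * m + 1 : ℕ) * 2 *
          capG g N m S := by exact_mod_cast basen_same h g K w a0 m S h0 h1
    refine h2.trans ?_
    gcongr
    linarith
  cases s0 <;> cases s1
  · exact ⟨fun e => absurd rfl e, fun _ => same S h0 h1⟩
  · refine ⟨fun _ => ?_, fun e => by simp at e⟩
    have := basen_diff h g K w a0 m hw hη hp hc (fun x i => !S x i) (fun x => by simp [h0])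
      fun x => by simp [h1]
    rwa [basen_cap_not, basen_dem_not] at this
  · exact ⟨fun _ => basen_diff h g K w a0 m hw hη hp hc S h0 h1, fun e => by simp at e⟩
  · refine ⟨fun e => absurd rfl e, fun _ => ?_⟩
    have := same (fun x i => !S x i) (fun x => by simp [h0]) fun x => by simp [h1]
    rwa [basen_cap_not, basen_dem_not] at this

end Pool.Agent.P.MP_9cbceb_lc
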