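import Pool.Agent.P.MP_9cbceb_lc.Basic

/-! The base expander of the zig-zag construction. -/

namespace Pool.Agent.P.MP_9cbceb_lc

open Finset

/-- Transfer of a rotation map on finite types to ranges. -/
theorem basex_transfer {V S : Type} [Fintype V] [Fintype S] {n d : ℕ} (hn : Fintype.card V = n)
    (hd : Fintype.card S = d) (r : V → S → V × S) (hr : ∀ x s, r (r x s).1 (r x s).2 = (x, s))
    (lam : ℝ) (hE : ∀ f : V → ℝ, ∑ x, f x = 0 →
      ∑ x, ((∑ s, f (r x s).1) / d) ^ 2 ≤ lam ^ 2 * ∑ x, f x ^ 2) :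
    ∃ H : Rot, IsRG n d H ∧ Exp n d H lam := by
  let eV : V ≃ Fin n := Fintype.equivFinOfCardEq hn
  let eS : S ≃ Fin d := Fintype.equivFinOfCardEq hd
  let H : Rot := fun v i => if h : v < n ∧ i < d then
    ((eV (r (eV.symm ⟨v, h.1⟩) (eS.symm ⟨i, h.2⟩)).1 : ℕ),
      (eS (r (eV.symm ⟨v, h.1⟩) (eS.symm ⟨i, h.2⟩)).2 : ℕ)) else (0, 0)
  have hH : ∀ x s, H (eV x) (eS s) = ((eV (r x s).1 : ℕ), (eS (r x s).2 : ℕ)) := by
    intro x s
    simp only [H, Fin.is_lt, and_self, dite_true, Fin.eta, Equiv.symm_apply_apply]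
  refine ⟨H, ?_, ?_⟩
  · intro v hv i hi
    obtain ⟨x, hx⟩ := eV.surjective ⟨v, hv⟩
    obtain ⟨s, hs⟩ := eS.surjective ⟨i, hi⟩
    have h1 : v = eV x := by rw [hx]
    have h2 : i = eS s := by rw [hs]
    rw [h1, h2, hH]
    refine ⟨Fin.is_lt _, Fin.is_lt _, ?_⟩
    simp only
    rw [hH, hr]
  · intro f hf
    have sV : ∀ g : ℕ → ℝ, ∑ v ∈ range n, g v = ∑ x, g (eV x) := fun g => by
      rw [sum_range, ← eV.sum_comp]
    have sS : ∀ g : ℕ → ℝ, ∑ v ∈ range d, g v = ∑ x, g (eS x) := fun g => by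
      rw [sum_range, ← eS.sum_comp]
    rw [sV] at hf
    rw [sV, sV fun v => f v ^ 2]
    refine le_of_eq_of_le (sum_congr rfl fun x _ => ?_) (hE (fun x => f (eV x)) hf)
    rw [avg, sS fun i => f (H (eV x) i).1]
    simp only [hH]

section Fourier

variable {p k : ℕ} [Fact p.Prime]

/-- The character attached to `y`. -/
noncomputable def basex_e (y x : Fin k → ZMod p) : ℂ := ZMod.stdAddChar (y ⬝ᵥ x)

theorem basex_e_add (y x z : Fin k → ZMod p) :
    basex_e y (x + z) = basex_e y x * basex_e y z := by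
  rw [basex_e, dotProduct_add, AddChar.map_add_eq_mul]; rfl

theorem basex_orth (z : Fin k → ZMod p) :
    ∑ y, basex_e y z = if z = 0 then (Fintype.card (Fin k → ZMod p) : ℂ) else 0 := by
  split_ifs with h
  · simp [h, basex_e]
  · obtain ⟨i, hi⟩ := Function.ne_iff.1 h
    have hi' : z i ≠ 0 := hi
    have h1 : ∑ y, basex_e y z = (ZMod.stdAddChar (1 : ZMod p) : ℂ) * ∑ y, basex_e y z := by
      rw [mul_sum, ← Equiv.sum_comp (Equiv.addRight (Pi.single i (z i)⁻¹ : Fin k → ZMod p))]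
      refine sum_congr rfl fun y _ => ?_
      simp only [basex_e, Equiv.coe_addRight, add_dotProduct, single_dotProduct,
        inv_mul_cancel₀ hi', AddChar.map_add_eq_mul]
      ring
    have h2 : (ZMod.stdAddChar (1 : ZMod p) : ℂ) ≠ 1 := by
      intro h2
      have := ((ZMod.isPrimitive_stdAddChar p).zmod_char_eq_one_iff p 1).1 h2
      exact one_ne_zero this
    by_contra h3
    exact h2 (mul_right_cancel₀ h3 (by rw [← h1, one_mul]))

theorem basex_conj (y x : Fin k → ZMod p) :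
    (starRingEnd ℂ) (basex_e y x) = basex_e y (-x) := by
  rw [basex_e, basex_e, dotProduct_neg, AddChar.map_neg_eq_conj]

/-- Fourier transform. -/
noncomputable def basex_F (f : (Fin k → ZMod p) → ℝ) (y : Fin k → ZMod p) : ℂ :=
  ∑ x, (f x : ℂ) * basex_e y x

theorem basex_planch (f : (Fin k → ZMod p) → ℝ) :
    ∑ y, Complex.normSq (basex_F f y) = Fintype.card (Fin k → ZMod p) * ∑ x, f x ^ 2 := by
  apply Complex.ofReal_injective
  push_cast
  simp only [← Complex.mul_conj, basex_F, map_sum, map_mul, Complex.conj_ofReal, basex_conj,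
    sum_mul_sum]
  rw [sum_comm, mul_sum]
  refine sum_congr rfl fun x _ => ?_
  rw [sum_comm]
  have h : ∀ x' : Fin k → ZMod p, ∑ y, (f x : ℂ) * basex_e y x * (f x' * basex_e y (-x')) =
      if x = x' then (f x : ℂ) * f x' * Fintype.card (Fin k → ZMod p) else 0 := by
    intro x'
    have : ∀ y, (f x : ℂ) * basex_e y x * (f x' * basex_e y (-x')) =
        (f x : ℂ) * f x' * basex_e y (x + -x') := fun y => by rw [basex_e_add]; ring
    simp only [this, ← mul_sum, basex_orth, add_neg_eq_zero]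
    split_ifs <;> simp
  simp only [h, sum_ite_eq, mem_univ, if_true]
  ring

/-- The moment curve. -/
def basex_m (k : ℕ) (b : ZMod p) : Fin k → ZMod p := fun i => b ^ (i : ℕ)

theorem basex_roots {y : Fin k → ZMod p} (hy : y ≠ 0) :
    #{b : ZMod p | y ⬝ᵥ basex_m k b = 0} ≤ k - 1 := by
  by_contra h
  have hk : k ≠ 0 := by
    rintro rfl
    exact hy (Subsingleton.elim _ _)
  have h1 : Fintype.card (Fin k) ≤ Fintype.card {b : ZMod p // y ⬝ᵥ basex_m k b = 0} := by
    rw [Fintype.card_fin, Fintype.card_subtype]; omega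
  obtain ⟨g⟩ := Function.Embedding.nonempty_of_card_le h1
  refine hy (Matrix.eq_zero_of_forall_index_sum_mul_pow_eq_zero (f := fun j => (g j).1)
    (Subtype.val_injective.comp g.injective) fun j => (g j).2)

theorem basex_FA (f : (Fin k → ZMod p) → ℝ) (y : Fin k → ZMod p) :
    basex_F (fun x => (∑ s : ZMod p × ZMod p, f (x + s.1 • basex_m k s.2)) / ((p * p : ℕ) : ℝ)) y =
      ((#{b : ZMod p | y ⬝ᵥ basex_m k b = 0} / p : ℝ) : ℂ) * basex_F f y := by
  have hp : (p : ℂ) ≠ 0 := by exact_mod_cast (Fact.out : p.Prime).ne_zero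
  have h1 : ∀ s : ZMod p × ZMod p, ∑ x, (f (x + s.1 • basex_m k s.2) : ℂ) * basex_e y x =
      basex_e y (-(s.1 • basex_m k s.2)) * basex_F f y := by
    intro s
    rw [basex_F, mul_sum, ← Equiv.sum_comp (Equiv.addRight (s.1 • basex_m k s.2))
      (fun x => basex_e y (-(s.1 • basex_m k s.2)) * ((f x : ℂ) * basex_e y x))]
    refine sum_congr rfl fun x _ => ?_
    have : basex_e y x = basex_e y (-(s.1 • basex_m k s.2)) * basex_e y (x + s.1 • basex_m k s.2) := by
      rw [← basex_e_add]; congr 1; abel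
    rw [this, Equiv.coe_addRight]; ring
  have h2 : ∑ s : ZMod p × ZMod p, basex_e y (-(s.1 • basex_m k s.2)) =
      (#{b : ZMod p | y ⬝ᵥ basex_m k b = 0} : ℂ) * p := by
    rw [Fintype.sum_prod_type_right]
    have : ∀ b : ZMod p, ∑ a : ZMod p, basex_e y (-(a • basex_m k b)) =
        if y ⬝ᵥ basex_m k b = 0 then (p : ℂ) else 0 := by
      intro b
      have := AddChar.sum_mulShift (-(y ⬝ᵥ basex_m k b)) (ZMod.isPrimitive_stdAddChar p)
      simp only [neg_eq_zero, ZMod.card] at this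
      push_cast at this
      rw [← this]
      refine sum_congr rfl fun a _ => ?_
      simp [basex_e]
    simp only [this]
    rw [← sum_filter, sum_const, nsmul_eq_mul]
  rw [basex_F]
  push_cast
  simp only [div_mul_eq_mul_div, sum_mul, ← sum_div]
  rw [sum_comm]
  simp only [h1]
  rw [← sum_mul, h2]
  field_simp

theorem basex_spec (lam : ℝ) (hl : ((k - 1 : ℕ) : ℝ) / p ≤ lam) (f : (Fin k → ZMod p) → ℝ)
    (hf : ∑ x, f x = 0) :
    ∑ x, ((∑ s : ZMod p × ZMod p, f (x + s.1 • basex_m k s.2)) / ((p * p : ℕ) : ℝ)) ^ 2 ≤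
      lam ^ 2 * ∑ x, f x ^ 2 := by
  have hc : (0 : ℝ) < Fintype.card (Fin k → ZMod p) := by exact_mod_cast Fintype.card_pos
  refine le_of_mul_le_mul_left ?_ hc
  rw [← basex_planch, mul_left_comm, ← basex_planch, mul_sum]
  refine sum_le_sum fun y _ => ?_
  rw [basex_FA, Complex.normSq_mul, Complex.normSq_ofReal]
  by_cases hy : y = 0
  · have : basex_F f y = 0 := by
      simp only [basex_F, hy, basex_e, zero_dotProduct, AddChar.map_zero_eq_one, mul_one]
      exact_mod_cast hf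
    simp [this]
  · refine mul_le_mul_of_nonneg_right ?_ (Complex.normSq_nonneg _)
    rw [← pow_two]
    have h1 : (#{b : ZMod p | y ⬝ᵥ basex_m k b = 0} : ℝ) ≤ ((k - 1 : ℕ) : ℝ) := by
      exact_mod_cast basex_roots hy
    have h2 : (#{b : ZMod p | y ⬝ᵥ basex_m k b = 0} : ℝ) / p ≤ lam :=
      (div_le_div_of_nonneg_right h1 (by positivity)).trans hl
    exact pow_le_pow_left₀ (by positivity) h2 2

theorem basex_gen (hp : 56 ≤ p) :
    ∃ H : Rot, IsRG ((p * p) ^ 4) (p * p) H ∧ Exp ((p * p) ^ 4) (p * p) H (1 / 8) := by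
  refine basex_transfer (V := Fin 8 → ZMod p) (S := ZMod p × ZMod p) ?_ ?_
    (fun x s => (x + s.1 • basex_m 8 s.2, (-s.1, s.2))) ?_ (1 / 8) ?_
  · rw [Fintype.card_fun, ZMod.card, Fintype.card_fin]; ring
  · rw [Fintype.card_prod, ZMod.card]
  · intro x s
    simp
  · intro f hf
    refine basex_spec (1 / 8) ?_ f hf
    have : (56 : ℝ) ≤ p := by exact_mod_cast hp
    rw [div_le_div_iff₀ (by positivity) (by positivity)]
    norm_num
    linarith

end Fourier

theorem baseX_ok : BaseXSt := by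
  obtain ⟨p, hp, hpp⟩ := Nat.exists_infinite_primes 56
  have : Fact p.Prime := ⟨hpp⟩
  obtain ⟨H, h1, h2⟩ := basex_gen (p := p) hp
  exact ⟨p * p, H, by nlinarith, h1, h2⟩

end Pool.Agent.P.MP_9cbceb_lc
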