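import Pool.Agent.P.MP_9cbceb_lc.Basic

/-! The honest cut of the base instance. -/

namespace Pool.Agent.P.MP_9cbceb_lc

open Finset
open scoped BigOperators

theorem basey_sep_le {x y M : ℕ} (hxy : x ≤ y) (hy : y ≤ M) :
    ∑ i ∈ range (M + 1), sep (decide (i ≤ x)) (decide (i ≤ y)) = y - x := by
  have h1 : ∀ i ∈ range (M + 1),
      sep (decide (i ≤ x)) (decide (i ≤ y)) = if i ∈ Ioc x y then 1 else 0 := by
    intro i _
    by_cases a : i ≤ x <;> by_cases b : i ≤ y <;> simp [sep, a, b] <;> omega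
  rw [sum_congr rfl h1, sum_boole, filter_mem_eq_inter, inter_eq_right.2, Nat.card_Ioc]
  · simp
  · intro i hi
    simp only [mem_Ioc, mem_range] at hi ⊢
    omega

theorem basey_sep_comm (a b : Bool) : sep a b = sep b a := by
  cases a <;> cases b <;> rfl

theorem basey_sep {x y M : ℕ} (hx : x ≤ M) (hy : y ≤ M) :
    ((∑ i ∈ range (M + 1), sep (decide (i ≤ x)) (decide (i ≤ y)) : ℕ) : ℝ) = |(x : ℝ) - y| := by
  rcases le_total x y with h | h
  · have h' : (x : ℝ) ≤ y := by exact_mod_cast h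
    rw [basey_sep_le h hy, Nat.cast_sub h, abs_sub_comm, abs_of_nonneg (by linarith)]
  · have h' : (y : ℝ) ≤ x := by exact_mod_cast h
    rw [sum_congr rfl fun i _ => basey_sep_comm _ _, basey_sep_le h hx, Nat.cast_sub h,
      abs_of_nonneg (by linarith)]

/-- Two functions that differ in at most one place, by at most one. -/
theorem basey_sum_le {ι : Type} [Fintype ι] [DecidableEq ι] (u v : ι → ℕ)
    (h1 : ∀ a, u a ≤ v a + 1) (h2 : ∀ a b, u a ≠ v a → u b ≠ v b → a = b) :
    ∑ a, u a ≤ ∑ a, v a + 1 := by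
  by_cases h : ∃ a, u a ≠ v a
  · obtain ⟨a, ha⟩ := h
    rw [← add_sum_erase _ u (mem_univ a), ← add_sum_erase _ v (mem_univ a)]
    have : ∑ b ∈ univ.erase a, u b = ∑ b ∈ univ.erase a, v b :=
      sum_congr rfl fun b hb => by
        by_contra hne
        exact (mem_erase.1 hb).1 (h2 b a hne ha)
    have := h1 a
    omega
  · have : ∑ a, u a = ∑ a, v a := sum_congr rfl fun a _ => by
      by_contra hne
      exact h ⟨a, hne⟩
    omega

section

variable {E S ι : Type} [LinearOrder ι]

/-- The honest labels of row `a`. -/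
def basey_lab (l1 l2 : ℕ → S) (X : ι → ι → ℕ) (a : ι) : ι → S :=
  fun p => if a < p then l1 (X a p) else l2 (X a p)

theorem basey_noLose (g : Game E S) (l1 l2 : ℕ → S)
    (hl : ∀ e, g.R e (l1 (g.v e)) (l2 (g.u e)) = true) (W : ι × ι → E) {a b : ι} (hab : a ≠ b) :
    ¬ Lose g W a b (basey_lab l1 l2 (view g W) a b) (basey_lab l1 l2 (view g W) b a) := by
  unfold Lose basey_lab view
  rcases lt_or_gt_of_ne hab with h | h
  · simp [h, h.not_gt, hl]
  · simp [h, h.not_gt, hl]

variable [Fintype ι]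

/-- The height of the honest cut. -/
def basey_ht (l1 l2 : ℕ → S) (M : ℕ) (x : Pt ι S) : ℕ :=
  min (∑ a, x.2 (a, basey_lab l1 l2 x.1 a)) M

theorem basey_valid (g : Game E S) (l1 l2 : ℕ → S)
    (hl : ∀ e, g.R e (l1 (g.v e)) (l2 (g.u e)) = true) (M : ℕ) (W : ι × ι → E) (Rm : Finset ι)
    (t t' : Co ι S → ℕ) (hv : Valid g W Rm t t') :
    basey_ht l1 l2 M (view g W, t) ≤ basey_ht l1 l2 M (mask Rm (view g W), t') + 1 ∧
      basey_ht l1 l2 M (mask Rm (view g W), t') ≤ basey_ht l1 l2 M (view g W, t) + 1 := by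
  classical
  obtain ⟨h1, h2, h3⟩ := hv
  have e : ∑ a, t' (a, basey_lab l1 l2 (mask Rm (view g W)) a) =
      ∑ a, t' (a, basey_lab l1 l2 (view g W) a) := by
    refine sum_congr rfl fun a _ => ?_
    by_cases ha : a ∈ Rm
    · rw [h3 _ ha, h3 _ ha]
    · have : basey_lab l1 l2 (mask Rm (view g W)) a = basey_lab l1 l2 (view g W) a := by
        funext p
        simp [basey_lab, mask, ha]
      rw [this]
  have u : ∀ a b, t (a, basey_lab l1 l2 (view g W) a) ≠ t' (a, basey_lab l1 l2 (view g W) a) →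
      t (b, basey_lab l1 l2 (view g W) b) ≠ t' (b, basey_lab l1 l2 (view g W) b) → a = b := by
    intro a b ha hb
    by_contra hab
    have hc : Clash g W (a, basey_lab l1 l2 (view g W) a) (b, basey_lab l1 l2 (view g W) b) :=
      h2 ha hb fun hh => hab (congrArg Prod.fst hh)
    rcases hc with hc | hc
    · exact hab hc
    · exact basey_noLose g l1 l2 hl W hab hc
  have s1 := basey_sum_le _ _ (fun a => (h1 (a, basey_lab l1 l2 (view g W) a)).1) u
  have s2 := basey_sum_le _ _ (fun a => (h1 (a, basey_lab l1 l2 (view g W) a)).2)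
    fun a b ha hb => u a b (Ne.symm ha) (Ne.symm hb)
  simp only [basey_ht, e]
  omega

end

theorem basey_spread {Q : Type} [Fintype Q] [DecidableEq Q] (K w : ℕ) (hw : 0 < w)
    (f : (Q → ℕ) → ℝ) :
    spread K w f * (Fintype.card (Om Q K w) : ℝ) ^ 2 =
      ∑ ω : Om Q K w, ∑ ω' : Om Q K w, |f (sums ω) - f (sums ω')| := by
  haveI : Nonempty (Fin w) := ⟨⟨0, hw⟩⟩
  have hc : (Fintype.card (Om Q K w) : ℝ) ≠ 0 := by
    exact_mod_cast Fintype.card_ne_zero
  simp only [spread, Fintype.expect_eq_sum_div_card, ← sum_div]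
  field_simp

theorem baseYes_ok (h : LayerSt) : BaseYesSt := by
  intro N q K w a0 hh η hw hη E _ g hg
  obtain ⟨l1, l2, hl⟩ := hg
  refine ⟨fun x i => decide (i ≤ basey_ht l1 l2 (N * hh) x), fun x => by simp, fun x => ?_, ?_, ?_⟩
  · have : basey_ht l1 l2 (N * hh) x ≤ N * hh := min_le_right _ _
    simp only [decide_eq_false_iff_not]
    omega
  · obtain ⟨L1, -, L3⟩ := h ((Fin N × Fin N → E) × Slot (Fin N) (Fin q) hh) (Pt (Fin N) (Fin q))
      (N * hh + 1) (pt1 g hh) (pt2 g hh) (fun x i => decide (i ≤ basey_ht l1 l2 (N * hh) x))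
      (Nat.succ_pos _)
    have b0 := L3 (basey_ht l1 l2 (N * hh)) (fun z => by
      unfold pt2
      split_ifs with hv
      · exact basey_valid g l1 l2 hl _ _ _ _ _ hv
      · omega) fun _ _ => rfl
    have c := (L1 (fun x => by simp) fun x => by
      have : basey_ht l1 l2 (N * hh) x ≤ N * hh := min_le_right _ _
      simp only [decide_eq_false_iff_not]
      omega).1
    rw [capG, c, b0, mu, Fintype.card_prod, Fintype.card_fun, Fintype.card_prod, Fintype.card_fin]
    ring
  · have key : ∀ W : Fin N × Fin N → E,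
        η * (Fintype.card (Om (Co (Fin N) (Fin q)) K w) : ℝ) ^ 2 ≤
        ((∑ ω : Om (Co (Fin N) (Fin q)) K w, ∑ ω' : Om (Co (Fin N) (Fin q)) K w,
          ∑ i ∈ range (N * hh + 1),
            sep (decide (i ≤ basey_ht l1 l2 (N * hh) (view g W, clamp a0 hh (sums ω))))
              (decide (i ≤ basey_ht l1 l2 (N * hh) (view g W, clamp a0 hh (sums ω')))) : ℕ) : ℝ) := by
      intro W
      have hs := hη (fun a => (a, basey_lab l1 l2 (view g W) a))
        fun a b hab => congrArg Prod.fst hab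
      have e : ∀ s : Co (Fin N) (Fin q) → ℕ,
          (basey_ht l1 l2 (N * hh) (view g W, clamp a0 hh s) : ℝ) =
            ∑ a, (clamp a0 hh s (a, basey_lab l1 l2 (view g W) a) : ℝ) := by
        intro s
        have : ∑ a, clamp a0 hh s (a, basey_lab l1 l2 (view g W) a) ≤ N * hh := by
          refine (sum_le_card_nsmul _ _ hh fun a _ => min_le_left _ _).trans ?_
          simp
        rw [basey_ht, min_eq_left this, Nat.cast_sum]
      refine (mul_le_mul_of_nonneg_right hs (sq_nonneg _)).trans (le_of_eq ?_)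
      rw [basey_spread K w hw, Nat.cast_sum]
      refine sum_congr rfl fun ω _ => ?_
      rw [Nat.cast_sum]
      refine sum_congr rfl fun ω' _ => ?_
      rw [← e, ← e]
      exact (basey_sep (min_le_right _ _) (min_le_right _ _)).symm
    rw [demG, Nat.cast_sum]
    refine le_trans (le_of_eq ?_) (sum_le_sum fun W _ => key W)
    rw [sum_const, card_univ, Fintype.card_fun, Fintype.card_prod (Fin N), Fintype.card_fin,
      nsmul_eq_mul]
    push_cast
    ring

end Pool.Agent.P.MP_9cbceb_lc
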