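import Pool.Agent.P.MP_9cbceb_lc.Basic

namespace Pool.Agent.P.MP_9cbceb_lc

open Finset

theorem cloud_cls {n d : ℕ} {G : Rot} (a : ℕ → ℕ) (hn : 0 < n) (hd : 0 < d) (h : IsRG n d G)
    (he : Exp n d G (1 / 2)) (c : ℕ) :
    (d : ℝ) * (#{v ∈ range n | a v = c} * (n - #{v ∈ range n | a v = c})) ≤
      2 * n * #{p ∈ range n ×ˢ range d | a p.1 ≠ a (G p.1 p.2).1 ∧ a p.1 = c} := by
  have hn' : (0 : ℝ) < n := by positivity
  have hd' : (0 : ℝ) < d := by positivity
  set s : ℝ := ((#{v ∈ range n | a v = c} : ℕ) : ℝ) with hs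
  set e : ℝ := ((#{p ∈ range n ×ˢ range d | a p.1 ≠ a (G p.1 p.2).1 ∧ a p.1 = c} : ℕ) : ℝ)
    with hedef
  let g : ℕ → ℝ := fun v => if a v = c then 1 else 0
  have hg : ∑ v ∈ range n, g v = s := by simp [g, hs]
  have hgg : ∀ v, g v ^ 2 = g v := fun v => by by_cases hv : a v = c <;> simp [g, hv]
  have hav : ∀ v, avg d G (fun v => g v - s / n) v = avg d G g v - s / n := fun v => by
    simp only [avg, sum_sub_distrib, sum_const, card_range, nsmul_eq_mul]
    field_simp
  have h0 : ∑ v ∈ range n, (g v - s / n) = 0 := by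
    rw [sum_sub_distrib, hg, sum_const, card_range, nsmul_eq_mul]
    field_simp
    ring
  have h1 := he _ h0
  simp only [hav] at h1
  have h2 : ∑ v ∈ range n, (g v - s / n) ^ 2 = s - s ^ 2 / n := by
    simp only [sub_sq, hgg, sum_add_distrib, sum_sub_distrib, ← sum_mul, ← mul_sum, hg, sum_const,
      card_range, nsmul_eq_mul]
    field_simp
    ring
  have h3 : ∑ v ∈ range n, g v * avg d G g v = s - e / d := by
    have : e = ∑ v ∈ range n, ∑ i ∈ range d, g v * (1 - g (G v i).1) := by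
      rw [← sum_product', hedef, card_filter]
      push_cast
      refine sum_congr rfl fun p _ => ?_
      by_cases h1 : a p.1 = c <;> by_cases h2 : a (G p.1 p.2).1 = c <;>
        simp [g, h1, h2, eq_comm (a := c)]
    rw [this, ← hg, sum_div, ← sum_sub_distrib]
    refine sum_congr rfl fun v _ => ?_
    simp only [avg, ← mul_sum, sum_sub_distrib, sum_const, card_range, nsmul_eq_mul]
    field_simp
    ring
  have h4 : ∑ v ∈ range n, (g v - s / n) * (avg d G g v - s / n) = s - e / d - s ^ 2 / n := by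
    simp only [sub_mul, mul_sub, sum_sub_distrib, ← sum_mul, ← mul_sum, hg, h3, h.sum_avg hd,
      sum_const, card_range, nsmul_eq_mul]
    field_simp
    ring
  have h5 : ∑ v ∈ range n, 2 * ((g v - s / n) * (avg d G g v - s / n)) ≤
      ∑ v ∈ range n, (1 / 2 * (g v - s / n) ^ 2 + 2 * (avg d G g v - s / n) ^ 2) :=
    sum_le_sum fun v _ => by nlinarith [sq_nonneg ((g v - s / n) - 2 * (avg d G g v - s / n))]
  rw [sum_add_distrib, ← mul_sum, ← mul_sum, ← mul_sum, h4, h2] at h5
  rw [h2] at h1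
  have h6 : s - s ^ 2 / n ≤ 2 * (e / d) := by linarith
  have h7 := mul_le_mul_of_nonneg_left h6 (mul_pos hn' hd').le
  have h8 : (n : ℝ) * d * (s - s ^ 2 / n) = d * (s * (n - s)) := by field_simp
  have h9 : (n : ℝ) * d * (2 * (e / d)) = 2 * n * e := by field_simp
  linarith

theorem cloud_ok : CloudSt := by
  intro n d G a hn hd h he
  have hn' : (0 : ℝ) < n := by positivity
  obtain ⟨v0, hv0, hmax⟩ := exists_max_image (range n) (fun v => #{u ∈ range n | a u = a v})
    ⟨0, mem_range.2 hn⟩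
  refine ⟨v0, mem_range.1 hv0, ?_⟩
  have h1 : #{v ∈ range n | a v = a v0} + #{v ∈ range n | a v ≠ a v0} = n := by
    rw [card_filter_add_card_filter_not, card_range]
  have h2 : n = ∑ c ∈ (range n).image a, #{v ∈ range n | a v = c} := by
    rw [← card_eq_sum_card_fiberwise fun v hv => mem_image_of_mem a hv, card_range]
  have h3 : #{p ∈ range n ×ˢ range d | a p.1 ≠ a (G p.1 p.2).1} = ∑ c ∈ (range n).image a,
      #{p ∈ range n ×ˢ range d | a p.1 ≠ a (G p.1 p.2).1 ∧ a p.1 = c} := by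
    rw [card_eq_sum_card_fiberwise (f := fun p : ℕ × ℕ => a p.1) (t := (range n).image a)]
    · simp only [filter_filter]
    · intro p hp
      exact mem_image_of_mem a (mem_product.1 (mem_filter.1 hp).1).1
  have h4 : ∑ c ∈ (range n).image a,
      (d : ℝ) * (#{v ∈ range n | a v = c} * #{v ∈ range n | a v ≠ a v0}) ≤
      ∑ c ∈ (range n).image a,
        2 * (n : ℝ) * #{p ∈ range n ×ˢ range d | a p.1 ≠ a (G p.1 p.2).1 ∧ a p.1 = c} := by
    refine sum_le_sum fun c hc => le_trans ?_ (cloud_cls a hn hd h he c)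
    obtain ⟨v, hv, rfl⟩ := mem_image.1 hc
    have h5 : #{u ∈ range n | a u ≠ a v0} + #{u ∈ range n | a u = a v} ≤ n := by
      have := hmax v hv
      omega
    have h6 : (#{u ∈ range n | a u ≠ a v0} : ℝ) + #{u ∈ range n | a u = a v} ≤ n := by
      exact_mod_cast h5
    exact mul_le_mul_of_nonneg_left (mul_le_mul_of_nonneg_left (by linarith) (Nat.cast_nonneg _))
      (Nat.cast_nonneg _)
  rw [← mul_sum, ← sum_mul, ← mul_sum, ← Nat.cast_sum, ← Nat.cast_sum, ← h2, ← h3] at h4
  have h7 : (d : ℝ) * #{v ∈ range n | a v ≠ a v0} ≤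
      2 * #{p ∈ range n ×ˢ range d | a p.1 ≠ a (G p.1 p.2).1} :=
    le_of_mul_le_mul_left (by linarith) hn'
  exact_mod_cast h7

end Pool.Agent.P.MP_9cbceb_lc
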