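import Pool.Agent.P.MP_9cbceb_lc.Basic

/-! Soundness of the degree reduction: decoding a labelling of the clouds. -/

namespace Pool.Agent.P.MP_9cbceb_lc

open Finset

theorem cloudgap_countP {α : Type} (I : List α) (z : α) (p : α → Bool) :
    I.countP p = #{j ∈ range I.length | p (I.getD j z) = true} := by
  induction I with
  | nil => simp
  | cons e I ih =>
    rw [List.countP_cons, ih, List.length_cons, card_filter, card_filter, sum_range_succ']
    simp

/-- A plurality vertex in every cloud. -/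
theorem cloudgap_plur (h2 : CloudSt) {d c : ℕ} {xp : ℕ → Tab} (hx : XpOK d c xp) (I : Inst)
    (b : ℕ → ℕ) (x : ℕ) : ∃ v0 : ℕ,
    #{v ∈ range (csz xp I x) | b (off xp I x + v) ≠ b (off xp I x + v0)} ≤
      2 * #{p ∈ range (csz xp I x) ×ˢ range d |
        b (off xp I x + p.1) ≠ b (off xp I x + (tab (xp (cloud I x).length) p.1 p.2).1)} := by
  by_cases h0 : (cloud I x).length = 0
  · exact ⟨0, by simp [csz, h0]⟩
  · obtain ⟨hd, -, -, hs⟩ := hx
    obtain ⟨s1, -, s3, s4⟩ := hs (cloud I x).length (Nat.pos_of_ne_zero h0)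
    have e : csz xp I x = (xp (cloud I x).length).length := by simp [csz, h0]
    obtain ⟨v0, -, hv⟩ := h2 _ d _ (fun t => b (off xp I x + t)) (by omega) hd s3 s4
    refine ⟨v0, ?_⟩
    rw [e]
    exact (Nat.le_mul_of_pos_left _ hd).trans hv

/-- Vertices which disagree with the plurality label of their cloud are few. -/
theorem cloudgap_bad (h1 : IdxSt) {d c : ℕ} {xp : ℕ → Tab} (hx : XpOK d c xp) (I : Inst)
    {n : ℕ} (hn : nv xp I ≤ n) (b v0 : ℕ → ℕ)
    (hv : ∀ x, #{v ∈ range (csz xp I x) | b (off xp I x + v) ≠ b (off xp I x + v0 x)} ≤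
      2 * #{p ∈ range (csz xp I x) ×ˢ range d |
        b (off xp I x + p.1) ≠ b (off xp I x + (tab (xp (cloud I x).length) p.1 p.2).1)}) :
    #{y ∈ range (nv xp I) | b y ≠ b (off xp I (who xp I y) + v0 (who xp I y))} ≤
      2 * #{p ∈ range n ×ˢ range d | b p.1 ≠ b (crot xp I p.1 p.2).1} := by
  obtain ⟨i1, i2, -, -, -, -⟩ := h1 d c xp hx I
  have hA : #{y ∈ range (nv xp I) | b y ≠ b (off xp I (who xp I y) + v0 (who xp I y))} ≤
      ∑ x ∈ range (vb I),
        #{v ∈ range (csz xp I x) | b (off xp I x + v) ≠ b (off xp I x + v0 x)} := by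
    rw [card_eq_sum_card_fiberwise (f := who xp I) (t := range (vb I)) fun y hy => by
      simp only [coe_filter, mem_range, Set.mem_ofPred_eq] at hy
      simpa using (i1 y hy.1).1]
    refine sum_le_sum fun x _ => card_le_card_of_injOn (fun y => y - off xp I x) ?_ ?_
    · intro y hy
      simp only [coe_filter, mem_filter, mem_range, Set.mem_ofPred_eq] at hy ⊢
      obtain ⟨⟨y1, y2⟩, rfl⟩ := hy
      obtain ⟨-, a2, a3, -⟩ := i1 y y1
      refine ⟨by omega, ?_⟩
      rwa [Nat.add_sub_cancel' a2]
    · intro y hy y' hy' e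
      simp only [coe_filter, mem_filter, mem_range, Set.mem_ofPred_eq] at hy hy' e
      have a := (i1 y hy.1.1).2.1
      have a' := (i1 y' hy'.1.1).2.1
      rw [hy.2] at a
      rw [hy'.2] at a'
      omega
  have hB : ∑ x ∈ range (vb I), #{p ∈ range (csz xp I x) ×ˢ range d |
        b (off xp I x + p.1) ≠ b (off xp I x + (tab (xp (cloud I x).length) p.1 p.2).1)} ≤
      #{p ∈ range n ×ˢ range d | b p.1 ≠ b (crot xp I p.1 p.2).1} := by
    refine le_trans ?_ (card_le_card (s := {p ∈ range (nv xp I) ×ˢ range d |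
      b p.1 ≠ b (crot xp I p.1 p.2).1}) ?_)
    · rw [card_eq_sum_card_fiberwise (f := fun p : ℕ × ℕ => who xp I p.1) (t := range (vb I))
        fun y hy => by
          simp only [coe_filter, mem_product, mem_range, Set.mem_ofPred_eq] at hy
          simpa using (i1 y.1 hy.1.1).1]
      refine sum_le_sum fun x hx' => card_le_card_of_injOn (fun p => (off xp I x + p.1, p.2)) ?_ ?_
      · intro p hp
        simp only [coe_filter, mem_filter, mem_product, mem_range, Set.mem_ofPred_eq] at hp ⊢
        obtain ⟨a1, a2⟩ := i2 x (mem_range.1 hx') p.1 hp.1.1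
        refine ⟨⟨⟨a1, hp.1.2⟩, ?_⟩, a2⟩
        simpa [crot, a1, a2] using hp.2
      · intro p _ p' _ e
        simp only [Prod.mk.injEq, Nat.add_left_cancel_iff] at e
        exact Prod.ext e.1 e.2
    · intro p hp
      simp only [mem_filter, mem_product, mem_range] at hp ⊢
      exact ⟨⟨by omega, hp.1.2⟩, hp.2⟩
  calc _ ≤ _ := hA
    _ ≤ _ := sum_le_sum fun x _ => hv x
    _ ≤ _ := by rw [← mul_sum]; omega

theorem cloudGap_ok (h1 : IdxSt) (h2 : CloudSt) : CloudGapSt := by
  intro d c xp hx q I n hn b hb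
  choose v0 hw using cloudgap_plur h2 hx I b
  have hbad := cloudgap_bad h1 hx I hn b v0 hw
  obtain ⟨-, -, i3, -, -, -⟩ := h1 d c xp hx I
  refine ⟨fun x => b (off xp I x + v0 x), fun x => hb _, ?_⟩
  refine le_trans ?_ (Nat.add_le_add_left hbad _)
  have hlt : ∀ h < 2 * I.length, vert xp I h < nv xp I := fun h hh => by
    have := (i3 h hh).1
    simp only [isReal, Bool.and_eq_true, decide_eq_true_eq] at this
    exact this.1
  rw [viol, cloudgap_countP I (0, 0, 0), ← card_filter_add_card_filter_not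
    (fun j => rel q (ccode q xp I (vert xp I (2 * j))) (b (vert xp I (2 * j)))
      (b (cext xp I (vert xp I (2 * j)))) = false)]
  refine Nat.add_le_add (card_le_card_of_injOn (fun j => vert xp I (2 * j)) ?_ ?_)
    (card_le_card_of_injOn (fun j => if b (vert xp I (2 * j)) =
      b (off xp I (hv I (2 * j)) + v0 (hv I (2 * j))) then vert xp I (2 * j + 1)
      else vert xp I (2 * j)) ?_ ?_)
  · intro j hj
    simp only [coe_filter, mem_filter, mem_range, Set.mem_ofPred_eq] at hj ⊢
    exact ⟨(hlt _ (by omega)).trans_le hn, hj.2⟩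
  · intro j hj j' hj' e
    simp only [coe_filter, mem_filter, mem_range, Set.mem_ofPred_eq] at hj hj' e
    have a := (i3 (2 * j) (by omega)).2.2
    have a' := (i3 (2 * j') (by omega)).2.2
    rw [e] at a
    omega
  · intro j hj
    simp only [coe_filter, mem_filter, mem_range, Set.mem_ofPred_eq] at hj ⊢
    obtain ⟨⟨j1, j2⟩, j3⟩ := hj
    obtain ⟨a1, a2, a3⟩ := i3 (2 * j) (by omega)
    obtain ⟨-, b2, -⟩ := i3 (2 * j + 1) (by omega)
    split_ifs with e
    · refine ⟨hlt _ (by omega), fun e' => j3 ?_⟩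
      have k1 : 2 * j % 2 = 0 := by omega
      have k2 : 2 * j / 2 = j := by omega
      have k3 : (2 * j + 1) % 2 = 1 := by omega
      have k4 : (2 * j + 1) / 2 = j := by omega
      have c1 : ccode q xp I (vert xp I (2 * j)) = (I.getD j (0, 0, 0)).2.2 := by
        simp only [ccode, a1, a3, k1, k2, decide_true, Bool.and_self, cond_true]
      have c2 : cext xp I (vert xp I (2 * j)) = vert xp I (2 * j + 1) := by
        simp only [cext, a1, a3, mate, k1, decide_true, cond_true]
      have c3 : MP_9cbceb_lc.hv I (2 * j) = (I.getD j (0, 0, 0)).1 := by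
        simp only [MP_9cbceb_lc.hv, k1, k2, decide_true, cond_true]
      have c4 : MP_9cbceb_lc.hv I (2 * j + 1) = (I.getD j (0, 0, 0)).2.1 := by
        simp only [MP_9cbceb_lc.hv, k3, k4, one_ne_zero, decide_false, cond_false]
      rw [c1, c2, e, e', b2, c3, c4]
      simpa using j2
    · exact ⟨hlt _ (by omega), by rwa [a2]⟩
  · intro j hj j' hj' e
    simp only [coe_filter, mem_filter, mem_range, Set.mem_ofPred_eq] at hj hj' e
    have a := (i3 (2 * j) (by omega)).2.2
    have a' := (i3 (2 * j') (by omega)).2.2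
    have a1 := (i3 (2 * j + 1) (by omega)).2.2
    have a1' := (i3 (2 * j' + 1) (by omega)).2.2
    split_ifs at e
    · rw [e] at a1; omega
    · rw [e] at a1; omega
    · rw [e] at a; omega
    · rw [e] at a; omega

end Pool.Agent.P.MP_9cbceb_lc
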