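import Pool.Agent.P.MP_9cbceb_lc.Basic

/-! Degree reduction: computability and structure of the cloud graph. -/

namespace Pool.Agent.P.MP_9cbceb_lc

open Pool.Agent.Lib.helper21 Pool.Agent.Lib.helper26 Finset

section PTpart

variable {α : Type} [Enc α] {I : α → Inst} {x y : α → ℕ} {xp : ℕ → Tab}

@[fun_prop] theorem clouds_hv (hI : PT I) (hx : PT x) : PT fun a => hv (I a) (x a) := by
  unfold hv; fun_prop

attribute [local irreducible] hv

@[fun_prop] theorem clouds_cloud (hI : PT I) (hx : PT x) : PT fun a => cloud (I a) (x a) := by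
  unfold cloud; fun_prop

attribute [local irreducible] cloud

@[fun_prop] theorem clouds_csz (hxp : PT xp) (hI : PT I) (hx : PT x) :
    PT fun a => csz xp (I a) (x a) := by
  unfold csz; fun_prop

attribute [local irreducible] csz

theorem clouds_off (hxp : PT xp) (hI : PT I) (hx : PT x) :
    PT fun a => off xp (I a) (x a) := by
  unfold off
  exact (hx.range.map (g := fun a t => csz xp (I a) t)
    (clouds_csz hxp (hI.comp PT.id.fst) PT.id.snd)).sumNat

@[fun_prop] theorem clouds_vb (hI : PT I) : PT fun a => vb (I a) := by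
  unfold vb; fun_prop

theorem clouds_nv (hxp : PT xp) (hI : PT I) : PT fun a => nv xp (I a) :=
  clouds_off hxp hI (clouds_vb hI)

theorem clouds_who (hxp : PT xp) (hI : PT I) (hy : PT y) : PT fun a => who xp (I a) (y a) := by
  unfold who
  exact ((clouds_vb hI).range.filter (g := fun a t => decide (off xp (I a) (t + 1) ≤ y a))
    (PT.decLe (clouds_off hxp (hI.comp PT.id.fst) (PT.id.snd.add (PT.const 1)))
      (hy.comp PT.id.fst))).length

theorem clouds_vert (hxp : PT xp) (hI : PT I) (hy : PT y) : PT fun a => vert xp (I a) (y a) := by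
  unfold vert
  exact (clouds_off hxp hI (clouds_hv hI hy)).add (by fun_prop)

theorem clouds_isReal (hxp : PT xp) (hI : PT I) (hy : PT y) :
    PT fun a => isReal xp (I a) (y a) := by
  unfold isReal
  exact (PT.decLt hy (clouds_nv hxp hI)).and
    (PT.decLt (hy.sub (clouds_off hxp hI (clouds_who hxp hI hy)))
      (clouds_cloud hI (clouds_who hxp hI hy)).length)

theorem clouds_half (hxp : PT xp) (hI : PT I) (hy : PT y) : PT fun a => half xp (I a) (y a) := by
  unfold half
  exact (clouds_cloud hI (clouds_who hxp hI hy)).getD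
    (hy.sub (clouds_off hxp hI (clouds_who hxp hI hy))) (PT.const 0)

theorem clouds_mate (hy : PT y) : PT fun a => mate (y a) := by
  unfold mate; fun_prop

theorem clouds_cext (hxp : PT xp) (hI : PT I) (hy : PT y) : PT fun a => cext xp (I a) (y a) := by
  unfold cext
  exact (clouds_isReal hxp hI hy).cond
    (clouds_vert hxp hI (clouds_mate (clouds_half hxp hI hy))) hy

theorem clouds_ccode (q : ℕ) (hxp : PT xp) (hI : PT I) (hy : PT y) :
    PT fun a => ccode q xp (I a) (y a) := by
  unfold ccode
  exact ((clouds_isReal hxp hI hy).and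
    (PT.decEq (PT_mod (clouds_half hxp hI hy) (PT.const 2)) (PT.const 0))).cond
    (hI.getD (PT_div (clouds_half hxp hI hy) (PT.const 2)) (PT.const (0, 0, 0))).snd.snd
    (PT.const _)

theorem clouds_tab {X : α → Tab} (hX : PT X) (hx : PT x) (hy : PT y) :
    PT fun a => tab (X a) (x a) (y a) := by
  unfold tab; fun_prop

theorem clouds_crot (hxp : PT xp) (hI : PT I) (hy : PT y) (hx : PT x) :
    PT fun a => crot xp (I a) (y a) (x a) := by
  have hw := clouds_who hxp hI hy
  have ho := clouds_off hxp hI hw
  have ht := clouds_tab (hxp.comp (clouds_cloud hI hw).length) (hy.sub ho) hx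
  unfold crot
  exact (PT.decLt hy (clouds_nv hxp hI)).cond ((ho.add ht.fst).pair ht.snd) (hy.pair hx)

end PTpart

theorem cloudPT_ok : CloudPTSt := fun _ _ _ h q =>
  ⟨clouds_nv h.2.2.1 PT.id, clouds_cext h.2.2.1 PT.id.fst PT.id.snd,
    clouds_ccode q h.2.2.1 PT.id.fst PT.id.snd,
    clouds_crot h.2.2.1 PT.id.fst PT.id.snd.fst PT.id.snd.snd⟩

theorem clouds_mate_even {h : ℕ} (h0 : h % 2 = 0) : mate h = h + 1 := by simp [mate, h0]

theorem clouds_mate_odd {h : ℕ} (h0 : h % 2 ≠ 0) : mate h = h - 1 := by simp [mate, h0]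

theorem clouds_mate_lt {h L : ℕ} (hl : h < 2 * L) : mate h < 2 * L := by
  by_cases h0 : h % 2 = 0
  · rw [clouds_mate_even h0]; omega
  · rw [clouds_mate_odd h0]; omega

theorem clouds_mate_mate (h : ℕ) : mate (mate h) = h := by
  by_cases h0 : h % 2 = 0
  · rw [clouds_mate_even h0, clouds_mate_odd (by omega)]; omega
  · rw [clouds_mate_odd h0, clouds_mate_even (by omega)]; omega

theorem clouds_getD_mem {I : Inst} {j : ℕ} (hj : j < I.length) : I.getD j (0, 0, 0) ∈ I := by
  rw [List.getD_eq_getElem _ _ hj]
  exact List.getElem_mem hj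

theorem cloudStruct_ok (h : IdxSt) : CloudStructSt := by
  intro d c xp hX q I n hn
  obtain ⟨i1, i2, i3, i4, -, -⟩ := h d c xp hX I
  have hlt : ∀ y, isReal xp I y = true → y < nv xp I := fun y hy => by
    simp only [isReal, Bool.and_eq_true, decide_eq_true_eq] at hy
    exact hy.1
  have hrot : ∀ y < nv xp I, ∀ i < d, (crot xp I y i).1 < nv xp I ∧ (crot xp I y i).2 < d ∧
      who xp I (crot xp I y i).1 = who xp I y ∧
      crot xp I (crot xp I y i).1 (crot xp I y i).2 = (y, i) := by
    intro y hy i hi
    obtain ⟨a1, a2, a3, a4⟩ := i1 y hy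
    have hc : csz xp I (who xp I y) = (xp (cloud I (who xp I y)).length).length := by
      simp [csz, a4.ne']
    obtain ⟨b1, b2, b3⟩ := (hX.2.2.2 _ a4).2.2.1 (y - off xp I (who xp I y)) (by omega) i hi
    obtain ⟨c1, c2⟩ := i2 _ a1 _ (hc ▸ b1)
    have e : crot xp I y i = (off xp I (who xp I y) +
        (tab (xp (cloud I (who xp I y)).length) (y - off xp I (who xp I y)) i).1,
        (tab (xp (cloud I (who xp I y)).length) (y - off xp I (who xp I y)) i).2) := by
      simp [crot, hy]
    rw [e]
    refine ⟨c1, b2, c2, ?_⟩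
    simp only [crot, c1, decide_true, cond_true, c2, Nat.add_sub_cancel_left, b3]
    congr 1
    omega
  have hrot' : ∀ y, ¬ y < nv xp I → ∀ i, crot xp I y i = (y, i) := fun y hy i => by
    simp [crot, hy]
  refine ⟨fun y hy => ?_, fun y hy i hi => ?_, fun hW y => ?_, fun a ha hv0 => ?_⟩
  · cases hr : isReal xp I y
    · have e : cext xp I y = y := by simp [cext, hr]
      rw [e, e]
      exact ⟨hy, rfl⟩
    · obtain ⟨a1, -, a3⟩ := i4 y hr
      obtain ⟨b1, -, b3⟩ := i3 _ (clouds_mate_lt a1)
      have e : cext xp I y = vert xp I (mate (half xp I y)) := by simp [cext, hr]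
      rw [e]
      refine ⟨(hlt _ b1).trans_le hn, ?_⟩
      simp only [cext, b1, cond_true, b3, clouds_mate_mate, a3]
  · by_cases hy' : y < nv xp I
    · obtain ⟨a1, a2, -, a4⟩ := hrot y hy' i hi
      exact ⟨a1.trans_le hn, a2, a4⟩
    · rw [hrot' y hy' i]
      exact ⟨hy, hi, hrot' y hy' i⟩
  · unfold ccode
    cases hr : (isReal xp I y && decide (half xp I y % 2 = 0))
    · exact Nat.sub_lt (by positivity) one_pos
    · rw [Bool.and_eq_true] at hr
      have := (i4 y hr.1).1
      exact hW.2 _ (clouds_getD_mem (by omega))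
  · refine ⟨fun y => a (who xp I y), fun y => ha _, fun y _ => ?_, fun y _ i hi => ?_⟩
    · unfold ccode
      cases hr : (isReal xp I y && decide (half xp I y % 2 = 0))
      · exact rel_full (ha _) (ha _)
      · rw [Bool.and_eq_true, decide_eq_true_eq] at hr
        obtain ⟨a1, a2, -⟩ := i4 y hr.1
        obtain ⟨-, b2, -⟩ := i3 _ (clouds_mate_lt a1)
        have e : cext xp I y = vert xp I (mate (half xp I y)) := by simp [cext, hr.1]
        have e1 : hv I (half xp I y) = (I.getD (half xp I y / 2) (0, 0, 0)).1 := by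
          simp only [hv, hr.2, decide_true, cond_true]
        have e2 : hv I (mate (half xp I y)) = (I.getD (half xp I y / 2) (0, 0, 0)).2.1 := by
          have h1 : ¬ (half xp I y + 1) % 2 = 0 := by omega
          have h2 : (half xp I y + 1) / 2 = half xp I y / 2 := by omega
          rw [clouds_mate_even hr.2]
          simp only [hv, h1, decide_false, cond_false, h2]
        have hm := List.countP_eq_zero.1 hv0 _ (clouds_getD_mem (j := half xp I y / 2) (by omega))
        simp only [cond_true, e, b2, e2, ← a2, e1]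
        simpa using hm
    · by_cases hy' : y < nv xp I
      · simp only [(hrot y hy' i hi).2.2.1]
      · rw [hrot' y hy' i]

end Pool.Agent.P.MP_9cbceb_lc
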