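import Pool.Agent.P.MP_9cbceb_lc.Basic

/-! Soundness of the recursive composition. -/

namespace Pool.Agent.P.MP_9cbceb_lc

open Finset

theorem compn_map (T : ℕ → Bool) (f : ℕ → ℕ) (L : Prs) :
    cnt T (L.map fun p => (f p.1, f p.2)) = cnt (fun x => T (f x)) L := by
  unfold cnt
  rw [List.countP_map]
  rfl

theorem compn_copies (T : ℕ → Bool) (B L : Prs) :
    cnt T (copies B L) = ∑ a ∈ range B.length, cnt (fun x => T (emb B a x)) L := by
  have h : ∀ n, cnt T ((List.range n).flatMap fun a => L.map fun p => (emb B a p.1, emb B a p.2)) =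
      ∑ a ∈ range n, cnt (fun x => T (emb B a x)) L := by
    intro n
    induction n with
    | zero => rfl
    | succ n ih =>
      rw [List.range_succ, List.flatMap_append, sum_range_succ, ← ih, ← compn_map T (emb B n)]
      simp only [cnt, List.countP_append, List.flatMap_cons, List.flatMap_nil, List.append_nil]
  exact h _

theorem compn_base (S : ℕ → Bool) (B : Prs) : cnt S B = ∑ a ∈ range B.length,
    if S (B.getD a (0, 0)).1 = S (B.getD a (0, 0)).2 then 0 else 1 := by
  induction B with
  | nil => rfl
  | cons p B ih =>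
    rw [List.length_cons, sum_range_succ']
    simp only [List.getD_cons_succ, List.getD_cons_zero, ← ih, cnt, List.countP_cons]
    by_cases h : S p.1 = S p.2 <;> simp [h]

theorem compn_rep (T : ℕ → Bool) (L L' : Prs) (n : ℕ) :
    cnt T ((List.replicate n L).flatten ++ L') = n * cnt T L + cnt T L' := by
  simp [cnt]

theorem compNo_ok : CompNoSt := by
  intro B D M l η κ _ _ hη _ hκ hsep hns
  have key : ∀ j ≤ l, ∀ T : ℕ → Bool, (if T 0 = T 2 then 0 else (M : ℝ) ^ j * ((2 * l - j) * η)) ≤
      2 * l * η * cnt T (comp B D M j).1 - M * cnt T (comp B D M j).2 := by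
    intro j
    induction j with
    | zero =>
      intro _ T
      by_cases h : T 0 = T 2 <;> simp [comp, cnt, h]
    | succ j ih =>
      intro hj T
      have hjl : (j : ℝ) + 1 ≤ l := by exact_mod_cast hj
      set S : ℕ → Bool := fun y => T (2 * y) with hS
      have h1 : (cnt S B : ℝ) * ((M : ℝ) ^ j * ((2 * l - j) * η)) ≤ ∑ a ∈ range B.length,
          (2 * l * η * cnt (fun x => T (emb B a x)) (comp B D M j).1 -
            M * cnt (fun x => T (emb B a x)) (comp B D M j).2) := by
        rw [compn_base, Nat.cast_sum, sum_mul]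
        refine sum_le_sum fun a _ => le_trans (le_of_eq ?_) (ih (by omega) _)
        simp only [emb, hS, decide_true, cond_true, OfNat.ofNat_ne_zero, decide_false, cond_false]
        split_ifs <;> simp
      have h2 : 2 * l * η * cnt T (comp B D M (j + 1)).1 - M * cnt T (comp B D M (j + 1)).2 =
          ∑ a ∈ range B.length, (2 * l * η * cnt (fun x => T (emb B a x)) (comp B D M j).1 -
            M * cnt (fun x => T (emb B a x)) (comp B D M j).2) - M ^ j * (M * cnt S D) := by
        simp only [comp, compn_rep, compn_copies, compn_map T (fun y => 2 * y), sum_sub_distrib,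
          ← mul_sum]
        push_cast
        ring
      have hM : (0 : ℝ) ≤ M := Nat.cast_nonneg _
      have hp : (0 : ℝ) ≤ (M : ℝ) ^ j := by positivity
      have hc : (0 : ℝ) ≤ cnt S B := Nat.cast_nonneg _
      rw [h2]
      split_ifs with h
      · have h3 := mul_le_mul_of_nonneg_left (hns S h) hM
        have h4 := mul_le_mul_of_nonneg_right hκ hc
        have h5 : 0 ≤ (l - j) * η * cnt S B := mul_nonneg (mul_nonneg (by linarith) hη.le) hc
        have h6 : M * cnt S D ≤ cnt S B * ((2 * l - j) * η) := by nlinarith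
        nlinarith [mul_le_mul_of_nonneg_left h6 hp]
      · obtain ⟨h7, h8⟩ := hsep S h
        have h9 : (0 : ℝ) ≤ cnt S B - M := sub_nonneg.mpr (Nat.cast_le.mpr h7)
        have h3 := mul_le_mul_of_nonneg_left h8 hM
        have h4 := mul_le_mul_of_nonneg_right hκ h9
        have h5 : 0 ≤ (l - j) * η * (cnt S B - M) :=
          mul_nonneg (mul_nonneg (by linarith) hη.le) h9
        have h6 : M * cnt S D + M * ((2 * l - (j + 1)) * η) ≤ cnt S B * ((2 * l - j) * η) := by
          nlinarith
        push_cast
        rw [pow_succ]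
        nlinarith [mul_le_mul_of_nonneg_left h6 hp]
  intro T
  have h := key l le_rfl T
  have h0 : (0 : ℝ) ≤ (M : ℝ) ^ l * ((2 * l - l) * η) :=
    mul_nonneg (by positivity) (mul_nonneg (by linarith [Nat.cast_nonneg (α := ℝ) l]) hη.le)
  split_ifs at h <;> linarith

end Pool.Agent.P.MP_9cbceb_lc
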