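import Pool.Agent.P.MP_9cbceb_lc.Basic

/-! The base instance as a polynomial-time list of pairs. -/

namespace Pool.Agent.P.MP_9cbceb_lc

open Pool.Agent.Lib.helper21 Finset

/-- All tuples of entries of a list. -/
def conc_tup {α : Type} (I : List α) : ℕ → List (List α)
  | 0 => [[]]
  | k + 1 => I.flatMap fun e => (conc_tup I k).map (e :: ·)

theorem conc_tup_PT {α : Type} [Enc α] : ∀ k, PT fun I : List α => conc_tup I k
  | 0 => PT.const _
  | k + 1 => by
    have := conc_tup_PT (α := α) k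
    exact PT.flatMap PT.id (PT.map (this.comp (by fun_prop)) (by fun_prop))

theorem conc_flat_PT {α β : Type} [Enc α] [Enc β] (k : ℕ) {F : List α → List β} (h : PT F) :
    PT fun I : List α => (conc_tup I k).flatMap F :=
  PT.flatMap (g := fun _ l => F l) (conc_tup_PT k) (h.comp PT.id.snd)

theorem conc_tup_mem {α : Type} {I : List α} :
    ∀ {k} {l : List α}, l ∈ conc_tup I k → l.length = k ∧ ∀ x ∈ l, x ∈ I
  | 0, l, h => by simp [conc_tup] at h; simp [h]
  | k + 1, l, h => by
    simp only [conc_tup, List.mem_flatMap, List.mem_map] at h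
    obtain ⟨e, he, m, hm, rfl⟩ := h
    have := conc_tup_mem hm
    simpa [this.1, he] using this.2

theorem conc_tup_sum {α : Type} (I : List α) (d : α) : ∀ (k : ℕ) (F : (Fin k → α) → ℕ),
    ((conc_tup I k).map fun l => F fun i => l.getD i d).sum =
      ∑ W : Fin k → Fin I.length, F fun i => I[W i]
  | 0, F => by
    simp only [conc_tup, List.map_cons, List.map_nil, List.sum_cons, List.sum_nil, add_zero,
      univ_unique, sum_singleton]
    congr 1
    exact Subsingleton.elim _ _
  | k + 1, F => by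
    rw [← (Fin.consEquiv fun _ => Fin I.length).sum_comp, Fintype.sum_prod_type, conc_tup,
      List.map_flatMap, List.flatMap_def, List.sum_flatten, List.map_map,
      ← Fin.sum_univ_fun_getElem]
    refine sum_congr rfl fun e _ => ?_
    rw [Function.comp, List.map_map]
    refine Eq.trans ?_ ((conc_tup_sum I d k fun V => F (Fin.cons I[e] V)).trans ?_)
    · congr 1
      refine List.map_congr_left fun l _ => congrArg F (funext fun i => ?_)
      cases i using Fin.cases <;> simp
    · refine sum_congr rfl fun W _ => congrArg F (funext fun i => ?_)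
      cases i using Fin.cases <;> simp [Fin.consEquiv]

theorem conc_cnt_list {α : Type} (S : ℕ → Bool) (l : List α) (F : α → Prs) :
    cnt S (l.flatMap F) = (l.map fun a => cnt S (F a)).sum := List.countP_flatMap

theorem conc_cnt_flat {α : Type} (S : ℕ → Bool) (s : Finset α) (F : α → Prs) :
    cnt S (s.toList.flatMap F) = ∑ a ∈ s, cnt S (F a) := by
  rw [conc_cnt_list, sum_map_toList]

theorem conc_cnt_cons (S : ℕ → Bool) (a b : ℕ) (l : Prs) :
    cnt S ((a, b) :: l) = sep (S a) (S b) + cnt S l := by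
  rw [cnt, List.countP_cons, add_comm, sep]
  cases S a <;> cases S b <;> rfl

theorem conc_pow_PT {α : Type} [Enc α] {f : α → ℕ} (hf : PT f) : ∀ k, PT fun a => f a ^ k
  | 0 => (PT.const 1).of_eq fun _ => (pow_zero _).symm
  | k + 1 => ((conc_pow_PT hf k).mul hf).of_eq fun _ => (pow_succ _ _).symm

theorem conc_enc_PT {α ι : Type} [Enc α] {F : α → ι → ℕ} (h : ∀ i, PT fun a => F a i) :
    ∀ l : List ι, PT fun a => Encodable.encode (l.map (F a))
  | [] => PT.const 0
  | i :: l => (PT_pair (h i) (conc_enc_PT h l)).succ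

variable {N q : ℕ}

/-- The code of a view. -/
noncomputable def conc_cX (X : Fin N → Fin N → ℕ) : ℕ :=
  Encodable.encode ((univ : Finset (Fin N × Fin N)).toList.map fun p => X p.1 p.2)

theorem conc_cX_inj {X Y : Fin N → Fin N → ℕ} (h : conc_cX X = conc_cX Y) : X = Y :=
  funext fun a => funext fun b =>
    List.map_inj_left.1 (Encodable.encode_injective h) (a, b) (mem_toList.2 (mem_univ _))

/-- The names of the vertices. -/
noncomputable def conc_nm (cT : (Co (Fin N) (Fin q) → ℕ) → ℕ) (L : ℕ) (x : Pt (Fin N) (Fin q))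
    (i : ℕ) : ℕ :=
  if i = 0 then 0 else if L ≤ i then 1 else Nat.pair (Nat.pair (conc_cX x.1) (cT x.2)) i + 2

variable {cT : (Co (Fin N) (Fin q) → ℕ) → ℕ} {L : ℕ}

theorem conc_nm_inj (hT : Function.Injective cT) {x x' : Pt (Fin N) (Fin q)} {i i' : ℕ}
    (hi : i ≤ L) (hi' : i' ≤ L) (h : conc_nm cT L x i = conc_nm cT L x' i') :
    (i = 0 ∧ i' = 0) ∨ (i = L ∧ i' = L) ∨ (x = x' ∧ i = i') := by
  unfold conc_nm at h
  split_ifs at h <;> try omega
  rw [add_left_inj, Nat.pair_eq_pair, Nat.pair_eq_pair] at h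
  exact Or.inr (Or.inr ⟨Prod.ext (conc_cX_inj h.1.1) (hT h.1.2), h.2⟩)

theorem conc_nm_PT {α : Type} [Enc α] {X : α → Fin N → Fin N → ℕ}
    (hX : ∀ a b, PT fun l => X l a b) (t : Co (Fin N) (Fin q) → ℕ) (i : ℕ) :
    PT fun l => conc_nm cT L (X l, t) i := by
  have : PT fun l => conc_cX (X l) := conc_enc_PT (fun p : Fin N × Fin N => hX p.1 p.2) _
  unfold conc_nm
  split_ifs
  · exact PT.const 0
  · exact PT.const 1
  · exact (PT_pair (PT_pair this (PT.const (cT t))) (PT.const i)).add (PT.const 2)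

/-- The universal game. -/
def conc_ug (q : ℕ) : Game (ℕ × ℕ × ℕ) (Fin q) where
  v e := e.1
  u e := e.2.1
  R e a b := rel q e.2.2 a b

/-- A list read as an array. -/
def conc_dec {α : Type} (N : ℕ) (d : α) (l : List α) (k : Fin N × Fin N) : α :=
  l.getD (finProdFinEquiv k) d

theorem conc_view_PT (a b : Fin N) :
    PT fun l : Inst => view (conc_ug q) (conc_dec N (0, 0, 0) l) a b := by
  unfold view conc_dec conc_ug
  split_ifs <;> fun_prop

theorem conc_mask_PT (Rm : Finset (Fin N)) (a b : Fin N) :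
    PT fun l : Inst => mask Rm (view (conc_ug q) (conc_dec N (0, 0, 0) l)) a b := by
  unfold mask
  split_ifs
  · exact PT.const 0
  · exact conc_view_PT a b

theorem conc_sum (I : Inst) (F : (Fin N × Fin N → ℕ × ℕ × ℕ) → ℕ) :
    ((conc_tup I (N * N)).map fun l => F (conc_dec N (0, 0, 0) l)).sum =
      ∑ W : Fin N × Fin N → Fin I.length, F fun k => I[W k] :=
  (conc_tup_sum I (0, 0, 0) (N * N) fun V => F fun k => V (finProdFinEquiv k)).trans
    (Fintype.sum_equiv (finProdFinEquiv.arrowCongr (Equiv.refl _)).symm _ _ fun _ => rfl)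

theorem conc_pt2 (h : ℕ) (σ : Slot (Fin N) (Fin q) h) :
    ∃ n2 : Inst → ℕ → ℕ, (∀ i, PT fun l => n2 l i) ∧ ∀ l : Inst, l.length = N * N →
      (∀ e ∈ l, e.2.2 < 2 ^ (q * q)) →
      n2 l = conc_nm cT L (pt2 (conc_ug q) h (conc_dec N (0, 0, 0) l, σ)) := by
  classical
  obtain ⟨tb, h1, h2⟩ := PT_table (N * N + 2 ^ (q * q)) fun cs => decide (Valid (conc_ug q)
    (fun k => (0, 0, conc_dec N 0 cs k)) σ.1 (fun c => σ.2.1 c) fun c => σ.2.2 c)
  refine ⟨fun l i => cond (tb (l.map fun e => e.2.2))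
    (conc_nm cT L (mask σ.1 (view (conc_ug q) (conc_dec N (0, 0, 0) l)), fun c => σ.2.2 c) i)
    (conc_nm cT L (view (conc_ug q) (conc_dec N (0, 0, 0) l), fun c => σ.2.1 c) i),
    fun i => PT.cond (h1.comp (by fun_prop)) (conc_nm_PT (conc_mask_PT _) _ _)
      (conc_nm_PT conc_view_PT _ _), fun l hl hc => funext fun i => ?_⟩
  have e : conc_dec N 0 (l.map fun e => e.2.2) = fun k => (conc_dec N (0, 0, 0) l k).2.2 :=
    funext fun k => List.getD_map l (0, 0, 0) fun e => e.2.2
  beta_reduce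
  rw [h2 _ (by simp [hl]) (by
    intro x hx
    obtain ⟨e, he, rfl⟩ := List.mem_map.1 hx
    have := hc e he
    omega), e, pt2]
  split_ifs with hv
  · rw [decide_eq_true (by exact hv)]
    rfl
  · rw [decide_eq_false (by exact hv)]
    rfl

theorem conc_ok : ConcSt := by
  classical
  intro N q K w a0 h
  obtain ⟨cT, hT⟩ := exists_injective_nat (Co (Fin N) (Fin q) → ℕ)
  choose n2 p2 e2 using conc_pt2 (cT := cT) (L := N * h + 1) h
  have p1 := fun t i => conc_nm_PT (cT := cT) (L := N * h + 1) (conc_view_PT (q := q)) t i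
  obtain ⟨n1, hn1⟩ : ∃ n1 : (Co (Fin N) (Fin q) → ℕ) → Inst → ℕ → ℕ, n1 = fun t l =>
    conc_nm cT (N * h + 1) (view (conc_ug q) (conc_dec N (0, 0, 0) l), t) := ⟨_, rfl⟩
  replace p1 : ∀ t i, PT fun l => n1 t l i := hn1 ▸ p1
  refine ⟨conc_nm cT (N * h + 1), fun I =>
    ((conc_tup I (N * N)).flatMap fun l =>
      (univ : Finset (Slot (Fin N) (Fin q) h)).toList.flatMap fun σ =>
        (range (N * h + 1)).toList.flatMap fun i =>
          [(n1 (fun c => σ.2.1 c) l i, n2 σ l (i + 1)), (n2 σ l i, n1 (fun c => σ.2.1 c) l (i + 1)),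
            (n1 (fun c => σ.2.1 c) l i, n1 (fun c => σ.2.1 c) l (i + 1)),
            (n2 σ l i, n2 σ l (i + 1))],
    (conc_tup I (N * N)).flatMap fun l =>
      (univ : Finset (Om (Co (Fin N) (Fin q)) K w)).toList.flatMap fun ω =>
        (univ : Finset (Om (Co (Fin N) (Fin q)) K w)).toList.flatMap fun ω' =>
          (range (N * h + 1)).toList.flatMap fun i =>
            [(n1 (clamp a0 h (sums ω)) l i, n1 (clamp a0 h (sums ω')) l i)],
    mu N q h * I.length ^ (N * N)), ?_, fun x => if_pos rfl, fun x => ?_, fun S' s0 s1 => ?_,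
    fun I hI => ⟨rfl, fun S => ⟨?_, ?_⟩⟩⟩
  · refine PT.pair (conc_flat_PT _ ?_) (PT.pair (conc_flat_PT _ ?_)
      ((PT.const _).mul (conc_pow_PT PT.id.length _)))
    · exact PT_flatMapConst _ fun σ => PT_flatMapConst _ fun i =>
        ((p1 _ _).pair (p2 _ _)).cons (((p2 _ _).pair (p1 _ _)).cons
          (((p1 _ _).pair (p1 _ _)).cons (((p2 _ _).pair (p2 _ _)).cons (PT.const []))))
    · exact PT_flatMapConst _ fun ω => PT_flatMapConst _ fun ω' => PT_flatMapConst _ fun i =>
        ((p1 _ _).pair (p1 _ _)).cons (PT.const [])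
  · rw [conc_nm, if_neg (by omega), if_pos le_rfl]
  · have key : ∀ x, ∀ i ≤ N * h + 1, decide (∃ x' i', i' ≤ N * h + 1 ∧
        conc_nm cT (N * h + 1) x' i' = conc_nm cT (N * h + 1) x i ∧ S' x' i' = true) = S' x i := by
      intro x i hi
      rw [Bool.eq_iff_iff, decide_eq_true_iff]
      refine ⟨?_, fun hx => ⟨x, i, hi, rfl, hx⟩⟩
      rintro ⟨x', i', hi', e, hs⟩
      rcases conc_nm_inj hT hi' hi e with ⟨-, rfl⟩ | ⟨rfl, -⟩ | ⟨rfl, rfl⟩
      · exact s0 x
      · rw [s1] at hs
        exact absurd hs (by simp)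
      · exact hs
    refine ⟨fun n => decide (∃ x' i', i' ≤ N * h + 1 ∧ conc_nm cT (N * h + 1) x' i' = n ∧
      S' x' i' = true), (key 0 0 (by omega)).trans (s0 _), ?_, key⟩
    have := (key 0 _ le_rfl).trans (s1 _)
    rwa [show conc_nm cT (N * h + 1) 0 (N * h + 1) = 1 by
      rw [conc_nm, if_neg (by omega), if_pos le_rfl]] at this
  · rw [conc_cnt_list, capG, capF, Fintype.sum_prod_type]
    refine Eq.trans ?_ (conc_sum I fun V => ∑ σ, arcs sep (N * h + 1) (pt1 (conc_ug q) h)
      (pt2 (conc_ug q) h) (fun x i => S (conc_nm cT (N * h + 1) x i)) (V, σ))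
    congr 1
    refine List.map_congr_left fun l hl => ?_
    obtain ⟨l1, l2⟩ := conc_tup_mem hl
    rw [conc_cnt_flat]
    refine sum_congr rfl fun σ _ => ?_
    rw [conc_cnt_flat, arcs]
    refine sum_congr rfl fun i _ => ?_
    rw [conc_cnt_cons, conc_cnt_cons, conc_cnt_cons, conc_cnt_cons,
      e2 σ l l1 fun e he => hI.2 e (l2 e he), hn1, ← add_assoc, ← add_assoc, ← add_assoc]
    rfl
  · rw [conc_cnt_list, demG]
    refine Eq.trans ?_ (conc_sum I fun V => ∑ ω : Om (Co (Fin N) (Fin q)) K w,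
      ∑ ω' : Om (Co (Fin N) (Fin q)) K w, ∑ i ∈ range (N * h + 1),
        sep (S (conc_nm cT (N * h + 1) (view (conc_ug q) V, clamp a0 h (sums ω)) i))
          (S (conc_nm cT (N * h + 1) (view (conc_ug q) V, clamp a0 h (sums ω')) i)))
    congr 1
    refine List.map_congr_left fun l _ => ?_
    simp only [conc_cnt_flat, conc_cnt_cons, hn1]
    rfl

end Pool.Agent.P.MP_9cbceb_lc
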