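import Pool.Agent.P.MP_9cbceb_lc.Basic
import Pool.Agent.Lib.helper77.Raw

/-! Lists of pairs are converted into simple weighted graphs. -/

namespace Pool.Agent.P.MP_9cbceb_lc

open Pool.Agent.Lib.helper21 Finset N487b59b3

theorem conv_encodeNat (n : ℕ) : Computability.encodeNat n = n.bits := by
  have h : ∀ p : PosNum, Computability.encodePosNum p = (p : ℕ).bits := by
    intro p
    induction p with
    | one => rfl
    | bit0 p ih =>
      rw [Computability.encodePosNum, ih, PosNum.cast_bit0, ← two_mul,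
        Nat.bit0_bits _ (PosNum.cast_pos p).ne']
    | bit1 p ih =>
      rw [Computability.encodePosNum, ih, PosNum.cast_bit1, ← two_mul, Nat.bit1_bits]
  unfold Computability.encodeNat
  conv_rhs => rw [← Num.to_of_nat n]
  cases (n : Num) with
  | zero => simp [Computability.encodeNum]
  | pos p => exact h p

section

variable {α δ β γ : Type} [Enc α] [Enc δ] [N487b59b3 β] [N487b59b3 γ]

theorem conv_nat {f : α → ℕ} (hf : PT f) : PT fun a => bitEncode (f a) := by
  have hb : PT fun z : ℤ => z.natAbs.bits :=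
    Lib.helper77.PT.ofRaw.comp (g := fun z : ℤ => Lib.helper77.Raw.mk z.natAbs.bits) (PT.absB PT.id)
  exact (hb.comp hf.natCast).of_eq fun a => (conv_encodeNat (f a)).symm

theorem conv_del {f : α → List Bool} (hf : PT f) : PT fun a => delimit (f a) :=
  PT.of_eq (f := fun a => ((f a).flatMap fun b => [true, b]) ++ [false]) (by fun_prop)
    fun _ => (Lib.helper77.delimit_eq _).symm

theorem conv_pair {f : α → β} {g : α → γ} (hf : PT fun a => bitEncode (f a))
    (hg : PT fun a => bitEncode (g a)) : PT fun a => bitEncode (f a, g a) :=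
  (conv_del hf).append hg

theorem conv_map {l : α → List δ} {F : α → δ → β} (hl : PT l)
    (hF : PT fun p : α × δ => bitEncode (F p.1 p.2)) : PT fun a => bitEncode ((l a).map (F a)) :=
  (hl.flatMap (g := fun a x => delimit (bitEncode (F a x))) (conv_del hF)).of_eq fun a => by
    show _ = ((((l a).map (F a)).map bitEncode).map delimit).flatten
    rw [List.map_map, List.map_map, List.flatMap_def]
    rfl

theorem conv_rat {f : α → ℕ} (hf : PT f) : PT fun a => bitEncode ((f a : ℕ) : ℚ) :=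
  (conv_pair (conv_pair (conv_nat hf) (PT.const (bitEncode (0 : ℕ))))
    (PT.const (bitEncode (1 : ℕ)))).of_eq fun a => by
    show _ = bitEncode (((((f a : ℕ) : ℚ).num.toNat, (-((f a : ℕ) : ℚ).num).toNat) : ℕ × ℕ),
      ((f a : ℕ) : ℚ).den)
    simp

end

/-- All pairs `i < j < n`. -/
def conv_prs (n : ℕ) : Prs :=
  ((List.range n).flatMap fun i => (List.range n).map fun j => (i, j)).filter
    fun e => decide (e.1 < e.2)

def conv_m (e x : ℕ × ℕ) : Bool :=
  (decide (x.1 = e.1) && decide (x.2 = e.2)) || (decide (x.1 = e.2) && decide (x.2 = e.1))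

def conv_l (n : ℕ) (L : Prs) : List (ℕ × ℕ × ℚ) :=
  (conv_prs n).map fun e => (e.1, e.2, ((L.countP (conv_m e) : ℕ) : ℚ))

def conv_n (p : Prs × Prs) : ℕ := ((p.1 ++ p.2).map fun e => e.1 + e.2).sum + 1

theorem conv_prs_nodup (n : ℕ) : (conv_prs n).Nodup :=
  (List.Nodup.product List.nodup_range List.nodup_range).filter _

theorem conv_prs_mem {n : ℕ} {e : ℕ × ℕ} : e ∈ conv_prs n ↔ e.1 < e.2 ∧ e.2 < n := by
  obtain ⟨i, j⟩ := e
  simp only [conv_prs, List.mem_filter, List.mem_flatMap, List.mem_map, List.mem_range,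
    Prod.mk.injEq, decide_eq_true_eq]
  constructor
  · rintro ⟨⟨a, -, b, hb, -, rfl⟩, h⟩
    exact ⟨h, hb⟩
  · rintro ⟨h1, h2⟩
    exact ⟨⟨i, h1.trans h2, j, h2, rfl, rfl⟩, h1⟩

theorem conv_lt (p : Prs × Prs) {e : ℕ × ℕ} (he : e ∈ p.1 ++ p.2) :
    e.1 < conv_n p ∧ e.2 < conv_n p := by
  have := List.single_le_sum (l := (p.1 ++ p.2).map fun e => e.1 + e.2) (fun _ _ => Nat.zero_le _)
    _ (List.mem_map.2 ⟨e, he, rfl⟩)
  unfold conv_n
  omega

theorem conv_simple (n : ℕ) (L : Prs) : Simple n (conv_l n L) := by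
  constructor
  · rw [conv_l, List.map_map]
    exact (List.map_id (conv_prs n)).symm ▸ conv_prs_nodup n
  · intro e he
    obtain ⟨x, hx, rfl⟩ := List.mem_map.1 he
    exact ⟨(conv_prs_mem.1 hx).1, (conv_prs_mem.1 hx).2, Nat.cast_nonneg _⟩

theorem conv_total (n : ℕ) (L : Prs) : Total n (conv_l n L) := fun x y h1 h2 =>
  ⟨_, List.mem_map.2 ⟨(x, y), conv_prs_mem.2 ⟨h1, h2⟩, rfl⟩⟩

theorem conv_one (n : ℕ) (S : ℕ → Bool) (x : ℕ × ℕ) (h1 : x.1 < n) (h2 : x.2 < n) :
    ∑ e ∈ (conv_prs n).toFinset, (if S e.1 = S e.2 then (0 : ℚ) else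
      if conv_m e x = true then 1 else 0) = if (S x.1 != S x.2) = true then 1 else 0 := by
  obtain ⟨a, b⟩ := x
  have hm : ∀ e : ℕ × ℕ, conv_m e (a, b) = true ↔ (a = e.1 ∧ b = e.2) ∨ (a = e.2 ∧ b = e.1) :=
    fun e => by simp [conv_m]
  by_cases h : S a = S b
  · rw [if_neg (by simp [h])]
    refine sum_eq_zero fun e _ => ?_
    split_ifs with h3 h4
    · rfl
    · rcases (hm e).1 h4 with ⟨rfl, rfl⟩ | ⟨rfl, rfl⟩
      · exact absurd h h3
      · exact absurd h.symm h3
    · rfl
  · have hab : a ≠ b := fun e => h (by rw [e])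
    rw [if_pos (by simpa using h), sum_eq_single_of_mem (min a b, max a b)]
    · rcases lt_or_gt_of_ne hab with h3 | h3
      · rw [min_eq_left h3.le, max_eq_right h3.le, if_neg h, if_pos ((hm _).2 (.inl ⟨rfl, rfl⟩))]
      · rw [min_eq_right h3.le, max_eq_left h3.le, if_neg (Ne.symm h),
          if_pos ((hm _).2 (.inr ⟨rfl, rfl⟩))]
    · rw [List.mem_toFinset, conv_prs_mem]
      dsimp only at h1 h2 ⊢
      omega
    · intro e he hne
      rw [List.mem_toFinset, conv_prs_mem] at he
      rw [if_neg (c := conv_m e (a, b) = true), ite_self]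
      intro h4
      have := (hm e).1 h4
      exact hne (Prod.ext (by dsimp only; omega) (by dsimp only; omega))

theorem conv_cut (n : ℕ) (T : List Bool) (L : Prs) (h : ∀ e ∈ L, e.1 < n ∧ e.2 < n) :
    cut (conv_l n L) T = cnt (fun x => T.getD x false) L := by
  rw [cut, conv_l, List.map_map, ← List.sum_toFinset _ (conv_prs_nodup n), cnt]
  simp only [Function.comp_apply]
  induction L with
  | nil => simp
  | cons x L ih =>
    rw [List.countP_cons, Nat.cast_add, ← ih fun e he => h e (List.mem_cons_of_mem _ he),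
      Nat.cast_ite, Nat.cast_one, Nat.cast_zero,
      ← conv_one n (fun x => T.getD x false) x (h x List.mem_cons_self).1
        (h x List.mem_cons_self).2, ← sum_add_distrib]
    refine sum_congr rfl fun e _ => ?_
    rw [List.countP_cons]
    split_ifs <;> simp

theorem conv_cnt (n : ℕ) (S : ℕ → Bool) (L : Prs) (h : ∀ e ∈ L, e.1 < n ∧ e.2 < n) :
    cnt (fun x => ((List.range n).map S).getD x false) L = cnt S L := by
  refine List.countP_congr fun e he => ?_
  beta_reduce
  rw [MP_2989a6_lc.getD_map_range _ _ (h e he).1, MP_2989a6_lc.getD_map_range _ _ (h e he).2]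

theorem conv_l_PT {α : Type} [Enc α] {n : α → ℕ} {L : α → Prs} (hn : PT n) (hL : PT L) :
    PT fun a => bitEncode (conv_l (n a) (L a)) := by
  refine conv_map (l := fun a => conv_prs (n a))
    (F := fun a e => (e.1, e.2, (((L a).countP (conv_m e) : ℕ) : ℚ))) ?_
    (conv_pair (conv_nat (by fun_prop)) (conv_pair (conv_nat (by fun_prop)) (conv_rat ?_)))
  · unfold conv_prs
    fun_prop
  · unfold conv_m
    fun_prop

theorem conv_ok : ConvSt := by
  have hn : PT conv_n := by
    unfold conv_n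
    fun_prop
  refine ⟨fun p => (conv_n p, conv_l (conv_n p) p.1, conv_l (conv_n p) p.2),
    conv_pair (conv_nat hn) (conv_pair (conv_l_PT hn (by fun_prop)) (conv_l_PT hn (by fun_prop))),
    fun p => ?_⟩
  have h1 : ∀ e ∈ p.1, e.1 < conv_n p ∧ e.2 < conv_n p :=
    fun e he => conv_lt p (List.mem_append_left _ he)
  have h2 : ∀ e ∈ p.2, e.1 < conv_n p ∧ e.2 < conv_n p :=
    fun e he => conv_lt p (List.mem_append_right _ he)
  exact ⟨conv_simple _ _, conv_simple _ _, conv_total _ _, fun T => ⟨conv_cut _ T _ h1, conv_cut _ T _ h2⟩,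
    fun S => ⟨_, conv_cnt _ S _ h1, conv_cnt _ S _ h2⟩⟩

end Pool.Agent.P.MP_9cbceb_lc
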