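import Pool.Agent.P.MP_9cbceb_lc.Basic

/-! The core theorem. -/

namespace Pool.Agent.P.MP_9cbceb_lc

open Finset
open scoped BigOperators

theorem core_sq_expect {Ω : Type} [Fintype Ω] [Nonempty Ω] (f : Ω → ℝ) :
    (𝔼 W, f W) ^ 2 ≤ 𝔼 W, f W ^ 2 := by
  have h := expect_mul_sq_le_sq_mul_sq univ f fun _ => (1 : ℝ)
  simpa using h

section

variable {E S ι : Type} [Fintype ι] [LinearOrder ι] [Fintype S] [DecidableEq S]

omit [Fintype ι] [Fintype S] [DecidableEq S] in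
theorem core_mask (g : Game E S) (B : Finset ι) (a : ι) {W W' : ι × ι → E}
    (h1 : ∀ k : ι × ι, ¬ (k.1 ∈ B ∧ k.2 ∈ B) → W k = W' k)
    (h2 : ∀ q ∈ B, view g W a q = view g W' a q) :
    mask (B.erase a) (view g W) = mask (B.erase a) (view g W') := by
  funext b
  unfold mask
  split_ifs with hb
  · rfl
  funext q
  by_cases hq : b ∈ B ∧ q ∈ B
  · have : b = a := by
      by_contra hne
      exact hb (mem_erase.2 ⟨hne, hq.1⟩)
    rw [this]
    exact h2 q hq.2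
  · unfold view
    rw [h1 (b, q) hq, h1 (q, b) fun h => hq ⟨h.2, h.1⟩]

open Classical in
/-- The second moment of the correlations is large. -/
theorem core_energy (h1 : GoodSt) [Fintype E] [Nonempty E] (g : Game E S) {K w : ℕ} (a0 h : ℕ)
    (G : Pt ι S → ℝ) (Good : (ι × ι → E) → Prop) {δ : ℝ} (hδ : 0 < δ) (hK : 0 < K) (hw : 0 < w)
    (hw1 : 4 * (Fintype.card (Co ι S) + 1) * Fintype.card (Co ι S) ^ 2 ≤ w)
    (hw2 : (2 * (Fintype.card (Co ι S) : ℝ) ^ 2 / w) ^ 2 ≤ δ ^ 2 * Fintype.card ι / 8)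
    (hK2 : 8 * (Fintype.card ι : ℝ) * w ^ 2 ≤ δ ^ 2 * K)
    (hL : ∀ W, Good W → LipAt g h G W)
    (hs : δ * √(Fintype.card ι * K) ≤
      𝔼 W, if Good W then spread K w fun s => G (view g W, clamp a0 h s) else 0) :
    δ ^ 2 * Fintype.card ι / 4 ≤
      𝔼 W, if Good W then 𝔼 ξ, ∑ c, psiW g K w a0 h G W ξ c ^ 2 else 0 := by
  have hK' : (0 : ℝ) < K := by positivity
  have hN : (0 : ℝ) ≤ Fintype.card ι := Nat.cast_nonneg _
  set e2 := (2 * (Fintype.card (Co ι S) : ℝ) ^ 2 / w) ^ 2 with he2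
  have he0 : 0 ≤ e2 := sq_nonneg _
  have s1 : (δ * √(Fintype.card ι * K)) ^ 2 ≤
      (𝔼 W, if Good W then spread K w fun s => G (view g W, clamp a0 h s) else 0) ^ 2 :=
    pow_le_pow_left₀ (by positivity) hs 2
  rw [mul_pow, Real.sq_sqrt (by positivity)] at s1
  have s2 := s1.trans (core_sq_expect _)
  have s3 : (𝔼 W, (if Good W then spread K w fun s => G (view g W, clamp a0 h s) else 0) ^ 2) ≤
      𝔼 W, (2 * ((Fintype.card ι * w : ℝ) ^ 2 + K * e2) +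
        2 * K * if Good W then 𝔼 ξ, ∑ c, psiW g K w a0 h G W ξ c ^ 2 else 0) := by
    refine expect_le_expect fun W _ => ?_
    split_ifs with hG
    · have := (h1 E S ι g K w a0 h G W hK hw hw1 (hL W hG)).2.2
      linarith
    · have : 0 ≤ 2 * ((Fintype.card ι * w : ℝ) ^ 2 + K * e2) := by positivity
      linarith
  rw [expect_add_distrib, expect_const univ_nonempty, ← mul_expect] at s3
  have s4 := s2.trans s3
  have s5 : (K : ℝ) * e2 ≤ K * (δ ^ 2 * Fintype.card ι / 8) :=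
    mul_le_mul_of_nonneg_left hw2 hK'.le
  have s6 : (Fintype.card ι : ℝ) * (8 * (Fintype.card ι : ℝ) * w ^ 2) ≤
      Fintype.card ι * (δ ^ 2 * K) := mul_le_mul_of_nonneg_left hK2 hN
  refine le_of_mul_le_mul_left ?_ (show (0 : ℝ) < 2 * K by positivity)
  linarith

omit [Fintype ι] [LinearOrder ι] in
/-- Active rows with clashing answers force a large error. -/
theorem core_err {Λ : Type} [Fintype Λ] {θ : ℝ} (hθ : 0 < θ) {r : ℕ} (hr : 2 / θ ≤ r)
    (Ψ : ι × Λ → ℝ) (ΨR : ι → ι × Λ → ℝ) (ans : ι → Λ) {B I : Finset ι} (hI : I ⊆ B)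
    (hc : #I = r) (hact : ∀ a ∈ I, θ ≤ |ΨR a (a, ans a)|)
    (hsum : ∑ a ∈ I, |Ψ (a, ans a)| ≤ 1) :
    θ ^ 2 / 4 ≤ ∑ a ∈ B, ∑ j, (Ψ (a, j) - ΨR a (a, j)) ^ 2 := by
  by_contra hlt
  rw [not_le] at hlt
  have hr0 : (0 : ℝ) < r := lt_of_lt_of_le (by positivity) hr
  have hne : I.Nonempty := by
    rw [← card_pos, hc]
    exact_mod_cast hr0
  have h1 : ∀ a ∈ I, θ / 2 < |Ψ (a, ans a)| := by
    intro a ha
    have h2 : (Ψ (a, ans a) - ΨR a (a, ans a)) ^ 2 ≤ ∑ j, (Ψ (a, j) - ΨR a (a, j)) ^ 2 :=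
      single_le_sum (f := fun j => (Ψ (a, j) - ΨR a (a, j)) ^ 2) (fun _ _ => sq_nonneg _)
        (mem_univ _)
    have h3 : ∑ j, (Ψ (a, j) - ΨR a (a, j)) ^ 2 ≤ ∑ a ∈ B, ∑ j, (Ψ (a, j) - ΨR a (a, j)) ^ 2 :=
      single_le_sum (f := fun a => ∑ j, (Ψ (a, j) - ΨR a (a, j)) ^ 2)
        (fun _ _ => sum_nonneg fun _ _ => sq_nonneg _) (hI ha)
    have h4 : |Ψ (a, ans a) - ΨR a (a, ans a)| < θ / 2 :=
      abs_lt_of_sq_lt_sq (by linarith) (by positivity)
    have h5 := abs_sub_abs_le_abs_sub (ΨR a (a, ans a)) (Ψ (a, ans a))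
    rw [abs_sub_comm] at h5
    linarith [hact a ha]
  have h6 := sum_lt_sum_of_nonempty hne h1
  rw [sum_const, hc, nsmul_eq_mul] at h6
  rw [div_le_iff₀ hθ] at hr
  linarith

open Classical in
theorem core_main (h1 : GoodSt) (h2 : PickSt) [Nonempty S] [Fintype E] [Nonempty E]
    (g : Game E S) {δ p0 : ℝ} (hδ : 0 < δ) (hp : 0 < p0) {r m n K w : ℕ} (a0 h : ℕ)
    (hr : 2 / (δ ^ 2 / 16) ≤ r) (hm : 0 < m) (hn : 0 < n) (eqv : Fin m × Fin n ≃ ι)
    (hNS : ∀ (B : Finset ι) (act : ι → (ι × ι → E) → Prop) (ans : ι → (ι × ι → E) → ι → S),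
      #B = m → (∀ a ∈ B, Local g B a (act a) ∧ Local g B a (ans a)) →
      δ ^ 2 / 16 * #B ≤ ∑ a ∈ B, pr (act a) →
      p0 ≤ pr fun W => ∃ I ⊆ B, #I = r ∧ (∀ a ∈ I, act a W) ∧
        ∀ a ∈ I, ∀ q ∈ I, a ≠ q → Lose g W a q (ans a W q) (ans q W a))
    (hn2 : (8000 * (m : ℝ) ^ 2 + 2) / n *
      (1 / (4 * (δ ^ 2 / 16)) + 8 / ((δ ^ 2 / 16) ^ 2 * p0) * m) ≤ δ ^ 2 / 16)
    (hK : 0 < K) (hw : 0 < w)
    (hw1 : 4 * (Fintype.card (Co ι S) + 1) * Fintype.card (Co ι S) ^ 2 ≤ w)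
    (hw2 : (2 * (Fintype.card (Co ι S) : ℝ) ^ 2 / w) ^ 2 ≤ δ ^ 2 * Fintype.card ι / 8)
    (hK2 : 8 * (Fintype.card ι : ℝ) * w ^ 2 ≤ δ ^ 2 * K) (hh : (h : ℝ) ^ 2 ≤ 4000 * K)
    (G : Pt ι S → ℝ) (Good : (ι × ι → E) → Prop) (hL : ∀ W, Good W → LipAt g h G W)
    (hs : δ * √(Fintype.card ι * K) ≤
      𝔼 W, if Good W then spread K w fun s => G (view g W, clamp a0 h s) else 0) :
    p0 / 2 ≤ pr fun W => ¬ Good W := by
  have hen := core_energy h1 g a0 h G Good hδ hK hw hw1 hw2 hK2 hL hs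
  have hcard : (Fintype.card ι : ℝ) = m * n := by
    rw [← Fintype.card_congr eqv, Fintype.card_prod, Fintype.card_fin, Fintype.card_fin,
      Nat.cast_mul]
  set θ := δ ^ 2 / 16 with hθd
  have hθ : 0 < θ := by positivity
  have hK' : (1 : ℝ) ≤ K := by exact_mod_cast hK
  have : Nonempty (Fin K) := ⟨⟨0, hK⟩⟩
  obtain ⟨ξ, B, hB, hact, herr⟩ := h2 (ι × ι → E) (Xi (Co ι S) K) ι (ι → S) m n eqv Good
    (psiW g K w a0 h G) (psiR g K w a0 h G) θ (8 / (θ ^ 2 * p0)) (8000 * (m : ℝ) ^ 2 + 2)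
    hm hn hθ (by positivity)
    (fun W hG ξ a => by
      have := (h1 E S ι g K w a0 h G W hK hw hw1 (hL W hG)).1
        (univ.map ⟨fun j => (a, j), fun _ _ e => (Prod.ext_iff.1 e).2⟩) (by
          intro c hc c' hc' _
          simp only [coe_map, Set.mem_image] at hc hc'
          obtain ⟨j, -, rfl⟩ := hc
          obtain ⟨j', -, rfl⟩ := hc'
          exact Or.inl rfl) ξ
      rwa [sum_map] at this)
    (fun W hG Rm hR => by
      refine ((h1 E S ι g K w a0 h G W hK hw hw1 (hL W hG)).2.1 Rm).trans ?_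
      rw [div_le_iff₀ (by positivity)]
      have e1 : (#Rm : ℝ) ≤ m := by exact_mod_cast hR
      have e2 : (#Rm * h : ℝ) ^ 2 ≤ m ^ 2 * (4000 * K) := by
        rw [mul_pow]
        exact mul_le_mul (pow_le_pow_left₀ (Nat.cast_nonneg _) e1 2) hh (sq_nonneg _)
          (sq_nonneg _)
      nlinarith [sq_nonneg ((#Rm * h : ℝ) - 1)])
    (by rw [← hcard, hθd]; linarith) hn2
  set act : ι → (ι × ι → E) → Prop := fun a W =>
    ∃ j, θ ≤ |psiR g K w a0 h G (B.erase a) W ξ (a, j)| with hactd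
  set ans : ι → (ι × ι → E) → ι → S := fun a W =>
    Classical.epsilon fun j => θ ≤ |psiR g K w a0 h G (B.erase a) W ξ (a, j)| with hansd
  have hns := hNS B act ans hB (fun a _ => by
    constructor
    · intro W W' e1 e2
      simp only [hactd, psiR, core_mask g B a e1 e2]
    · intro W W' e1 e2
      simp only [hansd, psiR, core_mask g B a e1 e2]) hact
  have hpt : (pr fun W => ∃ I ⊆ B, #I = r ∧ (∀ a ∈ I, act a W) ∧
      ∀ a ∈ I, ∀ q ∈ I, a ≠ q → Lose g W a q (ans a W q) (ans q W a)) ≤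
      (pr fun W => ¬ Good W) + 4 / θ ^ 2 * 𝔼 W, if Good W then ∑ a ∈ B, ∑ j,
        (psiW g K w a0 h G W ξ (a, j) - psiR g K w a0 h G (B.erase a) W ξ (a, j)) ^ 2 else 0 := by
    unfold pr
    rw [mul_expect, ← expect_add_distrib]
    refine expect_le_expect fun W _ => ?_
    by_cases hG : Good W
    · rw [if_pos hG, if_neg (not_not.2 hG), zero_add]
      split_ifs with hev
      · obtain ⟨I, hI, hc, ha, hl⟩ := hev
        have hsum := (h1 E S ι g K w a0 h G W hK hw hw1 (hL W hG)).1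
          (I.map ⟨fun a => (a, ans a W), fun _ _ e => (Prod.ext_iff.1 e).1⟩) (by
            intro c hc c' hc' _
            simp only [coe_map, Set.mem_image] at hc hc'
            obtain ⟨a, ha, rfl⟩ := hc
            obtain ⟨b, hb, rfl⟩ := hc'
            by_cases hab : a = b
            · exact Or.inl hab
            · exact Or.inr (hl a ha b hb hab)) ξ
        rw [sum_map] at hsum
        have := core_err hθ hr (psiW g K w a0 h G W ξ)
          (fun a => psiR g K w a0 h G (B.erase a) W ξ) (fun a => ans a W) hI hc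
          (fun a ha' => Classical.epsilon_spec (ha a ha')) hsum
        rw [div_mul_eq_mul_div, le_div_iff₀ (by positivity)]
        linarith
      · exact mul_nonneg (by positivity)
          (sum_nonneg fun _ _ => sum_nonneg fun _ _ => sq_nonneg _)
    · rw [if_neg hG, if_pos hG, mul_zero, add_zero]
      split_ifs <;> norm_num
  have h3 := mul_le_mul_of_nonneg_left herr (show 0 ≤ 4 / θ ^ 2 by positivity)
  have h4 : 4 / θ ^ 2 * (1 / (8 / (θ ^ 2 * p0))) = p0 / 2 := by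
    field_simp
    norm_num
  linarith

end

theorem core_ok (h1 : GoodSt) (h2 : PickSt) (h3 : NSSt) : CoreSt := by
  intro δ γ hδ hγ q hq
  obtain ⟨m0, p0, hp, hNS⟩ := h3 γ hγ ⌈2 / (δ ^ 2 / 16)⌉₊ (δ ^ 2 / 16) (by positivity)
  set m := m0 + 1 with hm
  set C : ℝ := (8000 * (m : ℝ) ^ 2 + 2) *
    (1 / (4 * (δ ^ 2 / 16)) + 8 / ((δ ^ 2 / 16) ^ 2 * p0) * m) with hC
  set n := ⌈C / (δ ^ 2 / 16)⌉₊ + 1 with hn
  have hn0 : 0 < n := Nat.succ_pos _
  have hm0 : 0 < m := Nat.succ_pos _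
  have hn1 : C / (δ ^ 2 / 16) ≤ n := (Nat.le_ceil _).trans (by rw [hn]; push_cast; linarith)
  set N := m * n with hN
  have hN0 : 0 < N := Nat.mul_pos hm0 hn0
  have hN1 : (1 : ℝ) ≤ N := by exact_mod_cast hN0
  set Q := Fintype.card (Co (Fin N) (Fin q)) with hQ
  set w := 4 * (Q + 1) * Q ^ 2 + ⌈8 * (Q : ℝ) ^ 2 / δ⌉₊ + 1 with hw
  have hw0 : 0 < w := Nat.succ_pos _
  have hw0' : (0 : ℝ) < w := by exact_mod_cast hw0
  have hw2 : 8 * (Q : ℝ) ^ 2 / δ ≤ w := (Nat.le_ceil _).trans (Nat.cast_le.2 (by omega))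
  refine ⟨N, w, ⌈8 * (N : ℝ) * w ^ 2 / δ ^ 2⌉₊ + 1, p0 / 2, hN0, hw0, by positivity, ?_⟩
  intro K hK a0 h hh E _ _ g hg G Good hL hs
  have : Nonempty (Fin q) := ⟨⟨0, hq⟩⟩
  have hK2 : 8 * (N : ℝ) * w ^ 2 / δ ^ 2 ≤ K :=
    (Nat.le_ceil _).trans (Nat.cast_le.2 (by omega))
  refine core_main (K := K) (w := w) h1 h2 g hδ hp a0 h (Nat.le_ceil _) hm0 hn0 finProdFinEquiv
    (fun B act ans hB => hNS E (Fin q) (Fin N) g hg B act ans (by omega)) ?_ (by omega) hw0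
    (by change 4 * (Q + 1) * Q ^ 2 ≤ w; omega) ?_ ?_ hh G Good hL ?_
  · rw [div_mul_eq_mul_div, ← hC, div_le_iff₀ (by positivity)]
    rw [div_le_iff₀ (by positivity)] at hn1
    linarith
  · change (2 * (Q : ℝ) ^ 2 / w) ^ 2 ≤ δ ^ 2 * Fintype.card (Fin N) / 8
    rw [Fintype.card_fin]
    have e1 : 2 * (Q : ℝ) ^ 2 / w ≤ δ / 4 := by
      rw [div_le_iff₀ hδ] at hw2
      rw [div_le_iff₀ hw0']
      linarith
    have e2 := pow_le_pow_left₀ (by positivity) e1 2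
    nlinarith [mul_le_mul_of_nonneg_left hN1 (sq_nonneg δ), sq_nonneg δ]
  · rw [Fintype.card_fin]
    rw [div_le_iff₀ (by positivity)] at hK2
    linarith
  · rw [Fintype.card_fin]
    exact hs

end Pool.Agent.P.MP_9cbceb_lc
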