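import Pool.Agent.P.MP_9cbceb_lc.Basic

/-! Level-one Fourier coefficients on the cube, and the variance of a Doob martingale. -/

namespace Pool.Agent.P.MP_9cbceb_lc

open Finset
open scoped BigOperators

section

variable {Q : Type} [Fintype Q] [DecidableEq Q]

theorem cube_odd (G : (Q → Bool) → ℝ) (c : Q)
    (h : ∀ β, G (Function.update β c (!β c)) = -G β) : 𝔼 β, G β = 0 := by
  have hi : Function.Involutive fun β : Q → Bool => Function.update β c (!β c) := fun β => by
    simp
  have h1 : 𝔼 β, -G β = 𝔼 β, G β :=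
    Fintype.expect_bijective _ hi.bijective _ _ fun β => (h β).symm
  rw [expect_neg_distrib] at h1
  linarith

theorem cube_not (b : Bool) : chi (!b) = -chi b := by cases b <;> simp [chi]

theorem cube_orth (c c' : Q) :
    𝔼 β : Q → Bool, chi (β c) * chi (β c') = if c = c' then 1 else 0 := by
  split_ifs with h
  · subst h
    have : ∀ b, chi b * chi b = 1 := fun b => by cases b <;> simp [chi]
    simp only [this, Fintype.expect_const]
  · refine cube_odd _ c fun β => ?_
    rw [Function.update_self, Function.update_of_ne (Ne.symm h), cube_not, neg_mul]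

theorem cube_ident (F : (Q → Bool) → ℝ) (a : ℝ) (t : Q → ℝ) :
    𝔼 β, (F β - a - ∑ c, t c * chi (β c)) ^ 2 =
      (𝔼 β, F β ^ 2) - (𝔼 β, F β) ^ 2 - ∑ c, (𝔼 β, F β * chi (β c)) ^ 2 + (a - 𝔼 β, F β) ^ 2 +
        ∑ c, ((𝔼 β, F β * chi (β c)) - t c) ^ 2 := by
  have h1 : 𝔼 β : Q → Bool, ∑ c, t c * chi (β c) = 0 := by
    rw [expect_sum_comm]
    refine sum_eq_zero fun c _ => cube_odd _ c fun β => ?_
    rw [Function.update_self, cube_not, mul_neg]
  have h2 : 𝔼 β, F β * ∑ c, t c * chi (β c) = ∑ c, t c * 𝔼 β, F β * chi (β c) := by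
    simp only [mul_sum, mul_expect]
    rw [expect_sum_comm]
    exact sum_congr rfl fun c _ => expect_congr rfl fun β _ => by ring
  have h3 : 𝔼 β : Q → Bool, (∑ c, t c * chi (β c)) ^ 2 = ∑ c, t c ^ 2 := by
    simp only [pow_two, sum_mul_sum]
    rw [expect_sum_comm]
    refine sum_congr rfl fun c _ => ?_
    rw [expect_sum_comm]
    have : ∀ c', 𝔼 β : Q → Bool, t c * chi (β c) * (t c' * chi (β c')) =
        if c = c' then t c * t c' else 0 := fun c' => by
      rw [← mul_boole, ← cube_orth, mul_expect]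
      exact expect_congr rfl fun β _ => by ring
    simp [this]
  have h4 : ∀ β, (F β - a - ∑ c, t c * chi (β c)) ^ 2 =
      F β ^ 2 - 2 * a * F β - 2 * (F β * ∑ c, t c * chi (β c)) + a ^ 2 +
        2 * a * ∑ c, t c * chi (β c) + (∑ c, t c * chi (β c)) ^ 2 := fun β => by ring
  simp only [h4, expect_add_distrib, expect_sub_distrib, ← mul_expect, h1, h2, h3,
    Fintype.expect_const]
  have h5 : ∑ c, ((𝔼 β, F β * chi (β c)) - t c) ^ 2 = ∑ c, (𝔼 β, F β * chi (β c)) ^ 2 -
      2 * ∑ c, t c * (𝔼 β, F β * chi (β c)) + ∑ c, t c ^ 2 := by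
    rw [mul_sum, ← sum_sub_distrib, ← sum_add_distrib]
    exact sum_congr rfl fun c _ => by ring
  rw [h5]
  ring

theorem cube_upd {K : ℕ} (G : (Fin K → Q → Bool) → ℝ) (k : Fin K) :
    𝔼 b, 𝔼 β, G (Function.update b k β) = 𝔼 b, G b := by
  have hi : Function.Involutive fun p : (Fin K → Q → Bool) × (Q → Bool) =>
      (Function.update p.1 k p.2, p.1 k) := fun p => by simp
  have h1 := Fintype.expect_bijective _ hi.bijective
    (fun p => G (Function.update p.1 k p.2)) (fun p => G p.1) fun p => rfl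
  rw [← univ_product_univ, expect_product, expect_product] at h1
  simpa only [Fintype.expect_const] using h1

theorem cube_cex {K w : ℕ} (f : (Q → ℕ) → ℝ) (k : Fin K) (b : Fin K → Q → Bool) :
    𝔼 β, cex K w f (k + 1) (Function.update b k β) = cex K w f k b := by
  have h1 : ∀ (β : Q → Bool) (x : Fin K → Q → Bool),
      (fun j : Fin K => if (j : ℕ) < k + 1 then Function.update b k β j else x j) =
        fun j : Fin K => if (j : ℕ) < k then b j else Function.update x k β j := fun β x => by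
    funext j
    by_cases h : j = k
    · subst h; simp
    · have h2 : (j : ℕ) ≠ k := fun h3 => h (Fin.ext h3)
      rw [Function.update_of_ne h, Function.update_of_ne h]
      exact if_congr (by omega) rfl rfl
  unfold cex
  simp only [h1, ← univ_product_univ, expect_product]
  rw [expect_comm]
  exact cube_upd (fun x => 𝔼 U : Q → Fin w,
    f (sums (fun j : Fin K => if (j : ℕ) < k then b j else x j, U))) k

end

theorem cube_ok : CubeSt := by
  intro Q _ _ F
  have h1 : ∑ c, (𝔼 β, F β * chi (β c)) ^ 2 ≤ (𝔼 β, F β ^ 2) - (𝔼 β, F β) ^ 2 := by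
    have h := cube_ident F (𝔼 β, F β) fun c => 𝔼 β, F β * chi (β c)
    have h0 : 0 ≤ 𝔼 β, (F β - (𝔼 β, F β) - ∑ c, (𝔼 β, F β * chi (β c)) * chi (β c)) ^ 2 :=
      expect_nonneg fun _ _ => sq_nonneg _
    simp only [sub_self, ne_eq, OfNat.ofNat_ne_zero, not_false_eq_true, zero_pow, sum_const_zero,
      add_zero] at h
    linarith
  refine ⟨h1, fun a0 e D hD => ?_⟩
  have h := cube_ident F (a0 + ∑ c, D c / 2) fun c => D c / 2
  have h2 : 𝔼 β, (F β - (a0 + ∑ c, D c / 2) - ∑ c, D c / 2 * chi (β c)) ^ 2 ≤ e ^ 2 := by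
    refine expect_le univ_nonempty fun β _ => ?_
    have h3 : ∑ c, (if β c then D c else 0) = ∑ c, D c / 2 + ∑ c, D c / 2 * chi (β c) := by
      rw [← sum_add_distrib]
      exact sum_congr rfl fun c _ => by cases β c <;> simp [chi]
    have h4 := hD β
    rw [h3, abs_le] at h4
    exact sq_le_sq' (by linarith) (by linarith)
  have h3 : 0 ≤ ∑ c, ((𝔼 β, F β * chi (β c)) - D c / 2) ^ 2 := sum_nonneg fun _ _ => sq_nonneg _
  have h4 := sq_nonneg (a0 + ∑ c, D c / 2 - 𝔼 β, F β)
  refine ⟨by linarith, fun c => ?_⟩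
  have h5 := single_le_sum (f := fun c => ((𝔼 β, F β * chi (β c)) - D c / 2) ^ 2)
    (fun _ _ => sq_nonneg _) (mem_univ c)
  exact abs_le_of_sq_le_sq (by linarith) ((abs_nonneg _).trans (hD fun _ => true))

theorem mart_ok : MartSt := by
  intro Q _ _ K w f _
  have h1 : ∀ k : Fin K, 𝔼 b : Fin K → Q → Bool,
      ((𝔼 β, cex K w f (k + 1) (Function.update b k β) ^ 2) -
        (𝔼 β, cex K w f (k + 1) (Function.update b k β)) ^ 2) =
      (𝔼 b, cex K w f (k + 1) b ^ 2) - 𝔼 b, cex K w f k b ^ 2 := fun k => by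
    simp only [cube_cex, expect_sub_distrib]
    rw [cube_upd (fun b => cex K w f (k + 1) b ^ 2) k]
  simp only [h1]
  rw [Fin.sum_univ_eq_sum_range (fun k => (𝔼 b, cex K w f (k + 1) b ^ 2) - 𝔼 b, cex K w f k b ^ 2),
    sum_range_sub (fun k => 𝔼 b, cex K w f k b ^ 2)]
  unfold cex
  simp only [Fin.is_lt, if_true, Nat.not_lt_zero, if_false, Fintype.expect_const]
  congr 1
  refine expect_congr rfl fun b _ => ?_
  rw [← univ_product_univ, expect_product]
  simp only [Fintype.expect_const]

end Pool.Agent.P.MP_9cbceb_lc
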