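import Pool.Agent.P.MP_9cbceb_lc.Basic

namespace Pool.Agent.P.MP_9cbceb_lc

open Pool.Agent.Lib.helper21 Finset
open scoped BigOperators

theorem gap_count (q : ℕ) (I : Inst) (l1 l2 : ℕ → Fin q) :
    #{e | (gameOf q I).R e (l1 ((gameOf q I).v e)) (l2 ((gameOf q I).u e)) = false} =
      viol q I (fun x => l1 x) fun x => l2 x := by
  rw [viol, List.countP_eq_length_filter, ← List.countP_eq_length_filter]
  conv_rhs => rw [← List.ofFn_getElem (xs := I), List.ofFn_eq_map, List.countP_map]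
  rw [List.countP_eq_length_filter, ← List.toFinset_card_of_nodup
    ((List.nodup_finRange _).filter _)]
  congr 1
  ext e
  simp [gameOf]

theorem gap_yes {q : ℕ} {I : Inst} (h : Sat q I) : (gameOf q I).Yes := by
  obtain ⟨a, ha, h0⟩ := h
  refine ⟨fun x => ⟨a x, ha x⟩, fun x => ⟨a x, ha x⟩, fun e => ?_⟩
  have := List.countP_eq_zero.1 h0 I[e] (List.getElem_mem e.2)
  simpa [gameOf] using this

theorem gap_no {q : ℕ} {I : Inst} {γ : ℝ} (h : Gap2 q I γ) : (gameOf q I).No γ := by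
  intro l1 l2
  rw [gap_count, Fintype.card_fin]
  exact h _ _ (fun x => (l1 x).2) fun x => (l2 x).2

theorem gap_cap {E : Type} [Fintype E] {N q : ℕ} (g : Game E (Fin q)) (h : ℕ)
    (S S' : Pt (Fin N) (Fin q) → ℕ → Bool) (e : ∀ x, ∀ i ≤ N * h + 1, S x i = S' x i) :
    capG g N h S = capG g N h S' := by
  unfold capG capF arcs
  refine sum_congr rfl fun z _ => sum_congr rfl fun i hi => ?_
  have hi' := mem_range.1 hi
  rw [e _ i hi'.le, e _ i hi'.le, e _ (i + 1) hi', e _ (i + 1) hi']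

theorem gap_dem {E : Type} [Fintype E] {N q : ℕ} (g : Game E (Fin q)) (K w a0 h : ℕ)
    (S S' : Pt (Fin N) (Fin q) → ℕ → Bool) (e : ∀ x, ∀ i ≤ N * h + 1, S x i = S' x i) :
    demG g N K w a0 h S = demG g N K w a0 h S' := by
  unfold demG
  refine sum_congr rfl fun W _ => sum_congr rfl fun ω _ => sum_congr rfl fun ω' _ =>
    sum_congr rfl fun i hi => ?_
  have hi' := mem_range.1 hi
  rw [e _ i hi'.le, e _ i hi'.le]

theorem gap_ok (h1 : HonestSt) (h2 : CoreSt) (h3 : BaseYesSt) (h4 : BaseNoSt) (h5 : ConcSt)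
    (h6 : CompYesSt) (h7 : CompNoSt) (h8 : CompPTSt) : GapSt := by
  intro C γ q hC hγ hq
  obtain ⟨c0, hc0, h1⟩ := h1
  obtain ⟨N, w, K0, p, hN, hw, hp, h2⟩ := h2 (c0 / (2 * C)) γ (by positivity) hγ q hq
  obtain ⟨K, hK0, hKw, hK⟩ : ∃ K, K0 ≤ K ∧ w ^ 2 ≤ K ∧ 100 ≤ K :=
    ⟨K0 + w ^ 2 + 100, by omega, by omega, by omega⟩
  obtain ⟨a0, h, hh, h1⟩ := h1 w hw K hKw hK
  have hs : 0 < √((N : ℝ) * K) := by
    have : 0 < K := by omega
    positivity
  set s := √((N : ℝ) * K) with hsdef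
  obtain ⟨κ, hκ, h4⟩ := h4 N q K w a0 h (c0 / (2 * C) * s) p hw (by positivity) hp
  obtain ⟨nm, f, hf, hn0, hn1, hext, h5⟩ := h5 N q K w a0 h
  have hO : (0 : ℝ) < (Fintype.card (Om (Co (Fin N) (Fin q)) K w) : ℝ) ^ 2 := by
    have : Nonempty (Om (Co (Fin N) (Fin q)) K w) := ⟨(fun _ _ => true, fun _ => ⟨0, hw⟩)⟩
    have := Fintype.card_pos (α := Om (Co (Fin N) (Fin q)) K w)
    positivity
  have h3' := h3 N q K w a0 h (c0 * s) hw fun hc hinj => h1 _ N hc hinj
  set O := (Fintype.card (Om (Co (Fin N) (Fin q)) K w) : ℝ) ^ 2 with hOdef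
  have hmu : 0 < mu N q h := Nat.mul_pos (by norm_num) Fintype.card_pos
  obtain ⟨l, hl, hlk⟩ : ∃ l : ℕ, 0 < l ∧ (mu N q h : ℝ) * κ ≤ l * (c0 / (2 * C) * s * O) := by
    obtain ⟨l, hl⟩ := exists_nat_ge ((mu N q h : ℝ) * κ / (c0 / (2 * C) * s * O))
    have h0 : 0 < c0 / (2 * C) * s * O := by positivity
    rw [div_le_iff₀ h0] at hl
    refine ⟨l + 1, by omega, hl.trans ?_⟩
    push_cast
    nlinarith
  have hl' : (0 : ℝ) < l := by exact_mod_cast hl
  have hmu' : (0 : ℝ) < mu N q h := by exact_mod_cast hmu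
  refine ⟨mu N q h / (l * (c0 * s * O)), by positivity,
    fun I => comp (f I).1 (f I).2.1 (f I).2.2 l, (h8 l).comp hf, fun I hI => ?_⟩
  obtain ⟨hM, h5⟩ := h5 I hI
  have hlen : 0 < I.length := List.length_pos_iff.2 hI.1
  have : Nonempty (Fin I.length) := ⟨⟨0, hlen⟩⟩
  have hn : 0 < I.length ^ (N * N) := by positivity
  have hn' : (0 : ℝ) < (I.length : ℝ) ^ (N * N) := by positivity
  have hMpos : 0 < (f I).2.2 := by rw [hM]; positivity
  have hM' : ((f I).2.2 : ℝ) = mu N q h * (I.length : ℝ) ^ (N * N) := by rw [hM]; push_cast; rfl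
  refine ⟨fun hS => ?_, fun hG T => ?_⟩
  · obtain ⟨S', e0, e1, ec, ed⟩ := h3' _ (gameOf q I) (gap_yes hS)
    obtain ⟨S, s0, s1, eS⟩ := hext S' e0 e1
    rw [Fintype.card_fin] at ec ed
    rw [← gap_dem _ K w a0 h _ _ eS, ← (h5 S).2] at ed
    rw [← gap_cap _ h _ _ eS, ← (h5 S).1, ← hM] at ec
    obtain ⟨T, -, -, t1, t2⟩ := h6 (f I).1 (f I).2.1 (f I).2.2 S s0 s1 ec l
    have t3 : (cnt T (comp (f I).1 (f I).2.1 (f I).2.2 l).2 : ℝ) * (f I).2.2 =
        l * cnt S (f I).2.1 * ((f I).2.2 : ℝ) ^ l := by exact_mod_cast t2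
    have hMl : (0 : ℝ) < ((f I).2.2 : ℝ) ^ l := by positivity
    have t4 : l * (c0 * s * O) * ((f I).2.2 : ℝ) ^ l ≤
        mu N q h * cnt T (comp (f I).1 (f I).2.1 (f I).2.2 l).2 := by
      refine le_of_mul_le_mul_right ?_ hn'
      have := mul_le_mul_of_nonneg_left ed (mul_pos hl' hMl).le
      rw [hM'] at t3 this ⊢
      linarith
    refine ⟨T, ?_, ?_⟩
    · have : (0 : ℝ) < mu N q h * cnt T (comp (f I).1 (f I).2.1 (f I).2.2 l).2 :=
        lt_of_lt_of_le (by positivity) t4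
      exact_mod_cast (mul_pos_iff_of_pos_left hmu').1 this
    · rw [t1, div_mul_eq_mul_div, le_div_iff₀ (by positivity)]
      push_cast
      linarith
  · have h4' := fun S : ℕ → Bool => h4 _ (gameOf q I)
      (h2 K hK0 a0 h hh _ (gameOf q I) (gap_no hG)) (fun x i => S (nm x i)) (S 0) (S 1)
      (fun x => by rw [hn0]) fun x => by rw [hn1]
    have := h7 (f I).1 (f I).2.1 (f I).2.2 l (c0 / (2 * C) * s * O * (I.length : ℝ) ^ (N * N)) κ
      hMpos hl (by positivity) hκ ?_ (fun S hS => ?_) (fun S hS => ?_) T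
    · rw [hM'] at this
      rw [← mul_div_assoc, div_mul_eq_mul_div, div_le_iff₀ (by positivity)]
      refine le_of_mul_le_mul_right ?_ hn'
      have h9 := mul_le_mul_of_nonneg_left this hC.le
      have h10 : C * (2 * l * (c0 / (2 * C) * s * O * (I.length : ℝ) ^ (N * N)) *
          cnt T (comp (f I).1 (f I).2.1 (f I).2.2 l).1) =
          cnt T (comp (f I).1 (f I).2.1 (f I).2.2 l).1 * (l * (c0 * s * O)) *
            (I.length : ℝ) ^ (N * N) := by
        field_simp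
      linarith
    · rw [hM']
      have := mul_le_mul_of_nonneg_right hlk hn'.le
      linarith
    · have := (h4' S).1 hS
      rwa [Fintype.card_fin, ← (h5 S).1, ← (h5 S).2, ← hM] at this
    · have := (h4' S).2 hS
      rwa [← (h5 S).1, ← (h5 S).2] at this

end Pool.Agent.P.MP_9cbceb_lc
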