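import Pool.Agent.P.MP_9cbceb_lc.Basic

/-! The spread of a sum of independent clamped coordinates. -/

namespace Pool.Agent.P.MP_9cbceb_lc

open Finset
open scoped BigOperators

theorem honest_prod {A B : Type} [Fintype A] [Fintype B] (f : A → B → ℝ) :
    𝔼 p : A × B, f p.1 p.2 = 𝔼 a, 𝔼 b, f a b := by
  rw [← expect_product', univ_product_univ]

theorem honest_poly {T : Type} [Fintype T] [Nonempty T] (Y : T → ℝ) (a b c d e : ℝ) :
    𝔼 t, (a + b * Y t + c * Y t ^ 2 + d * Y t ^ 3 + e * Y t ^ 4) =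
      a + b * (𝔼 t, Y t) + c * (𝔼 t, Y t ^ 2) + d * (𝔼 t, Y t ^ 3) + e * 𝔼 t, Y t ^ 4 := by
  simp only [expect_add_distrib, ← mul_expect, Fintype.expect_const]

theorem honest_upd {Q T : Type} [Fintype Q] [DecidableEq Q] [Fintype T] [Nonempty T] (c : Q)
    (H : (Q → T) → ℝ) : 𝔼 x, H x = 𝔼 x, 𝔼 t, H (Function.update x c t) := by
  have h : Function.Involutive fun p : (Q → T) × T => (Function.update p.1 c p.2, p.1 c) := by
    intro p
    simp
  rw [← honest_prod fun x t => H (Function.update x c t),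
    Fintype.expect_bijective _ h.bijective _ (fun p => H p.1) fun _ => rfl,
    honest_prod fun x (_ : T) => H x]
  simp only [Fintype.expect_const]

theorem honest_mom {Q T : Type} [Fintype Q] [DecidableEq Q] [Fintype T] [Nonempty T] (Y : T → ℝ)
    (M : ℝ) (h1 : 𝔼 t, Y t = 0) (h2 : (𝔼 t, Y t ^ 2) ^ 2 ≤ M) (h4 : 𝔼 t, Y t ^ 4 ≤ M)
    (A : Finset Q) : (𝔼 x : Q → T, ∑ c ∈ A, Y (x c)) = 0 ∧
      (𝔼 x : Q → T, (∑ c ∈ A, Y (x c)) ^ 2) = #A * 𝔼 t, Y t ^ 2 ∧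
      (𝔼 x : Q → T, (∑ c ∈ A, Y (x c)) ^ 4) ≤ 3 * #A ^ 2 * M := by
  induction A using Finset.induction_on with
  | empty => simp
  | insert c A hc ih =>
    obtain ⟨i1, i2, i4⟩ := ih
    have hS : ∀ (x : Q → T) (t : T), ∑ c' ∈ insert c A, Y (Function.update x c t c') =
        Y t + ∑ c' ∈ A, Y (x c') := by
      intro x t
      rw [sum_insert hc, Function.update_self]
      exact congrArg _ (sum_congr rfl fun c' h' => by
        rw [Function.update_of_ne (fun h : c' = c => hc (h ▸ h'))])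
    have e1 : ∀ s : ℝ, 𝔼 t, (Y t + s) = s := fun s => by
      rw [expect_add_distrib, h1, Fintype.expect_const, zero_add]
    have e2 : ∀ s : ℝ, 𝔼 t, (Y t + s) ^ 2 = (𝔼 t, Y t ^ 2) + s ^ 2 := fun s => by
      have := honest_poly Y (s ^ 2) (2 * s) 1 0 0
      rw [h1] at this
      rw [expect_congr rfl fun t _ => show (Y t + s) ^ 2 =
        s ^ 2 + 2 * s * Y t + 1 * Y t ^ 2 + 0 * Y t ^ 3 + 0 * Y t ^ 4 by ring, this]
      ring
    have e4 : ∀ s : ℝ, 𝔼 t, (Y t + s) ^ 4 = (𝔼 t, Y t ^ 4) + (4 * 𝔼 t, Y t ^ 3) * s +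
        (6 * 𝔼 t, Y t ^ 2) * s ^ 2 + 0 * s ^ 3 + 1 * s ^ 4 := fun s => by
      have := honest_poly Y (s ^ 4) (4 * s ^ 3) (6 * s ^ 2) (4 * s) 1
      rw [h1] at this
      rw [expect_congr rfl fun t _ => show (Y t + s) ^ 4 = s ^ 4 + 4 * s ^ 3 * Y t +
        6 * s ^ 2 * Y t ^ 2 + 4 * s * Y t ^ 3 + 1 * Y t ^ 4 by ring, this]
      ring
    refine ⟨?_, ?_, ?_⟩
    · rw [honest_upd c]
      simp only [hS, e1]
      exact i1
    · rw [honest_upd c]
      simp only [hS, e2]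
      rw [expect_add_distrib, Fintype.expect_const, i2, card_insert_of_notMem hc]
      push_cast
      ring
    · rw [honest_upd c]
      simp only [hS, e4]
      rw [honest_poly (fun x : Q → T => ∑ c' ∈ A, Y (x c')), i1, i2, card_insert_of_notMem hc]
      push_cast
      have hM : 0 ≤ M := (sq_nonneg _).trans h2
      have hn : (0 : ℝ) ≤ #A := Nat.cast_nonneg _
      nlinarith [mul_le_mul_of_nonneg_left h2 hn]

/-- the signed sum of the steps -/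
def honest_Z {K : ℕ} (b : Fin K → Bool) : ℝ := ∑ k, chi (b k)

theorem honest_card {K : ℕ} (b : Fin K → Bool) :
    (#{k | b k = true} : ℝ) = K / 2 + honest_Z b / 2 := by
  have : ∀ k, (if b k = true then (1 : ℝ) else 0) = 1 / 2 + chi (b k) / 2 := fun k => by
    unfold chi
    split_ifs <;> norm_num
  rw [card_filter]
  push_cast
  simp only [this, sum_add_distrib, honest_Z, ← sum_div]
  simp

theorem honest_Zmom (K : ℕ) : (𝔼 b : Fin K → Bool, honest_Z b) = 0 ∧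
    (𝔼 b : Fin K → Bool, honest_Z b ^ 2) = K ∧
    (𝔼 b : Fin K → Bool, honest_Z b ^ 4) ≤ 3 * K ^ 2 := by
  have h2 : 𝔼 t, chi t ^ 2 = 1 := by rw [Fintype.expect_eq_sum_div_card]; simp [chi]
  have := honest_mom (Q := Fin K) chi 1 (by rw [Fintype.expect_eq_sum_div_card]; simp [chi])
    (by rw [h2]; norm_num) (by rw [Fintype.expect_eq_sum_div_card]; simp [chi]; norm_num) univ
  rw [h2] at this
  simpa [honest_Z] using this

theorem honest_Zpoly (K : ℕ) (a b c e : ℝ) (he : 0 ≤ e) : a + c * K - 3 * e * K ^ 2 ≤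
    𝔼 x : Fin K → Bool, (a + b * honest_Z x + c * honest_Z x ^ 2 + 0 * honest_Z x ^ 3 +
      (-e) * honest_Z x ^ 4) := by
  obtain ⟨h1, h2, h4⟩ := honest_Zmom K
  rw [honest_poly, h1, h2]
  nlinarith [mul_le_mul_of_nonneg_left h4 he]

/-- the clamped coordinate -/
def honest_phi {K w : ℕ} (H : ℕ) (t : (Fin K → Bool) × Fin w) : ℝ :=
  (min (2 * H + 1) (t.2 + #{k | t.1 k = true} - (K / 2 - H)) : ℕ)

theorem honest_phi_eq {K w : ℕ} (H : ℕ) (t : (Fin K → Bool) × Fin w)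
    (h : ((t.2 : ℕ) + honest_Z t.1 / 2 : ℝ) ^ 2 ≤ (H : ℝ) ^ 2) :
    honest_phi H t = (t.2 : ℕ) + honest_Z t.1 / 2 + K / 2 - ((K / 2 - H : ℕ) : ℝ) := by
  obtain ⟨h1, h2⟩ := abs_le.1 (abs_le_of_sq_le_sq h (Nat.cast_nonneg _))
  have h3 := honest_card t.1
  have a1 : K ≤ 2 * (t.2 + #{k | t.1 k = true}) + 2 * H := by
    have : (K : ℝ) ≤ 2 * ((t.2 : ℕ) + #{k | t.1 k = true}) + 2 * H := by linarith
    exact_mod_cast this
  have a2 : 2 * (t.2 + #{k | t.1 k = true}) ≤ K + 2 * H := by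
    have : 2 * (((t.2 : ℕ) : ℝ) + #{k | t.1 k = true}) ≤ K + 2 * H := by linarith
    exact_mod_cast this
  unfold honest_phi
  rw [min_eq_right (by omega), Nat.cast_sub (by omega)]
  push_cast
  linarith

theorem honest_r4 {u z k : ℝ} (hu : u ^ 2 ≤ k) : (u + z / 2) ^ 4 ≤ 8 * k ^ 2 + z ^ 4 / 2 := by
  have h1 : (u + z / 2) ^ 2 ≤ 2 * u ^ 2 + z ^ 2 / 2 := by nlinarith [sq_nonneg (u - z / 2)]
  have h2 : ((u + z / 2) ^ 2) ^ 2 ≤ (2 * k + z ^ 2 / 2) ^ 2 :=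
    pow_le_pow_left₀ (sq_nonneg _) (by linarith) 2
  nlinarith [sq_nonneg (2 * k - z ^ 2 / 2)]

theorem honest_point {K w : ℕ} (H : ℕ) (hK : 0 < K) (hH : 324 * (K : ℝ) ≤ (H : ℝ) ^ 2)
    (hw : w ^ 2 ≤ K) (t t' : (Fin K → Bool) × Fin w) :
    ((t.2 : ℕ) + honest_Z t.1 / 2 - ((t'.2 : ℕ) + honest_Z t'.1 / 2)) ^ 2 -
      (16 * K ^ 2 + honest_Z t.1 ^ 4 / 2 + honest_Z t'.1 ^ 4 / 2) / (81 * K) ≤
      (honest_phi H t - honest_phi H t') ^ 2 := by
  have hK' : (0 : ℝ) < K := Nat.cast_pos.2 hK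
  have hu : ∀ u : Fin w, ((u : ℕ) : ℝ) ^ 2 ≤ K := fun u => by
    exact_mod_cast (Nat.pow_le_pow_left u.2.le 2).trans hw
  have b1 := honest_r4 (z := honest_Z t.1) (hu t.2)
  have b2 := honest_r4 (z := honest_Z t'.1) (hu t'.2)
  by_cases h : ((t.2 : ℕ) + honest_Z t.1 / 2 : ℝ) ^ 2 ≤ (H : ℝ) ^ 2 ∧
      ((t'.2 : ℕ) + honest_Z t'.1 / 2 : ℝ) ^ 2 ≤ (H : ℝ) ^ 2
  · rw [honest_phi_eq H t h.1, honest_phi_eq H t' h.2]
    have : 0 ≤ (16 * (K : ℝ) ^ 2 + honest_Z t.1 ^ 4 / 2 + honest_Z t'.1 ^ 4 / 2) / (81 * K) := by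
      positivity
    nlinarith
  · refine le_trans (sub_nonpos.2 ?_) (sq_nonneg _)
    rw [le_div_iff₀ (by positivity)]
    generalize ((t.2 : ℕ) + honest_Z t.1 / 2 : ℝ) = r at *
    generalize ((t'.2 : ℕ) + honest_Z t'.1 / 2 : ℝ) = r' at *
    have c1 : 324 * (K : ℝ) ≤ r ^ 2 + r' ^ 2 := by
      rcases not_and_or.1 h with h | h <;> nlinarith [sq_nonneg r, sq_nonneg r']
    have c2 : (r - r') ^ 2 ≤ 2 * (r ^ 2 + r' ^ 2) := by nlinarith [sq_nonneg (r + r')]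
    have c3 : (r - r') ^ 2 * (324 * K) ≤ 2 * (r ^ 2 + r' ^ 2) * (r ^ 2 + r' ^ 2) :=
      mul_le_mul c2 c1 (by positivity) (by positivity)
    nlinarith [sq_nonneg (r ^ 2 - r' ^ 2)]

theorem honest_var {K w : ℕ} (H : ℕ) (hK : 0 < K) (hH : 324 * (K : ℝ) ≤ (H : ℝ) ^ 2)
    (h0 : 0 < w) (hw : w ^ 2 ≤ K) : (K : ℝ) / 4 ≤
    𝔼 p : ((Fin K → Bool) × Fin w) × ((Fin K → Bool) × Fin w),
      (honest_phi H p.1 - honest_phi H p.2) ^ 2 := by
  have hK' : (0 : ℝ) < K := Nat.cast_pos.2 hK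
  have : Nonempty (Fin w) := ⟨⟨0, h0⟩⟩
  rw [honest_prod fun t t' : (Fin K → Bool) × Fin w => (honest_phi H t - honest_phi H t') ^ 2,
    honest_prod fun b u => 𝔼 t' : (Fin K → Bool) × Fin w,
      (honest_phi H (b, u) - honest_phi H t') ^ 2, expect_comm]
  refine le_expect univ_nonempty fun u _ => ?_
  have e : (0 : ℝ) ≤ 1 / (162 * K) := by positivity
  have key : ∀ (b : Fin K → Bool) (u' : Fin w),
      ((u : ℕ) - (u' : ℕ) : ℝ) ^ 2 + (K / 4 - 35 * K / 162) + ((u : ℕ) - (u' : ℕ)) * honest_Z b +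
        1 / 4 * honest_Z b ^ 2 + 0 * honest_Z b ^ 3 + -(1 / (162 * K)) * honest_Z b ^ 4 ≤
      𝔼 b' : Fin K → Bool, (honest_phi H (b, u) - honest_phi H (b', u')) ^ 2 := by
    intro b u'
    have h1 := honest_Zpoly K (((u : ℕ) + honest_Z b / 2 - (u' : ℕ)) ^ 2 -
      (16 * K ^ 2 + honest_Z b ^ 4 / 2) / (81 * K)) (-((u : ℕ) + honest_Z b / 2 - (u' : ℕ)))
      (1 / 4) _ e
    refine le_trans (le_of_eq ?_) (h1.trans (expect_le_expect fun b' _ =>
      le_trans (le_of_eq ?_) (honest_point H hK hH hw (b, u) (b', u'))))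
    · field_simp
      ring
    · field_simp
      ring
  have sw : ∀ b : Fin K → Bool, 𝔼 t' : (Fin K → Bool) × Fin w,
      (honest_phi H (b, u) - honest_phi H t') ^ 2 =
      𝔼 u' : Fin w, 𝔼 b' : Fin K → Bool, (honest_phi H (b, u) - honest_phi H (b', u')) ^ 2 :=
    fun b => (honest_prod fun b' u' => (honest_phi H (b, u) - honest_phi H (b', u')) ^ 2).trans
      (expect_comm _ _ _)
  simp only [sw]
  rw [expect_comm]
  refine le_expect univ_nonempty fun u' _ => ?_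
  refine le_trans ?_ ((honest_Zpoly K _ _ _ _ e).trans (expect_le_expect fun b _ => key b u'))
  have h2 : 3 * (1 / (162 * (K : ℝ))) * K ^ 2 = 3 * K / 162 := by field_simp
  rw [h2]
  nlinarith [sq_nonneg ((u : ℕ) - (u' : ℕ) : ℝ)]

theorem honest_abs {y A : ℝ} (hA : 0 < A) : y ^ 2 / A - y ^ 4 / A ^ 3 ≤ |y| := by
  have h0 := abs_nonneg y
  have h1 : y ^ 2 = |y| ^ 2 := (sq_abs y).symm
  have h2 : y ^ 4 = |y| ^ 4 := by rw [show y ^ 4 = (y ^ 2) ^ 2 by ring, h1]; ring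
  rw [h1, h2, div_sub_div _ _ hA.ne' (by positivity), div_le_iff₀ (by positivity)]
  generalize |y| = x at *
  rcases le_total x A with h | h
  · nlinarith [mul_nonneg (mul_nonneg h0 (pow_pos hA 3).le) (sub_nonneg.2 h),
      mul_nonneg hA.le (pow_nonneg h0 4)]
  · have : A ^ 2 ≤ x ^ 2 := pow_le_pow_left₀ hA.le h 2
    nlinarith [mul_nonneg (mul_nonneg hA.le (sq_nonneg x)) (sub_nonneg.2 this),
      mul_nonneg h0 (pow_pos hA 4).le]

/-- regrouping of two random arrays by coordinates -/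
def honest_eqv (Q : Type) (K w : ℕ) :
    (Q → ((Fin K → Bool) × Fin w) × ((Fin K → Bool) × Fin w)) ≃ Om Q K w × Om Q K w where
  toFun x := ((fun k c => (x c).1.1 k, fun c => (x c).1.2),
    (fun k c => (x c).2.1 k, fun c => (x c).2.2))
  invFun p c := ((fun k => p.1.1 k c, p.1.2 c), (fun k => p.2.1 k c, p.2.2 c))
  left_inv _ := rfl
  right_inv _ := rfl

theorem honest_ok : HonestSt := by
  refine ⟨1 / 10 ^ 5, by norm_num, fun w h0 K hw hK => ?_⟩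
  have q1 : K.sqrt * K.sqrt ≤ K := Nat.sqrt_le K
  have q2 : K < (K.sqrt + 1) * (K.sqrt + 1) := Nat.lt_succ_sqrt K
  have q3 : 10 ≤ K.sqrt := Nat.le_sqrt.2 hK
  generalize K.sqrt = q at *
  have hK0 : 0 < K := by omega
  have hK' : (0 : ℝ) < K := Nat.cast_pos.2 hK0
  have hH : 324 * (K : ℝ) ≤ ((18 * (q + 1) : ℕ) : ℝ) ^ 2 := by
    have : 324 * K ≤ (18 * (q + 1)) ^ 2 := by nlinarith
    exact_mod_cast this
  have hh : ((2 * (18 * (q + 1)) + 1 : ℕ) : ℝ) ^ 2 ≤ 1600 * K := by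
    have : (2 * (18 * (q + 1)) + 1) ^ 2 ≤ 1600 * K := by nlinarith
    exact_mod_cast this
  generalize 18 * (q + 1) = H at *
  refine ⟨K / 2 - H, 2 * H + 1, by linarith, fun Q _ _ N hc hi => ?_⟩
  have : Nonempty (Fin w) := ⟨⟨0, h0⟩⟩
  set Y : ((Fin K → Bool) × Fin w) × ((Fin K → Bool) × Fin w) → ℝ :=
    fun p => honest_phi H p.1 - honest_phi H p.2 with hY
  have hv : (K : ℝ) / 4 ≤ 𝔼 p, Y p ^ 2 := honest_var H hK0 hH h0 hw
  have hb : ∀ p, Y p ^ 2 ≤ 1600 * K := fun p => by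
    have b1 : ∀ t : (Fin K → Bool) × Fin w, 0 ≤ honest_phi H t ∧
        honest_phi H t ≤ ((2 * H + 1 : ℕ) : ℝ) := fun t =>
      ⟨Nat.cast_nonneg _, Nat.cast_le.2 (min_le_left _ _)⟩
    refine le_trans (sq_le_sq' ?_ ?_) hh
    · linarith [(b1 p.1).1, (b1 p.2).2, show Y p = honest_phi H p.1 - honest_phi H p.2 from rfl]
    · linarith [(b1 p.1).2, (b1 p.2).1, show Y p = honest_phi H p.1 - honest_phi H p.2 from rfl]
  obtain ⟨_, m2, m4⟩ := honest_mom (Q := Q) Y ((1600 * K) ^ 2)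
    (by
      rw [hY, honest_prod fun t t' : (Fin K → Bool) × Fin w => honest_phi H t - honest_phi H t']
      simp only [expect_sub_distrib, Fintype.expect_const, sub_self])
    (pow_le_pow_left₀ (expect_nonneg fun _ _ => sq_nonneg _)
      (expect_le univ_nonempty fun p _ => hb p) 2)
    (expect_le univ_nonempty fun p _ => by
      rw [show Y p ^ 4 = (Y p ^ 2) ^ 2 by ring]
      exact pow_le_pow_left₀ (sq_nonneg _) (hb p) 2) (univ.map ⟨hc, hi⟩)
  rw [card_map, card_univ, Fintype.card_fin] at m2 m4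
  have hs : spread K w (fun s : Q → ℕ => ∑ a, (clamp (K / 2 - H) (2 * H + 1) s (hc a) : ℝ)) =
      𝔼 x : Q → _, |∑ c ∈ univ.map ⟨hc, hi⟩, Y (x c)| := by
    unfold spread
    rw [← honest_prod]
    refine (Fintype.expect_equiv (honest_eqv Q K w) _ _ fun x => ?_).symm
    rw [sum_map, ← sum_sub_distrib]
    rfl
  rw [hs]
  rcases (Real.sqrt_nonneg (N * K)).eq_or_lt with hR | hR
  · rw [← hR, mul_zero]
    exact expect_nonneg fun _ _ => abs_nonneg _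
  have hR2 : √((N : ℝ) * K) ^ 2 = N * K := Real.sq_sqrt (by positivity)
  generalize √((N : ℝ) * K) = R at *
  have hA : 0 < 8000 * R := by positivity
  refine le_trans ?_ (expect_le_expect fun x _ => honest_abs hA)
  rw [expect_sub_distrib, ← expect_div, ← expect_div, m2]
  have c1 : R / 32000 ≤ N * (𝔼 p, Y p ^ 2) / (8000 * R) := by
    rw [le_div_iff₀ hA]
    nlinarith [mul_le_mul_of_nonneg_left hv (Nat.cast_nonneg N : (0 : ℝ) ≤ N)]
  have c2 : (𝔼 x : Q → _, (∑ c ∈ univ.map ⟨hc, hi⟩, Y (x c)) ^ 4) / (8000 * R) ^ 3 ≤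
      3 * R / 200000 := by
    rw [div_le_iff₀ (by positivity)]
    refine m4.trans (le_of_eq ?_)
    rw [show 3 * (N : ℝ) ^ 2 * (1600 * K) ^ 2 = 3 * 1600 ^ 2 * (N * K) ^ 2 by ring, ← hR2]
    ring
  linarith

end Pool.Agent.P.MP_9cbceb_lc
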