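import Pool.Agent.P.MP_9cbceb_lc.Basic

/-! Index facts about clouds. -/

namespace Pool.Agent.P.MP_9cbceb_lc

open Finset

theorem idx_succ (p : ℕ → Bool) (n : ℕ) : (List.range (n + 1)).filter p =
    (List.range n).filter p ++ if p n = true then [n] else [] := by
  rw [List.range_succ, List.filter_append]
  by_cases h : p n = true <;> simp [h]

theorem idx_len (m n : ℕ) (p : ℕ → Bool) (hp : ∀ x, p x = true ↔ x < m) :
    ((List.range n).filter p).length = min n m := by
  induction n with
  | zero => simp
  | succ n ih =>
    rw [idx_succ, List.length_append, ih]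
    by_cases h : p n = true
    · have := (hp n).1 h
      rw [if_pos h, List.length_singleton]; omega
    · have : ¬ n < m := fun h' => h ((hp n).2 h')
      rw [if_neg h, List.length_nil]; omega

theorem idx_rank (p : ℕ → Bool) (h n : ℕ) (hn : h < n) (hp : p h = true) :
    ((List.range h).filter p).length < ((List.range n).filter p).length ∧
      ((List.range n).filter p).getD ((List.range h).filter p).length 0 = h := by
  induction n with
  | zero => omega
  | succ n ih =>
    rw [idx_succ]
    rcases Nat.lt_succ_iff_lt_or_eq.1 hn with h1 | rfl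
    · obtain ⟨h2, h3⟩ := ih h1
      rw [List.getD_append _ _ _ _ h2, List.length_append]
      exact ⟨by omega, h3⟩
    · simp [hp]

theorem idx_get (p : ℕ → Bool) (t n : ℕ) (ht : t < ((List.range n).filter p).length) :
    ((List.range n).filter p).getD t 0 < n ∧ p (((List.range n).filter p).getD t 0) = true ∧
      ((List.range (((List.range n).filter p).getD t 0)).filter p).length = t := by
  induction n with
  | zero => simp at ht
  | succ n ih =>
    rw [idx_succ] at ht ⊢
    by_cases h1 : t < ((List.range n).filter p).length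
    · obtain ⟨h2, h3⟩ := ih h1
      rw [List.getD_append _ _ _ _ h1]
      exact ⟨by omega, h3⟩
    · by_cases h : p n = true
      · rw [if_pos h] at ht ⊢
        rw [List.length_append, List.length_singleton] at ht
        obtain rfl : t = ((List.range n).filter p).length := by omega
        simp [h]
      · rw [if_neg h, List.append_nil] at ht
        exact absurd ht h1

theorem idx_fib (f : ℕ → ℕ) (B n : ℕ) :
    ∑ x ∈ range B, ((List.range n).filter fun h => decide (f h = x)).length ≤ n := by
  induction n with
  | zero => simp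
  | succ n ih =>
    have : ∀ x, ((List.range (n + 1)).filter fun h => decide (f h = x)).length =
        ((List.range n).filter fun h => decide (f h = x)).length + if f n = x then 1 else 0 := by
      intro x
      rw [idx_succ, List.length_append]
      by_cases h : f n = x <;> simp [h]
    simp only [this, sum_add_distrib, sum_ite_eq]
    split_ifs <;> omega

variable (xp : ℕ → Tab) (I : Inst)

theorem idx_off_succ (x : ℕ) : off xp I (x + 1) = off xp I x + csz xp I x := by
  simp [off, List.range_succ]

theorem idx_off_mono : Monotone (off xp I) :=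
  monotone_nat_of_le_succ fun x => by rw [idx_off_succ]; omega

theorem idx_off_sum (x : ℕ) : off xp I x = ∑ i ∈ range x, csz xp I i := by
  induction x with
  | zero => simp [off]
  | succ x ih => rw [idx_off_succ, ih, sum_range_succ]

theorem idx_who {x y : ℕ} (hx : x < vb I) (h1 : off xp I x ≤ y) (h2 : y < off xp I (x + 1)) :
    who xp I y = x := by
  unfold who
  rw [idx_len x, min_eq_right hx.le]
  intro z
  rw [decide_eq_true_iff]
  constructor
  · intro h
    by_contra h3
    have := idx_off_mono xp I (show x + 1 ≤ z + 1 by omega)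
    omega
  · intro h
    exact (idx_off_mono xp I h).trans h1

theorem idx_ex {y : ℕ} (n : ℕ) (h : y < off xp I n) :
    ∃ x < n, off xp I x ≤ y ∧ y < off xp I (x + 1) := by
  induction n with
  | zero => simp [off] at h
  | succ n ih =>
    by_cases h1 : y < off xp I n
    · obtain ⟨x, h2, h3⟩ := ih h1
      exact ⟨x, by omega, h3⟩
    · exact ⟨n, by omega, by omega, h⟩

theorem idx_hv (h : ℕ) : hv I h < vb I := by
  have : (I.getD (h / 2) (0, 0, 0)).1 + (I.getD (h / 2) (0, 0, 0)).2.1 < vb I := by
    unfold vb
    by_cases h1 : h / 2 < I.length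
    · rw [List.getD_eq_getElem _ _ h1]
      exact Nat.lt_succ_of_le (List.le_sum_of_mem
        (List.mem_map.2 ⟨_, List.getElem_mem h1, rfl⟩))
    · rw [List.getD_eq_default _ _ (not_lt.1 h1)]
      exact Nat.succ_pos _
  unfold hv
  cases decide (h % 2 = 0)
  · exact lt_of_le_of_lt (Nat.le_add_left _ _) this
  · exact lt_of_le_of_lt (Nat.le_add_right _ _) this

theorem idx_ok : IdxSt := by
  intro d c xp hx I
  have hs : ∀ x, (cloud I x).length ≤ csz xp I x ∧ csz xp I x ≤ c * (cloud I x).length := by
    intro x
    unfold csz
    by_cases h : (cloud I x).length = 0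
    · simp [h]
    · obtain ⟨h1, h2, _⟩ := hx.2.2.2 _ (Nat.pos_of_ne_zero h)
      simpa [h] using ⟨h1, h2⟩
  have h2 : ∀ x < vb I, ∀ t < csz xp I x,
      off xp I x + t < nv xp I ∧ who xp I (off xp I x + t) = x := by
    intro x h t ht
    have a1 := idx_off_succ xp I x
    have a2 : off xp I (x + 1) ≤ nv xp I := idx_off_mono xp I h
    exact ⟨by omega, idx_who xp I h (by omega) (by omega)⟩
  have h3 : ∀ h < 2 * I.length, isReal xp I (vert xp I h) = true ∧
      who xp I (vert xp I h) = hv I h ∧ half xp I (vert xp I h) = h := by
    intro h hh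
    obtain ⟨a1, a2⟩ := idx_rank (fun k => decide (hv I k = hv I h)) h _ hh (by simp)
    obtain ⟨a3, a4⟩ := h2 _ (idx_hv I h) _ (lt_of_lt_of_le a1 (hs (hv I h)).1)
    have a5 : who xp I (vert xp I h) = hv I h := a4
    refine ⟨?_, a5, ?_⟩
    · unfold isReal
      rw [a5, Bool.and_eq_true, decide_eq_true_iff, decide_eq_true_iff]
      refine ⟨a3, ?_⟩
      unfold vert
      rw [Nat.add_sub_cancel_left]
      exact a1
    · unfold half
      rw [a5]
      unfold vert
      rw [Nat.add_sub_cancel_left]
      exact a2
  have h1 : ∀ y < nv xp I, who xp I y < vb I ∧ off xp I (who xp I y) ≤ y ∧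
      y < off xp I (who xp I y) + csz xp I (who xp I y) ∧ 0 < (cloud I (who xp I y)).length := by
    intro y hy
    obtain ⟨x, a1, a2, a3⟩ := idx_ex xp I _ hy
    rw [idx_who xp I a1 a2 a3]
    rw [idx_off_succ] at a3
    refine ⟨a1, a2, a3, Nat.pos_of_ne_zero fun h => ?_⟩
    have := (hs x).2
    rw [h] at this
    omega
  refine ⟨h1, h2, h3, fun y hy => ?_, ?_, fun hI => ?_⟩
  · unfold isReal at hy
    rw [Bool.and_eq_true, decide_eq_true_iff, decide_eq_true_iff] at hy
    obtain ⟨a1, a2, a3⟩ := idx_get _ _ _ hy.2
    have a4 : hv I (half xp I y) = who xp I y := of_decide_eq_true a2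
    refine ⟨a1, a4, ?_⟩
    unfold vert
    rw [a4]
    have a5 := (h1 y hy.1).2.1
    exact (congrArg _ a3).trans (by omega)
  · unfold nv
    rw [idx_off_sum]
    refine (sum_le_sum fun x _ => (hs x).2).trans ?_
    rw [← mul_sum, mul_comm 2 c, mul_assoc]
    exact Nat.mul_le_mul_left c (idx_fib _ _ _)
  · have a1 := (h3 0 (by have := List.length_pos_iff.2 hI; omega)).1
    unfold isReal at a1
    rw [Bool.and_eq_true, decide_eq_true_iff] at a1
    omega

end Pool.Agent.P.MP_9cbceb_lc
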