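import Pool.Agent.P.MP_9cbceb_lc.Basic

/-! Cuts of layered graphs. -/

namespace Pool.Agent.P.MP_9cbceb_lc

open Finset

theorem layer_sep (a b : Bool) : sep a b + b.toNat = a.toNat + 2 * bk a b := by
  cases a <;> cases b <;> rfl

theorem layer_bk {a b : Bool} (h : bk a b = 0) (hb : b = true) : a = true := by
  cases a <;> cases b <;> simp_all [bk]

theorem layer_tele {Z X : Type} (P P' : Z → X) (S : X → ℕ → Bool) (z : Z) (L : ℕ) :
    arcs sep L P P' S z + 2 * ((S (P z) L).toNat + (S (P' z) L).toNat) =
      2 * ((S (P z) 0).toNat + (S (P' z) 0).toNat) + 2 * arcs bk L P P' S z := by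
  induction L with
  | zero => simp [arcs]
  | succ L ih =>
    unfold arcs at ih ⊢
    rw [sum_range_succ, sum_range_succ]
    have h1 := layer_sep (S (P z) L) (S (P' z) (L + 1))
    have h2 := layer_sep (S (P' z) L) (S (P z) (L + 1))
    have h3 := layer_sep (S (P z) L) (S (P z) (L + 1))
    have h4 := layer_sep (S (P' z) L) (S (P' z) (L + 1))
    omega

theorem layer_col {L : ℕ} (u : ℕ → Bool) (h0 : u 0 = true) (hL : u L = false)
    (h : ∀ i < L, bk (u i) (u (i + 1)) = 0) :
    ∀ i ≤ L, u i = decide (i ≤ #{i ∈ Ico 1 L | u i = true}) := by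
  have hex : ∃ k, u k = false := ⟨L, hL⟩
  have hk := Nat.find_spec hex
  have hkL : Nat.find hex ≤ L := Nat.find_min' hex hL
  have hlt : ∀ i < Nat.find hex, u i = true := fun i hi => by
    simpa using Nat.find_min hex hi
  generalize Nat.find hex = k at hk hkL hlt
  have hk0 : 0 < k := Nat.pos_of_ne_zero fun e => by
    rw [e, h0] at hk
    exact Bool.noConfusion hk
  have hge : ∀ i, k ≤ i → i ≤ L → u i = false := by
    intro i hi
    induction i, hi using Nat.le_induction with
    | base => exact fun _ => hk
    | succ i _ ih =>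
      intro hi
      by_contra hne
      have := layer_bk (h i (by omega)) (by simpa using hne)
      rw [ih (by omega)] at this
      exact Bool.noConfusion this
  have e : {i ∈ Ico 1 L | u i = true} = Ico 1 k := by
    ext i
    simp only [mem_filter, mem_Ico]
    constructor
    · rintro ⟨⟨h1, h2⟩, h3⟩
      refine ⟨h1, ?_⟩
      by_contra hne
      rw [hge i (by omega) h2.le] at h3
      exact Bool.noConfusion h3
    · rintro ⟨h1, h2⟩
      exact ⟨⟨h1, by omega⟩, hlt i h2⟩
  intro i hi
  rw [e, Nat.card_Ico]
  by_cases hik : i < k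
  · rw [hlt i hik, decide_eq_true (by omega)]
  · rw [hge i (by omega) hi, decide_eq_false (by omega)]

theorem layer_cross {L a b : ℕ} {u v : ℕ → Bool} (hL : u L = false)
    (hu : ∀ i ≤ L, u i = decide (i ≤ a)) (hv : ∀ i ≤ L, v i = decide (i ≤ b))
    (h : ∀ i < L, bk (v i) (u (i + 1)) = 0) : a ≤ b + 1 := by
  have ha : a < L := by
    rw [hu L le_rfl, decide_eq_false_iff_not] at hL
    omega
  rcases a with _ | a
  · omega
  · have h1 := layer_bk (h a (by omega)) (by rw [hu _ ha.le]; simp)
    rw [hv a (by omega), decide_eq_true_iff] at h1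
    omega

theorem layer_dec {i a b : ℕ} (h : b ≤ a + 1) : bk (decide (i ≤ a)) (decide (i + 1 ≤ b)) = 0 := by
  unfold bk
  rw [if_neg]
  simp only [decide_eq_false_iff_not, decide_eq_true_eq]
  omega

theorem layer_ok : LayerSt := by
  intro Z X _ L P P' S _
  refine ⟨fun h0 hL => ⟨?_, fun z hz => ?_⟩, fun h0 _ i hi => ?_, fun g hg hS => ?_⟩
  · unfold capF backF
    rw [mul_sum, mul_comm 4, ← card_univ, ← smul_eq_mul, ← sum_const, ← sum_add_distrib]
    refine sum_congr rfl fun z _ => ?_
    have := layer_tele P P' S z L
    simp only [h0, hL, Bool.toNat_true, Bool.toNat_false] at this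
    omega
  · unfold arcs at hz
    rw [sum_eq_zero_iff] at hz
    have hz' := fun i (hi : i < L) => hz i (mem_range.2 hi)
    have c1 := layer_col (S (P z)) (h0 _) (hL _) fun i hi => by have := hz' i hi; omega
    have c2 := layer_col (S (P' z)) (h0 _) (hL _) fun i hi => by have := hz' i hi; omega
    exact ⟨fun i hi => c1 i hi.le,
      layer_cross (hL _) c1 c2 fun i hi => by have := hz' i hi; omega,
      layer_cross (hL _) c2 c1 fun i hi => by have := hz' i hi; omega⟩
  · rw [card_filter]
    refine sum_le_sum fun z _ => ?_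
    split_ifs with hz
    · by_contra hne
      have hz0 : arcs sep L P P' S z = 0 := by omega
      unfold arcs at hz0
      rw [sum_eq_zero_iff] at hz0
      have key : ∀ j ≤ L, S (P z) j = false := by
        intro j
        induction j with
        | zero => exact fun _ => h0 _
        | succ j ih =>
          intro hj
          have h1 := hz0 j (mem_range.2 hj)
          have h2 : sep (S (P z) j) (S (P z) (j + 1)) = 0 := by omega
          rw [ih (by omega)] at h2
          revert h2
          cases S (P z) (j + 1) <;> simp [sep]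
      rw [key i hi.le] at hz
      exact Bool.noConfusion hz
    · exact Nat.zero_le _
  · refine sum_eq_zero fun z _ => sum_eq_zero fun i _ => ?_
    simp only [hS, layer_dec (hg z).1, layer_dec (hg z).2, layer_dec (Nat.le_succ _), add_zero]

end Pool.Agent.P.MP_9cbceb_lc
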