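import Pool.Agent.P.MP_9cbceb_lc.Basic

/-! Consequences of the Lipschitz property along valid moves. -/

namespace Pool.Agent.P.MP_9cbceb_lc

open Finset

section

variable {E S ι : Type} [LinearOrder ι] {g : Game E S} {h : ℕ} {G : Pt ι S → ℝ} {W : ι × ι → E}

theorem lip_one (H : LipAt g h G W) {t t' : Co ι S → ℕ} (ht : ∀ c, t c ≤ h) (ht' : ∀ c, t' c ≤ h)
    (h1 : ∀ c, t c ≤ t' c + 1 ∧ t' c ≤ t c + 1) (hf : Free g W {c | t c ≠ t' c}) :
    |G (view g W, t) - G (view g W, t')| ≤ 1 := by
  have := H ∅ t t' ht ht' ⟨h1, hf, fun c hc => absurd hc (notMem_empty _)⟩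
  rwa [show mask ∅ (view g W) = view g W from funext fun a => if_neg (notMem_empty _)] at this

theorem lip_row (H : LipAt g h G W) (a : ι) {t' : Co ι S → ℕ} (ht' : ∀ c, t' c ≤ h) :
    ∀ (k : ℕ) (t : Co ι S → ℕ), (∀ c, t c ≤ h) → (∀ c, c.1 ≠ a → t c = t' c) →
      (∀ c, t c ≤ t' c + k ∧ t' c ≤ t c + k) → |G (view g W, t) - G (view g W, t')| ≤ k
  | 0, t, _, _, h1 => by
    rw [show t = t' from funext fun c => by have := h1 c; omega]
    simp
  | k + 1, t, ht, h0, h1 => by
    obtain ⟨m, hm⟩ : ∃ m : Co ι S → ℕ, ∀ c, (t c < t' c ∧ m c = t c + 1) ∨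
        (t' c < t c ∧ m c + 1 = t c) ∨ (t c = t' c ∧ m c = t c) :=
      ⟨fun c => if t c < t' c then t c + 1 else if t' c < t c then t c - 1 else t c, fun c => by
        beta_reduce
        split_ifs <;> omega⟩
    have mh : ∀ c, m c ≤ h := fun c => by have := hm c; have := ht c; have := ht' c; omega
    have r : ∀ c, t c ≠ m c → c.1 = a := fun c hc => by
      by_contra hn
      have := hm c
      have := h0 c hn
      omega
    have a1 := lip_one H ht mh (fun c => by have := hm c; omega)
      fun c hc c' hc' _ => Or.inl ((r c hc).trans (r c' hc').symm)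
    have a2 := lip_row H a ht' k m mh (fun c hc => by have := hm c; have := h0 c hc; omega)
      fun c => by have := hm c; have := h1 c; omega
    have := abs_sub_le (G (view g W, t)) (G (view g W, m)) (G (view g W, t'))
    push_cast
    linarith

theorem lip_rows (H : LipAt g h G W) (k : ℕ) {t' : Co ι S → ℕ} (ht' : ∀ c, t' c ≤ h)
    (B : Finset ι) : ∀ t : Co ι S → ℕ, (∀ c, t c ≤ h) → (∀ c, c.1 ∉ B → t c = t' c) →
      (∀ c, t c ≤ t' c + k ∧ t' c ≤ t c + k) → |G (view g W, t) - G (view g W, t')| ≤ #B * k := by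
  induction B using Finset.induction_on with
  | empty =>
    intro t _ h0 _
    rw [show t = t' from funext fun c => h0 c (notMem_empty _)]
    simp
  | insert a B ha ih =>
    intro t ht h0 h1
    obtain ⟨m, hm⟩ : ∃ m : Co ι S → ℕ, ∀ c, (c.1 = a → m c = t' c) ∧ (c.1 ≠ a → m c = t c) :=
      ⟨fun c => if c.1 = a then t' c else t c, fun c => ⟨fun e => if_pos e, fun e => if_neg e⟩⟩
    have hm' : ∀ c, m c = t' c ∨ m c = t c := fun c => (em (c.1 = a)).imp (hm c).1 (hm c).2
    have mh : ∀ c, m c ≤ h := fun c => by have := hm' c; have := ht c; have := ht' c; omega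
    have a1 := lip_row H a mh k t ht (fun c hc => ((hm c).2 hc).symm)
      fun c => by have := hm' c; have := h1 c; omega
    have a2 := ih m mh (fun c hc => by
      by_cases e : c.1 = a
      · exact (hm c).1 e
      · exact ((hm c).2 e).trans (h0 c (by simp [e, hc])))
      fun c => by have := hm' c; have := h1 c; omega
    have := abs_sub_le (G (view g W, t)) (G (view g W, m)) (G (view g W, t'))
    rw [card_insert_of_notMem ha]
    push_cast
    linarith

end

theorem lip_ok : LipSt := by
  intro E S ι _ _ _ _ g a0 h G W H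
  have cl : ∀ (s : Co ι S → ℕ) c, clamp a0 h s c ≤ h := fun s c => min_le_left _ _
  refine ⟨fun s c => ?_, fun w s u hu => ?_, fun A hA s A1 h1 A2 h2 => ?_, fun Rm s => ?_⟩
  · have := lip_row H c.1 (cl s) 1 _ (cl (Function.update s c (s c + 1)))
      (fun c' hc' => by rw [clamp, clamp, Function.update_of_ne fun e => hc' (by rw [e])])
      fun c' => by
        by_cases e : c' = c
        · rw [e, clamp, clamp, Function.update_self]
          omega
        · rw [clamp, clamp, Function.update_of_ne e]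
          omega
    simpa using this
  · exact lip_rows H w (cl s) univ _ (cl _) (fun c hc => absurd (mem_univ _) hc) fun c => by
      have := hu c
      rw [clamp, clamp, Pi.add_apply]
      omega
  · refine (le_abs_self _).trans (lip_one H (cl _) (cl _) (fun c => ?_) (hA.mono fun c hc => ?_))
    · simp only [clamp, Pi.add_apply, ind]
      split_ifs <;> omega
    · by_contra hn
      refine hc ?_
      simp only [clamp, Pi.add_apply, ind, if_neg fun e => hn (h1 e), if_neg fun e => hn (h2 e)]
  · have mh : ∀ c, maskT Rm (clamp a0 h s) c ≤ h := fun c => by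
      have := cl s c
      unfold maskT
      split_ifs <;> omega
    have a1 := lip_rows H h mh Rm _ (cl s) (fun c hc => (if_neg hc).symm)
      fun c => by have := cl s c; have := mh c; omega
    have a2 := H Rm _ _ mh mh ⟨fun c => by omega, fun c hc => absurd rfl hc, fun c hc => if_pos hc⟩
    have := abs_sub_le (G (view g W, clamp a0 h s)) (G (view g W, maskT Rm (clamp a0 h s)))
      (G (mask Rm (view g W), maskT Rm (clamp a0 h s)))
    linarith

theorem good_ok (h0 : LipSt) (h1 : AnaASt) (h2 : AnaBSt) (h3 : AnaCSt) : GoodSt := by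
  intro E S ι _ _ _ _ g K w a0 h G W hK hw hb H
  obtain ⟨l1, l2, l3, l4⟩ := h0 E S ι g a0 h G W H
  refine ⟨fun A hA ξ => (h3 _ K w _ A hw l1 (l3 A hA) ξ).trans ?_,
    fun Rm => h1 _ K w _ _ _ hK hw (l4 Rm), h2 _ K w _ _ hK hw l1 (l2 w)⟩
  have hw' : (0 : ℝ) < w := by exact_mod_cast hw
  have hb' : 4 * ((Fintype.card (Co ι S) : ℝ) + 1) * (Fintype.card (Co ι S) : ℝ) ^ 2 ≤ w := by
    exact_mod_cast hb
  have : ((Fintype.card (Co ι S) : ℝ) + 1) * (2 * (Fintype.card (Co ι S) : ℝ) ^ 2 / w) ≤ 1 / 2 := by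
    rw [← mul_div_assoc, div_le_iff₀ hw']
    linarith
  linarith

end Pool.Agent.P.MP_9cbceb_lc
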