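import Pool.Agent.P.MP_9cbceb_lc.Basic

/-! Soundness of the long code test. -/

namespace Pool.Agent.P.MP_9cbceb_lc

open Finset

open Classical in
/-- Probability of an event under the uniform law. -/
noncomputable def long_pr {X : Type} [Fintype X] (P : X → Prop) : ℝ :=
  (#{x : X | P x} : ℝ) / Fintype.card X

theorem long_pr_eq {X : Type} [Fintype X] (P : X → Prop) [DecidablePred P] :
    long_pr P = (#{x : X | P x} : ℝ) / Fintype.card X := by
  unfold long_pr
  congr

theorem long_pr_nonneg {X : Type} [Fintype X] (P : X → Prop) : 0 ≤ long_pr P := by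
  unfold long_pr
  positivity

theorem long_pr_mono {X : Type} [Fintype X] {P Q : X → Prop} (h : ∀ x, P x → Q x) :
    long_pr P ≤ long_pr Q := by
  classical
  rw [long_pr_eq, long_pr_eq]
  refine div_le_div_of_nonneg_right ?_ (by positivity)
  exact_mod_cast card_le_card (fun x hx => by
    simp only [mem_filter, mem_univ, true_and] at hx ⊢
    exact h x hx)

theorem long_pr_or {X : Type} [Fintype X] (P Q : X → Prop) :
    long_pr (fun x => P x ∨ Q x) ≤ long_pr P + long_pr Q := by
  classical
  rw [long_pr_eq, long_pr_eq, long_pr_eq, ← add_div]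
  refine div_le_div_of_nonneg_right ?_ (by positivity)
  rw [filter_or]
  exact_mod_cast card_union_le _ _

theorem long_pr_true {X : Type} [Fintype X] [Nonempty X] {P : X → Prop} (h : ∀ x, P x) :
    long_pr P = 1 := by
  classical
  rw [long_pr_eq, filter_true_of_mem (fun x _ => h x), card_univ]
  exact div_self (by exact_mod_cast Fintype.card_ne_zero)

theorem long_pr_equiv {X Y : Type} [Fintype X] [Fintype Y] (e : X ≃ Y) (P : Y → Prop) :
    long_pr (fun x => P (e x)) = long_pr P := by
  classical
  rw [long_pr_eq, long_pr_eq, Fintype.card_congr e]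
  congr 2
  refine card_bij (fun x _ => e x) (fun x hx => by simpa using hx)
    (fun x _ y _ h => e.injective h) (fun y hy => ⟨e.symm y, by simpa using hy, by simp⟩)

theorem long_pr_fst {X Y : Type} [Fintype X] [Fintype Y] [Nonempty Y] (P : X → Prop) :
    long_pr (fun p : X × Y => P p.1) = long_pr P := by
  classical
  rw [long_pr_eq, long_pr_eq, Fintype.card_prod]
  have h : ({p : X × Y | P p.1} : Finset (X × Y)) = ({x : X | P x} : Finset X) ×ˢ univ := by
    ext p
    simp
  have hY : (Fintype.card Y : ℝ) ≠ 0 := by exact_mod_cast Fintype.card_ne_zero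
  rw [h, card_product, card_univ]
  push_cast
  exact mul_div_mul_right _ _ hY

theorem long_pr_snd {X Y : Type} [Fintype X] [Fintype Y] [Nonempty X] (P : Y → Prop) :
    long_pr (fun p : X × Y => P p.2) = long_pr P := by
  rw [← long_pr_fst (Y := X) P, ← long_pr_equiv (Equiv.prodComm X Y)]
  rfl

theorem long_pr_or3 {X : Type} [Fintype X] {E P Q R : X → Prop}
    (h : ∀ x, E x → P x ∨ Q x ∨ R x) : long_pr E ≤ long_pr P + long_pr Q + long_pr R := by
  have h1 := long_pr_mono h
  have h2 := long_pr_or P (fun x => Q x ∨ R x)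
  have h3 := long_pr_or Q R
  linarith

theorem long_z2 (x : ZMod 2) : x = 0 ∨ x = 1 := by
  revert x
  decide

theorem long_add_self (x : ZMod 2) : x + x = 0 := by
  revert x
  decide

section Sample

variable {S : Type} [Fintype S] [DecidableEq S]

theorem long_m1 (P : (S × S → ZMod 2) → Prop) :
    long_pr (fun s : Smp S => P s.1) = long_pr P := long_pr_fst P

theorem long_m2 (P : (S × S → ZMod 2) → Prop) :
    long_pr (fun s : Smp S => P s.2.1) = long_pr P := by
  rw [long_pr_snd (fun t : (S × S → ZMod 2) × (S × S → ZMod 2) × (S → ZMod 2) => P t.1)]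
  exact long_pr_fst P

theorem long_m3 (P : (S × S → ZMod 2) → Prop) :
    long_pr (fun s : Smp S => P s.2.2.1) = long_pr P := by
  rw [long_pr_snd (fun t : (S × S → ZMod 2) × (S × S → ZMod 2) × (S → ZMod 2) => P t.2.1),
    long_pr_snd (fun t : (S × S → ZMod 2) × (S → ZMod 2) => P t.1)]
  exact long_pr_fst P

theorem long_m4 (P : (S → ZMod 2) → Prop) :
    long_pr (fun s : Smp S => P s.2.2.2) = long_pr P := by
  rw [long_pr_snd (fun t : (S × S → ZMod 2) × (S × S → ZMod 2) × (S → ZMod 2) => P t.2.2),
    long_pr_snd (fun t : (S × S → ZMod 2) × (S → ZMod 2) => P t.2)]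
  exact long_pr_snd P

theorem long_m12 (P : (S × S → ZMod 2) × (S × S → ZMod 2) → Prop) :
    long_pr (fun s : Smp S => P (s.1, s.2.1)) = long_pr P := by
  rw [← long_pr_fst (Y := (S × S → ZMod 2) × (S → ZMod 2)) P,
    ← long_pr_equiv (Equiv.prodAssoc _ _ _).symm]
  rfl

/-- A query shifted by the third random choice is uniform. -/
theorem long_shift (φ : (S × S → ZMod 2) → (S × S → ZMod 2) → (S → ZMod 2) → (S × S → ZMod 2))
    (P : (S × S → ZMod 2) → Prop) :
    long_pr (fun s : Smp S => P (φ s.1 s.2.1 s.2.2.2 + s.2.2.1)) = long_pr P := by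
  let e : Smp S ≃ Smp S :=
    { toFun := fun s => (s.1, s.2.1, φ s.1 s.2.1 s.2.2.2 + s.2.2.1, s.2.2.2)
      invFun := fun s => (s.1, s.2.1, s.2.2.1 - φ s.1 s.2.1 s.2.2.2, s.2.2.2)
      left_inv := fun s => by simp
      right_inv := fun s => by simp }
  rw [← long_m3 P, ← long_pr_equiv e (fun s : Smp S => P s.2.2.1)]
  rfl

end Sample

/-- A nonzero biadditive form is nonzero on at least a quarter of the pairs. -/
theorem long_biadd {G : Type} [AddCommGroup G] [Fintype G] (β : G → G → ZMod 2)
    (h1 : ∀ a b c, β (a + b) c = β a c + β b c) (h2 : ∀ a b c, β a (b + c) = β a b + β a c)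
    (h : long_pr (fun p : G × G => β p.1 p.2 ≠ 0) < 1 / 4) (a b : G) : β a b = 0 := by
  by_contra hab
  set P : G × G → Prop := fun p => β p.1 p.2 ≠ 0 with hP
  have e1 := long_pr_equiv (Equiv.addRight ((a, 0) : G × G)) P
  have e2 := long_pr_equiv (Equiv.addRight ((0, b) : G × G)) P
  have e3 := long_pr_equiv (Equiv.addRight ((a, b) : G × G)) P
  have hall : long_pr (fun p : G × G => P p ∨ P (Equiv.addRight ((a, 0) : G × G) p) ∨
      P (Equiv.addRight ((0, b) : G × G) p) ∨ P (Equiv.addRight ((a, b) : G × G) p)) = 1 := by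
    refine long_pr_true ?_
    rintro ⟨x, y⟩
    by_contra hc
    simp only [hP, Equiv.coe_addRight, Prod.mk_add_mk, add_zero, not_or, ne_eq, not_not, h1,
      h2] at hc
    obtain ⟨c1, c2, c3, c4⟩ := hc
    rw [c1, zero_add] at c2 c3
    rw [c1, c2, c3] at c4
    exact hab (by simpa using c4)
  have u1 := long_pr_or P (fun p => P (Equiv.addRight ((a, 0) : G × G) p) ∨
      P (Equiv.addRight ((0, b) : G × G) p) ∨ P (Equiv.addRight ((a, b) : G × G) p))
  have u2 := long_pr_or3 (P := fun p => P (Equiv.addRight ((a, 0) : G × G) p))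
    (Q := fun p => P (Equiv.addRight ((0, b) : G × G) p))
    (R := fun p => P (Equiv.addRight ((a, b) : G × G) p)) (fun _ hx => hx)
  linarith

theorem long_near_iff {S : Type} [Fintype S] [DecidableEq S] (A : (S → ZMod 2) → ZMod 2) (a : S) :
    Near A a ↔ long_pr (fun f : S → ZMod 2 => A f ≠ f a) < 1 / 4 := by
  have hc : (0 : ℝ) < Fintype.card (S → ZMod 2) := by exact_mod_cast Fintype.card_pos
  rw [long_pr_eq, Near, div_lt_div_iff₀ hc (by norm_num), one_mul, mul_comm]
  exact_mod_cast Iff.rfl

theorem long_uniq {S : Type} [Fintype S] [DecidableEq S] (A : (S → ZMod 2) → ZMod 2) (a a' : S)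
    (h : Near A a) (h' : Near A a') : a = a' := by
  by_contra hne
  rw [long_near_iff] at h h'
  set P : (S → ZMod 2) → Prop := fun f => f a ≠ f a' with hP
  have e1 := long_pr_equiv (Equiv.addRight (Pi.single a 1 : S → ZMod 2)) P
  have hall : long_pr (fun f => P f ∨ P (Equiv.addRight (Pi.single a 1 : S → ZMod 2) f)) = 1 := by
    refine long_pr_true ?_
    intro f
    by_contra hc
    simp only [hP, Equiv.coe_addRight, Pi.add_apply, Pi.single_eq_same, not_or, ne_eq, not_not,
      Pi.single_eq_of_ne (Ne.symm hne), add_zero] at hc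
    obtain ⟨c1, c2⟩ := hc
    rw [← c1] at c2
    simp at c2
  have u1 := long_pr_or P (fun f => P (Equiv.addRight (Pi.single a 1 : S → ZMod 2) f))
  have u2 : long_pr P ≤ long_pr (fun f : S → ZMod 2 => A f ≠ f a ∨ A f ≠ f a') :=
    long_pr_mono fun f hf => by
      by_contra hc
      simp only [not_or, ne_eq, not_not] at hc
      exact hf (hc.1.symm.trans hc.2)
  have u3 := long_pr_or (fun f : S → ZMod 2 => A f ≠ f a) (fun f => A f ≠ f a')
  linarith

theorem long_complete {S : Type} (r : S × S → ZMod 2) (z : S × S) (hz : r z = 1) (s : Smp S) :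
    pass (bits r (fun F => F z) (fun f => f z.1) (fun f => f z.2) s) := by
  refine ⟨?_, ?_, ?_, ?_, ?_⟩
  · simp [bits]
  · simp [bits, add_assoc, long_add_self]
  · simp [bits, add_assoc, long_add_self, hz]
  · simp [bits, add_assoc, long_add_self]
  · simp [bits, add_assoc, long_add_self]

/-- An additive multiplicative map which is one at `r` is a point evaluation. -/
theorem long_eval {Z : Type} [Fintype Z] [DecidableEq Z] (L : (Z → ZMod 2) →+ ZMod 2)
    (hm : ∀ F G, L (F * G) = L F * L G) (r : Z → ZMod 2) (hr : L r = 1) :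
    ∃ z, r z = 1 ∧ ∀ F, L F = F z := by
  have hsum : ∑ z, L (Pi.single z (r z)) = 1 := by
    rw [← map_sum, Finset.univ_sum_single, hr]
  obtain ⟨z, -, hz⟩ := exists_ne_zero_of_sum_ne_zero (hsum ▸ one_ne_zero)
  have hrz : r z = 1 := by
    rcases long_z2 (r z) with h | h
    · rw [h] at hz
      simp at hz
    · exact h
  rw [hrz] at hz
  have h1 : L (Pi.single z 1) = 1 := (long_z2 _).resolve_left hz
  refine ⟨z, hrz, fun F => ?_⟩
  have h2 : F * Pi.single z 1 = Pi.single z (F z) := by
    ext w
    by_cases hw : w = z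
    · subst hw
      simp
    · simp [Pi.single_eq_of_ne hw]
  have h3 := hm F (Pi.single z 1)
  rw [h1, mul_one, h2] at h3
  rw [← h3]
  rcases long_z2 (F z) with h | h
  · rw [h]
    simp
  · rw [h, h1]

theorem long_corr {G : Type} [AddCommGroup G] (L : G →+ ZMod 2) (F H : G) :
    L (F + H) + L H = L F := by
  rw [map_add, add_assoc, long_add_self, add_zero]

theorem long_sound (h : BLRSt) {S : Type} [Fintype S] [DecidableEq S]
    (r : S × S → ZMod 2) (B : (S × S → ZMod 2) → ZMod 2) (A1 A2 : (S → ZMod 2) → ZMod 2)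
    (hρ : long_pr (fun s : Smp S => ¬ pass (bits r B A1 A2 s)) < 1 / 36) :
    ∃ z : S × S, r z = 1 ∧ Near A1 z.1 ∧ Near A2 z.2 := by
  set ρ := long_pr (fun s : Smp S => ¬ pass (bits r B A1 A2 s)) with hρd
  have hc : (0 : ℝ) < Fintype.card (S × S → ZMod 2) := by exact_mod_cast Fintype.card_pos
  have t1 : long_pr (fun p : (S × S → ZMod 2) × (S × S → ZMod 2) =>
      B p.1 + B p.2 ≠ B (p.1 + p.2)) ≤ ρ := by
    rw [← long_m12]
    refine long_pr_mono fun s hs hp => hs ?_
    simpa [bits] using hp.1
  rw [long_pr_eq, Fintype.card_prod, div_le_iff₀ (by push_cast; positivity)] at t1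
  push_cast at t1
  obtain ⟨L, hL⟩ := h (S × S → ZMod 2) B (by
    have : (6 : ℝ) * #{p : (S × S → ZMod 2) × (S × S → ZMod 2) | B p.1 + B p.2 ≠ B (p.1 + p.2)} <
        (Fintype.card (S × S → ZMod 2) : ℝ) ^ 2 := by nlinarith [mul_pos hc hc]
    exact_mod_cast this)
  set D : (S × S → ZMod 2) → Prop := fun F => B F ≠ L F with hD
  have hδ : long_pr D ≤ 2 * ρ := by
    rw [long_pr_eq, div_le_iff₀ hc]
    have hL' : (#{x : S × S → ZMod 2 | B x ≠ L x} : ℝ) * Fintype.card (S × S → ZMod 2) ≤
        2 * #{p : (S × S → ZMod 2) × (S × S → ZMod 2) | B p.1 + B p.2 ≠ B (p.1 + p.2)} := by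
      exact_mod_cast hL
    refine le_of_mul_le_mul_right ?_ hc
    nlinarith
  have hρ0 : 0 ≤ ρ := long_pr_nonneg _
  have m3 := long_m3 D
  -- multiplicativity
  have hm : ∀ F G, L (F * G) = L F * L G := by
    intro F G
    have hb := long_biadd (fun F G : S × S → ZMod 2 => L (F * G) + L F * L G)
      (fun a b c => by simp only [add_mul, map_add]; ring)
      (fun a b c => by simp only [mul_add, map_add]; ring) ?_ F G
    · have := long_add_self (L F * L G)
      linear_combination hb - this
    rw [← long_m12]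
    have m1 := long_m1 D
    have m2 := long_m2 D
    have m4 := long_shift (fun F G _ => F * G) D
    have u1 := long_pr_or3 (E := fun s : Smp S => L (s.1 * s.2.1) + L s.1 * L s.2.1 ≠ 0)
      (P := fun s => ¬ pass (bits r B A1 A2 s)) (Q := fun s => D s.1 ∨ D s.2.1)
      (R := fun s => D (s.1 * s.2.1 + s.2.2.1) ∨ D s.2.2.1) (by
        intro s hs
        by_contra hcon
        simp only [hD, not_or, ne_eq, not_not] at hcon
        obtain ⟨hp, ⟨a1, a2⟩, a3, a4⟩ := hcon
        have hp2 : B (s.1 * s.2.1 + s.2.2.1) + B s.2.2.1 = B s.1 * B s.2.1 := by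
          simpa [bits] using hp.2.1
        rw [a1, a2, a3, a4, long_corr] at hp2
        exact hs (by rw [hp2, long_add_self]))
    have u2 := long_pr_or (fun s : Smp S => D s.1) (fun s => D s.2.1)
    have u3 := long_pr_or (fun s : Smp S => D (s.1 * s.2.1 + s.2.2.1)) (fun s => D s.2.2.1)
    simp only at m4 ⊢
    linarith
  have hr : L r = 1 := by
    by_contra hne
    have m4 := long_shift (fun _ _ _ => r) D
    have hall : long_pr (fun _ : Smp S => L r ≠ 1) = 1 := long_pr_true fun _ => hne
    have u1 := long_pr_or3 (E := fun _ : Smp S => L r ≠ 1)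
      (P := fun s => ¬ pass (bits r B A1 A2 s)) (Q := fun s => D (r + s.2.2.1))
      (R := fun s => D s.2.2.1) (by
        intro s hs
        by_contra hcon
        simp only [hD, not_or, ne_eq, not_not] at hcon
        obtain ⟨hp, a3, a4⟩ := hcon
        have hp2 : B (r + s.2.2.1) + B s.2.2.1 = 1 := by
          simpa [bits] using hp.2.2.1
        rw [a3, a4, long_corr] at hp2
        exact hs hp2)
    linarith
  obtain ⟨z, hz, hev⟩ := long_eval L hm r hr
  refine ⟨z, hz, ?_, ?_⟩
  · rw [long_near_iff, ← long_m4]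
    have m4 := long_shift (fun _ _ f => fun w : S × S => f w.1) D
    have u1 := long_pr_or3 (E := fun s : Smp S => A1 s.2.2.2 ≠ s.2.2.2 z.1)
      (P := fun s => ¬ pass (bits r B A1 A2 s))
      (Q := fun s => D ((fun w : S × S => s.2.2.2 w.1) + s.2.2.1))
      (R := fun s => D s.2.2.1) (by
        intro s hs
        by_contra hcon
        simp only [hD, not_or, ne_eq, not_not] at hcon
        obtain ⟨hp, a3, a4⟩ := hcon
        have hp2 : B ((fun w : S × S => s.2.2.2 w.1) + s.2.2.1) + B s.2.2.1 = A1 s.2.2.2 := by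
          simpa [bits] using hp.2.2.2.1
        rw [a3, a4, long_corr, hev] at hp2
        exact hs hp2.symm)
    linarith
  · rw [long_near_iff, ← long_m4]
    have m4 := long_shift (fun _ _ f => fun w : S × S => f w.2) D
    have u1 := long_pr_or3 (E := fun s : Smp S => A2 s.2.2.2 ≠ s.2.2.2 z.2)
      (P := fun s => ¬ pass (bits r B A1 A2 s))
      (Q := fun s => D ((fun w : S × S => s.2.2.2 w.2) + s.2.2.1))
      (R := fun s => D s.2.2.1) (by
        intro s hs
        by_contra hcon
        simp only [hD, not_or, ne_eq, not_not] at hcon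
        obtain ⟨hp, a3, a4⟩ := hcon
        have hp2 : B ((fun w : S × S => s.2.2.2 w.2) + s.2.2.1) + B s.2.2.1 = A2 s.2.2.2 := by
          simpa [bits] using hp.2.2.2.2
        rw [a3, a4, long_corr, hev] at hp2
        exact hs hp2.symm)
    linarith

theorem long_ok (h : BLRSt) : LongSt := by
  intro S _ _
  refine ⟨long_uniq, long_complete, fun r B A1 A2 hs => long_sound h r B A1 A2 ?_⟩
  have hc : (0 : ℝ) < Fintype.card (Smp S) := by exact_mod_cast Fintype.card_pos
  classical
  rw [long_pr_eq, div_lt_div_iff₀ hc (by norm_num), one_mul, mul_comm]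
  have h2 : 36 * #{s : Smp S | ¬ pass (bits r B A1 A2 s)} < Fintype.card (Smp S) := by
    convert hs
  exact_mod_cast h2

end Pool.Agent.P.MP_9cbceb_lc
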