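import Pool.Agent.P.MP_9cbceb_lc.Basic
import Pool.Agent.Lib.helper77.Raw

/-! From the gap problem to the collapse of the classes. -/

namespace Pool.Agent.P.MP_9cbceb_lc

open Pool.Agent.Lib.helper21 Pool.Agent.Lib.helper77 Enc

/-- Decoder for the prelude code of a list of bits. -/
def main_dec (y : List Bool) : List Bool :=
  (List.range y.length).flatMap fun i =>
    cond (decide (3 * i < y.length)) [y.getD (3 * i + 1) false] []

theorem main_decPT : PT main_dec := by unfold main_dec; fun_prop

theorem main_dec_enc (x : List Bool) : main_dec (N487b59b3.bitEncode x) = x := by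
  rw [bitEncode_list]
  have hl : ∀ x : List Bool, (x.flatMap fun b => [true, b, false]).length = 3 * x.length := by
    intro x
    induction x with
    | nil => rfl
    | cons b x ih => simp only [List.flatMap_cons, List.length_append, ih]; simp; omega
  have hg : ∀ (x : List Bool) (i : ℕ),
      (x.flatMap fun b => [true, b, false]).getD (3 * i + 1) false = x.getD i false := by
    intro x
    induction x with
    | nil => simp
    | cons b x ih =>
      intro i
      cases i with
      | zero => simp
      | succ i =>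
        rw [List.getD_cons_succ, ← ih i, show 3 * (i + 1) + 1 = 3 * i + 1 + 1 + 1 + 1 by omega]
        simp
  simp only [main_dec, hl, hg]
  have e1 : List.range (3 * x.length) = List.range x.length ++
      (List.range (2 * x.length)).map (x.length + ·) := by
    rw [← List.range_add]; congr 1; omega
  have e2 : (((List.range (2 * x.length)).map (x.length + ·)).flatMap fun i =>
      cond (decide (3 * i < 3 * x.length)) [x.getD i false] []) = [] := by
    rw [List.flatMap_eq_nil_iff]
    intro i hi
    obtain ⟨j, _, rfl⟩ := List.mem_map.1 hi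
    rw [decide_eq_false (by omega)]; rfl
  rw [e1, List.flatMap_append, e2, List.append_nil]
  rw [List.flatMap_congr (g := fun i => [x.getD i false]) (by
    intro i hi
    rw [decide_eq_true (by have := List.mem_range.1 hi; omega)]; rfl)]
  rw [← List.map_eq_flatMap]
  apply List.ext_getElem
  · simp
  · intro i h1 h2
    simp [List.getD_eq_getElem?_getD, h2]

theorem run_ok : RunSt := by
  refine ⟨fun α _ A F hA hF => ?_, fun L hL => ?_, fun L hL => ?_⟩
  · have h1 : Rl (N487b59b3.bitEncode : α → List Bool) fun a => N487b59b3.bitEncode (A a) :=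
      MP_2989a6_lc.rl_of_tm2 hA
    have h2 : PT fun x => Raw.mk (N487b59b3.bitEncode (A (F x))) :=
      Rl.comp (PT.toRaw hF) (Rl.reindex h1 F)
    exact (main_decPT.comp (PT.ofRaw.comp h2)).of_eq fun x => main_dec_enc _
  · exact toPrelude (f := L) (e := fun b => [b]) (by fun_prop)
  · refine ⟨0, fun p => L p.1, ?_, fun x => ⟨fun h => ⟨[], by simp, h⟩, fun ⟨_, _, h⟩ => h⟩⟩
    have h1 : Rl (N487b59b3.bitEncode : List Bool → List Bool) fun a => N487b59b3.bitEncode (L a) :=
      MP_2989a6_lc.rl_of_tm2 hL
    have h2 := (Rl.fstW (fun p : List Bool × List Bool => N487b59b3.bitEncode p.1)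
      fun p => N487b59b3.bitEncode p.2).comp (Rl.reindex h1 Prod.fst)
    refine Rl.toTM2 (eb := fun b : Bool => N487b59b3.bitEncode b) ?_
    convert h2 using 2 with p
    show N487b59b3.delimit _ ++ _ = _
    rw [delimit_eq, pairW, List.append_assoc]; rfl

theorem main_ok (h1 : PCPSt) (h2 : GapSt) (h3 : ConvSt) (h4 : RunSt) : MainSt := by
  intro C A hC hA happ
  refine Set.Subset.antisymm h4.2.2 fun L hL => h4.2.1 L ?_
  obtain ⟨γ, hγ, hpcp⟩ := h1
  obtain ⟨f, hf, hfx⟩ := hpcp L hL
  obtain ⟨τ, hτ, g, hg, hgx⟩ := h2 (C + 1) γ 1024 (by linarith) hγ (by norm_num)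
  obtain ⟨conv, hconv, hcx⟩ := h3
  obtain ⟨r, hr1, hr2⟩ := exists_rat_btwn (show C * τ < (C + 1) * τ by nlinarith)
  have hr0 : 0 ≤ r := by
    have : (0 : ℝ) ≤ r := le_trans (by positivity) hr1.le
    exact_mod_cast this
  obtain ⟨a, b, ha, hab⟩ : ∃ a b : ℕ, 0 < a ∧ (r : ℝ) = b / a := by
    refine ⟨r.den, r.num.toNat, r.den_pos, ?_⟩
    have : ((r.num.toNat : ℕ) : ℝ) = (r.num : ℝ) := by
      exact_mod_cast Int.toNat_of_nonneg (Rat.num_nonneg.2 hr0)
    rw [this, Rat.cast_def]
  have ha' : (0 : ℝ) < a := by positivity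
  have hgf : PT fun x => g (f x) := hg.comp hf
  have hT : PT fun x => A (conv (g (f x))) :=
    h4.1 _ A (fun x => conv (g (f x))) hA (hconv.comp hgf)
  let cap : List Bool → ℕ := fun x => cnt (fun y => (A (conv (g (f x)))).getD y false) (g (f x)).1
  let dem : List Bool → ℕ := fun x => cnt (fun y => (A (conv (g (f x)))).getD y false) (g (f x)).2
  have hc : ∀ {l : List Bool → Prs}, PT l →
      PT fun x => cnt (fun y => (A (conv (g (f x)))).getD y false) (l x) := fun {l} hl => by
    have e : PT fun p : List Bool × ℕ × ℕ => A (conv (g (f p.1))) := hT.comp (by fun_prop)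
    refine (PT_countP (g := fun x p => Bool.xor ((A (conv (g (f x)))).getD p.1 false)
      ((A (conv (g (f x)))).getD p.2 false)) hl ((e.getD (by fun_prop) (by fun_prop)).xor
        (e.getD (by fun_prop) (by fun_prop)))).of_eq fun x => rfl
  have hcap : PT cap := hc hgf.fst
  have hdem : PT dem := hc hgf.snd
  refine PT.of_eq (f := fun x => decide (0 < dem x) && decide (a * cap x ≤ b * dem x))
    (by fun_prop) fun x => ?_
  obtain ⟨hwf, hy, hn⟩ := hfx x
  obtain ⟨gy, gn⟩ := hgx _ hwf
  obtain ⟨s1, s2, s3, e1, e2⟩ := hcx (g (f x))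
  cases hx : L x with
  | false =>
    have := gn (hn hx) fun y => (A (conv (g (f x)))).getD y false
    by_cases h0 : 0 < dem x
    · have h5 : (0 : ℝ) < dem x := by exact_mod_cast h0
      have h6 : (b : ℝ) * dem x < a * cap x := by
        have h7 : (b : ℝ) < (C + 1) * τ * a := by rwa [hab, div_lt_iff₀ ha'] at hr2
        have h8 : (C + 1) * τ * dem x ≤ cap x := this
        nlinarith
      have h9 : b * dem x < a * cap x := by exact_mod_cast h6
      simp [Nat.not_le.2 h9]
    · simp [h0]
  | true =>
    obtain ⟨S, p1, p2⟩ := gy (hy hx)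
    obtain ⟨T, t1, t2⟩ := e2 S
    have q0 : 0 < cut (conv (g (f x))).2.2 T := by
      rw [(e1 T).2, t2]; exact_mod_cast p1
    obtain ⟨q1, q2⟩ := happ _ _ _ s1 s2 s3 T q0
    rw [(e1 _).2] at q1
    rw [(e1 _).1, (e1 _).2, (e1 _).1, (e1 _).2, t1, t2] at q2
    have h0 : 0 < dem x := by exact_mod_cast q1
    have h5 : (0 : ℝ) < dem x := by exact_mod_cast h0
    have h6 : (0 : ℝ) < cnt S (g (f x)).2 := by exact_mod_cast p1
    push_cast at q2
    have h7 : (cap x : ℝ) / dem x ≤ b / a := by
      refine q2.trans (le_trans ?_ (hab ▸ hr1.le))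
      exact mul_le_mul_of_nonneg_left ((div_le_iff₀ h6).2 p2) (by linarith)
    rw [div_le_div_iff₀ h5 ha'] at h7
    have h9 : a * cap x ≤ b * dem x := by
      have : (a : ℝ) * cap x ≤ b * dem x := by linarith
      exact_mod_cast this
    simp [h0, h9]

end Pool.Agent.P.MP_9cbceb_lc
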