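import Pool.Agent.P.MP_9cbceb_lc.Basic

/-! Iteration of the amplification round. -/

namespace Pool.Agent.P.MP_9cbceb_lc

open Pool.Agent.Lib.helper21 Pool.Agent.Lib.helper26 Finset

theorem pcp_size_le (n : ℕ) : n.size ≤ n := Nat.size_le.2 Nat.lt_two_pow_self

theorem pcp_count (n : ℕ) :
    ((List.range n).filter fun i => decide ((2 : ℤ) ^ i ≤ (n : ℤ))).length = n.size := by
  have h : ((List.range n).filter fun i => decide ((2 : ℤ) ^ i ≤ (n : ℤ))) =
      (List.range n).filter fun i => decide (i < n.size) := by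
    refine List.filter_congr fun i _ => ?_
    rw [decide_eq_decide, Nat.lt_size]
    exact_mod_cast Iff.rfl
  rw [h]
  obtain ⟨m, hm⟩ := Nat.exists_eq_add_of_le (pcp_size_le n)
  generalize n.size = k at hm ⊢
  subst hm
  rw [List.range_add, List.filter_append, List.length_append, List.filter_eq_self.2,
    List.filter_eq_nil_iff.2]
  · simp
  · intro a ha
    obtain ⟨b, -, rfl⟩ := List.mem_map.1 ha
    simp
  · intro a ha
    simpa using ha

theorem pcp_size_PT {α : Type} [Enc α] {n : α → ℕ} (hn : PT n) : PT fun a => (n a).size :=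
  PT.of_eq (f := fun a =>
    ((List.range (n a)).filter fun i => decide ((2 : ℤ) ^ i ≤ ((n a : ℕ) : ℤ))).length)
    (by fun_prop) fun a => pcp_count (n a)

theorem pcp_bd_pow {α : Type} {i f : α → ℕ} (hf : Bd i f) (c : ℕ) : Bd i fun a => f a ^ c := by
  induction c with
  | zero => simpa using Bd.const i 1
  | succ c ih => simpa only [pow_succ] using ih.mul hf

theorem pcp_gap_mono {q : ℕ} {I : Inst} {ε δ : ℝ} (h : Gap2 q I ε) (hd : δ ≤ ε) : Gap2 q I δ :=
  fun a b ha hb => (mul_le_mul_of_nonneg_right hd (Nat.cast_nonneg _)).trans (h a b ha hb)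

theorem pcp_gen (q c : ℕ) (γ : ℝ) (f : Inst → Inst) (hγ : 0 < γ) (hf : PT f)
    (h : ∀ I, WF q I → WF q (f I) ∧ (f I).length ≤ c * I.length ∧ Ids (f I) (c * I.length) ∧
      (Sat q I → Sat q (f I)) ∧
      ∀ ε : ℝ, 0 ≤ ε → Gap q I ε → Gap2 q (f I) (min γ (2 * ε)))
    (f0 : List Bool → Inst) (h0 : PT f0) (hw : ∀ x, WF q (f0 x)) :
    ∃ g : List Bool → Inst, PT g ∧ ∀ x, WF q (g x) ∧ (Sat q (f0 x) → Sat q (g x)) ∧
      (¬ Sat q (f0 x) → Gap2 q (g x) (min γ 1)) := by
  have hwf : ∀ I, WF q I → ∀ j, WF q (f^[j] I) := by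
    intro I hI j
    induction j with
    | zero => exact hI
    | succ j ih => rw [Function.iterate_succ_apply']; exact (h _ ih).1
  have hlen : ∀ I, WF q I → ∀ j, (f^[j] I).length ≤ c ^ j * I.length := by
    intro I hI j
    induction j with
    | zero => simp
    | succ j ih =>
      rw [Function.iterate_succ_apply']
      refine (h _ (hwf I hI j)).2.1.trans ?_
      rw [pow_succ', mul_assoc]
      exact Nat.mul_le_mul_left _ ih
  have hids : ∀ I, WF q I → ∀ j, Ids (f^[j + 1] I) (c ^ (j + 1) * I.length) := by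
    intro I hI j e he
    rw [Function.iterate_succ_apply'] at he
    have h1 := (h _ (hwf I hI j)).2.2.1 e he
    have h2 : c * (f^[j] I).length ≤ c ^ (j + 1) * I.length := by
      rw [pow_succ', mul_assoc]
      exact Nat.mul_le_mul_left _ (hlen I hI j)
    exact ⟨h1.1.trans h2, h1.2.trans h2⟩
  have hsat : ∀ I, WF q I → Sat q I → ∀ j, Sat q (f^[j] I) := by
    intro I hI hs j
    induction j with
    | zero => exact hs
    | succ j ih => rw [Function.iterate_succ_apply']; exact (h _ (hwf I hI j)).2.2.2.1 ih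
  have hgap : ∀ I, WF q I → ¬ Sat q I → ∀ j,
      Gap2 q (f^[j + 1] I) (min γ (2 ^ (j + 1) / I.length)) := by
    intro I hI hs j
    have hpos : (0 : ℝ) < I.length := by
      exact_mod_cast List.length_pos_iff.2 hI.1
    induction j with
    | zero =>
      have hg : Gap q I (1 / I.length) := by
        intro a ha
        rw [one_div, inv_mul_cancel₀ hpos.ne']
        have : viol q I a a ≠ 0 := fun h0 => hs ⟨a, ha, h0⟩
        exact_mod_cast Nat.one_le_iff_ne_zero.2 this
      refine pcp_gap_mono ((h I hI).2.2.2.2 _ (by positivity) hg) (le_of_eq ?_)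
      congr 1
      ring
    | succ j ih =>
      rw [Function.iterate_succ_apply']
      refine pcp_gap_mono ((h _ (hwf I hI (j + 1))).2.2.2.2 _ (by positivity)
        fun a ha => ih a a ha ha) (le_min (min_le_left _ _) ?_)
      rcases le_total γ (2 ^ (j + 1) / I.length) with h1 | h1
      · rw [min_eq_left h1]
        exact (min_le_left _ _).trans (by linarith)
      · rw [min_eq_right h1]
        refine (min_le_right _ _).trans (le_of_eq ?_)
        ring
  refine ⟨fun x => f^[(f0 x).length.size] (f0 x), ?_, fun x => ⟨hwf _ (hw x) _,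
    fun hs => hsat _ (hw x) hs _, fun hs => ?_⟩⟩
  · have hM : Bd sz fun x => (2 * (f0 x).length) ^ c * (f0 x).length :=
      (pcp_bd_pow ((Bd.const _ 2).mul h0.length.bdNat) c).mul h0.length.bdNat
    refine PT.iterate (f := fun _ => f) (hf.comp (by fun_prop)) (pcp_size_PT h0.length) h0
      (fun x => sz (f0 x) + (((2 * (f0 x).length) ^ c * (f0 x).length) *
        (2 * (4 * ((2 * (f0 x).length) ^ c * (f0 x).length) + 2 ^ (q * q) + 2) + 2) + 1))
      (h0.bd.add ((hM.mul (((Bd.const _ 2).mul ((((Bd.const _ 4).mul hM).add (Bd.const _ _)).add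
        (Bd.const _ 2))).add (Bd.const _ 2))).add (Bd.const _ 1))) fun x j hj => ?_
    rcases j with _ | j
    · simp
    have hne : (f0 x).length ≠ 0 := fun h0 => (hw x).1 (List.length_eq_zero_iff.1 h0)
    have h1 : 2 ^ j ≤ (f0 x).length := Nat.lt_size.1 (by omega)
    have h2 : c ^ (j + 1) ≤ (2 * (f0 x).length) ^ c := by
      calc c ^ (j + 1) ≤ (2 ^ c) ^ (j + 1) := Nat.pow_le_pow_left Nat.lt_two_pow_self.le _
        _ = (2 ^ (j + 1)) ^ c := by rw [← pow_mul, ← pow_mul, mul_comm]
        _ ≤ _ := Nat.pow_le_pow_left (by rw [pow_succ]; omega) _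
    have h3 : c ^ (j + 1) * (f0 x).length ≤ (2 * (f0 x).length) ^ c * (f0 x).length :=
      Nat.mul_le_mul_right _ h2
    generalize (2 * (f0 x).length) ^ c * (f0 x).length = M at h3 ⊢
    have h4 := sz_list_le (f^[j + 1] (f0 x)) (4 * M + 2 ^ (q * q) + 2) fun e he => by
      have h5 := hids _ (hw x) j e he
      have h6 := (hwf _ (hw x) (j + 1)).2 e he
      rw [sz_prod, sz_prod, sz_nat, sz_nat, sz_nat]
      omega
    have h7 := Nat.mul_le_mul_right (2 * (4 * M + 2 ^ (q * q) + 2) + 2)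
      ((hlen _ (hw x) (j + 1)).trans h3)
    omega
  · have hne : (f0 x).length ≠ 0 := fun h0 => (hw x).1 (List.length_eq_zero_iff.1 h0)
    have hpos : (0 : ℝ) < (f0 x).length := by exact_mod_cast Nat.pos_of_ne_zero hne
    obtain ⟨j, hj⟩ := Nat.exists_eq_succ_of_ne_zero fun h0 => hne (Nat.size_eq_zero.1 h0)
    have h1 : (f0 x).length < 2 ^ (j + 1) := Nat.size_le.1 hj.le
    simp only [hj]
    refine pcp_gap_mono (hgap _ (hw x) hs j) (min_le_min_left _ ?_)
    rw [le_div_iff₀ hpos, one_mul]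
    exact_mod_cast h1.le

theorem pcp_ok (h1 : InitSt) (h2 : RoundSt) : PCPSt := by
  obtain ⟨c, γ, f, hγ, hf, h⟩ := h2
  refine ⟨min γ 1, lt_min hγ one_pos, fun L hL => ?_⟩
  obtain ⟨f0, h0, hw⟩ := h1 L hL
  obtain ⟨g, hg, hx⟩ := pcp_gen 1024 c γ f hγ hf h f0 h0 fun x => (hw x).1
  refine ⟨g, hg, fun x => ⟨(hx x).1, fun hl => (hx x).2.1 ((hw x).2.1 hl),
    fun hl => (hx x).2.2 fun hs => ?_⟩⟩
  rw [(hw x).2.2 hs] at hl
  exact Bool.noConfusion hl

end Pool.Agent.P.MP_9cbceb_lc
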