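import Pool.Agent.P.MP_9cbceb_lc.Basic

/-! Package 34: choice of the shared randomness and of the rows. -/

namespace Pool.Agent.P.MP_9cbceb_lc

open Finset
open scoped BigOperators

lemma pick_row {Λ : Type} [Fintype Λ] (x y : Λ → ℝ) (θ : ℝ) (hθ : 0 < θ)
    (hx : ∑ j, |x j| ≤ 1) (p : Prop) [Decidable p] (hp : (∃ j, θ ≤ |y j|) → p) :
    ∑ j, x j ^ 2 ≤ (if p then 1 else 0) + 2 * θ + (∑ j, (x j - y j) ^ 2) / (4 * θ) := by
  have hx1 : ∀ j, |x j| ≤ 1 := fun j =>
    (single_le_sum (f := fun j => |x j|) (fun _ _ => abs_nonneg _) (mem_univ j)).trans hx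
  have hsq : ∀ j, x j ^ 2 ≤ |x j| := fun j => by
    have h0 := abs_nonneg (x j)
    have := hx1 j
    rw [← sq_abs]; nlinarith
  have hE : 0 ≤ (∑ j, (x j - y j) ^ 2) / (4 * θ) :=
    div_nonneg (sum_nonneg fun _ _ => sq_nonneg _) (by positivity)
  by_cases h : p
  · rw [if_pos h]
    have : ∑ j, x j ^ 2 ≤ 1 := (sum_le_sum fun j _ => hsq j).trans hx
    linarith
  · rw [if_neg h]
    have hy : ∀ j, |y j| ≤ θ := fun j => by
      by_contra hc
      exact h (hp ⟨j, (not_le.mp hc).le⟩)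
    have hj : ∀ j, x j ^ 2 ≤ 2 * θ * |x j| + (x j - y j) ^ 2 / (4 * θ) := fun j => by
      have h0 := abs_nonneg (x j)
      have h1 : |x j| ≤ θ + |x j - y j| := by
        have := abs_add_le (y j) (x j - y j)
        have h2 : y j + (x j - y j) = x j := by ring
        rw [h2] at this
        linarith [hy j]
      have h2 : |x j| * |x j - y j| ≤ θ * |x j| ^ 2 + |x j - y j| ^ 2 / (4 * θ) := by
        have h3 : 0 ≤ (2 * θ * |x j| - |x j - y j|) ^ 2 / (4 * θ) := by positivity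
        have h4 : (2 * θ * |x j| - |x j - y j|) ^ 2 / (4 * θ) =
            θ * |x j| ^ 2 + |x j - y j| ^ 2 / (4 * θ) - |x j| * |x j - y j| := by
          field_simp; ring
        linarith
      rw [sq_abs, sq_abs] at h2
      have h5 : x j ^ 2 ≤ |x j| * (θ + |x j - y j|) := by
        rw [← sq_abs, pow_two]; exact mul_le_mul_of_nonneg_left h1 h0
      have h6 : θ * x j ^ 2 ≤ θ * |x j| := mul_le_mul_of_nonneg_left (hsq j) hθ.le
      nlinarith
    calc ∑ j, x j ^ 2 ≤ ∑ j, (2 * θ * |x j| + (x j - y j) ^ 2 / (4 * θ)) :=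
          sum_le_sum fun j _ => hj j
      _ = 2 * θ * ∑ j, |x j| + (∑ j, (x j - y j) ^ 2) / (4 * θ) := by
          rw [sum_add_distrib, ← mul_sum, ← sum_div]
      _ ≤ 0 + 2 * θ + (∑ j, (x j - y j) ^ 2) / (4 * θ) := by nlinarith

lemma pick_upd {m n : ℕ} (hn : 0 < n) (i : Fin m) (H : (Fin m → Fin n) → ℝ) :
    𝔼 s, H s = 𝔼 s, 𝔼 t : Fin n, H (Function.update s i t) := by
  have : Nonempty (Fin n) := ⟨⟨0, hn⟩⟩
  let σ : (Fin m → Fin n) × Fin n ≃ (Fin m → Fin n) × Fin n :=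
    { toFun := fun p => (Function.update p.1 i p.2, p.1 i)
      invFun := fun p => (Function.update p.1 i p.2, p.1 i)
      left_inv := fun p => by simp
      right_inv := fun p => by simp }
  have h1 : 𝔼 p : (Fin m → Fin n) × Fin n, H (Function.update p.1 i p.2) =
      𝔼 p : (Fin m → Fin n) × Fin n, H p.1 :=
    Fintype.expect_equiv σ _ _ fun p => rfl
  rw [← univ_product_univ, expect_product, expect_product] at h1
  rw [h1]
  simp

/-- The rows chosen by `s`, without row number `i`. -/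
def pickR {ι : Type} [DecidableEq ι] {m n : ℕ} (e : Fin m × Fin n ≃ ι) (s : Fin m → Fin n)
    (i : Fin m) : Finset ι := (univ.erase i).image fun k => e (k, s k)

def pickB {ι : Type} [DecidableEq ι] {m n : ℕ} (e : Fin m × Fin n ≃ ι) (s : Fin m → Fin n) :
    Finset ι := univ.image fun k => e (k, s k)

lemma pick_inj {ι : Type} {m n : ℕ} (e : Fin m × Fin n ≃ ι) (s : Fin m → Fin n) :
    Function.Injective fun k => e (k, s k) := fun a b h => by
  have := e.injective h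
  exact (Prod.ext_iff.mp this).1

lemma pick_erase {ι : Type} [DecidableEq ι] {m n : ℕ} (e : Fin m × Fin n ≃ ι) (s : Fin m → Fin n)
    (i : Fin m) : (pickB e s).erase (e (i, s i)) = pickR e s i := by
  unfold pickB pickR
  exact (image_erase (pick_inj e s) univ i).symm

lemma pick_card {ι : Type} [DecidableEq ι] {m n : ℕ} (e : Fin m × Fin n ≃ ι) (s : Fin m → Fin n) :
    #(pickB e s) = m := by
  unfold pickB
  rw [card_image_of_injective _ (pick_inj e s)]; simp

lemma pick_cardR {ι : Type} [DecidableEq ι] {m n : ℕ} (e : Fin m × Fin n ≃ ι) (s : Fin m → Fin n)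
    (i : Fin m) : #(pickR e s i) ≤ m := by
  rw [← pick_erase]
  exact (card_erase_le).trans (pick_card e s).le

lemma pick_R_upd {ι : Type} [DecidableEq ι] {m n : ℕ} (e : Fin m × Fin n ≃ ι) (s : Fin m → Fin n)
    (i : Fin m) (t : Fin n) : pickR e (Function.update s i t) i = pickR e s i := by
  unfold pickR
  refine image_congr fun k hk => ?_
  have : k ≠ i := (mem_erase.mp (mem_coe.mp hk)).1
  simp [Function.update_of_ne this]

lemma pick_sum {ι : Type} [DecidableEq ι] {m n : ℕ} (e : Fin m × Fin n ≃ ι) (s : Fin m → Fin n)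
    (F : Finset ι → ι → ℝ) :
    ∑ a ∈ pickB e s, F ((pickB e s).erase a) a = ∑ i, F (pickR e s i) (e (i, s i)) := by
  conv_lhs => rw [pickB]
  rw [sum_image fun a _ b _ h => pick_inj e s h]
  refine sum_congr rfl fun i _ => ?_
  rw [← pick_erase]; rfl

lemma pick_avg1 {ι : Type} [Fintype ι] {m n : ℕ} (hn : 0 < n) (e : Fin m × Fin n ≃ ι)
    (F : ι → ℝ) : 𝔼 s : Fin m → Fin n, ∑ i, F (e (i, s i)) = (∑ a, F a) / n := by
  have : Nonempty (Fin n) := ⟨⟨0, hn⟩⟩
  rw [expect_sum_comm]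
  have h1 : ∀ i : Fin m, 𝔼 s : Fin m → Fin n, F (e (i, s i)) = (∑ t, F (e (i, t))) / n := by
    intro i
    rw [pick_upd hn i]
    simp only [Function.update_self]
    rw [Fintype.expect_const, Fintype.expect_eq_sum_div_card]; simp
  rw [sum_congr rfl fun i _ => h1 i, ← sum_div, ← Fintype.sum_prod_type', ← e.sum_comp]

lemma pick_avg2 {ι Ξ : Type} [Fintype ι] [DecidableEq ι] [Fintype Ξ] {m n : ℕ} (hn : 0 < n)
    (e : Fin m × Fin n ≃ ι) (F : Finset ι → Ξ → ι → ℝ) (τ : ℝ) (h0 : ∀ R ξ a, 0 ≤ F R ξ a)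
    (hF : ∀ R : Finset ι, #R ≤ m → 𝔼 ξ, ∑ a, F R ξ a ≤ τ) :
    𝔼 ξ, 𝔼 s : Fin m → Fin n, ∑ i, F (pickR e s i) ξ (e (i, s i)) ≤ m * (τ / n) := by
  have : Nonempty (Fin n) := ⟨⟨0, hn⟩⟩
  have hn' : (0 : ℝ) < n := by exact_mod_cast hn
  have h1 : ∀ (i : Fin m) (ξ : Ξ), 𝔼 s : Fin m → Fin n, F (pickR e s i) ξ (e (i, s i)) ≤
      𝔼 s : Fin m → Fin n, (∑ a, F (pickR e s i) ξ a) / n := by
    intro i ξ
    rw [pick_upd hn i]
    refine expect_le_expect fun s _ => ?_
    simp only [Function.update_self, pick_R_upd]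
    rw [Fintype.expect_eq_sum_div_card, Fintype.card_fin]
    refine div_le_div_of_nonneg_right ?_ hn'.le
    rw [← e.sum_comp, Fintype.sum_prod_type]
    exact single_le_sum (f := fun i' => ∑ t, F (pickR e s i) ξ (e (i', t)))
      (fun _ _ => sum_nonneg fun _ _ => h0 _ _ _) (mem_univ i)
  have h2 : ∀ i : Fin m, 𝔼 ξ, 𝔼 s : Fin m → Fin n, F (pickR e s i) ξ (e (i, s i)) ≤ τ / n := by
    intro i
    refine (expect_le_expect fun ξ _ => h1 i ξ).trans ?_
    rw [expect_comm]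
    refine expect_le univ_nonempty fun s _ => ?_
    rw [← expect_div]
    exact div_le_div_of_nonneg_right (hF _ (pick_cardR e s i)) hn'.le
  simp_rw [expect_sum_comm]
  calc _ ≤ ∑ _i : Fin m, τ / n := sum_le_sum fun i _ => h2 i
    _ = m * (τ / n) := by simp

open Classical in
theorem pick_ok : PickSt := by
  intro Ω Ξ ι Λ _ _ _ _ _ _ _ m n e Good Ψ ΨR θ M τ hm hn hθ hM h1 h2 h3 h4
  have : Nonempty (Fin n) := ⟨⟨0, hn⟩⟩
  have hn' : (0 : ℝ) < n := by exact_mod_cast hn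
  have hm' : (0 : ℝ) < m := by exact_mod_cast hm
  let act : Finset ι → Ξ → ι → Ω → Prop := fun R ξ a W => ∃ j, θ ≤ |ΨR R W ξ (a, j)|
  let err : Ω → Finset ι → Ξ → ι → ℝ := fun W R ξ a => ∑ j, (Ψ W ξ (a, j) - ΨR R W ξ (a, j)) ^ 2
  let A : Ω → Ξ → (Fin m → Fin n) → ℝ := fun W ξ s =>
    ∑ i, if act (pickR e s i) ξ (e (i, s i)) W then 1 else 0
  let Z : Ω → Ξ → (Fin m → Fin n) → ℝ := fun W ξ s => ∑ i, err W (pickR e s i) ξ (e (i, s i))
  have herr : ∀ W R ξ a, 0 ≤ err W R ξ a := fun W R ξ a => sum_nonneg fun _ _ => sq_nonneg _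
  have hA0 : ∀ W ξ s, 0 ≤ A W ξ s := fun W ξ s => sum_nonneg fun i _ => by
    split_ifs <;> norm_num
  have hA1 : ∀ W ξ s, A W ξ s ≤ m := fun W ξ s => by
    calc A W ξ s ≤ ∑ _i : Fin m, (1 : ℝ) := sum_le_sum fun i _ => by split_ifs <;> norm_num
      _ = m := by simp
  have hZ0 : ∀ W ξ s, 0 ≤ Z W ξ s := fun W ξ s => sum_nonneg fun i _ => herr _ _ _ _
  have hW : ∀ W, (if Good W then 𝔼 ξ, ∑ c, Ψ W ξ c ^ 2 else 0) / n - 3 * θ * m ≤
      𝔼 ξ, 𝔼 s, (A W ξ s - M * m * if Good W then Z W ξ s else 0) := by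
    intro W
    by_cases hG : Good W
    · simp only [if_pos hG]
      have hZ : 𝔼 ξ, 𝔼 s, Z W ξ s ≤ m * (τ / n) := by
        refine pick_avg2 hn e (err W) τ (herr W) fun R hR => ?_
        have := h2 W hG R hR
        simpa only [err, Fintype.sum_prod_type] using this
      have hP : (𝔼 ξ, ∑ c, Ψ W ξ c ^ 2) / n =
          𝔼 ξ, 𝔼 s : Fin m → Fin n, ∑ i, ∑ j, Ψ W ξ (e (i, s i), j) ^ 2 := by
        rw [expect_div]
        refine expect_congr rfl fun ξ _ => ?_
        rw [pick_avg1 hn e fun a => ∑ j, Ψ W ξ (a, j) ^ 2, Fintype.sum_prod_type]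
      have hrow : ∀ ξ (s : Fin m → Fin n), ∑ i, ∑ j, Ψ W ξ (e (i, s i), j) ^ 2 ≤
          (A W ξ s - M * m * Z W ξ s) + 2 * θ * m + (1 / (4 * θ) + M * m) * Z W ξ s := by
        intro ξ s
        have h5 : ∑ i, ∑ j, Ψ W ξ (e (i, s i), j) ^ 2 ≤ ∑ i,
            ((if act (pickR e s i) ξ (e (i, s i)) W then 1 else 0) + 2 * θ +
              err W (pickR e s i) ξ (e (i, s i)) / (4 * θ)) :=
          sum_le_sum fun i _ => pick_row (fun j => Ψ W ξ (e (i, s i), j))
            (fun j => ΨR (pickR e s i) W ξ (e (i, s i), j)) θ hθ (h1 W hG ξ _) _ id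
        rw [sum_add_distrib, sum_add_distrib, ← sum_div] at h5
        simp only [sum_const, card_univ, Fintype.card_fin, nsmul_eq_mul] at h5
        have h6 : (A W ξ s - M * m * Z W ξ s) + 2 * θ * m + (1 / (4 * θ) + M * m) * Z W ξ s =
            A W ξ s + m * (2 * θ) + Z W ξ s / (4 * θ) := by ring
        rw [h6]; exact h5
      have h7 : 𝔼 ξ, 𝔼 s : Fin m → Fin n, ∑ i, ∑ j, Ψ W ξ (e (i, s i), j) ^ 2 ≤
          𝔼 ξ, 𝔼 s, ((A W ξ s - M * m * Z W ξ s) + 2 * θ * m +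
            (1 / (4 * θ) + M * m) * Z W ξ s) :=
        expect_le_expect fun ξ _ => expect_le_expect fun s _ => hrow ξ s
      simp only [expect_add_distrib, ← mul_expect, Fintype.expect_const] at h7
      have hc : 0 ≤ 1 / (4 * θ) + M * m := by positivity
      have h8 := mul_le_mul_of_nonneg_left hZ hc
      have h9 := mul_le_mul_of_nonneg_left h4 hm'.le
      rw [hP]
      nlinarith
    · simp only [if_neg hG, mul_zero, sub_zero, zero_div]
      have h5 : 0 ≤ 𝔼 ξ, 𝔼 s, A W ξ s :=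
        expect_nonneg fun ξ _ => expect_nonneg fun s _ => hA0 W ξ s
      have : 0 ≤ 3 * θ * m := by positivity
      linarith
  have hall : θ * m ≤
      𝔼 ξ, 𝔼 s, 𝔼 W, (A W ξ s - M * m * if Good W then Z W ξ s else 0) := by
    have h5 := expect_le_expect (s := univ) fun W _ => hW W
    rw [expect_sub_distrib, ← expect_div, Fintype.expect_const, expect_comm] at h5
    have h6 : 4 * θ * m ≤ (𝔼 W, if Good W then 𝔼 ξ, ∑ c, Ψ W ξ c ^ 2 else 0) / n := by
      rw [le_div_iff₀ hn']; linarith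
    have h7 : ∀ ξ, 𝔼 W, 𝔼 s, (A W ξ s - M * m * if Good W then Z W ξ s else 0) =
        𝔼 s, 𝔼 W, (A W ξ s - M * m * if Good W then Z W ξ s else 0) := fun ξ =>
      expect_comm _ _ _
    simp only [h7] at h5
    linarith
  obtain ⟨ξ, -, hξ⟩ := exists_le_of_le_expect univ_nonempty hall
  obtain ⟨s, -, hs⟩ := exists_le_of_le_expect univ_nonempty hξ
  rw [expect_sub_distrib, ← mul_expect] at hs
  have hz0 : 0 ≤ 𝔼 W, if Good W then Z W ξ s else 0 := expect_nonneg fun W _ => by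
    split_ifs
    · exact hZ0 _ _ _
    · exact le_rfl
  have ha1 : 𝔼 W, A W ξ s ≤ m := expect_le univ_nonempty fun W _ => hA1 W ξ s
  have hMm : 0 < M * m := mul_pos hM hm'
  refine ⟨ξ, pickB e s, pick_card e s, ?_, ?_⟩
  · rw [pick_card, pick_sum e s fun R a => pr (act R ξ a)]
    have h5 : ∑ i, pr (act (pickR e s i) ξ (e (i, s i))) = 𝔼 W, A W ξ s := by
      simp only [A]
      rw [expect_sum_comm]
      refine sum_congr rfl fun i _ => ?_
      unfold pr
      refine expect_congr rfl fun W _ => ?_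
      congr
    rw [h5]
    nlinarith [mul_nonneg hMm.le hz0]
  · have h5 : ∀ W, ∑ a ∈ pickB e s, ∑ j,
        (Ψ W ξ (a, j) - ΨR ((pickB e s).erase a) W ξ (a, j)) ^ 2 = Z W ξ s := fun W =>
      pick_sum e s fun R a => err W R ξ a
    simp only [h5]
    rw [le_div_iff₀ hM]
    have h6 : 0 < θ * m := mul_pos hθ hm'
    have h7 : m * ((𝔼 W, if Good W then Z W ξ s else 0) * M) ≤ m * 1 := by nlinarith
    exact le_of_mul_le_mul_left h7 hm'

end Pool.Agent.P.MP_9cbceb_lc
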