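import Pool.Agent.P.MP_9cbceb_lc.Basic

/-! The powering step. -/

namespace Pool.Agent.P.MP_9cbceb_lc

open Pool.Agent.Lib.helper21 Pool.Agent.Lib.helper26 Finset

theorem pow_digits {q : ℕ} (k : ℕ) (g : ℕ → ℕ) (hg : ∀ i, g i < q) :
    ∃ a < q ^ k, ∀ i < k, a / q ^ i % q = g i := by
  induction k generalizing g with
  | zero => exact ⟨0, by simp, by simp⟩
  | succ k ih =>
    obtain ⟨a, h1, h2⟩ := ih (fun i => g (i + 1)) fun i => hg _
    have h0 := hg 0
    refine ⟨g 0 + q * a, by rw [pow_succ']; nlinarith, fun i hi => ?_⟩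
    rcases i with _ | i
    · simp [Nat.mod_eq_of_lt h0]
    · rw [pow_succ', ← Nat.div_div_eq_div_mul, Nat.add_mul_div_left _ _ (by omega),
        Nat.div_eq_of_lt h0, zero_add, h2 i (by omega)]

theorem pow_dec {q : ℕ} (hq : 0 < q) (W : List (List ℕ)) :
    ∃ (q' : ℕ) (dec : ℕ → List ℕ → ℕ), 0 < q' ∧ (∀ a s, dec a s < q) ∧
      ∀ g : List ℕ → ℕ, (∀ s, g s < q) → ∃ a < q', ∀ s ∈ W, dec a s = g s := by
  refine ⟨q ^ W.length, fun a s => a / q ^ W.idxOf s % q, by positivity,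
    fun a s => Nat.mod_lt _ hq, fun g hg => ?_⟩
  obtain ⟨a, h1, h2⟩ := pow_digits W.length (fun i => g (W.getD i [])) fun i => hg _
  refine ⟨a, h1, fun s hs => (h2 _ (List.idxOf_lt_length_of_mem hs)).trans ?_⟩
  rw [List.getD_eq_getElem _ _ (List.idxOf_lt_length_of_mem hs), List.getElem_idxOf]

theorem pow_gat {α : Type} [Enc α] {g : α → Gr} {f : α → ℕ} (hg : PT g) (hf : PT f) (i : ℕ) :
    PT fun a => gat (g a) (f a) i := by unfold gat; fun_prop

theorem pow_wend {α : Type} [Enc α] {g : α → Gr} (hg : PT g) (σ : List ℕ) {f : α → ℕ} (hf : PT f) :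
    PT fun a => wend (grot (g a)) (f a) σ := by
  induction σ generalizing f with
  | nil => exact hf
  | cons i σ ih => exact ih (pow_gat hg hf i).fst

theorem pow_wrev {α : Type} [Enc α] {g : α → Gr} (hg : PT g) (σ : List ℕ) {f : α → ℕ} (hf : PT f) :
    PT fun a => wrev (grot (g a)) (f a) σ := by
  induction σ generalizing f with
  | nil => exact PT.of_eq (f := fun _ => ([] : List ℕ)) (by fun_prop) fun _ => rfl
  | cons i σ ih =>
    have h1 := ih (pow_gat hg hf i).fst
    have h2 := (pow_gat hg hf i).snd.fst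
    exact PT.of_eq (f := fun a => wrev (grot (g a)) (gat (g a) (f a) i).1 σ ++
      [(gat (g a) (f a) i).2.1]) (by fun_prop) fun _ => rfl

theorem pow_wrev_append (ρ : Rot) (v : ℕ) (σ τ : List ℕ) :
    wrev ρ v (σ ++ τ) = wrev ρ (wend ρ v σ) τ ++ wrev ρ v σ := by
  induction σ generalizing v with
  | nil => simp [wrev, wend]
  | cons i σ ih => simp [wrev, wend, ih]

theorem pow_wrev_length (ρ : Rot) (v : ℕ) (σ : List ℕ) : (wrev ρ v σ).length = σ.length := by
  induction σ generalizing v with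
  | nil => rfl
  | cons i σ ih => simp [wrev, ih]

theorem pow_split (σ : List ℕ) {i l : ℕ} (h : i ≤ l) : σ.take l = σ.take i ++ (σ.take l).drop i := by
  conv_lhs => rw [← List.take_append_drop i (σ.take l), List.take_take, min_eq_left h]

/-- The codes and the return directions met along a walk. -/
def pow_data (T l : ℕ) (σ : List ℕ) (G : Gr) (v : ℕ) : List ℕ :=
  ((List.range (2 * T)).map fun i => gcode G (wend (grot G) v (σ.take i)) (σ.getD i 0)) ++
    wrev (grot G) v (σ.take l)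

theorem pow_data_pt (T l : ℕ) (σ : List ℕ) : PT fun p : Gr × ℕ => pow_data T l σ p.1 p.2 := by
  have h0 : PT fun p : Gr × ℕ => p.1 := by fun_prop
  have h0' : PT fun p : Gr × ℕ => p.2 := by fun_prop
  have h1 := PT_mapConst (List.range (2 * T)) fun i =>
    (pow_gat h0 (pow_wend h0 (σ.take i) h0') (σ.getD i 0)).snd.snd
  have h2 := pow_wrev h0 (σ.take l) h0'
  exact h1.append h2

theorem pow_cnt {α β : Type} [DecidableEq α] {l : List α} (h : l.Nodup) (F : α → List β)
    (p : β → Bool) : ((l.flatMap F).countP p : ℝ) = ∑ x ∈ l.toFinset, ((F x).countP p : ℝ) := by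
  rw [List.sum_toFinset _ h]
  clear h
  induction l with
  | nil => simp
  | cons a l ih => simp [ih]

theorem pow_mem (h0 : WalkSt) {d k : ℕ} {σ : List ℕ} (h : σ ∈ wd d k) {i l : ℕ} (hl : l ≤ k) :
    (σ.take l).drop i ∈ wd d (l - i) := by
  rw [h0.2.1] at h ⊢
  exact ⟨by simp [h.1, hl], fun x hx => h.2 x (List.mem_of_mem_take (List.mem_of_mem_drop hx))⟩

theorem pow_get (h0 : WalkSt) {d k : ℕ} {σ : List ℕ} (h : σ ∈ wd d k) {i : ℕ} (hi : i < k) :
    σ.getD i 0 < d ∧ σ.take (i + 1) = σ.take i ++ [σ.getD i 0] := by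
  rw [h0.2.1] at h
  rw [List.getD_eq_getElem _ _ (h.1 ▸ hi)]
  exact ⟨h.2 _ (List.getElem_mem _), List.take_succ_eq_append_getElem _⟩

theorem pow_ok (h0 : WalkSt) (h1 : PowMathSt) : PowSt := by
  classical
  intro q d T hq hd hT
  obtain ⟨q', dec, hq', d1, d2⟩ := pow_dec hq ((List.range T).flatMap (words d))
  choose code c1 c2 using code_ex q'
  obtain ⟨M, hM⟩ : ∃ M, M = 2 ^ (q * q) := ⟨_, rfl⟩
  choose t t1 t2 using fun (l : ℕ) (σ : List ℕ) => PT_table (4 * T + M + d) fun x =>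
    code fun a b => decide (∀ i < l, i < T → l - 1 - i < T → rel q (x.getD i 0) (dec a (σ.take i))
      (dec b ((x.drop (2 * T)).take (l - 1 - i))) = true)
  let f : Gr → Inst := fun G => (List.range G.length).flatMap fun v =>
    (List.range (2 * T)).flatMap fun l => (words d (2 * T)).flatMap fun σ =>
      [(v, wend (grot G) v (σ.take (l + 1)), t (l + 1) σ (pow_data T (l + 1) σ G v))]
  refine ⟨q', 2 * T * d ^ (2 * T), hq', f, ?_, fun G ⟨g0, g1, g2⟩ => ?_⟩
  · refine PT.flatMap (by fun_prop) (PT_flatMapConst _ fun l => PT_flatMapConst _ fun σ => ?_)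
    have h2 := pow_wend (g := fun p : Gr × ℕ => p.1) (by fun_prop) (σ.take (l + 1))
      (f := fun p => p.2) (by fun_prop)
    have h3 := (t1 (l + 1) σ).comp (pow_data_pt T (l + 1) σ)
    have h4 : ∀ {a b : Gr × ℕ → ℕ}, PT a → PT b → PT fun p => [(p.2, a p, b p)] := fun ha hb => by
      fun_prop
    exact h4 h2 h3
  have w := h0.2.2.2.2.2.2.1 _ d _ g1
  have w1 : ∀ v < G.length, ∀ σ ∈ wd d (2 * T), ∀ l ≤ 2 * T,
      wend (grot G) v (σ.take l) < G.length ∧ wrev (grot G) v (σ.take l) ∈ wd d l :=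
    fun v hv σ hσ l hl => ⟨(w _ v hv _ (pow_mem h0 hσ (i := 0) hl)).1,
      (w _ v hv _ (pow_mem h0 hσ (i := 0) hl)).2.1⟩
  have e1 : ∀ v < G.length, ∀ l < 2 * T, ∀ σ ∈ wd d (2 * T), t (l + 1) σ (pow_data T (l + 1) σ G v) =
      code fun a b => decide (∀ i < l + 1, i < T → l + 1 - 1 - i < T →
        rel q (gcode G (wend (grot G) v (σ.take i)) (σ.getD i 0)) (dec a (σ.take i))
          (dec b (wrev (grot G) (wend (grot G) v (σ.take (i + 1)))
            ((σ.take (l + 1)).drop (i + 1)))) = true) := fun v hv l hl σ hσ => by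
    have h2 := (h0.2.1 _ _ _).1 (w1 v hv σ hσ (l + 1) hl).2
    rw [t2 _ _ _ (by simp [pow_data, h2.1]; omega)]
    · refine congrArg code (funext₂ fun a b => decide_eq_decide.2 (forall₂_congr fun i hi => ?_))
      rw [pow_data, List.getD_append _ _ _ _ (by simp; omega), List.drop_left' (by simp),
        List.getD_eq_getElem _ _ (by simp; omega), List.getElem_map, List.getElem_range]
      conv_lhs => rw [pow_split σ (show i + 1 ≤ l + 1 from hi), pow_wrev_append,
        List.take_left' (by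
          rw [pow_wrev_length, ((h0.2.1 _ _ _).1 (pow_mem h0 hσ (i := i + 1) hl)).1]; omega)]
    · intro x hx
      rcases List.mem_append.1 hx with hx | hx
      · obtain ⟨i, hi, rfl⟩ := List.mem_map.1 hx
        have := g2 _ (w1 v hv σ hσ i (List.mem_range.1 hi).le).1 _
          (pow_get h0 hσ (List.mem_range.1 hi)).1
        omega
      · have := h2.2 x hx
        omega
  have mem : ∀ e ∈ f G, ∃ v < G.length, ∃ l < 2 * T, ∃ σ ∈ wd d (2 * T), e =
      (v, wend (grot G) v (σ.take (l + 1)), t (l + 1) σ (pow_data T (l + 1) σ G v)) := fun e he => by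
    simpa only [f, List.mem_flatMap, List.mem_range, List.mem_singleton, wd, List.mem_toFinset]
      using he
  have cnt : ∀ p, ((f G).countP p : ℝ) = ∑ v ∈ range G.length, ∑ l ∈ range (2 * T),
      ∑ σ ∈ wd d (2 * T), if p (v, wend (grot G) v (σ.take (l + 1)),
        t (l + 1) σ (pow_data T (l + 1) σ G v)) then (1 : ℝ) else 0 := fun p => by
    simp only [f, pow_cnt List.nodup_range, pow_cnt (h0.1 _ _), List.toFinset_range,
      List.countP_singleton, Nat.cast_ite, Nat.cast_one, Nat.cast_zero, wd]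
  have len : ((f G).length : ℝ) = G.length * (2 * T) * d ^ (2 * T) := by
    rw [← List.countP_true, cnt]
    simp [h0.2.2.1, mul_assoc]
  have vio : ∀ A, Bnd q' A → (viol q' (f G) A A : ℝ) = ∑ v ∈ range G.length, ∑ l ∈ range (2 * T),
      ∑ σ ∈ wd d (2 * T), if Rej q (grot G) (gcode G) (fun x => dec (A x)) T v (l + 1) σ
        then (1 : ℝ) else 0 := fun A hA => by
    rw [viol, cnt]
    refine sum_congr rfl fun v hv => sum_congr rfl fun l hl => sum_congr rfl fun σ hσ =>
      if_congr ?_ rfl rfl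
    rw [e1 v (mem_range.1 hv) l (mem_range.1 hl) σ hσ, c2 _ _ (hA _) _ (hA _)]
    simp only [Rej, opA, opB, Bool.not_eq_true', decide_eq_false_iff_not, not_forall, exists_prop,
      Bool.not_eq_true]
  refine ⟨⟨List.length_pos_iff.1 ?_, fun e he => ?_⟩, ?_, fun e he => ?_, ?_, fun hE ε hε hG A hA => ?_⟩
  · rw [← Nat.cast_pos (α := ℝ), len]; positivity
  · obtain ⟨v, hv, l, hl, σ, hσ, rfl⟩ := mem e he
    rw [e1 v hv l hl σ hσ]
    exact c1 _
  · rw [← Nat.cast_le (α := ℝ), len]; push_cast; exact le_of_eq (by ring)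
  · obtain ⟨v, hv, l, hl, σ, hσ, rfl⟩ := mem e he
    exact ⟨hv.le, (w1 v hv σ hσ _ hl).1.le⟩
  · rintro ⟨a, a1, a2⟩
    choose A A1 A2 using fun x => d2 (fun s => a (wend (grot G) x s)) fun s => a1 _
    have A3 : ∀ x, ∀ k < T, ∀ s ∈ wd d k, dec (A x) s = a (wend (grot G) x s) := fun x k hk s hs =>
      A2 x s (List.mem_flatMap.2 ⟨k, List.mem_range.2 hk, List.mem_toFinset.1 hs⟩)
    refine ⟨A, A1, ?_⟩
    rw [← Nat.cast_eq_zero (R := ℝ), vio A A1]
    refine sum_eq_zero fun v hv => sum_eq_zero fun l hl => sum_eq_zero fun σ hσ => if_neg ?_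
    rintro ⟨i, i1, i2, i3, h2⟩
    rw [mem_range] at hv hl
    obtain ⟨h3, h4⟩ := pow_get h0 hσ (show i < 2 * T by omega)
    obtain ⟨-, h5, h6, -⟩ := w _ _ (w1 v hv σ hσ (i + 1) (by omega)).1 _ (pow_mem h0 hσ (i := i + 1) hl)
    rw [← h0.2.2.2.2.2.1 _ v, ← pow_split σ (show i + 1 ≤ l.succ from i1)] at h6
    rw [opA, opB, A3 v i i2 (σ.take i) (pow_mem h0 hσ (i := 0) (by omega)), A3 _ _ (by omega) _ h5, h6, h4,
      h0.2.2.2.2.2.1] at h2
    exact (card_eq_zero.1 a2 ▸ notMem_empty (wend (grot G) v (σ.take i), σ.getD i 0))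
      (mem_filter.2 ⟨mem_product.2 ⟨mem_range.2 (w1 v hv σ hσ i (by omega)).1, mem_range.2 h3⟩, h2⟩)
  · rw [len, vio A hA]
    exact h1 _ d q T _ _ _ ε g0 hd hq hT g1 hE (fun _ _ => d1 _ _) hε hG

end Pool.Agent.P.MP_9cbceb_lc
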