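import Pool.Agent.P.MP_9cbceb_lc.Basic

/-! First moment of the number of good steps of the walk. -/

namespace Pool.Agent.P.MP_9cbceb_lc

open Finset

/-- Number of walks of length `a` from `u` whose end has the opinion `x` about `u`. -/
noncomputable def powFirst_cnt (d : ℕ) (ρ : Rot) (op : ℕ → List ℕ → ℕ) (a u x : ℕ) : ℝ :=
  ∑ t ∈ wd d a, if op (wend ρ u t) (wrev ρ u t) = x then (1 : ℝ) else 0

theorem powFirst_cnt_nonneg (d : ℕ) (ρ : Rot) (op : ℕ → List ℕ → ℕ) (a u x : ℕ) :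
    0 ≤ powFirst_cnt d ρ op a u x :=
  sum_nonneg fun _ _ => by split_ifs <;> norm_num

theorem powFirst_plur (h : WalkSt) {d q : ℕ} (T : ℕ) (ρ : Rot) (op : ℕ → List ℕ → ℕ)
    (hd : 0 < d) (hq : 0 < q) (hop : ∀ v σ, op v σ < q) (u : ℕ) :
    ∃ x < q, (T : ℝ) ≤ q * ∑ a ∈ range T, powFirst_cnt d ρ op a u x / (d : ℝ) ^ a := by
  have hd' : (0 : ℝ) < d := by exact_mod_cast hd
  have h1 : ∀ a, ∑ x ∈ range q, powFirst_cnt d ρ op a u x = (d : ℝ) ^ a := by
    intro a
    unfold powFirst_cnt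
    rw [sum_comm]
    have : ∀ t ∈ wd d a, ∑ x ∈ range q,
        (if op (wend ρ u t) (wrev ρ u t) = x then (1 : ℝ) else 0) = 1 := by
      intro t _
      rw [sum_ite_eq, if_pos (mem_range.2 (hop _ _))]
    rw [sum_congr rfl this, sum_const, h.2.2.1]
    simp
  have h2 : ∑ _x ∈ range q, (T : ℝ) ≤
      ∑ x ∈ range q, q * ∑ a ∈ range T, powFirst_cnt d ρ op a u x / (d : ℝ) ^ a := by
    rw [← mul_sum, sum_comm]
    have : ∀ a ∈ range T, ∑ x ∈ range q, powFirst_cnt d ρ op a u x / (d : ℝ) ^ a = 1 := by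
      intro a _
      rw [← sum_div, h1, div_self (by positivity)]
    rw [sum_congr rfl this]
    simp
  obtain ⟨x, hx, hle⟩ := exists_le_of_sum_le ⟨0, mem_range.2 hq⟩ h2
  exact ⟨x, mem_range.1 hx, hle⟩

/-- The condition counted for the pair `(a, b)`. -/
def powFirst_c (ρ : Rot) (op : ℕ → List ℕ → ℕ) (A : ℕ → ℕ) (bad : ℕ → ℕ → Bool) (v a b : ℕ)
    (σ : List ℕ) : Prop :=
  bad (wend ρ v (σ.take a)) (σ.getD a 0) = true ∧
    opA op v σ a = A (wend ρ v (σ.take a)) ∧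
      opB ρ op v (a + b + 1) σ a = A (wend ρ v (σ.take (a + 1)))

instance (ρ : Rot) (op : ℕ → List ℕ → ℕ) (A : ℕ → ℕ) (bad : ℕ → ℕ → Bool) (v a b : ℕ)
    (σ : List ℕ) : Decidable (powFirst_c ρ op A bad v a b σ) := by
  unfold powFirst_c; infer_instance

theorem powFirst_low (ρ : Rot) (op : ℕ → List ℕ → ℕ) (A : ℕ → ℕ) (bad : ℕ → ℕ → Bool)
    (T v : ℕ) (σ : List ℕ) :
    ∑ a ∈ range T, ∑ b ∈ range T, (if powFirst_c ρ op A bad v a b σ then (1 : ℝ) else 0) ≤
      ∑ l ∈ range (2 * T), (nGood ρ op A bad T v (l + 1) σ : ℝ) := by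
  rw [← sum_product', sum_boole, ← Nat.cast_sum, Nat.cast_le]
  unfold nGood
  rw [← card_sigma]
  refine card_le_card_of_injOn (fun p => ⟨p.1 + p.2, p.1⟩) ?_ ?_
  · rintro ⟨a, b⟩ hp
    simp only [coe_filter, mem_product, mem_range, Set.mem_ofPred_eq] at hp
    obtain ⟨⟨ha, hb⟩, h1, h2, h3⟩ := hp
    simp only [coe_sigma, Set.mem_sigma_iff, coe_range, Set.mem_Iio, coe_filter, mem_range,
      Set.mem_ofPred_eq]
    exact ⟨by omega, by omega, ha, by omega, h1, h2, h3⟩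
  · rintro ⟨a, b⟩ _ ⟨a', b'⟩ _ he
    simp only [Sigma.mk.injEq, heq_eq_eq] at he
    obtain ⟨h1, h2⟩ := he
    subst h2
    have : b = b' := by omega
    rw [this]

theorem powFirst_split (h : WalkSt) (ρ : Rot) (op : ℕ → List ℕ → ℕ) (A : ℕ → ℕ)
    (bad : ℕ → ℕ → Bool) (v a b i : ℕ) (s1 s2 r : List ℕ) (h1 : s1.length = a)
    (h2 : s2.length = b) :
    powFirst_c ρ op A bad v a b ((s1 ++ i :: s2) ++ r) ↔
      op v s1 = A (wend ρ v s1) ∧ bad (wend ρ v s1) i = true ∧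
        op (wend ρ (ρ (wend ρ v s1) i).1 s2) (wrev ρ (ρ (wend ρ v s1) i).1 s2) =
          A (ρ (wend ρ v s1) i).1 := by
  have e1 : ((s1 ++ i :: s2) ++ r).take a = s1 := by
    rw [List.append_assoc, List.take_left' h1]
  have e2 : ((s1 ++ i :: s2) ++ r).getD a 0 = i := by
    subst h1
    simp [List.getD_eq_getElem?_getD]
  have e3 : ((s1 ++ i :: s2) ++ r).take (a + 1) = s1 ++ [i] := by
    have : (s1 ++ i :: s2) ++ r = (s1 ++ [i]) ++ (s2 ++ r) := by simp
    rw [this, List.take_left' (by simp [h1])]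
  have e4 : ((s1 ++ i :: s2) ++ r).take (a + b + 1) = s1 ++ i :: s2 :=
    List.take_left' (by simp [h1, h2]; omega)
  have e5 : (s1 ++ i :: s2).drop (a + 1) = s2 := by
    have : s1 ++ i :: s2 = (s1 ++ [i]) ++ s2 := by simp
    rw [this, List.drop_left' (by simp [h1])]
  have e6 : wend ρ v (s1 ++ [i]) = (ρ (wend ρ v s1) i).1 := by
    rw [h.2.2.2.2.2.1]; rfl
  have e7 : wend ρ v (s1 ++ i :: s2) = wend ρ (ρ (wend ρ v s1) i).1 s2 := by
    rw [h.2.2.2.2.2.1]; rfl
  unfold powFirst_c opA opB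
  rw [e1, e2, e3, e4, e5, e6, e7]
  tauto

theorem powFirst_term (h : WalkSt) {n d : ℕ} {ρ : Rot} (hρ : IsRG n d ρ)
    (op : ℕ → List ℕ → ℕ) (A : ℕ → ℕ) (bad : ℕ → ℕ → Bool) (a b c : ℕ) :
    ∑ v ∈ range n, ∑ σ ∈ wd d (a + (b + 1) + c),
        (if powFirst_c ρ op A bad v a b σ then (1 : ℝ) else 0) =
      (d : ℝ) ^ c * ∑ u ∈ range n, ∑ i ∈ range d, (if bad u i = true then (1 : ℝ) else 0) *
        (powFirst_cnt d ρ op a u (A u) * powFirst_cnt d ρ op b (ρ u i).1 (A (ρ u i).1)) := by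
  obtain ⟨-, hmem, hcard, happ, hcons, -, hrev, hsum⟩ := id h
  set G : ℕ → ℝ := fun u => ∑ i ∈ range d, (if bad u i = true then (1 : ℝ) else 0) *
    powFirst_cnt d ρ op b (ρ u i).1 (A (ρ u i).1) with hG
  have key : ∀ v ∈ range n, ∑ σ ∈ wd d (a + (b + 1) + c),
      (if powFirst_c ρ op A bad v a b σ then (1 : ℝ) else 0) =
      (d : ℝ) ^ c * ∑ s1 ∈ wd d a,
        (fun u t => (if op (wend ρ u t) (wrev ρ u t) = A u then (1 : ℝ) else 0) * G u)
          (wend ρ v s1) (wrev ρ v s1) := by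
    intro v hv
    rw [happ, happ, mul_sum]
    refine sum_congr rfl fun s1 hs1 => ?_
    obtain ⟨-, -, r3, r4⟩ := hrev n d ρ hρ a v (mem_range.1 hv) s1 hs1
    simp only [r3, r4]
    rw [hcons, hG]
    simp only [mul_sum, powFirst_cnt]
    refine sum_congr rfl fun i _ => sum_congr rfl fun s2 hs2 => ?_
    have e : ∀ r ∈ wd d c, (if powFirst_c ρ op A bad v a b ((s1 ++ i :: s2) ++ r) then (1 : ℝ)
        else 0) = (if op v s1 = A (wend ρ v s1) then (1 : ℝ) else 0) *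
          ((if bad (wend ρ v s1) i = true then (1 : ℝ) else 0) *
            if op (wend ρ (ρ (wend ρ v s1) i).1 s2) (wrev ρ (ρ (wend ρ v s1) i).1 s2) =
              A (ρ (wend ρ v s1) i).1 then (1 : ℝ) else 0) := by
      intro r _
      rw [if_congr (powFirst_split h ρ op A bad v a b i s1 s2 r ((hmem _ _ _).1 hs1).1
        ((hmem _ _ _).1 hs2).1) rfl rfl]
      simp only [ite_and]
      split_ifs <;> simp
    rw [sum_congr rfl e, sum_const, hcard]
    simp
  rw [sum_congr rfl key, ← mul_sum]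
  congr 1
  refine (hsum n d ρ hρ a fun u t =>
    (if op (wend ρ u t) (wrev ρ u t) = A u then (1 : ℝ) else 0) * G u).trans ?_
  refine sum_congr rfl fun u _ => ?_
  rw [← sum_mul, hG]
  simp only [mul_sum]
  refine sum_congr rfl fun i _ => ?_
  unfold powFirst_cnt
  ring

theorem powFirst_ok (h : WalkSt) : PowFirstSt := by
  intro n d q T ρ op hd hq hT hρ hop
  choose A hA hAT using powFirst_plur h T ρ op hd hq hop
  refine ⟨A, hA, fun bad => ?_⟩
  have hd' : (0 : ℝ) < d := by exact_mod_cast hd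
  have hq' : (0 : ℝ) < q := by exact_mod_cast hq
  set P : ℕ → ℕ → ℝ := fun a u => powFirst_cnt d ρ op a u (A u) / (d : ℝ) ^ a with hP
  have h1 : ∑ v ∈ range n, ∑ σ ∈ wd d (2 * T), ∑ a ∈ range T, ∑ b ∈ range T,
      (if powFirst_c ρ op A bad v a b σ then (1 : ℝ) else 0) ≤
      ∑ v ∈ range n, ∑ l ∈ range (2 * T), ∑ σ ∈ wd d (2 * T),
        (nGood ρ op A bad T v (l + 1) σ : ℝ) := by
    refine sum_le_sum fun v _ => ?_
    rw [sum_comm (s := range (2 * T))]
    exact sum_le_sum fun σ _ => powFirst_low ρ op A bad T v σ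
  have h2 : ∀ a ∈ range T, ∀ b ∈ range T, ∑ v ∈ range n, ∑ σ ∈ wd d (2 * T),
      (if powFirst_c ρ op A bad v a b σ then (1 : ℝ) else 0) =
      (d : ℝ) ^ (2 * T - 1) * ∑ u ∈ range n, ∑ i ∈ range d,
        (if bad u i = true then (1 : ℝ) else 0) * (P a u * P b (ρ u i).1) := by
    intro a ha b hb
    have ha' := mem_range.1 ha
    have hb' := mem_range.1 hb
    obtain ⟨c, hc⟩ : ∃ c, 2 * T = a + (b + 1) + c := ⟨2 * T - (a + (b + 1)), by omega⟩
    have e : 2 * T - 1 = a + b + c := by omega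
    rw [e, hc, powFirst_term h hρ, mul_sum, mul_sum]
    refine sum_congr rfl fun u _ => ?_
    rw [mul_sum, mul_sum]
    refine sum_congr rfl fun i _ => ?_
    simp only [hP, pow_add]
    field_simp
  have h3 : ∑ v ∈ range n, ∑ σ ∈ wd d (2 * T), ∑ a ∈ range T, ∑ b ∈ range T,
      (if powFirst_c ρ op A bad v a b σ then (1 : ℝ) else 0) =
      (d : ℝ) ^ (2 * T - 1) * ∑ u ∈ range n, ∑ i ∈ range d,
        (if bad u i = true then (1 : ℝ) else 0) *
          ((∑ a ∈ range T, P a u) * ∑ b ∈ range T, P b (ρ u i).1) := by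
    calc _ = ∑ a ∈ range T, ∑ b ∈ range T, ∑ v ∈ range n, ∑ σ ∈ wd d (2 * T),
          (if powFirst_c ρ op A bad v a b σ then (1 : ℝ) else 0) := by
          rw [sum_congr rfl fun v _ => sum_comm, sum_comm]
          refine sum_congr rfl fun a _ => ?_
          rw [sum_congr rfl fun v _ => sum_comm, sum_comm]
      _ = ∑ a ∈ range T, ∑ b ∈ range T, (d : ℝ) ^ (2 * T - 1) * ∑ u ∈ range n, ∑ i ∈ range d,
          (if bad u i = true then (1 : ℝ) else 0) * (P a u * P b (ρ u i).1) :=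
          sum_congr rfl fun a ha => sum_congr rfl fun b hb => h2 a ha b hb
      _ = _ := by
          simp only [← mul_sum]
          congr 1
          simp only [sum_mul_sum]
          simp only [mul_sum]
          rw [sum_congr rfl fun v _ => sum_comm, sum_comm]
          refine sum_congr rfl fun u _ => ?_
          rw [sum_congr rfl fun v _ => sum_comm, sum_comm]
  have h4 : (nArcs n d bad : ℝ) * T ^ 2 ≤ q ^ 2 * ∑ u ∈ range n, ∑ i ∈ range d,
      (if bad u i = true then (1 : ℝ) else 0) *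
        ((∑ a ∈ range T, P a u) * ∑ b ∈ range T, P b (ρ u i).1) := by
    have e : (nArcs n d bad : ℝ) = ∑ u ∈ range n, ∑ i ∈ range d,
        (if bad u i = true then (1 : ℝ) else 0) := by
      rw [← sum_product', sum_boole, nArcs]
    rw [e, sum_mul, mul_sum]
    refine sum_le_sum fun u _ => ?_
    rw [sum_mul, mul_sum]
    refine sum_le_sum fun i _ => ?_
    split_ifs
    · have a1 := hAT u
      have a2 := hAT (ρ u i).1
      have a0 : (0 : ℝ) ≤ T := Nat.cast_nonneg _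
      have := mul_le_mul a1 a2 a0 (a0.trans a1)
      simp only [hP]
      nlinarith
    · simp
  calc _ ≤ (q ^ 2 * ∑ u ∈ range n, ∑ i ∈ range d, (if bad u i = true then (1 : ℝ) else 0) *
        ((∑ a ∈ range T, P a u) * ∑ b ∈ range T, P b (ρ u i).1)) * (d : ℝ) ^ (2 * T - 1) :=
        mul_le_mul_of_nonneg_right h4 (by positivity)
    _ = q ^ 2 * ∑ v ∈ range n, ∑ σ ∈ wd d (2 * T), ∑ a ∈ range T, ∑ b ∈ range T,
        (if powFirst_c ρ op A bad v a b σ then (1 : ℝ) else 0) := by rw [h3]; ring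
    _ ≤ _ := mul_le_mul_of_nonneg_left h1 (by positivity)

end Pool.Agent.P.MP_9cbceb_lc
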