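import Pool.Agent.P.MP_9cbceb_lc.Basic

/-! The second moment argument of the powering step. -/

namespace Pool.Agent.P.MP_9cbceb_lc

open Finset

theorem powmath_arith {x μ Z Q S1 S2 R : ℝ} (hZ : 0 < Z) (hQ : 0 < Q) (hR : 0 ≤ R) (h1 : μ ≤ 1)
    (h2 : 2 * μ ≤ x) (hx : 0 ≤ x) (h3 : x * Z ≤ 4 * (Q * S1)) (h4 : S2 ≤ Z * (x * (17 + x)))
    (h5 : S1 ^ 2 ≤ R * S2) : μ / (152 * Q ^ 2) * Z ≤ R := by
  rw [div_mul_eq_mul_div, div_le_iff₀ (by positivity)]
  rcases hx.eq_or_lt with h | h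
  · have : 0 ≤ R * (152 * Q ^ 2) := by positivity
    nlinarith
  have h6 : (x * Z) ^ 2 ≤ (4 * (Q * S1)) ^ 2 := pow_le_pow_left₀ (by positivity) h3 2
  have h7 := mul_le_mul_of_nonneg_left (h5.trans (mul_le_mul_of_nonneg_left h4 hR))
    (show 0 ≤ 16 * Q ^ 2 by positivity)
  have h8 : x * Z ≤ 16 * Q ^ 2 * R * (17 + x) :=
    le_of_mul_le_mul_left (a := x * Z) (by nlinarith) (by positivity)
  have h9 : μ * (17 + x) * 2 ≤ 19 * x := by nlinarith
  refine le_of_mul_le_mul_right (a := 17 + x) ?_ (by positivity)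
  nlinarith [mul_le_mul_of_nonneg_right h9 hZ.le]

theorem powMath_ok (h0 : WalkSt) (h1 : PowFirstSt) (h2 : PowSecondSt) : PowMathSt := by
  classical
  intro n d q T ρ c op ε hn hd hq hT hρ hE hop hε hgap
  obtain ⟨-, hmem, -, -, -, happ, -⟩ := h0
  obtain ⟨A, hA, hfirst⟩ := h1 n d q T ρ op hd hq hT hρ hop
  set bad : ℕ → ℕ → Bool := fun v i => !rel q (c v i) (A v) (A (ρ v i).1) with hbad
  have harcs : ε * (n * d) ≤ nArcs n d bad := by
    refine (hgap A hA).trans (le_of_eq ?_)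
    simp only [aviol, nArcs, hbad, Bool.not_eq_eq_eq_not, Bool.not_true]
  have hsec := h2 n d T ρ bad hn hd hρ hE _ rfl
  set x : ℝ := 2 * T * nArcs n d bad / (n * d) with hx
  have hn' : (0 : ℝ) < n := Nat.cast_pos.mpr hn
  have hd' : (0 : ℝ) < d := Nat.cast_pos.mpr hd
  have hT' : (0 : ℝ) < T := Nat.cast_pos.mpr hT
  have hq' : (0 : ℝ) < q := Nat.cast_pos.mpr hq
  let P := range n ×ˢ range (2 * T) ×ˢ wd d (2 * T)
  let N : ℕ × ℕ × List ℕ → ℝ := fun p => nGood ρ op A bad T p.1 (p.2.1 + 1) p.2.2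
  let J : ℕ × ℕ × List ℕ → ℝ := fun p => if Rej q ρ c op T p.1 (p.2.1 + 1) p.2.2 then 1 else 0
  have hsum : ∀ F : ℕ × ℕ × List ℕ → ℝ, ∑ p ∈ P, F p =
      ∑ v ∈ range n, ∑ l ∈ range (2 * T), ∑ σ ∈ wd d (2 * T), F (v, l, σ) := fun F => by
    simp only [P, sum_product]
  have hNJ : ∀ p ∈ P, N p = J p * N p := by
    rintro ⟨v, l, σ⟩ hp
    by_cases hr : Rej q ρ c op T v (l + 1) σ
    · simp only [J, if_pos hr, one_mul]
    · simp only [J, if_neg hr, zero_mul, N, Nat.cast_eq_zero, nGood, card_eq_zero,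
        filter_eq_empty_iff]
      rintro i hi ⟨a1, a2, a3, a4, a5⟩
      refine hr ⟨i, mem_range.mp hi, a1, a2, ?_⟩
      have hlen : i < σ.length := by
        rw [((hmem d _ σ).mp (mem_product.mp (mem_product.mp hp).2).2).1]
        omega
      rw [a4, a5, List.take_succ_eq_append_getElem hlen, happ]
      rw [List.getD_eq_getElem _ _ hlen] at a3 ⊢
      simpa [hbad, wend] using a3
  have hcs : (∑ p ∈ P, N p) ^ 2 ≤ (∑ p ∈ P, J p) * ∑ p ∈ P, N p ^ 2 := by
    rw [sum_congr rfl hNJ]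
    refine (sum_mul_sq_le_sq_mul_sq P J N).trans (le_of_eq ?_)
    congr 1
    refine sum_congr rfl fun p _ => ?_
    simp only [J]
    split_ifs <;> norm_num
  have hS2 : ∑ p ∈ P, N p ^ 2 ≤ n * (2 * T) * d ^ (2 * T) * (x * (17 + x)) := by
    have e1 : ∑ p ∈ P, N p ^ 2 ≤
        ∑ v ∈ range n, ∑ _l ∈ range (2 * T), ∑ σ ∈ wd d (2 * T), (nBad ρ bad T v σ : ℝ) ^ 2 := by
      rw [hsum]
      refine sum_le_sum fun v _ => sum_le_sum fun l hl => sum_le_sum fun σ _ => ?_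
      refine pow_le_pow_left₀ (Nat.cast_nonneg _) (Nat.cast_le.mpr (card_le_card fun i hi => ?_)) 2
      obtain ⟨b1, b2⟩ := mem_filter.mp hi
      refine mem_filter.mpr ⟨mem_range.mpr ?_, b2.2.2.1⟩
      have := b2.1
      omega
    simp only [sum_const, card_range, nsmul_eq_mul, ← mul_sum] at e1
    push_cast at e1
    nlinarith [mul_le_mul_of_nonneg_left hsec (show (0 : ℝ) ≤ 2 * T by positivity)]
  have hS1 : x * (n * (2 * T) * d ^ (2 * T)) ≤ 4 * (q ^ 2 * ∑ p ∈ P, N p) := by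
    rw [hsum]
    refine le_trans (le_of_eq ?_) (mul_le_mul_of_nonneg_left (hfirst bad) (by norm_num))
    have e : (d : ℝ) ^ (2 * T) = d ^ (2 * T - 1) * d := by
      rw [← pow_succ, Nat.sub_add_cancel (by omega)]
    rw [hx, e]
    field_simp
    ring
  have hμ : 2 * min 1 (T * ε) ≤ x := by
    have e1 := min_le_right 1 (T * ε)
    have e2 : 2 * (T * ε) ≤ x := by
      rw [hx, le_div_iff₀ (by positivity)]
      nlinarith [mul_le_mul_of_nonneg_left harcs (show (0 : ℝ) ≤ 2 * T by positivity)]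
    linarith
  have h := powmath_arith (by positivity) (by positivity)
    (sum_nonneg fun p _ => by simp only [J]; split_ifs <;> norm_num) (min_le_left _ _) hμ
    (by positivity) hS1 hS2 hcs
  rw [hsum, ← pow_mul] at h
  exact h

end Pool.Agent.P.MP_9cbceb_lc
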