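import Pool.Agent.P.MP_9cbceb_lc.Basic

/-! Second moment of the number of bad arcs on a random walk in an expander. -/

namespace Pool.Agent.P.MP_9cbceb_lc

open Finset

/-- Indicator of a bad arc. -/
def powsecond_b (bad : ℕ → ℕ → Bool) (v i : ℕ) : ℝ := if bad v i = true then 1 else 0

/-- Number of bad arcs along a walk. -/
def powsecond_N (ρ : Rot) (bad : ℕ → ℕ → Bool) : ℕ → List ℕ → ℝ
  | _, [] => 0
  | v, i :: σ => powsecond_b bad v i + powsecond_N ρ bad (ρ v i).1 σ

/-- Share of bad arcs at a vertex. -/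
noncomputable def powsecond_f (d : ℕ) (bad : ℕ → ℕ → Bool) (v : ℕ) : ℝ :=
  (∑ i ∈ range d, powsecond_b bad v i) / d

/-- Mean number of bad arcs on a walk of length `k`. -/
noncomputable def powsecond_m (d : ℕ) (ρ : Rot) (bad : ℕ → ℕ → Bool) : ℕ → ℕ → ℝ
  | 0 => fun _ => 0
  | k + 1 => fun v => powsecond_f d bad v + avg d ρ (powsecond_m d ρ bad k) v

section

variable {n d : ℕ} {ρ : Rot} {bad : ℕ → ℕ → Bool}

theorem powsecond_b_nonneg (v i : ℕ) : 0 ≤ powsecond_b bad v i := by
  unfold powsecond_b; split_ifs <;> norm_num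

theorem powsecond_b_le (v i : ℕ) : powsecond_b bad v i ≤ 1 := by
  unfold powsecond_b; split_ifs <;> norm_num

theorem powsecond_b_sq (v i : ℕ) : powsecond_b bad v i ^ 2 = powsecond_b bad v i := by
  unfold powsecond_b; split_ifs <;> norm_num

theorem powsecond_count (σ : List ℕ) : ∀ v : ℕ,
    ∑ i ∈ range σ.length, powsecond_b bad (wend ρ v (σ.take i)) (σ.getD i 0) =
      powsecond_N ρ bad v σ := by
  induction σ with
  | nil => intro v; simp [powsecond_N]
  | cons a σ ih =>
    intro v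
    rw [List.length_cons, sum_range_succ', powsecond_N, ← ih, add_comm]
    rfl

theorem powsecond_nBad {T v : ℕ} {σ : List ℕ} (h : σ.length = 2 * T) :
    (nBad ρ bad T v σ : ℝ) = powsecond_N ρ bad v σ := by
  rw [← powsecond_count, h, nBad, card_filter]
  push_cast
  rfl

theorem powsecond_arcs :
    ∑ v ∈ range n, ∑ i ∈ range d, powsecond_b bad v i = (nArcs n d bad : ℝ) := by
  rw [nArcs, card_filter, sum_product]
  push_cast
  rfl

theorem powsecond_first (h : WalkSt) (hd : 0 < d) (k : ℕ) : ∀ v,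
    ∑ σ ∈ wd d k, powsecond_N ρ bad v σ = (d : ℝ) ^ k * powsecond_m d ρ bad k v := by
  have hd' : (d : ℝ) ≠ 0 := by positivity
  induction k with
  | zero => intro v; simp [wd, words, powsecond_N, powsecond_m]
  | succ k ih =>
    intro v
    rw [h.2.2.2.2.1]
    simp only [powsecond_N, sum_add_distrib, ih, sum_const, h.2.2.1, nsmul_eq_mul, ← mul_sum,
      powsecond_m, powsecond_f, avg]
    push_cast
    field_simp
    ring

/-- A mean of numbers in the unit interval. -/
theorem powsecond_share (hd : 0 < d) (c : ℕ → ℝ) (h0 : ∀ i, 0 ≤ c i) (h1 : ∀ i, c i ≤ 1) :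
    ((∑ i ∈ range d, c i) / d) ^ 2 ≤ (∑ i ∈ range d, c i) / d := by
  have hd' : (0 : ℝ) < d := by positivity
  have h2 : 0 ≤ (∑ i ∈ range d, c i) / d := div_nonneg (sum_nonneg fun i _ => h0 i) hd'.le
  have h3 : (∑ i ∈ range d, c i) / d ≤ 1 := by
    rw [div_le_one hd']
    simpa using sum_le_card_nsmul (range d) c 1 fun i _ => h1 i
  nlinarith

theorem powsecond_dev (hn : 0 < n) (hd : 0 < d) (hρ : IsRG n d ρ) (he : Exp n d ρ (7 / 8))
    {ε : ℝ} (hε : ∑ v ∈ range n, powsecond_f d bad v = n * ε) (k : ℕ) :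
    ∑ v ∈ range n, (powsecond_m d ρ bad k v - k * ε) = 0 ∧
      ∑ v ∈ range n, (powsecond_m d ρ bad k v - k * ε) ^ 2 ≤ 64 * (n * ε) := by
  have hd' : (d : ℝ) ≠ 0 := by positivity
  have hn' : (0 : ℝ) < n := by positivity
  have h1 : ∑ v ∈ range n, powsecond_f d bad v ^ 2 ≤ n * ε := by
    rw [← hε]
    exact sum_le_sum fun v _ =>
      powsecond_share hd _ (powsecond_b_nonneg v) (powsecond_b_le v)
  have h0 : 0 ≤ n * ε := le_trans (sum_nonneg fun _ _ => sq_nonneg _) h1
  have h2 : ∑ v ∈ range n, (powsecond_f d bad v - ε) ^ 2 ≤ n * ε := by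
    have e : ∀ v, (powsecond_f d bad v - ε) ^ 2 =
        powsecond_f d bad v ^ 2 - 2 * ε * powsecond_f d bad v + ε ^ 2 := fun v => by ring
    simp only [e, sum_add_distrib, sum_sub_distrib, ← mul_sum, hε, sum_const, card_range,
      nsmul_eq_mul]
    have := mul_nonneg hn'.le (sq_nonneg ε)
    nlinarith
  induction k with
  | zero => simpa [powsecond_m] using h0
  | succ k ih =>
    have e : ∀ v, powsecond_m d ρ bad (k + 1) v - ((k + 1 : ℕ) : ℝ) * ε =
        (powsecond_f d bad v - ε) + avg d ρ (fun u => powsecond_m d ρ bad k u - k * ε) v := by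
      intro v
      simp only [powsecond_m, avg, sum_sub_distrib, sum_const, card_range, nsmul_eq_mul]
      push_cast
      field_simp
      ring
    simp only [e]
    constructor
    · rw [sum_add_distrib, hρ.sum_avg hd, ih.1, sum_sub_distrib, hε]
      simp
    · have h3 := he _ ih.1
      have h4 : ∑ v ∈ range n, ((powsecond_f d bad v - ε) +
          avg d ρ (fun u => powsecond_m d ρ bad k u - k * ε) v) ^ 2 ≤
          ∑ v ∈ range n, (8 * (powsecond_f d bad v - ε) ^ 2 +
            8 / 7 * avg d ρ (fun u => powsecond_m d ρ bad k u - k * ε) v ^ 2) :=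
        sum_le_sum fun v _ => by
          nlinarith [sq_nonneg (7 * (powsecond_f d bad v - ε) -
            avg d ρ (fun u => powsecond_m d ρ bad k u - k * ε) v)]
      rw [sum_add_distrib, ← mul_sum, ← mul_sum] at h4
      linarith [ih.2]

theorem powsecond_cross (hn : 0 < n) (hd : 0 < d) (hρ : IsRG n d ρ) (he : Exp n d ρ (7 / 8))
    {ε : ℝ} (hε : ∑ v ∈ range n, ∑ i ∈ range d, powsecond_b bad v i = d * (n * ε)) (k : ℕ) :
    ∑ v ∈ range n, ∑ i ∈ range d, powsecond_b bad v i * powsecond_m d ρ bad k (ρ v i).1 ≤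
      d * (n * ε * (k * ε + 8)) := by
  have hd' : (0 : ℝ) < d := by positivity
  have hf : ∑ v ∈ range n, powsecond_f d bad v = n * ε := by
    simp only [powsecond_f, ← sum_div, hε]
    field_simp
  obtain ⟨-, h2⟩ := powsecond_dev hn hd hρ he hf k
  set g : ℕ → ℝ := fun w => (∑ j ∈ range d, powsecond_b bad (ρ w j).1 (ρ w j).2) / d with hg
  have h3 : ∑ w ∈ range n, g w = n * ε := by
    simp only [hg, ← sum_div]
    rw [hρ.sum_rot (powsecond_b bad), hε]
    field_simp
  have h4 : ∑ w ∈ range n, g w ^ 2 ≤ n * ε := by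
    rw [← h3]
    exact sum_le_sum fun w _ => powsecond_share hd _ (fun j => powsecond_b_nonneg _ _)
      fun j => powsecond_b_le _ _
  have h5 : ∑ v ∈ range n, ∑ i ∈ range d,
      powsecond_b bad v i * powsecond_m d ρ bad k (ρ v i).1 =
      d * ∑ w ∈ range n, g w * powsecond_m d ρ bad k w := by
    rw [← hρ.sum_rot fun v i => powsecond_b bad v i * powsecond_m d ρ bad k (ρ v i).1, mul_sum]
    refine sum_congr rfl fun w hw => ?_
    rw [← mul_assoc, hg, mul_div_cancel₀ _ hd'.ne', sum_mul]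
    refine sum_congr rfl fun j hj => ?_
    rw [(hρ w (mem_range.1 hw) j (mem_range.1 hj)).2.2]
  have h6 : ∑ w ∈ range n, g w * powsecond_m d ρ bad k w ≤
      ∑ w ∈ range n, (k * ε * g w + (4 * g w ^ 2 +
        1 / 16 * (powsecond_m d ρ bad k w - k * ε) ^ 2)) :=
    sum_le_sum fun w _ => by
      nlinarith [sq_nonneg (2 * g w - (powsecond_m d ρ bad k w - k * ε) / 4)]
  rw [sum_add_distrib, sum_add_distrib, ← mul_sum, ← mul_sum, ← mul_sum, h3] at h6
  rw [h5]
  exact mul_le_mul_of_nonneg_left (by linarith) hd'.le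

theorem powsecond_second (h : WalkSt) (hn : 0 < n) (hd : 0 < d) (hρ : IsRG n d ρ)
    (he : Exp n d ρ (7 / 8)) {ε : ℝ}
    (hε : ∑ v ∈ range n, ∑ i ∈ range d, powsecond_b bad v i = d * (n * ε)) (k : ℕ) :
    ∑ v ∈ range n, ∑ σ ∈ wd d k, powsecond_N ρ bad v σ ^ 2 ≤
      (d : ℝ) ^ k * (n * (k * ε * (17 + k * ε))) := by
  have hd' : (0 : ℝ) < d := by positivity
  have hn' : (0 : ℝ) < n := by positivity
  induction k with
  | zero => simp [wd, words, powsecond_N]
  | succ k ih =>
    have e : ∀ v, ∑ σ ∈ wd d (k + 1), powsecond_N ρ bad v σ ^ 2 =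
        ∑ i ∈ range d, ((d : ℝ) ^ k * powsecond_b bad v i +
          2 * (d : ℝ) ^ k * (powsecond_b bad v i * powsecond_m d ρ bad k (ρ v i).1) +
          ∑ τ ∈ wd d k, powsecond_N ρ bad (ρ v i).1 τ ^ 2) := by
      intro v
      rw [h.2.2.2.2.1]
      refine sum_congr rfl fun i _ => ?_
      simp only [powsecond_N, add_sq, powsecond_b_sq, sum_add_distrib, sum_const, h.2.2.1,
        nsmul_eq_mul, ← mul_sum, powsecond_first h hd]
      push_cast
      ring
    have h1 := powsecond_cross hn hd hρ he hε k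
    have h2 := hρ.sum_rot fun v _ => ∑ τ ∈ wd d k, powsecond_N ρ bad v τ ^ 2
    simp only [sum_const, card_range, nsmul_eq_mul, ← mul_sum] at h2
    simp only [e, sum_add_distrib, ← mul_sum, hε, h2]
    have h3 := mul_le_mul_of_nonneg_left h1 (show (0 : ℝ) ≤ 2 * (d : ℝ) ^ k by positivity)
    have h4 := mul_le_mul_of_nonneg_left ih hd'.le
    have h5 : (0 : ℝ) ≤ (d : ℝ) ^ k * d * (n * ε ^ 2) := by positivity
    push_cast
    rw [pow_succ]
    nlinarith

end

theorem powSecond_ok (h : WalkSt) : PowSecondSt := by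
  intro n d T ρ bad hn hd hρ he x hx
  have hd' : (0 : ℝ) < d := by positivity
  have hn' : (0 : ℝ) < n := by positivity
  have h1 := powsecond_second (bad := bad) h hn hd hρ he (ε := nArcs n d bad / (n * d))
    (by rw [powsecond_arcs]; field_simp) (2 * T)
  have h2 : ∑ v ∈ range n, ∑ σ ∈ wd d (2 * T), (nBad ρ bad T v σ : ℝ) ^ 2 =
      ∑ v ∈ range n, ∑ σ ∈ wd d (2 * T), powsecond_N ρ bad v σ ^ 2 :=
    sum_congr rfl fun v _ => sum_congr rfl fun σ hσ => by
      rw [powsecond_nBad ((h.2.1 _ _ _).1 hσ).1]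
  have h3 : ((2 * T : ℕ) : ℝ) * (nArcs n d bad / (n * d)) = x := by
    rw [hx]; push_cast; ring
  rw [h3] at h1
  rw [h2]
  linarith

end Pool.Agent.P.MP_9cbceb_lc
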