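import Pool.Agent.P.MP_9cbceb_lc.Basic

/-! Degree reduction: from a constraint system to a regular expanding constraint graph. -/

namespace Pool.Agent.P.MP_9cbceb_lc

open Pool.Agent.Lib.helper21 Pool.Agent.Lib.helper26 Finset

/-- Rotation map of the new graph. -/
def reg_rot (d : ℕ) (xp : ℕ → Tab) (I : Inst) : Rot :=
  uni d (cext xp I) (crot xp I) (tab (xp (nv xp I)))

/-- Codes on the arcs of the new graph; `e` codes equality. -/
def reg_code (q d e : ℕ) (xp : ℕ → Tab) (I : Inst) (y i : ℕ) : ℕ :=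
  cond (decide (i = 0)) (ccode q xp I y) (cond (decide (i ≤ d)) e (2 ^ (q * q) - 1))

/-- The new graph. -/
def reg_gr (q d e : ℕ) (xp : ℕ → Tab) (I : Inst) : Gr :=
  (List.range (xp (nv xp I)).length).map fun y => (List.range (1 + 2 * d)).map fun i =>
    ((reg_rot d xp I y i).1, (reg_rot d xp I y i).2, reg_code q d e xp I y i)

theorem reg_len (q d e : ℕ) (xp : ℕ → Tab) (I : Inst) :
    (reg_gr q d e xp I).length = (xp (nv xp I)).length := by
  simp [reg_gr]

theorem reg_gat (q d e : ℕ) (xp : ℕ → Tab) (I : Inst) {y i : ℕ}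
    (hy : y < (xp (nv xp I)).length) (hi : i < 1 + 2 * d) :
    gat (reg_gr q d e xp I) y i =
      ((reg_rot d xp I y i).1, (reg_rot d xp I y i).2, reg_code q d e xp I y i) := by
  simp [gat, reg_gr, List.getD_eq_getElem?_getD, hy, hi]

theorem reg_grot (q d e : ℕ) (xp : ℕ → Tab) (I : Inst) :
    ∀ y < (xp (nv xp I)).length, ∀ i < 1 + 2 * d,
      grot (reg_gr q d e xp I) y i = reg_rot d xp I y i := fun y hy i hi => by
  simp only [grot, reg_gat q d e xp I hy hi]

theorem reg_gcode (q d e : ℕ) (xp : ℕ → Tab) (I : Inst) :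
    ∀ y < (xp (nv xp I)).length, ∀ i < 1 + 2 * d,
      gcode (reg_gr q d e xp I) y i = reg_code q d e xp I y i := fun y hy i hi => by
  simp only [gcode, reg_gat q d e xp I hy hi]

theorem reg_aviol (q d e : ℕ) (xp : ℕ → Tab) (I : Inst) (b : ℕ → ℕ) :
    aviol q (reg_gr q d e xp I).length (1 + 2 * d) (grot (reg_gr q d e xp I))
        (gcode (reg_gr q d e xp I)) b =
      aviol q (xp (nv xp I)).length (1 + 2 * d) (reg_rot d xp I) (reg_code q d e xp I) b := by
  rw [reg_len, aviol, aviol]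
  congr 1
  refine filter_congr fun p hp => ?_
  rw [mem_product, mem_range, mem_range] at hp
  rw [reg_grot q d e xp I _ hp.1 _ hp.2, reg_gcode q d e xp I _ hp.1 _ hp.2]

theorem reg_PT0 {α : Type} [Enc α] (d e m : ℕ) {X : α → Tab} {ex cc : α → ℕ → ℕ} {cr : α → Rot}
    (hn : PT X) (h2 : PT fun p : α × ℕ => ex p.1 p.2) (h3 : PT fun p : α × ℕ => cc p.1 p.2)
    (h4 : PT fun p : α × ℕ × ℕ => cr p.1 p.2.1 p.2.2) :
    PT fun I : α => (List.range (X I).length).map fun y => (List.range (1 + 2 * d)).map fun i =>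
      ((uni d (ex I) (cr I) (tab (X I)) y i).1, (uni d (ex I) (cr I) (tab (X I)) y i).2,
        cond (decide (i = 0)) (cc I y) (cond (decide (i ≤ d)) e m)) := by
  have a1 : PT fun p : (α × ℕ) × ℕ => ex p.1.1 p.1.2 :=
    h2.comp (g := fun p : (α × ℕ) × ℕ => p.1) (by fun_prop)
  have a2 : PT fun p : (α × ℕ) × ℕ => cc p.1.1 p.1.2 :=
    h3.comp (g := fun p : (α × ℕ) × ℕ => p.1) (by fun_prop)
  have a3 : PT fun p : (α × ℕ) × ℕ => cr p.1.1 p.1.2 (p.2 - 1) :=
    h4.comp (g := fun p : (α × ℕ) × ℕ => (p.1.1, p.1.2, p.2 - 1)) (by fun_prop)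
  have a4 : PT fun p : (α × ℕ) × ℕ => X p.1.1 :=
    hn.comp (g := fun p : (α × ℕ) × ℕ => p.1.1) (by fun_prop)
  have a5 : PT fun p : (α × ℕ) × ℕ => tab (X p.1.1) p.1.2 (p.2 - 1 - d) := by
    unfold tab
    fun_prop
  have c0 : PT fun p : (α × ℕ) × ℕ => decide (p.2 = 0) := by fun_prop
  have c1 : PT fun p : (α × ℕ) × ℕ => decide (p.2 ≤ d) := by fun_prop
  have hr : PT fun p : (α × ℕ) × ℕ => uni d (ex p.1.1) (cr p.1.1) (tab (X p.1.1)) p.1.2 p.2 := by
    refine (c0.cond (a1.pair (PT.const 0)) (c1.cond (a3.fst.pair (a3.snd.add (PT.const 1)))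
      (a5.fst.pair ((a5.snd.add (PT.const 1)).add (PT.const d))))).of_eq fun p => ?_
    unfold uni
    by_cases e0 : p.2 = 0
    · simp [e0]
    · by_cases e1 : p.2 ≤ d <;> simp [e0, e1]
  have hc : PT fun p : (α × ℕ) × ℕ =>
      cond (decide (p.2 = 0)) (cc p.1.1 p.1.2) (cond (decide (p.2 ≤ d)) e m) :=
    c0.cond a2 (c1.cond (PT.const e) (PT.const m))
  exact hn.length.range.map ((PT.const (List.range (1 + 2 * d))).map
    (g := fun (p : α × ℕ) i => ((uni d (ex p.1) (cr p.1) (tab (X p.1)) p.2 i).1,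
      (uni d (ex p.1) (cr p.1) (tab (X p.1)) p.2 i).2,
      cond (decide (i = 0)) (cc p.1 p.2) (cond (decide (i ≤ d)) e m)))
    (hr.fst.pair (hr.snd.pair hc)))

theorem reg_PT {q d e : ℕ} {xp : ℕ → Tab} (hx : PT xp) (h1 : PT (nv xp))
    (h2 : PT fun p : Inst × ℕ => cext xp p.1 p.2) (h3 : PT fun p : Inst × ℕ => ccode q xp p.1 p.2)
    (h4 : PT fun p : Inst × ℕ × ℕ => crot xp p.1 p.2.1 p.2.2) : PT (reg_gr q d e xp) :=
  (reg_PT0 d e (2 ^ (q * q) - 1) (X := fun I => xp (nv xp I)) (ex := cext xp) (cc := ccode q xp)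
    (cr := crot xp) (hx.comp h1) h2 h3 h4).of_eq fun _ => rfl

theorem reg_ext_le (q d e : ℕ) (xp : ℕ → Tab) (I : Inst) (n : ℕ) (b : ℕ → ℕ) :
    #{y ∈ range n | rel q (ccode q xp I y) (b y) (b (cext xp I y)) = false} ≤
      aviol q n (1 + 2 * d) (reg_rot d xp I) (reg_code q d e xp I) b := by
  refine card_le_card_of_injOn (fun y => (y, 0)) ?_ fun y _ z _ h => (Prod.ext_iff.1 h).1
  intro y hy
  simp only [coe_filter, mem_range, Set.mem_ofPred_eq, mem_product] at hy ⊢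
  refine ⟨⟨hy.1, by omega⟩, ?_⟩
  simpa [reg_rot, reg_code, uni] using hy.2

theorem reg_diff_le {q d e : ℕ} (he : ∀ a < q, ∀ b < q, rel q e a b = decide (a = b))
    (xp : ℕ → Tab) (I : Inst) (n : ℕ) {b : ℕ → ℕ} (hb : Bnd q b) :
    #{p ∈ range n ×ˢ range d | b p.1 ≠ b (crot xp I p.1 p.2).1} ≤
      aviol q n (1 + 2 * d) (reg_rot d xp I) (reg_code q d e xp I) b := by
  refine card_le_card_of_injOn (fun p => (p.1, p.2 + 1)) ?_ fun y _ z _ h => ?_
  · intro p hp
    simp only [coe_filter, mem_range, Set.mem_ofPred_eq, mem_product] at hp ⊢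
    refine ⟨⟨hp.1.1, by omega⟩, ?_⟩
    have h1 : p.2 + 1 ≤ d := hp.1.2
    simp only [reg_rot, reg_code, uni, Nat.add_eq_zero_iff, one_ne_zero, and_false, decide_false,
      cond_false, h1, decide_true, cond_true, if_false, if_true, Nat.add_sub_cancel]
    rw [he _ (hb _) _ (hb _)]
    simpa using hp.2
  · have := Prod.ext_iff.1 h
    exact Prod.ext this.1 (by simpa using this.2)

theorem reg_ok (h1 : XpSt) (h2 : UniSt) (h3 : IdxSt) (h4 : CloudPTSt) (h5 : CloudStructSt)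
    (h6 : CloudGapSt) : RegSt := by
  obtain ⟨d, c, xp, hxp⟩ := h1
  have hd := hxp.1
  have hc := hxp.2.1
  refine ⟨1 + 2 * d, 6 * c ^ 2 * (1 + 2 * d), by omega, by positivity, fun q hq => ?_⟩
  obtain ⟨e, he1, he2⟩ := code_ex q fun a b => decide (a = b)
  obtain ⟨p1, p2, p3, p4⟩ := h4 d c xp hxp q
  refine ⟨reg_gr q d e xp, reg_PT hxp.2.2.1 p1 p2 p3 p4, fun I hI => ?_⟩
  obtain ⟨-, -, -, -, i5, i6⟩ := h3 d c xp hxp I
  have hnv : 0 < nv xp I := i6 hI.1
  obtain ⟨x1, x2, x3, x4⟩ := hxp.2.2.2 (nv xp I) hnv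
  obtain ⟨s1, s2, s3, s4⟩ := h5 d c xp hxp q I _ x1
  obtain ⟨u1, u2⟩ := h2 _ d (cext xp I) (crot xp I) (tab (xp (nv xp I))) hd s1 s2 x3
  have hlen : (xp (nv xp I)).length ≤ 2 * c ^ 2 * I.length :=
    x2.trans ((Nat.mul_le_mul_left c i5).trans (le_of_eq (by ring)))
  refine ⟨⟨?_, ?_, ?_⟩, ?_, ?_, ?_, ?_⟩
  · rw [reg_len]; omega
  · rw [reg_len]
    exact IsRG.congr u1 (reg_grot q d e xp I)
  · intro v hv i hi
    rw [reg_len] at hv
    rw [reg_gcode q d e xp I v hv i hi, reg_code]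
    have hpos : 0 < 2 ^ (q * q) := by positivity
    by_cases e0 : i = 0
    · simpa [e0] using s3 hI v
    · by_cases e1 : i ≤ d
      · simpa [e0, e1] using he1
      · simp [e0, e1]
  · rw [reg_len]
    refine hlen.trans (Nat.mul_le_mul_right _ ?_)
    nlinarith [Nat.zero_le (c ^ 2), Nat.zero_le (c ^ 2 * d)]
  · rw [reg_len]
    exact Exp.congr (u2 x4) (reg_grot q d e xp I)
  · rintro ⟨a, ha, hv⟩
    obtain ⟨b, hb, b1, b2⟩ := s4 a ha hv
    refine ⟨b, hb, ?_⟩
    rw [reg_aviol, aviol, card_eq_zero, filter_eq_empty_iff]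
    rintro ⟨y, i⟩ hp
    rw [mem_product, mem_range, mem_range] at hp
    simp only [Bool.not_eq_false]
    by_cases e0 : i = 0
    · simpa [reg_rot, reg_code, uni, e0] using b1 y hp.1
    · by_cases e1 : i ≤ d
      · simp only [reg_rot, reg_code, uni, e0, e1, decide_false, decide_true, cond_false, cond_true,
          if_false, if_true]
        rw [he2 _ (hb _) _ (hb _)]
        exact decide_eq_true (b2 y hp.1 (i - 1) (by omega))
      · simp only [reg_code, e0, e1, decide_false, cond_false]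
        exact rel_full (hb _) (hb _)
  · intro ε hε hg b hb
    rw [reg_aviol, reg_len]
    obtain ⟨a, ha, hv⟩ := h6 d c xp hxp q I _ x1 b hb
    have g1 := hg a ha
    have g2 := reg_ext_le q d e xp I (xp (nv xp I)).length b
    have g3 := reg_diff_le (d := d) he2 xp I (xp (nv xp I)).length hb
    have g4 : viol q I a a ≤ 3 * aviol q (xp (nv xp I)).length (1 + 2 * d) (reg_rot d xp I)
        (reg_code q d e xp I) b := by omega
    have g5 : (viol q I a a : ℝ) ≤ 3 * (aviol q (xp (nv xp I)).length (1 + 2 * d) (reg_rot d xp I)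
        (reg_code q d e xp I) b : ℝ) := by exact_mod_cast g4
    have g6 : ((xp (nv xp I)).length : ℝ) ≤ 2 * (c : ℝ) ^ 2 * I.length := by exact_mod_cast hlen
    have hc' : (0 : ℝ) < c := by exact_mod_cast hc
    have hd' : (0 : ℝ) < ((1 + 2 * d : ℕ) : ℝ) := by positivity
    have g7 : ε / ((6 * c ^ 2 * (1 + 2 * d) : ℕ) : ℝ) *
        (((xp (nv xp I)).length : ℝ) * ((1 + 2 * d : ℕ) : ℝ)) =
        ε * ((xp (nv xp I)).length : ℝ) / (6 * (c : ℝ) ^ 2) := by
      rw [Nat.cast_mul, Nat.cast_mul, Nat.cast_pow]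
      field_simp
      push_cast
      ring
    rw [g7, div_le_iff₀ (by positivity)]
    have g8 : ε * ((xp (nv xp I)).length : ℝ) ≤ ε * (2 * (c : ℝ) ^ 2 * I.length) :=
      mul_le_mul_of_nonneg_left g6 hε
    have g9 : (c : ℝ) ^ 2 * (ε * I.length) ≤ (c : ℝ) ^ 2 * (3 * (aviol q (xp (nv xp I)).length
        (1 + 2 * d) (reg_rot d xp I) (reg_code q d e xp I) b : ℝ)) :=
      mul_le_mul_of_nonneg_left (g1.trans g5) (by positivity)
    nlinarith

end Pool.Agent.P.MP_9cbceb_lc
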