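import Pool.Agent.P.MP_9cbceb_lc.Basic
import Pool.Agent.Lib.helper77.CookLevin

/-! One amplification round and the initial instance. -/

namespace Pool.Agent.P.MP_9cbceb_lc

open Pool.Agent.Lib.helper21 Pool.Agent.Lib.helper26 Finset

theorem round_arith (c K : ℕ) (hc : 0 < c) (hK : 0 < K) (ε : ℝ) :
    min 1 (((2 * c * (K * 360) : ℕ) : ℝ) * (ε / c)) / K / 360 =
      min (1 / ((K : ℝ) * 360)) (2 * ε) := by
  have hc' : (0 : ℝ) < c := by exact_mod_cast hc
  have hK' : (0 : ℝ) < K := by exact_mod_cast hK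
  rw [div_div, ← min_div_div_right (by positivity)]
  congr 1
  push_cast
  field_simp

theorem round_ok (h1 : RegSt) (h2 : PowSt) (h3 : ARSt) : RoundSt := by
  obtain ⟨d, c, hd, hc, h1⟩ := h1
  obtain ⟨f1, p1, h1⟩ := h1 1024 (by norm_num)
  obtain ⟨K, hK⟩ : ∃ K : ℕ, K = 152 * 1024 ^ 4 := ⟨_, rfl⟩
  have hK0 : 0 < K := by rw [hK]; positivity
  obtain ⟨q', c', hq', f2, p2, h2⟩ := h2 1024 d (2 * c * (K * 360)) (by norm_num) hd
    (by positivity)
  obtain ⟨c'', f3, p3, h3⟩ := h3 q' hq'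
  refine ⟨c'' * (c + c' * c + 1), 1 / ((K : ℝ) * 360), fun I => f3 (f2 (f1 I)), by positivity,
    p3.comp (p2.comp p1), fun I hI => ?_⟩
  obtain ⟨a1, a2, a3, a4, a5⟩ := h1 I hI
  obtain ⟨b1, b2, b3, b4, b5⟩ := h2 _ a1
  obtain ⟨c1, c2, c3, c4, c5⟩ := h3 _ b1
  have hl : 1 ≤ I.length := List.length_pos_iff.2 hI.1
  have hb : (f2 (f1 I)).length ≤ c' * c * I.length := by
    rw [mul_assoc]; exact b2.trans (Nat.mul_le_mul_left _ a2)
  have hs : (f1 I).length + (f2 (f1 I)).length + 1 ≤ (c + c' * c + 1) * I.length := by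
    rw [add_mul, add_mul]; omega
  refine ⟨c1, c2.trans ?_, fun e he => ?_, fun hs => c4 (b4 (a4 hs)), fun ε hε hg => ?_⟩
  · rw [mul_assoc]
    exact Nat.mul_le_mul_left _ (by omega)
  · have := c3 _ b3 e he
    have h4 : c'' * ((f1 I).length + (f2 (f1 I)).length + 1) ≤
        c'' * (c + c' * c + 1) * I.length := by
      rw [mul_assoc]; exact Nat.mul_le_mul_left _ hs
    exact ⟨this.1.trans h4, this.2.trans h4⟩
  · have hε' : 0 ≤ ε / c := by positivity
    have h4 := c5 _ (by positivity) (b5 a3 _ hε' (a5 ε hε hg))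
    rw [← round_arith c K hc hK0 ε]
    have h5 : (K : ℝ) = 152 * ((1024 : ℕ) : ℝ) ^ 4 := by rw [hK]; push_cast; ring
    rw [h5]
    exact h4

theorem round_gap {q : ℕ} {I : Inst} (hI : WF q I) (hs : ¬ Sat q I) : Gap q I (1 / I.length) := by
  have hpos : (0 : ℝ) < I.length := by exact_mod_cast List.length_pos_iff.2 hI.1
  intro a ha
  rw [one_div, inv_mul_cancel₀ hpos.ne']
  have : viol q I a a ≠ 0 := fun h0 => hs ⟨a, ha, h0⟩
  exact_mod_cast Nat.one_le_iff_ne_zero.2 this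

theorem round_not_sat {q : ℕ} {I : Inst} {ε : ℝ} (hI : WF q I) (hε : 0 < ε) (hg : Gap2 q I ε) :
    ¬ Sat q I := by
  rintro ⟨a, ha, h0⟩
  have hpos : (0 : ℝ) < I.length := by exact_mod_cast List.length_pos_iff.2 hI.1
  have := hg a a ha ha
  rw [h0, Nat.cast_zero] at this
  exact absurd this (not_le.2 (mul_pos hε hpos))

theorem round_const (q : ℕ) : WF q [(0, 0, 0)] ∧ ¬ Sat q [(0, 0, 0)] := by
  refine ⟨⟨by simp, fun e he => ?_⟩, ?_⟩
  · rw [List.mem_singleton.1 he]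
    exact Nat.two_pow_pos _
  · rintro ⟨a, -, h0⟩
    simp [viol, rel] at h0

theorem init_ok (h : ARSt) : InitSt := by
  intro L hL
  obtain ⟨q, F, hF, hq, hx⟩ := Pool.Agent.Lib.helper77.csp_hard L hL
  rcases Nat.eq_zero_or_pos q with rfl | hq0
  · refine ⟨fun _ => [(0, 0, 0)], PT.const _, fun x => ⟨(round_const _).1, ?_⟩⟩
    refine iff_of_false (fun hl => ?_) (round_const _).2
    obtain ⟨a, ha, -⟩ := (hx x).1 hl
    exact absurd (ha 0) (Nat.not_lt_zero _)
  obtain ⟨c, f, pf, h⟩ := h q hq0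
  choose code hc1 hc2 using fun a b : ℕ => code_ex q fun u v => !(decide (u = a) && decide (v = b))
  obtain ⟨t, pt, ht⟩ := PT_table (q + 2) fun l => code (l.getD 0 0) (l.getD 1 0)
  obtain ⟨Z, hZ⟩ : ∃ Z : ℕ, Z = 2 ^ (q * q) - 1 := ⟨_, rfl⟩
  let I : List Bool → Inst := fun x =>
    (0, 0, Z) :: (F x).map fun g => (g.1, g.2.2.1, t [g.2.1, g.2.2.2])
  have pI : PT I := by fun_prop
  have ht' : ∀ x, ∀ g ∈ F x, t [g.2.1, g.2.2.2] = code g.2.1 g.2.2.2 := by
    intro x g hg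
    have := hq x g hg
    rw [ht _ (by simp) (by simp; omega)]
    rfl
  have hw : ∀ x, WF q (I x) := by
    intro x
    refine ⟨List.cons_ne_nil _ _, fun e he => ?_⟩
    rcases List.mem_cons.1 he with rfl | he
    · have := Nat.two_pow_pos (q * q)
      simp only [hZ]
      omega
    · obtain ⟨g, hg, rfl⟩ := List.mem_map.1 he
      simp only [ht' x g hg]
      exact hc1 _ _
  have hs : ∀ x, L x = true ↔ Sat q (I x) := by
    intro x
    rw [hx x]
    refine exists_congr fun a => and_congr_right fun ha => ?_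
    simp only [viol, I, List.countP_eq_zero, List.forall_mem_cons, List.forall_mem_map, hZ,
      rel_full (ha 0) (ha 0)]
    refine ⟨fun h1 => ⟨by simp, fun g hg => ?_⟩, fun h1 g hg => ?_⟩
    · rw [ht' x g hg, hc2 _ _ _ (ha _) _ (ha _)]
      simpa using h1 g hg
    · have := h1.2 g hg
      rw [ht' x g hg, hc2 _ _ _ (ha _) _ (ha _)] at this
      simpa using this
  refine ⟨fun x => f (I x), pf.comp pI, fun x => ?_⟩
  obtain ⟨c1, -, -, c4, c5⟩ := h _ (hw x)
  refine ⟨c1, (hs x).trans ⟨c4, fun h1 => ?_⟩⟩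
  by_contra h2
  have hpos : (0 : ℝ) < (I x).length := by exact_mod_cast List.length_pos_iff.2 (hw x).1
  exact round_not_sat c1 (by positivity) (c5 _ (by positivity) (round_gap (hw x) h2)) h1

end Pool.Agent.P.MP_9cbceb_lc
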