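import Pool.Agent.P.MP_9cbceb_lc.Basic

/-! The smoothed function is almost affine on the cube. -/

namespace Pool.Agent.P.MP_9cbceb_lc

open Finset
open scoped BigOperators

section

variable {Q : Type} [Fintype Q] [DecidableEq Q]

theorem smooth_resample {w : ℕ} (hw : 0 < w) (c : Q) (F : (Q → Fin w) → ℝ) :
    𝔼 U : Q → Fin w, F U = 𝔼 U : Q → Fin w, 𝔼 u : Fin w, F (Function.update U c u) := by
  have : Nonempty (Fin w) := ⟨⟨0, hw⟩⟩
  have h1 : 𝔼 U : Q → Fin w, F U = 𝔼 U : Q → Fin w, 𝔼 _u : Fin w, F U := by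
    simp
  rw [h1, ← expect_product', ← expect_product', univ_product_univ]
  let σ : (Q → Fin w) × Fin w → (Q → Fin w) × Fin w := fun p => (Function.update p.1 c p.2, p.1 c)
  have hσ : Function.Involutive σ := by
    rintro ⟨U, u⟩
    simp [σ]
  exact (Fintype.expect_equiv hσ.toPerm _ _ fun p => rfl).symm

theorem smooth_abs_expect {ι : Type} [Fintype ι] [Nonempty ι] (F : ι → ℝ) (e : ℝ)
    (h : ∀ i, |F i| ≤ e) : |𝔼 i, F i| ≤ e := by
  rw [abs_le]
  exact ⟨le_expect univ_nonempty fun i _ => (abs_le.1 (h i)).1,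
    expect_le univ_nonempty fun i _ => (abs_le.1 (h i)).2⟩

theorem smooth_shift {w : ℕ} (hw : 0 < w) (c : Q) (g : (Q → ℕ) → ℝ) (hg : ∀ t, |g t| ≤ 1) :
    |𝔼 U : Q → Fin w, (g ((fun x => (U x : ℕ)) + Pi.single c 1) - g fun x => (U x : ℕ))| ≤
      2 / w := by
  have : Nonempty (Fin w) := ⟨⟨0, hw⟩⟩
  rw [smooth_resample hw c]
  refine smooth_abs_expect _ _ fun U => ?_
  set h : ℕ → ℝ := fun n => g (Function.update (fun x => (U x : ℕ)) c n) with hh
  have e : ∀ u : Fin w, g ((fun x => ((Function.update U c u x : Fin w) : ℕ)) + Pi.single c 1) -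
      g (fun x => ((Function.update U c u x : Fin w) : ℕ)) = h (u + 1) - h u := by
    intro u
    simp only [hh]
    congr 2 <;> funext x <;> by_cases hx : x = c <;> simp [hx]
  simp only [e]
  rw [Fintype.expect_eq_sum_div_card, Fin.sum_univ_eq_sum_range (fun n => h (n + 1) - h n) w,
    sum_range_sub, Fintype.card_fin, abs_div, Nat.abs_cast]
  have hw' : (0 : ℝ) < w := by positivity
  have h1 : |h w| ≤ 1 := hg _
  have h2 : |h 0| ≤ 1 := hg _
  have := abs_sub (h w) (h 0)
  gcongr
  linarith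

omit [Fintype Q] in
theorem smooth_ind_insert {A : Finset Q} {c : Q} (hc : c ∉ A) :
    ind (insert c A) = ind A + Pi.single c 1 := by
  funext x
  by_cases hx : x = c
  · subst hx; simp [ind, hc]
  · simp [ind, hx]

omit [Fintype Q] in
theorem smooth_ind_empty : ind (∅ : Finset Q) = 0 := by
  funext x; simp [ind]

omit [Fintype Q] in
theorem smooth_aux1 (G : (Q → ℕ) → ℝ) (ε : ℝ)
    (h : ∀ s c, |G (s + Pi.single c 1) - G s| ≤ ε) (A : Finset Q) :
    |G (ind A) - G 0| ≤ #A * ε := by
  induction A using Finset.induction_on with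
  | empty => simp [smooth_ind_empty]
  | insert c A hc ih =>
    rw [smooth_ind_insert hc, card_insert_of_notMem hc]
    have h1 := h (ind A) c
    have := abs_sub_le (G (ind A + Pi.single c 1)) (G (ind A)) (G 0)
    push_cast
    linarith

omit [Fintype Q] in
theorem smooth_aux2 (ψ : (Q → ℕ) → ℝ) (ε : ℝ) (hε : 0 ≤ ε)
    (h : ∀ s c c', |(ψ (s + Pi.single c' 1 + Pi.single c 1) - ψ (s + Pi.single c' 1)) -
      (ψ (s + Pi.single c 1) - ψ s)| ≤ ε) (A : Finset Q) :
    |ψ (ind A) - ψ 0 - ∑ c ∈ A, (ψ (Pi.single c 1) - ψ 0)| ≤ (#A : ℝ) ^ 2 * ε := by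
  induction A using Finset.induction_on with
  | empty => simp [smooth_ind_empty]
  | insert c A hc ih =>
    rw [smooth_ind_insert hc, card_insert_of_notMem hc, sum_insert hc]
    have h1 := smooth_aux1 (fun s => ψ (s + Pi.single c 1) - ψ s) ε (fun s c' => h s c c') A
    simp only [zero_add] at h1
    have h2 := abs_add_le (ψ (ind A + Pi.single c 1) - ψ (ind A) - (ψ (Pi.single c 1) - ψ 0))
      (ψ (ind A) - ψ 0 - ∑ c ∈ A, (ψ (Pi.single c 1) - ψ 0))
    have h3 : (0 : ℝ) ≤ #A * ε := by positivity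
    have e : ψ (ind A + Pi.single c 1) - ψ 0 -
        (ψ (Pi.single c 1) - ψ 0 + ∑ c ∈ A, (ψ (Pi.single c 1) - ψ 0)) =
        ψ (ind A + Pi.single c 1) - ψ (ind A) - (ψ (Pi.single c 1) - ψ 0) +
          (ψ (ind A) - ψ 0 - ∑ c ∈ A, (ψ (Pi.single c 1) - ψ 0)) := by ring
    rw [e]
    push_cast
    nlinarith

end

theorem smooth_ok : SmoothSt := by
  intro Q _ _ K w f hw hf ξ
  obtain ⟨k, b⟩ := ξ
  have : Nonempty (Fin w) := ⟨⟨0, hw⟩⟩
  let r : (Fin K → Q → Bool) → Q → ℕ := fun v c =>
    #{j ∈ (univ : Finset (Fin K)).erase k | (if (j : Fin K).val < k + 1 then b j else v j) c = true}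
  let ψ : (Q → ℕ) → ℝ := fun s => 𝔼 ω : Om Q K w, f ((fun x => (ω.2 x : ℕ)) + (s + r ω.1))
  have hf' : ∀ s c, |f (s + Pi.single c 1) - f s| ≤ 1 := by
    intro s c
    convert hf s c using 4
    funext x
    by_cases hx : x = c <;> simp [hx]
  have hε : (0 : ℝ) ≤ 2 / w := by positivity
  have hmix : ∀ s c c', |(ψ (s + Pi.single c' 1 + Pi.single c 1) - ψ (s + Pi.single c' 1)) -
      (ψ (s + Pi.single c 1) - ψ s)| ≤ 2 / w := by
    intro s c c'
    simp only [ψ]
    rw [← expect_sub_distrib, ← expect_sub_distrib, ← expect_sub_distrib, ← univ_product_univ,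
      expect_product]
    refine smooth_abs_expect _ _ fun v => ?_
    have := smooth_shift hw c' (fun t => f (t + (s + r v) + Pi.single c 1) - f (t + (s + r v)))
      (fun t => hf' _ _)
    convert this using 3 with U
    have a1 : ∀ t : Q → ℕ, t + (s + Pi.single c' 1 + Pi.single c 1 + r v) =
      t + Pi.single c' 1 + (s + r v) + Pi.single c 1 := fun t => by abel
    have a2 : ∀ t : Q → ℕ, t + (s + Pi.single c' 1 + r v) =
      t + Pi.single c' 1 + (s + r v) := fun t => by abel
    have a3 : ∀ t : Q → ℕ, t + (s + Pi.single c 1 + r v) =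
      t + (s + r v) + Pi.single c 1 := fun t => by abel
    rw [a1, a2, a3]
  refine ⟨ψ 0, fun c => ψ (Pi.single c 1) - ψ 0, fun β => ?_⟩
  have h1 := smooth_aux2 ψ _ hε hmix {c | β c = true}
  have e1 : cex K w f (k + 1) (Function.update b k β) = ψ (ind {c | β c = true}) := by
    simp only [cex, ψ]
    refine expect_congr rfl fun ω _ => ?_
    congr 1
    funext c
    simp only [sums, Pi.add_apply, r, ind, mem_filter, mem_univ, true_and]
    congr 1
    rw [← insert_erase (mem_univ k), filter_insert, erase_insert (notMem_erase k univ)]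
    have e2 : ({j ∈ (univ : Finset (Fin K)).erase k |
        (if (j : Fin K).val < k + 1 then Function.update b k β j else ω.1 j) c = true} :
          Finset (Fin K)) = {j ∈ (univ : Finset (Fin K)).erase k |
          (if (j : Fin K).val < k + 1 then b j else ω.1 j) c = true} := by
      refine filter_congr fun j hj => ?_
      rw [Function.update_of_ne (ne_of_mem_erase hj)]
    rw [e2]
    by_cases hβ : β c = true
    · rw [if_pos (by simp [hβ]), if_pos hβ, card_insert_of_notMem (by simp), add_comm]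
    · rw [if_neg (by simp [hβ]), if_neg hβ, zero_add]
  have e3 : (∑ c, if β c = true then ψ (Pi.single c 1) - ψ 0 else 0) =
      ∑ c ∈ ({c | β c = true} : Finset Q), (ψ (Pi.single c 1) - ψ 0) := by
    rw [sum_filter]
  have h4 : (#({c | β c = true} : Finset Q) : ℝ) ≤ Fintype.card Q := by
    exact_mod_cast card_le_univ _
  dsimp only
  rw [e1, e3]
  refine h1.trans ?_
  calc (#({c | β c = true} : Finset Q) : ℝ) ^ 2 * (2 / w) ≤ (Fintype.card Q : ℝ) ^ 2 * (2 / w) := by
        gcongr
    _ = _ := by ring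

end Pool.Agent.P.MP_9cbceb_lc
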