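import Pool.Agent.P.MP_9cbceb_lc.Basic

/-! Squares and unions of regular graphs. -/

namespace Pool.Agent.P.MP_9cbceb_lc

open Finset

theorem squni_sum_mul {M : Type} [AddCommMonoid M] (a b : ℕ) (hb : 0 < b) (F : ℕ → ℕ → M) :
    ∑ k ∈ range (a * b), F (k / b) (k % b) = ∑ i ∈ range a, ∑ j ∈ range b, F i j := by
  induction a with
  | zero => simp
  | succ a ih =>
    rw [Nat.succ_mul, sum_range_add, ih, sum_range_succ]
    congr 1
    refine sum_congr rfl fun j hj => ?_
    have h := (Nat.div_mod_unique (a := a * b + j) (b := b) (c := j) (d := a) hb).2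
      ⟨by ring, mem_range.1 hj⟩
    rw [h.1, h.2]

theorem squni_avg_sq (d : ℕ) (hd : 0 < d) (G : Rot) (f : ℕ → ℝ) (v : ℕ) :
    avg (d * d) (sq d G) f v = avg d G (avg d G f) v := by
  have h := squni_sum_mul d d hd fun i j => f (G (G v i).1 j).1
  simp only [avg, sq]
  rw [h, ← sum_div, div_div, Nat.cast_mul]

theorem sq_ok : SqSt := by
  intro n d G hd hG
  refine ⟨fun v hv k hk => ?_, fun lam hl f hf => ?_⟩
  · have hi : k / d < d := Nat.div_lt_of_lt_mul hk
    have hj : k % d < d := Nat.mod_lt _ hd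
    obtain ⟨a1, a2, a3⟩ := hG v hv _ hi
    obtain ⟨b1, b2, b3⟩ := hG _ a1 _ hj
    have h := (Nat.div_mod_unique (a := (G (G v (k / d)).1 (k % d)).2 * d + (G v (k / d)).2)
      (b := d) (c := (G v (k / d)).2) (d := (G (G v (k / d)).1 (k % d)).2) hd).2 ⟨by ring, a2⟩
    refine ⟨b1, ?_, ?_⟩
    · show (G (G v (k / d)).1 (k % d)).2 * d + (G v (k / d)).2 < d * d
      nlinarith
    · show sq d G (G (G v (k / d)).1 (k % d)).1
        ((G (G v (k / d)).1 (k % d)).2 * d + (G v (k / d)).2) = (v, k)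
      rw [sq]
      simp only [h.1, h.2, b3, a3]
      rw [Nat.div_add_mod' k d]
  · simp only [squni_avg_sq d hd]
    have h1 := hl (avg d G f) ((hG.sum_avg hd f).trans hf)
    have h2 := hl f hf
    calc _ ≤ lam ^ 2 * ∑ v ∈ range n, avg d G f v ^ 2 := h1
      _ ≤ lam ^ 2 * (lam ^ 2 * ∑ v ∈ range n, f v ^ 2) :=
        mul_le_mul_of_nonneg_left h2 (sq_nonneg _)
      _ = _ := by ring

theorem squni_avg_uni (d : ℕ) (hd : 0 < d) (ext : ℕ → ℕ) (G H : Rot) (f : ℕ → ℝ) (v : ℕ) :
    avg (1 + 2 * d) (uni d ext G H) f v =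
      (f (ext v) + d * avg d G f v + d * avg d H f v) / (1 + 2 * d) := by
  have hd' : (d : ℝ) ≠ 0 := by positivity
  have e : 1 + 2 * d = 1 + d + d := by ring
  have h1 : ∑ i ∈ range (1 + 2 * d), f (uni d ext G H v i).1 =
      f (ext v) + ∑ i ∈ range d, f (G v i).1 + ∑ i ∈ range d, f (H v i).1 := by
    rw [e, sum_range_add, sum_range_add]
    congr 1
    · congr 1
      · simp [uni]
      · refine sum_congr rfl fun i hi => ?_
        have := mem_range.1 hi
        rw [uni, if_neg (by omega), if_pos (by omega), Nat.add_sub_cancel_left]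
    · refine sum_congr rfl fun i hi => ?_
      rw [uni, if_neg (by omega), if_neg (by omega), show 1 + d + i - 1 - d = i by omega]
  rw [avg, h1, avg, avg, mul_div_cancel₀ _ hd', mul_div_cancel₀ _ hd']
  push_cast
  rfl

theorem squni_ineq {d a b c : ℝ} (hd : 0 ≤ d) :
    (a + d * b + d * c) ^ 2 ≤ (1 + 3 / 2 * d) * (a ^ 2 + d * b ^ 2 + 2 * d * c ^ 2) := by
  have h1 := mul_nonneg hd (sq_nonneg (a - b))
  have h2 := mul_nonneg hd (sq_nonneg (a - 2 * c))
  have h3 := mul_nonneg (mul_nonneg hd hd) (sq_nonneg (b - 2 * c))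
  nlinarith

theorem uni_ok : UniSt := by
  intro n d ext G H hd hext hG hH
  refine ⟨fun v hv i hi => ?_, fun hl f hf => ?_⟩
  · by_cases e0 : i = 0
    · subst e0
      simp only [uni, if_true]
      exact ⟨(hext v hv).1, by omega, by rw [(hext v hv).2]⟩
    · by_cases e1 : i ≤ d
      · obtain ⟨a1, a2, a3⟩ := hG v hv (i - 1) (by omega)
        have e : uni d ext G H v i = ((G v (i - 1)).1, (G v (i - 1)).2 + 1) := by
          rw [uni, if_neg e0, if_pos e1]
        rw [e]
        refine ⟨a1, by simp only; omega, ?_⟩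
        rw [uni, if_neg (by simp), if_pos (by simp only; omega)]
        simp only [Nat.add_sub_cancel, a3]
        rw [Nat.sub_add_cancel (by omega)]
      · obtain ⟨a1, a2, a3⟩ := hH v hv (i - 1 - d) (by omega)
        have e : uni d ext G H v i = ((H v (i - 1 - d)).1, (H v (i - 1 - d)).2 + 1 + d) := by
          rw [uni, if_neg e0, if_neg e1]
        rw [e]
        refine ⟨a1, by simp only; omega, ?_⟩
        rw [uni, if_neg (by simp only; omega), if_neg (by simp only; omega)]
        have e2 : (H v (i - 1 - d)).2 + 1 + d - 1 - d = (H v (i - 1 - d)).2 := by omega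
        simp only [e2, a3]
        rw [show i - 1 - d + 1 + d = i by omega]
  · simp only [squni_avg_uni d hd, div_pow, ← sum_div]
    have hd1 : (1 : ℝ) ≤ d := by exact_mod_cast hd
    have hd0 : (0 : ℝ) ≤ d := by positivity
    have h0 : ∑ v ∈ range n, f (ext v) ^ 2 = ∑ v ∈ range n, f v ^ 2 := by
      refine sum_nbij' ext ext ?_ ?_ ?_ ?_ fun _ _ => rfl <;>
      · intro v hv
        have := hext v (mem_range.1 hv)
        simp [this.1, this.2]
    have h1 := hG.avg_sq_le hd f
    have h2 := hl f hf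
    have hS : 0 ≤ ∑ v ∈ range n, f v ^ 2 := sum_nonneg fun _ _ => sq_nonneg _
    have h3 : ∑ v ∈ range n, (f (ext v) + d * avg d G f v + d * avg d H f v) ^ 2 ≤
        (1 + 3 / 2 * d) * (∑ v ∈ range n, f (ext v) ^ 2 + d * ∑ v ∈ range n, avg d G f v ^ 2 +
          2 * d * ∑ v ∈ range n, avg d H f v ^ 2) := by
      rw [mul_sum, mul_sum, ← sum_add_distrib, ← sum_add_distrib, mul_sum]
      exact sum_le_sum fun v _ => squni_ineq hd0
    have h4 : ∑ v ∈ range n, f (ext v) ^ 2 + d * ∑ v ∈ range n, avg d G f v ^ 2 +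
        2 * d * ∑ v ∈ range n, avg d H f v ^ 2 ≤ (1 + 3 / 2 * d) * ∑ v ∈ range n, f v ^ 2 := by
      have a1 := mul_le_mul_of_nonneg_left h1 hd0
      have a2 := mul_le_mul_of_nonneg_left h2 hd0
      rw [h0]
      linarith
    have h5 := h3.trans (mul_le_mul_of_nonneg_left h4 (by positivity))
    rw [div_le_iff₀ (by positivity)]
    refine h5.trans ?_
    have h6 : (1 + 3 / 2 * (d : ℝ)) * (1 + 3 / 2 * d) ≤ (7 / 8) ^ 2 * (1 + 2 * d) ^ 2 := by
      nlinarith
    nlinarith [mul_le_mul_of_nonneg_right h6 hS]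

end Pool.Agent.P.MP_9cbceb_lc
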