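import Pool.Agent.P.MP_9cbceb_lc.Basic

/-! Words and walks. -/

namespace Pool.Agent.P.MP_9cbceb_lc

open Finset

theorem walk_mem_words (d : ℕ) : ∀ (k : ℕ) (σ : List ℕ),
    σ ∈ words d k ↔ σ.length = k ∧ ∀ i ∈ σ, i < d
  | 0, σ => by
    simp only [words, List.mem_singleton, List.length_eq_zero_iff]
    exact ⟨fun h => ⟨h, by simp [h]⟩, fun h => h.1⟩
  | k + 1, σ => by
    simp only [words, List.mem_flatMap, List.mem_range, List.mem_map]
    constructor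
    · rintro ⟨i, hi, τ, hτ, rfl⟩
      have := (walk_mem_words d k τ).1 hτ
      refine ⟨by simp [this.1], fun j hj => ?_⟩
      rcases List.mem_cons.1 hj with rfl | hj
      · exact hi
      · exact this.2 j hj
    · rintro ⟨h1, h2⟩
      obtain ⟨i, τ, rfl⟩ := List.exists_cons_of_length_eq_add_one h1
      refine ⟨i, h2 i (by simp), τ, (walk_mem_words d k τ).2 ⟨by simpa using h1, fun j hj =>
        h2 j (List.mem_cons_of_mem _ hj)⟩, rfl⟩

theorem walk_nodup (d : ℕ) : ∀ k : ℕ, (words d k).Nodup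
  | 0 => by simp [words]
  | k + 1 => by
    rw [words, List.nodup_flatMap]
    refine ⟨fun i _ => (walk_nodup d k).map (List.cons_injective), ?_⟩
    refine List.nodup_range.imp fun {a b} hab => ?_
    intro σ h1 h2
    obtain ⟨τ, -, rfl⟩ := List.mem_map.1 h1
    obtain ⟨τ', -, h⟩ := List.mem_map.1 h2
    exact hab (List.cons.inj h).1.symm

theorem walk_mem (d k : ℕ) (σ : List ℕ) : σ ∈ wd d k ↔ σ.length = k ∧ ∀ i ∈ σ, i < d := by
  rw [wd, List.mem_toFinset, walk_mem_words]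

theorem walk_sum_succ (d k : ℕ) (F : List ℕ → ℝ) :
    ∑ σ ∈ wd d (k + 1), F σ = ∑ i ∈ range d, ∑ τ ∈ wd d k, F (i :: τ) := by
  rw [← sum_product']
  symm
  refine sum_bij (fun p _ => p.1 :: p.2) ?_ ?_ ?_ fun _ _ => rfl
  · rintro ⟨i, τ⟩ hp
    simp only [mem_product, mem_range, walk_mem] at hp ⊢
    refine ⟨by simp [hp.2.1], fun j hj => ?_⟩
    rcases List.mem_cons.1 hj with rfl | hj
    · exact hp.1
    · exact hp.2.2 j hj
  · rintro ⟨i, τ⟩ - ⟨j, σ⟩ - h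
    obtain ⟨h1, h2⟩ := List.cons.inj h
    exact Prod.ext h1 h2
  · intro σ hσ
    obtain ⟨h1, h2⟩ := (walk_mem _ _ _).1 hσ
    obtain ⟨i, τ, rfl⟩ := List.exists_cons_of_length_eq_add_one h1
    refine ⟨(i, τ), ?_, rfl⟩
    simp only [mem_product, mem_range, walk_mem]
    exact ⟨h2 i (by simp), by simpa using h1, fun j hj => h2 j (List.mem_cons_of_mem _ hj)⟩

theorem walk_zero (d : ℕ) : wd d 0 = {[]} := by
  simp [wd, words]

theorem walk_card (d : ℕ) : ∀ k : ℕ, #(wd d k) = d ^ k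
  | 0 => by simp [walk_zero]
  | k + 1 => by
    have h := walk_sum_succ d k fun _ => 1
    simp only [sum_const, card_range, nsmul_eq_mul, mul_one, walk_card d k] at h
    rw [pow_succ']
    exact_mod_cast h

theorem walk_sum_add (d : ℕ) : ∀ (a b : ℕ) (F : List ℕ → ℝ),
    ∑ σ ∈ wd d (a + b), F σ = ∑ σ ∈ wd d a, ∑ τ ∈ wd d b, F (σ ++ τ)
  | 0, b, F => by simp [walk_zero]
  | a + 1, b, F => by
    rw [show a + 1 + b = a + b + 1 by ring, walk_sum_succ, walk_sum_succ]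
    refine sum_congr rfl fun i _ => ?_
    rw [walk_sum_add d a b fun σ => F (i :: σ)]
    rfl

theorem walk_wend_append (ρ : Rot) : ∀ (v : ℕ) (σ τ : List ℕ),
    wend ρ v (σ ++ τ) = wend ρ (wend ρ v σ) τ
  | _, [], _ => rfl
  | v, i :: σ, τ => by
    rw [List.cons_append, wend, wend, walk_wend_append ρ _ σ τ]

theorem walk_wrev_append (ρ : Rot) : ∀ (v : ℕ) (σ τ : List ℕ),
    wrev ρ v (σ ++ τ) = wrev ρ (wend ρ v σ) τ ++ wrev ρ v σ
  | _, [], _ => by simp [wrev, wend]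
  | v, i :: σ, τ => by
    rw [List.cons_append, wrev, wrev, wend, walk_wrev_append ρ _ σ τ, List.append_assoc]

theorem walk_rev {n d : ℕ} {ρ : Rot} (h : IsRG n d ρ) : ∀ (σ : List ℕ) (v : ℕ), v < n →
    (∀ i ∈ σ, i < d) → wend ρ v σ < n ∧ (wrev ρ v σ).length = σ.length ∧
      (∀ i ∈ wrev ρ v σ, i < d) ∧ wend ρ (wend ρ v σ) (wrev ρ v σ) = v ∧
      wrev ρ (wend ρ v σ) (wrev ρ v σ) = σ
  | [], v, hv, _ => by simp [wend, wrev, hv]
  | i :: σ, v, hv, hσ => by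
    obtain ⟨h1, h2, h3⟩ := h v hv i (hσ i (by simp))
    obtain ⟨g1, g2, g3, g4, g5⟩ := walk_rev h σ (ρ v i).1 h1 fun j hj =>
      hσ j (List.mem_cons_of_mem _ hj)
    simp only [wend, wrev]
    refine ⟨g1, by simp [g2], fun j hj => ?_, ?_, ?_⟩
    · rcases List.mem_append.1 hj with hj | hj
      · exact g3 j hj
      · rw [List.mem_singleton.1 hj]; exact h2
    · rw [walk_wend_append, g4]
      simp only [wend, h3]
    · rw [walk_wrev_append, g4, g5]
      simp only [wrev, h3, List.nil_append, List.singleton_append]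

theorem walk_rev' {n d : ℕ} {ρ : Rot} (h : IsRG n d ρ) (k v : ℕ) (hv : v < n) (σ : List ℕ)
    (hσ : σ ∈ wd d k) : wend ρ v σ < n ∧ wrev ρ v σ ∈ wd d k ∧
      wend ρ (wend ρ v σ) (wrev ρ v σ) = v ∧ wrev ρ (wend ρ v σ) (wrev ρ v σ) = σ := by
  obtain ⟨h1, h2⟩ := (walk_mem _ _ _).1 hσ
  obtain ⟨g1, g2, g3, g4, g5⟩ := walk_rev h σ v hv h2
  exact ⟨g1, (walk_mem _ _ _).2 ⟨g2.trans h1, g3⟩, g4, g5⟩

theorem walk_ok : WalkSt := by
  refine ⟨walk_nodup, walk_mem, walk_card, walk_sum_add, walk_sum_succ, walk_wend_append,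
    fun n d ρ h k v hv σ hσ => walk_rev' h k v hv σ hσ, fun n d ρ h k F => ?_⟩
  rw [← sum_product', ← sum_product']
  refine sum_nbij' (fun p => (wend ρ p.1 p.2, wrev ρ p.1 p.2))
    (fun p => (wend ρ p.1 p.2, wrev ρ p.1 p.2)) ?_ ?_ ?_ ?_ fun _ _ => rfl <;>
  · rintro ⟨v, σ⟩ hp
    simp only [mem_product, mem_range] at hp ⊢
    obtain ⟨g1, g2, g3, g4⟩ := walk_rev' h k v hp.1 σ hp.2
    simp [g1, g2, g3, g4]

end Pool.Agent.P.MP_9cbceb_lc
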