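import Pool.Agent.P.MP_9cbceb_lc.Basic

/-! The zig-zag product of expanders. -/

namespace Pool.Agent.P.MP_9cbceb_lc

open Finset

theorem zz_div {K : ℕ} (v : ℕ) {a : ℕ} (ha : a < K) : (v * K + a) / K = v ∧ (v * K + a) % K = a :=
  (Nat.div_mod_unique (by omega)).2 ⟨by ring, ha⟩

theorem zz_lt {n K v a : ℕ} (hv : v < n) (ha : a < K) : v * K + a < n * K := by nlinarith

theorem zz_sum (n K : ℕ) (φ : ℕ → ℕ → ℝ) :
    ∑ y ∈ range (n * K), φ (y / K) (y % K) = ∑ v ∈ range n, ∑ a ∈ range K, φ v a := by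
  induction n with
  | zero => simp
  | succ n ih =>
    rw [Nat.succ_mul, sum_range_add, ih, sum_range_succ]
    congr 1
    refine sum_congr rfl fun a ha => ?_
    rw [(zz_div n (mem_range.1 ha)).1, (zz_div n (mem_range.1 ha)).2]

theorem zz_rg {n K D : ℕ} {H G : Rot} (hK : 0 < K) (hD : 0 < D) (hG : IsRG n K G)
    (hH : IsRG K D H) : IsRG (n * K) (D * D) (zz K D H G) := by
  intro y hy k hk
  have hv : y / K < n := (Nat.div_lt_iff_lt_mul hK).2 hy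
  have hi : k / D < D := (Nat.div_lt_iff_lt_mul hD).2 hk
  obtain ⟨a1, a2, a3⟩ := hH _ (Nat.mod_lt y hK) _ hi
  obtain ⟨b1, b2, b3⟩ := hG _ hv _ a1
  obtain ⟨c1, c2, c3⟩ := hH _ b2 _ (Nat.mod_lt k hD)
  refine ⟨zz_lt b1 c1, zz_lt c2 a2, ?_⟩
  simp only [zz, (zz_div _ c1).1, (zz_div _ c1).2, (zz_div _ a2).1, (zz_div _ a2).2, c3, b3, a3,
    Nat.div_add_mod']

/-- Sum of squares over all clouds. -/
def zz_S (n K : ℕ) (F : ℕ → ℕ → ℝ) : ℝ := ∑ v ∈ range n, ∑ a ∈ range K, F v a ^ 2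

/-- One step inside the cloud. -/
noncomputable def zz_B (D : ℕ) (H : Rot) (F : ℕ → ℕ → ℝ) : ℕ → ℕ → ℝ := fun v a => avg D H (F v) a

/-- One step of the large graph. -/
def zz_P (G : Rot) (F : ℕ → ℕ → ℝ) : ℕ → ℕ → ℝ := fun v a => F (G v a).1 (G v a).2

/-- The mean over the cloud. -/
noncomputable def zz_J (K : ℕ) (F : ℕ → ℕ → ℝ) : ℕ → ℕ → ℝ := fun v _ => (∑ b ∈ range K, F v b) / K

theorem zz_tri {n K : ℕ} {X Y : ℕ → ℕ → ℝ} {α β s : ℝ} (hα : 0 ≤ α) (hβ : 0 ≤ β) (hs : 0 ≤ s)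
    (hX : zz_S n K X ≤ α ^ 2 * s) (hY : zz_S n K Y ≤ β ^ 2 * s) :
    zz_S n K (fun v a => X v a + Y v a) ≤ (α + β) ^ 2 * s := by
  simp only [zz_S, ← sum_product'] at hX hY ⊢
  have h1 := sum_mul_sq_le_sq_mul_sq (range n ×ˢ range K) (fun p => X p.1 p.2) fun p => Y p.1 p.2
  have h2 : (∑ p ∈ range n ×ˢ range K, X p.1 p.2 * Y p.1 p.2) ^ 2 ≤ (α * β * s) ^ 2 := by
    refine h1.trans ((mul_le_mul hX hY (sum_nonneg fun _ _ => sq_nonneg _)
      (by positivity)).trans_eq (by ring))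
  have h3 := le_of_sq_le_sq h2 (by positivity)
  have h4 : ∑ p ∈ range n ×ˢ range K, (X p.1 p.2 + Y p.1 p.2) ^ 2 =
      ∑ p ∈ range n ×ˢ range K, X p.1 p.2 ^ 2 + ∑ p ∈ range n ×ˢ range K, Y p.1 p.2 ^ 2 +
        2 * ∑ p ∈ range n ×ˢ range K, X p.1 p.2 * Y p.1 p.2 := by
    rw [mul_sum, ← sum_add_distrib, ← sum_add_distrib]
    exact sum_congr rfl fun _ _ => by ring
  rw [h4]
  linarith

theorem zz_B_le {n K D : ℕ} {H : Rot} (hD : 0 < D) (hH : IsRG K D H) (F : ℕ → ℕ → ℝ) :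
    zz_S n K (zz_B D H F) ≤ zz_S n K F :=
  sum_le_sum fun v _ => hH.avg_sq_le hD (F v)

theorem zz_P_eq {n K : ℕ} {G : Rot} (hG : IsRG n K G) (F : ℕ → ℕ → ℝ) :
    zz_S n K (zz_P G F) = zz_S n K F :=
  hG.sum_rot fun v a => F v a ^ 2

theorem zz_var {K : ℕ} (hK : 0 < K) (f : ℕ → ℝ) :
    ∑ a ∈ range K, (f a - (∑ b ∈ range K, f b) / K) ^ 2 +
      ∑ _a ∈ range K, ((∑ b ∈ range K, f b) / K) ^ 2 = ∑ a ∈ range K, f a ^ 2 := by
  have hK' : (K : ℝ) ≠ 0 := by positivity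
  simp only [sub_sq, sum_add_distrib, sum_sub_distrib, sum_const, card_range, nsmul_eq_mul,
    ← sum_mul, ← mul_sum]
  field_simp
  ring

theorem zz_J_le {n K : ℕ} (hK : 0 < K) (F : ℕ → ℕ → ℝ) : zz_S n K (zz_J K F) ≤ zz_S n K F :=
  sum_le_sum fun v _ => by
    rw [← zz_var hK (F v)]
    exact le_add_of_nonneg_left (sum_nonneg fun _ _ => sq_nonneg _)

theorem zz_E_le {n K D : ℕ} {H : Rot} {mu : ℝ} (hK : 0 < K) (hD : 0 < D) (hE : Exp K D H mu)
    (F : ℕ → ℕ → ℝ) :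
    zz_S n K (fun v a => zz_B D H F v a - zz_J K F v a) ≤ mu ^ 2 * zz_S n K F := by
  have hK' : (K : ℝ) ≠ 0 := by positivity
  have hD' : (D : ℝ) ≠ 0 := by positivity
  unfold zz_S
  rw [mul_sum]
  refine sum_le_sum fun v _ => ?_
  have h1 := hE (fun b => F v b - (∑ b ∈ range K, F v b) / K) (by
    simp only [sum_sub_distrib, sum_const, card_range, nsmul_eq_mul]
    field_simp
    ring)
  have h2 : ∀ a, avg D H (fun b => F v b - (∑ b ∈ range K, F v b) / K) a =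
      zz_B D H F v a - zz_J K F v a := by
    intro a
    simp only [avg, zz_B, zz_J, sum_sub_distrib, sum_const, card_range, nsmul_eq_mul]
    field_simp
  simp only [h2] at h1
  refine h1.trans (mul_le_mul_of_nonneg_left ?_ (sq_nonneg _))
  rw [← zz_var hK (F v)]
  exact le_add_of_nonneg_right (sum_nonneg fun _ _ => sq_nonneg _)

theorem zz_JPJ_le {n K : ℕ} {G : Rot} {lam : ℝ} (hK : 0 < K) (hE : Exp n K G lam)
    (F : ℕ → ℕ → ℝ) (h0 : ∑ v ∈ range n, ∑ a ∈ range K, F v a = 0) :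
    zz_S n K (zz_J K (zz_P G (zz_J K F))) ≤ lam ^ 2 * zz_S n K F := by
  have h1 := hE (fun v => (∑ b ∈ range K, F v b) / K) (by rw [← sum_div, h0, zero_div])
  refine le_trans ?_ (mul_le_mul_of_nonneg_left (zz_J_le hK F) (sq_nonneg _))
  simp only [zz_S, zz_J, zz_P, sum_const, card_range, nsmul_eq_mul, ← mul_sum]
  rw [mul_left_comm]
  exact mul_le_mul_of_nonneg_left h1 (Nat.cast_nonneg K)

theorem zz_avg (K D : ℕ) (H G : Rot) (f : ℕ → ℝ) (y : ℕ) :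
    avg (D * D) (zz K D H G) f y =
      zz_B D H (zz_P G (zz_B D H fun v a => f (v * K + a))) (y / K) (y % K) := by
  simp only [avg, zz, zz_B, zz_P]
  rw [zz_sum D D fun i j => f ((G (y / K) (H (y % K) i).1).1 * K +
    (H (G (y / K) (H (y % K) i).1).2 j).1), ← sum_div, div_div, Nat.cast_mul]

theorem zz_ok : ZzSt := by
  intro n K D H G hK hD hG hH
  refine ⟨zz_rg hK hD hG hH, fun lam mu hl hm eG eH f h0 => ?_⟩
  set F : ℕ → ℕ → ℝ := fun v a => f (v * K + a) with hF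
  have hf : ∀ y, f y = F (y / K) (y % K) := fun y => by simp only [hF, Nat.div_add_mod']
  have h0' : ∑ v ∈ range n, ∑ a ∈ range K, F v a = 0 := by
    rw [← zz_sum, ← h0]
    exact sum_congr rfl fun y _ => (hf y).symm
  have e1 : ∑ y ∈ range (n * K), f y ^ 2 = zz_S n K F := by
    rw [zz_S, ← zz_sum n K fun v a => F v a ^ 2]
    exact sum_congr rfl fun y _ => by rw [hf y]
  have e2 : ∑ y ∈ range (n * K), avg (D * D) (zz K D H G) f y ^ 2 =
      zz_S n K (zz_B D H (zz_P G (zz_B D H F))) := by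
    rw [zz_S, ← zz_sum n K fun v a => zz_B D H (zz_P G (zz_B D H F)) v a ^ 2]
    exact sum_congr rfl fun y _ => by rw [zz_avg]
  have e3 : zz_B D H (zz_P G (zz_B D H F)) = fun v a =>
      (zz_J K (zz_P G (zz_J K F)) v a +
        (zz_B D H (zz_P G (zz_J K F)) v a - zz_J K (zz_P G (zz_J K F)) v a)) +
        zz_B D H (zz_P G fun w b => zz_B D H F w b - zz_J K F w b) v a := by
    funext v a
    simp only [zz_B, zz_P, avg, sum_sub_distrib]
    ring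
  have hs : 0 ≤ zz_S n K F := sum_nonneg fun _ _ => sum_nonneg fun _ _ => sq_nonneg _
  have b1 := zz_JPJ_le hK eG F h0'
  have b2 : zz_S n K (fun v a => zz_B D H (zz_P G (zz_J K F)) v a -
      zz_J K (zz_P G (zz_J K F)) v a) ≤ mu ^ 2 * zz_S n K F :=
    (zz_E_le hK hD eH _).trans (mul_le_mul_of_nonneg_left
      ((zz_P_eq hG _).trans_le (zz_J_le hK F)) (sq_nonneg _))
  have b3 : zz_S n K (zz_B D H (zz_P G fun w b => zz_B D H F w b - zz_J K F w b)) ≤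
      mu ^ 2 * zz_S n K F :=
    (zz_B_le hD hH _).trans ((zz_P_eq hG _).trans_le (zz_E_le hK hD eH F))
  rw [e1, e2, e3, show lam + 2 * mu = lam + mu + mu by ring]
  exact zz_tri (add_nonneg hl hm) hm hs (zz_tri hl hm hs b1 b2) b3

end Pool.Agent.P.MP_9cbceb_lc
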