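import Pool.Agent.P.MP_9cbceb_lc.AR
import Pool.Agent.P.MP_9cbceb_lc.AnaAC
import Pool.Agent.P.MP_9cbceb_lc.AnaB
import Pool.Agent.P.MP_9cbceb_lc.BLR
import Pool.Agent.P.MP_9cbceb_lc.BaseN
import Pool.Agent.P.MP_9cbceb_lc.BaseX
import Pool.Agent.P.MP_9cbceb_lc.BaseY
import Pool.Agent.P.MP_9cbceb_lc.Cloud
import Pool.Agent.P.MP_9cbceb_lc.CloudGap
import Pool.Agent.P.MP_9cbceb_lc.CloudS
import Pool.Agent.P.MP_9cbceb_lc.CompN
import Pool.Agent.P.MP_9cbceb_lc.CompY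
import Pool.Agent.P.MP_9cbceb_lc.Conc
import Pool.Agent.P.MP_9cbceb_lc.Conv
import Pool.Agent.P.MP_9cbceb_lc.Core
import Pool.Agent.P.MP_9cbceb_lc.Cube
import Pool.Agent.P.MP_9cbceb_lc.Gap
import Pool.Agent.P.MP_9cbceb_lc.Honest
import Pool.Agent.P.MP_9cbceb_lc.Idx
import Pool.Agent.P.MP_9cbceb_lc.Layer
import Pool.Agent.P.MP_9cbceb_lc.Lip
import Pool.Agent.P.MP_9cbceb_lc.Long
import Pool.Agent.P.MP_9cbceb_lc.Main
import Pool.Agent.P.MP_9cbceb_lc.NS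
import Pool.Agent.P.MP_9cbceb_lc.PCP
import Pool.Agent.P.MP_9cbceb_lc.Pick
import Pool.Agent.P.MP_9cbceb_lc.Pow
import Pool.Agent.P.MP_9cbceb_lc.PowFirst
import Pool.Agent.P.MP_9cbceb_lc.PowMath
import Pool.Agent.P.MP_9cbceb_lc.PowSecond
import Pool.Agent.P.MP_9cbceb_lc.Reg
import Pool.Agent.P.MP_9cbceb_lc.Round
import Pool.Agent.P.MP_9cbceb_lc.Smooth
import Pool.Agent.P.MP_9cbceb_lc.SqUni
import Pool.Agent.P.MP_9cbceb_lc.Walk
import Pool.Agent.P.MP_9cbceb_lc.Xp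
import Pool.Agent.P.MP_9cbceb_lc.Zz

/-! Assembly of all parts. -/

namespace Pool.Agent.P.MP_9cbceb_lc

theorem xp_thm : XpSt := xp_ok baseX_ok sq_ok zz_ok

theorem reg_thm : RegSt :=
  reg_ok xp_thm uni_ok idx_ok cloudPT_ok (cloudStruct_ok idx_ok) (cloudGap_ok idx_ok cloud_ok)

theorem pow_thm : PowSt :=
  pow_ok walk_ok (powMath_ok walk_ok (powFirst_ok walk_ok) (powSecond_ok walk_ok))

theorem ar_thm : ARSt := ar_ok (long_ok blr_ok)

/-- The PCP theorem. -/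
theorem pcp_thm : PCPSt := pcp_ok (init_ok ar_thm) (round_ok reg_thm pow_thm ar_thm)

theorem good_thm : GoodSt := good_ok lip_ok (anaA_ok cube_ok mart_ok)
  (anaB_ok cube_ok mart_ok smooth_ok) (anaC_ok cube_ok smooth_ok)

theorem core_thm : CoreSt := core_ok good_thm pick_ok ns_ok'

theorem gap_thm : GapSt := gap_ok honest_ok core_thm (baseYes_ok layer_ok) (baseNo_ok layer_ok)
  conc_ok compYes_ok compNo_ok compPT_ok

theorem main_thm : MainSt := main_ok pcp_thm gap_thm conv_ok run_ok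

end Pool.Agent.P.MP_9cbceb_lc
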