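import Pool.Agent.P.MP_9cbceb_lc.DefF
import Pool.Agent.P.MP_2989a6_lc.TM

/-! Small tools shared by all parts. -/

namespace Pool.Agent.P.MP_9cbceb_lc

open Pool.Agent.Lib.helper21 Pool.Agent.Lib.helper26 Finset

/-- Every relation has a code. -/
theorem code_ex (q : ℕ) (R : ℕ → ℕ → Bool) :
    ∃ c < 2 ^ (q * q), ∀ a < q, ∀ b < q, rel q c a b = R a b := by
  refine ⟨Nat.ofBits fun i : Fin (q * q) => R (i / q) (i % q), Nat.ofBits_lt_two_pow _, ?_⟩
  intro a ha b hb
  have h : a * q + b < q * q := by nlinarith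
  have h1 := (Nat.div_mod_unique (a := a * q + b) (b := q) (c := b) (d := a) (by omega)).2
    ⟨by ring, hb⟩
  rw [rel, Nat.testBit_ofBits_lt _ _ h]
  simp only [h1.1, h1.2]

theorem rel_full {q a b : ℕ} (ha : a < q) (hb : b < q) : rel q (2 ^ (q * q) - 1) a b = true := by
  have h : a * q + b < q * q := by nlinarith
  simp [rel, Nat.testBit_two_pow_sub_one, h]

/-- Any function agrees on short lists of small numbers with a polynomial-time one. -/
theorem PT_table {β : Type} [Enc β] (B : ℕ) (F : List ℕ → β) :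
    ∃ t : List ℕ → β, PT t ∧ ∀ l : List ℕ, l.length ≤ B → (∀ x ∈ l, x ≤ B) → t l = F l := by
  have hfin : {l : List ℕ | l.length ≤ B ∧ ∀ x ∈ l, x ≤ B}.Finite := by
    refine ((List.finite_length_le (Fin (B + 1)) B).image (List.map Fin.val)).subset ?_
    rintro l ⟨h1, h2⟩
    refine ⟨l.map fun x => ⟨min x B, by omega⟩, by simpa using h1, ?_⟩
    rw [List.map_map]
    conv_rhs => rw [← List.map_id l]
    exact List.map_congr_left fun x hx => by simp [h2 x hx]
  obtain ⟨t, ht, e⟩ := MP_2989a6_lc.tm_table (F []) id F _ hfin fun _ _ _ _ h => h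
  exact ⟨t, ht, fun l h1 h2 => e l ⟨h1, h2⟩⟩

theorem PT_mapConst {α β ι : Type} [Enc α] [Enc β] (l : List ι) {F : ι → α → β}
    (h : ∀ i, PT (F i)) : PT fun a => l.map fun i => F i a := MP_2989a6_lc.tm_mapConst l h

theorem PT_flatMapConst {α β ι : Type} [Enc α] [Enc β] (l : List ι) {F : ι → α → List β}
    (h : ∀ i, PT (F i)) : PT fun a => l.flatMap fun i => F i a :=
  (PT_mapConst l h).flatten.of_eq fun a => by rw [List.flatMap_def]

@[fun_prop] theorem PT_pair {α : Type} [Enc α] {f g : α → ℕ} (hf : PT f) (hg : PT g) :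
    PT fun a => Nat.pair (f a) (g a) :=
  PT.of_eq (f := fun a => cond (decide (f a < g a)) (g a * g a + f a) (f a * f a + f a + g a))
    (by fun_prop) fun a => by by_cases h : f a < g a <;> simp [Nat.pair, h]

@[fun_prop] theorem PT_countP {α β : Type} [Enc α] [Enc β] {l : α → List β} {g : α → β → Bool}
    (hl : PT l) (hg : PT fun p : α × β => g p.1 p.2) : PT fun a => (l a).countP (g a) :=
  (hl.filter hg).length.of_eq fun _ => List.countP_eq_length_filter.symm

section RG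

variable {n d : ℕ} {ρ : Rot}

/-- The rotation map permutes the arcs. -/
theorem IsRG.sum_rot {M : Type} [AddCommMonoid M] (h : IsRG n d ρ) (F : ℕ → ℕ → M) :
    ∑ v ∈ range n, ∑ i ∈ range d, F (ρ v i).1 (ρ v i).2 = ∑ v ∈ range n, ∑ i ∈ range d, F v i := by
  rw [← sum_product', ← sum_product']
  refine sum_nbij' (fun p => ρ p.1 p.2) (fun p => ρ p.1 p.2) ?_ ?_ ?_ ?_ fun _ _ => rfl <;>
  · rintro ⟨v, i⟩ hp
    simp only [mem_product, mem_range] at hp ⊢
    have := h v hp.1 i hp.2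
    tauto

theorem IsRG.sum_avg (h : IsRG n d ρ) (hd : 0 < d) (f : ℕ → ℝ) :
    ∑ v ∈ range n, avg d ρ f v = ∑ v ∈ range n, f v := by
  have hd' : (d : ℝ) ≠ 0 := by positivity
  simp only [avg]
  rw [← sum_div, h.sum_rot fun v _ => f v]
  simp only [sum_const, card_range, nsmul_eq_mul, ← mul_sum]
  field_simp

/-- Averaging does not increase the norm. -/
theorem IsRG.avg_sq_le (h : IsRG n d ρ) (hd : 0 < d) (f : ℕ → ℝ) :
    ∑ v ∈ range n, avg d ρ f v ^ 2 ≤ ∑ v ∈ range n, f v ^ 2 := by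
  rw [← h.sum_avg hd fun v => f v ^ 2]
  refine sum_le_sum fun v _ => ?_
  have hd' : (0 : ℝ) < d := by positivity
  have := sq_sum_le_card_mul_sum_sq (s := range d) (f := fun i => f (ρ v i).1)
  rw [card_range] at this
  rw [avg, avg, div_pow, div_le_div_iff₀ (by positivity) hd']
  nlinarith

/-- The averaging operator is symmetric. -/
theorem IsRG.avg_symm (h : IsRG n d ρ) (f g : ℕ → ℝ) :
    ∑ v ∈ range n, f v * avg d ρ g v = ∑ v ∈ range n, avg d ρ f v * g v := by
  simp only [avg, ← mul_div_assoc, div_mul_eq_mul_div, ← sum_div, mul_sum, sum_mul]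
  congr 1
  rw [← h.sum_rot fun v i => f (ρ v i).1 * g v]
  refine sum_congr rfl fun v hv => sum_congr rfl fun i hi => ?_
  rw [(h v (mem_range.1 hv) i (mem_range.1 hi)).2.2]

theorem IsRG.congr {ρ' : Rot} (h : IsRG n d ρ) (e : ∀ v < n, ∀ i < d, ρ' v i = ρ v i) :
    IsRG n d ρ' := fun v hv i hi => by
  obtain ⟨h1, h2, h3⟩ := h v hv i hi
  rw [e v hv i hi, e _ h1 _ h2]
  exact ⟨h1, h2, h3⟩

theorem Exp.congr {ρ' : Rot} {lam : ℝ} (h : Exp n d ρ lam)
    (e : ∀ v < n, ∀ i < d, ρ' v i = ρ v i) : Exp n d ρ' lam := fun f hf => by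
  refine le_of_eq_of_le (sum_congr rfl fun v hv => ?_) (h f hf)
  rw [avg, avg, sum_congr rfl fun i hi => by rw [e v (mem_range.1 hv) i (mem_range.1 hi)]]

theorem Exp.mono {lam mu : ℝ} (h : Exp n d ρ lam) (h0 : 0 ≤ lam) (hl : lam ≤ mu) :
    Exp n d ρ mu := fun f hf =>
  (h f hf).trans (mul_le_mul_of_nonneg_right (by gcongr) (sum_nonneg fun _ _ => sq_nonneg _))

end RG

theorem key_comm {ι : Type} [LinearOrder ι] {a q : ι} (h : a ≠ q) : key a q = key q a := by
  unfold key
  rcases lt_or_gt_of_ne h with h1 | h1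
  · rw [if_pos h1, if_neg h1.not_gt]
  · rw [if_neg h1.not_gt, if_pos h1]

theorem Lose.symm {E S ι : Type} [LinearOrder ι] {g : Game E S} {W : ι × ι → E} {a q : ι}
    {x y : S} (h : a ≠ q) (hl : Lose g W a q x y) : Lose g W q a y x := by
  unfold Lose at hl ⊢
  rcases lt_or_gt_of_ne h with h1 | h1
  · rw [if_pos h1] at hl; rwa [if_neg h1.not_gt]
  · rw [if_neg h1.not_gt] at hl; rwa [if_pos h1]

end Pool.Agent.P.MP_9cbceb_lc
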