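import Mathlib

/-! Conditional expectations on a finite product space, Bessel inequality, the game lemma. -/

namespace Pool.Agent.P.MP_9cbceb_lc.CE

open Finset
open scoped BigOperators

noncomputable section

variable {κ E : Type} [Fintype κ] [DecidableEq κ] [Fintype E]

/-- average over the coordinates in `Z` -/
def cE (Z : Finset κ) (F : (κ → E) → ℝ) (W : κ → E) : ℝ := 𝔼 W' : κ → E, F (Z.piecewise W' W)

/-- `F` does not read the coordinates in `Z` -/
def Ind (Z : Finset κ) (F : (κ → E) → ℝ) : Prop := ∀ W W', F (Z.piecewise W' W) = F W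

theorem pair_swap (Z : Finset κ) (Φ : (κ → E) → (κ → E) → ℝ) :
    𝔼 W, 𝔼 W', Φ (Z.piecewise W' W) (Z.piecewise W W') = 𝔼 W, 𝔼 W', Φ W W' := by
  have hinv : Function.Involutive fun p : (κ → E) × (κ → E) =>
      (Z.piecewise p.2 p.1, Z.piecewise p.1 p.2) := by
    rintro ⟨W, W'⟩
    refine Prod.ext (funext fun k => ?_) (funext fun k => ?_) <;>
      by_cases hk : k ∈ Z <;> simp [piecewise, hk]
  rw [← expect_product', ← expect_product', univ_product_univ]
  exact Fintype.expect_bijective _ hinv.bijective _ (fun p => Φ p.1 p.2) fun _ => rfl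

variable [Nonempty E] {Z Z' : Finset κ} {F G : (κ → E) → ℝ}

theorem expect_cE (Z : Finset κ) (F : (κ → E) → ℝ) : 𝔼 W, cE Z F W = 𝔼 W, F W := by
  have h := pair_swap Z fun W _ => F W
  simp only [Fintype.expect_const] at h
  exact h

omit [Nonempty E] in
theorem cE_adj (Z : Finset κ) (F G : (κ → E) → ℝ) :
    𝔼 W, cE Z F W * G W = 𝔼 W, F W * cE Z G W := by
  have h := pair_swap Z fun W W' => F W * G (Z.piecewise W' W)
  simp only [cE, expect_mul, mul_expect]
  rw [← h]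
  refine expect_congr rfl fun W _ => expect_congr rfl fun W' _ => ?_
  congr 2
  funext k
  by_cases hk : k ∈ Z <;> simp [piecewise, hk]

theorem cE_cE (Z Z' : Finset κ) (F : (κ → E) → ℝ) : cE Z (cE Z' F) = cE (Z ∪ Z') F := by
  funext W
  have h := pair_swap Z' fun V _ => F ((Z ∪ Z').piecewise V W)
  simp only [Fintype.expect_const] at h
  unfold cE
  rw [← h]
  refine expect_congr rfl fun V _ => expect_congr rfl fun V' _ => ?_
  congr 1
  funext k
  by_cases hk : k ∈ Z <;> by_cases hk' : k ∈ Z' <;> simp [piecewise, hk, hk']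

theorem Ind.cE_eq (h : Ind Z F) : cE Z F = F :=
  funext fun W => by simp only [cE, h W, Fintype.expect_const]

omit [Nonempty E] in
theorem ind_cE (h : Z' ⊆ Z) (F : (κ → E) → ℝ) : Ind Z' (cE Z F) := fun W V => by
  refine expect_congr rfl fun V' _ => ?_
  congr 1
  funext k
  by_cases hk : k ∈ Z
  · simp [piecewise, hk]
  · have hk' : k ∉ Z' := fun h' => hk (h h')
    simp [piecewise, hk, hk']

omit [Nonempty E] in
theorem Ind.cE (h : Ind Z F) (Z' : Finset κ) : Ind Z (cE Z' F) := fun W V => by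
  refine expect_congr rfl fun V' _ => ?_
  rw [← h (Z'.piecewise V' W) (Z'.piecewise V' V)]
  congr 1
  funext k
  by_cases hk : k ∈ Z <;> by_cases hk' : k ∈ Z' <;> simp [piecewise, hk, hk']

omit [Nonempty E] in
theorem cE_mul_left (h : Ind Z F) (G : (κ → E) → ℝ) (W : κ → E) :
    cE Z (fun V => F V * G V) W = F W * cE Z G W := by
  simp only [cE, h W, mul_expect]

/-- independence of functions reading disjoint coordinates -/
theorem cE_mul (hF : Ind Z' F) (hG : Ind Z G) (W : κ → E) :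
    cE (Z ∪ Z') (fun V => F V * G V) W = cE (Z ∪ Z') F W * cE (Z ∪ Z') G W := by
  have h1 : cE (Z ∪ Z') F = cE Z F := by rw [← cE_cE, hF.cE_eq]
  have h2 : cE (Z ∪ Z') G = cE Z' G := by rw [union_comm, ← cE_cE, hG.cE_eq]
  have h3 : cE Z' (fun V => F V * G V) = fun V => cE Z' G V * F V :=
    funext fun V => by rw [cE_mul_left hF, mul_comm]
  rw [h1, h2, ← cE_cE, h3, cE_mul_left (hG.cE Z'), mul_comm]

omit [Nonempty E] in
theorem cE_sum {α : Type} (s : Finset α) (Z : Finset κ) (F : α → (κ → E) → ℝ) (W : κ → E) :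
    cE Z (fun V => ∑ a ∈ s, F a V) W = ∑ a ∈ s, cE Z (F a) W := expect_sum_comm _ _ _

omit [Nonempty E] in
theorem cE_nonneg (h : ∀ W, 0 ≤ F W) (W : κ → E) : 0 ≤ cE Z F W := expect_nonneg fun _ _ => h _

theorem cE_le {c : ℝ} (h : ∀ W, F W ≤ c) (W : κ → E) : cE Z F W ≤ c :=
  expect_le univ_nonempty fun _ _ => h _

/-- Bessel inequality for an orthogonal family with `⟨F, D q⟩ = ‖D q‖²` -/
theorem bessel_gen {Ω α : Type} [Fintype Ω] [DecidableEq α] (s : Finset α) (F : Ω → ℝ)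
    (D : α → Ω → ℝ) (h1 : ∀ q ∈ s, 𝔼 x, F x * D q x = 𝔼 x, D q x ^ 2)
    (h2 : ∀ q ∈ s, ∀ q' ∈ s, q ≠ q' → 𝔼 x, D q x * D q' x = 0) :
    𝔼 x, (F x - ∑ q ∈ s, D q x) ^ 2 = 𝔼 x, F x ^ 2 - ∑ q ∈ s, 𝔼 x, D q x ^ 2 := by
  have e1 : ∀ x, (F x - ∑ q ∈ s, D q x) ^ 2 =
      F x ^ 2 - 2 * ∑ q ∈ s, F x * D q x + ∑ q ∈ s, ∑ q' ∈ s, D q x * D q' x := fun x => by
    rw [← mul_sum, ← sum_mul_sum]
    ring
  have e2 : ∀ q ∈ s, ∑ q' ∈ s, 𝔼 x, D q x * D q' x = 𝔼 x, D q x ^ 2 := fun q hq => by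
    rw [sum_eq_single_of_mem q hq fun q' hq' hne => h2 q hq q' hq' hne.symm]
    simp only [sq]
  simp only [e1, expect_add_distrib, expect_sub_distrib, ← mul_expect, expect_sum_comm]
  rw [sum_congr rfl h1, sum_congr rfl e2]
  ring

/-- Bessel inequality for distinct independent coordinates -/
theorem bessel {α : Type} [DecidableEq α] (s : Finset α) (k : α → κ) (Z : Finset κ)
    (hk : Set.InjOn k s) (F : (κ → E) → ℝ) :
    ∑ q ∈ s, 𝔼 W, (cE (Z.erase (k q)) F W - cE Z F W) ^ 2 ≤ 𝔼 W, F W ^ 2 := by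
  have key : ∀ Y Y' : Finset κ, 𝔼 W, cE Y F W * cE Y' F W = 𝔼 W, F W * cE (Y ∪ Y') F W :=
    fun Y Y' => by rw [cE_adj, cE_cE]
  have u1 : ∀ c, Z.erase c ∪ Z = Z := fun c => union_eq_right.mpr (erase_subset _ _)
  have u2 : ∀ c, Z ∪ Z.erase c = Z := fun c => union_eq_left.mpr (erase_subset _ _)
  have h := bessel_gen s F (fun q W => cE (Z.erase (k q)) F W - cE Z F W) ?_ ?_
  · have h0 : 0 ≤ 𝔼 W, (F W - ∑ q ∈ s, (cE (Z.erase (k q)) F W - cE Z F W)) ^ 2 :=
      expect_nonneg fun _ _ => sq_nonneg _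
    linarith
  · intro q _
    simp only [sq, mul_sub, sub_mul, expect_sub_distrib, key, u1, u2, union_self]
    ring
  · intro q hq q' hq' hne
    have u3 : Z.erase (k q) ∪ Z.erase (k q') = Z := by
      ext c
      have : k q ≠ k q' := fun h => hne (hk hq hq' h)
      simp only [mem_union, mem_erase]
      constructor
      · rintro (h | h) <;> exact h.2
      · intro h
        by_cases hc : c = k q
        · exact Or.inr ⟨hc ▸ this, h⟩
        · exact Or.inl ⟨hc, h⟩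
    simp only [mul_sub, sub_mul, expect_sub_distrib, key, u1, u2, u3, union_self]
    ring

theorem expect_coord (k : κ) (φ : E → ℝ) : 𝔼 W : κ → E, φ (W k) = 𝔼 e, φ e := by
  rw [Fintype.expect_equiv (Equiv.piSplitAt k fun _ => E) (fun W => φ (W k)) (fun p => φ p.1)
    fun _ => rfl, ← univ_product_univ, expect_product]
  simp only [Fintype.expect_const]

theorem expect_update (k : κ) (Φ : (κ → E) → ℝ) :
    𝔼 W, 𝔼 e, Φ (Function.update W k e) = 𝔼 W, Φ W := by
  rw [← expect_cE {k} Φ]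
  refine expect_congr rfl fun W _ => ?_
  rw [← expect_coord k fun e => Φ (Function.update W k e)]
  simp only [cE, piecewise_singleton]

omit [Nonempty E] in
/-- replace a mixed strategy by the best pure one -/
theorem best {S : Type} [Fintype S] [Nonempty S] (v : E → ℕ) (x c : E → S → ℝ)
    (hx : ∀ e e', v e = v e' → x e = x e') (h0 : ∀ e a, 0 ≤ x e a) :
    ∃ l : ℕ → S, 𝔼 e, (∑ a, x e a) * c e (l (v e)) ≤ 𝔼 e, ∑ a, x e a * c e a := by
  have hm : ∀ n : ℕ, ∃ a : S, ∀ a', ∑ e with v e = n, c e a ≤ ∑ e with v e = n, c e a' := fun n => by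
    obtain ⟨a, _, ha⟩ := exists_min_image univ (fun a => ∑ e with v e = n, c e a) univ_nonempty
    exact ⟨a, fun a' => ha a' (mem_univ _)⟩
  choose l hl using hm
  refine ⟨l, ?_⟩
  rw [Fintype.expect_eq_sum_div_card, Fintype.expect_eq_sum_div_card]
  refine div_le_div_of_nonneg_right ?_ (Nat.cast_nonneg _)
  rw [← sum_fiberwise_of_maps_to (t := univ.image v) (g := v) fun e he => mem_image_of_mem v he,
    ← sum_fiberwise_of_maps_to (t := univ.image v) (g := v) (f := fun e => ∑ a, x e a * c e a)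
      fun e he => mem_image_of_mem v he]
  refine sum_le_sum fun n hn => ?_
  obtain ⟨e0, _, rfl⟩ := mem_image.mp hn
  have e1 : ∑ e with v e = v e0, (∑ a, x e a) * c e (l (v e)) =
      ∑ a, x e0 a * ∑ e with v e = v e0, c e (l (v e0)) := by
    rw [← sum_mul, mul_sum]
    exact sum_congr rfl fun e he => by rw [hx e e0 (mem_filter.mp he).2, (mem_filter.mp he).2]
  have e2 : ∑ e with v e = v e0, ∑ a, x e a * c e a =
      ∑ a, x e0 a * ∑ e with v e = v e0, c e a := by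
    simp only [mul_sum]
    rw [sum_comm]
    exact sum_congr rfl fun a _ => sum_congr rfl fun e he => by rw [hx e e0 (mem_filter.mp he).2]
  rw [e1, e2]
  exact sum_le_sum fun a _ => mul_le_mul_of_nonneg_left (hl _ a) (h0 _ _)

omit [Nonempty E] in
/-- the game lemma -/
theorem game {S : Type} [Fintype S] [Nonempty S] (v u : E → ℕ) (L : E → S → S → ℝ)
    (hL0 : ∀ e a b, 0 ≤ L e a b) (hL1 : ∀ e a b, L e a b ≤ 1) {γ : ℝ}
    (hγ : ∀ l1 l2 : ℕ → S, γ ≤ 𝔼 e, L e (l1 (v e)) (l2 (u e))) (x y : E → S → ℝ)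
    (hx : ∀ e e', v e = v e' → x e = x e') (hy : ∀ e e', u e = u e' → y e = y e')
    (hx0 : ∀ e a, 0 ≤ x e a) (hy0 : ∀ e a, 0 ≤ y e a) (hy1 : ∀ e, ∑ b, y e b ≤ 1) {xb yb : ℝ}
    (hxb0 : 0 ≤ xb) (hxb1 : xb ≤ 1) (hyb0 : 0 ≤ yb) :
    γ * (xb * yb) - 𝔼 e, |∑ a, x e a - xb| - 𝔼 e, |∑ b, y e b - yb| ≤
      𝔼 e, ∑ a, ∑ b, x e a * y e b * L e a b := by
  obtain ⟨l1, h1⟩ := best v x (fun e a => ∑ b, y e b * L e a b) hx hx0
  obtain ⟨l2, h2⟩ := best u y (fun e b => L e (l1 (v e)) b) hy hy0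
  have step : ∀ (X c : E → ℝ) (t : ℝ), (∀ e, 0 ≤ c e) → (∀ e, c e ≤ 1) →
      t * 𝔼 e, c e - 𝔼 e, |X e - t| ≤ 𝔼 e, X e * c e := fun X c t c0 c1 => by
    rw [mul_expect, ← expect_sub_distrib]
    refine expect_le_expect fun e _ => ?_
    have := neg_abs_le (X e - t)
    have h3 := abs_nonneg (X e - t)
    nlinarith [c0 e, c1 e]
  have s1 := step (fun e => ∑ a, x e a) (fun e => ∑ b, y e b * L e (l1 (v e)) b) xb
    (fun e => sum_nonneg fun b _ => mul_nonneg (hy0 _ _) (hL0 _ _ _))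
    fun e => (sum_le_sum fun b _ => mul_le_of_le_one_right (hy0 _ _) (hL1 _ _ _)).trans (hy1 e)
  have s2 := step (fun e => ∑ b, y e b) (fun e => L e (l1 (v e)) (l2 (u e))) yb
    (fun e => hL0 _ _ _) fun e => hL1 _ _ _
  have s3 := mul_le_mul_of_nonneg_left (hγ l1 l2) hyb0
  have s4 : 0 ≤ 𝔼 e, |∑ b, y e b - yb| := expect_nonneg fun _ _ => abs_nonneg _
  have e1 : 𝔼 e, ∑ a, ∑ b, x e a * y e b * L e a b = 𝔼 e, ∑ a, x e a * ∑ b, y e b * L e a b := by
    simp only [mul_sum, mul_assoc]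
  have s5 := mul_le_mul_of_nonneg_left (s2.trans h2) hxb0
  have s6 := mul_le_mul_of_nonneg_left s3 hxb0
  have s7 := mul_le_of_le_one_left s4 hxb1
  rw [e1]
  nlinarith

end

end Pool.Agent.P.MP_9cbceb_lc.CE
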