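import Pool.Agent.P.MP_9cbceb_lc.Basic

/-! The recursive composition: the good cut and the running time. -/

namespace Pool.Agent.P.MP_9cbceb_lc

open Pool.Agent.Lib.helper21 Pool.Agent.Lib.helper26

/-- The cut of the next round built from the base cut `S` and the cut `T` of the last round. -/
def compY_next (B : Prs) (S T : ℕ → Bool) (z : ℕ) : Bool :=
  if z % 2 = 0 then S (z / 2) else
    if T (Nat.unpair (z / 2)).2 = true then S (B.getD (Nat.unpair (z / 2)).1 (0, 0)).1
    else S (B.getD (Nat.unpair (z / 2)).1 (0, 0)).2

theorem compY_even (B : Prs) (S T : ℕ → Bool) (y : ℕ) : compY_next B S T (2 * y) = S y := by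
  unfold compY_next
  rw [if_pos (by omega), Nat.mul_div_cancel_left _ (by norm_num)]

theorem compY_emb (B : Prs) (S T : ℕ → Bool) (h0 : T 0 = true) (h2 : T 2 = false) (a x : ℕ) :
    compY_next B S T (emb B a x) =
      if T x = true then S (B.getD a (0, 0)).1 else S (B.getD a (0, 0)).2 := by
  unfold emb
  by_cases e0 : x = 0
  · subst e0
    simp only [decide_true, cond_true, compY_even, h0, if_true]
  · by_cases e2 : x = 2
    · subst e2
      simp [compY_even, h2]
    · simp only [e0, e2, decide_false, cond_false]
      unfold compY_next
      have : (2 * Nat.pair a x + 1) / 2 = Nat.pair a x := by omega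
      rw [if_neg (by omega), this, Nat.unpair_pair]

theorem compY_cnt_append (S : ℕ → Bool) (L L' : Prs) : cnt S (L ++ L') = cnt S L + cnt S L' :=
  List.countP_append

theorem compY_cnt_flatMap {α : Type} (S : ℕ → Bool) (l : List α) (F : α → Prs) :
    cnt S (l.flatMap F) = (l.map fun a => cnt S (F a)).sum := by
  induction l with
  | nil => rfl
  | cons a l ih => rw [List.flatMap_cons, compY_cnt_append, ih, List.map_cons, List.sum_cons]

theorem compY_sum_ite {α : Type} (l : List α) (p : α → Bool) (c : ℕ) :
    (l.map fun a => if p a = true then c else 0).sum = l.countP p * c := by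
  induction l with
  | nil => simp
  | cons a l ih =>
    rw [List.map_cons, List.sum_cons, ih, List.countP_cons]
    split_ifs <;> ring

theorem compY_range_getD {α : Type} (B : List α) (d : α) :
    (List.range B.length).map (fun a => B.getD a d) = B := by
  refine List.ext_getElem (by simp) fun i h1 h2 => ?_
  simp [List.getD_eq_getElem?_getD, h2]

theorem compY_copies (B L : Prs) (S T : ℕ → Bool) (h0 : T 0 = true) (h2 : T 2 = false) :
    cnt (compY_next B S T) (copies B L) = cnt S B * cnt T L := by
  unfold copies
  rw [compY_cnt_flatMap]
  have e : ∀ a, cnt (compY_next B S T) (L.map fun p => (emb B a p.1, emb B a p.2)) =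
      if (S (B.getD a (0, 0)).1 != S (B.getD a (0, 0)).2) = true then cnt T L else 0 := by
    intro a
    unfold cnt
    rw [List.countP_map]
    split_ifs with h
    · refine List.countP_congr fun p _ => ?_
      simp only [Function.comp, compY_emb B S T h0 h2]
      revert h
      cases S (B.getD a (0, 0)).1 <;> cases S (B.getD a (0, 0)).2 <;> cases T p.1 <;>
        cases T p.2 <;> simp
    · refine List.countP_eq_zero.2 fun p _ => ?_
      simp only [Function.comp, compY_emb B S T h0 h2]
      revert h
      cases S (B.getD a (0, 0)).1 <;> cases S (B.getD a (0, 0)).2 <;> cases T p.1 <;>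
        cases T p.2 <;> simp
  simp only [e]
  rw [compY_sum_ite (List.range B.length)
    (fun a => S (B.getD a (0, 0)).1 != S (B.getD a (0, 0)).2)]
  congr 1
  conv_rhs => rw [← compY_range_getD B (0, 0)]
  unfold cnt
  rw [List.countP_map]
  rfl

theorem compY_rep (S : ℕ → Bool) (k : ℕ) (L : Prs) :
    cnt S (List.replicate k L).flatten = k * cnt S L := by
  induction k with
  | zero => simp [cnt]
  | succ k ih => rw [List.replicate_succ, List.flatten_cons, compY_cnt_append, ih]; ring

theorem compYes_ok : CompYesSt := by
  intro B D M S h0 h1 hM l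
  induction l with
  | zero => exact ⟨fun x => decide (x = 0), by simp, by simp, by simp [comp, cnt], by simp [comp, cnt]⟩
  | succ j ih =>
    obtain ⟨T, t0, t2, c1, c2⟩ := ih
    refine ⟨compY_next B S T, ?_, ?_, ?_, ?_⟩
    · rw [← h0]; exact compY_even B S T 0
    · rw [← h1]; exact compY_even B S T 1
    · show cnt _ (copies B (comp B D M j).1) = _
      rw [compY_copies B _ S T t0 t2, hM, c1, pow_succ']
    · show cnt _ ((List.replicate (M ^ j) (D.map fun p => (2 * p.1, 2 * p.2))).flatten ++
        copies B (comp B D M j).2) * M = _
      have e : cnt (compY_next B S T) (D.map fun p => (2 * p.1, 2 * p.2)) = cnt S D := by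
        unfold cnt
        rw [List.countP_map]
        refine List.countP_congr fun p _ => ?_
        simp only [Function.comp, compY_even]
      rw [compY_cnt_append, compY_rep, compY_copies B _ S T t0 t2, hM, e, add_mul, mul_assoc M,
        c2]
      ring

theorem compY_PT_emb {α : Type} [Enc α] {B : α → Prs} {a x : α → ℕ} (hB : PT B) (ha : PT a)
    (hx : PT x) : PT fun y => emb (B y) (a y) (x y) := by
  unfold emb
  fun_prop

theorem compY_PT_copies {α : Type} [Enc α] {B L : α → Prs} (hB : PT B) (hL : PT L) :
    PT fun y => copies (B y) (L y) := by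
  unfold copies
  refine PT.flatMap (by fun_prop) (PT.map (by fun_prop) (PT.pair ?_ ?_)) <;>
    exact compY_PT_emb (by fun_prop) (by fun_prop) (by fun_prop)

theorem compPT_ok : CompPTSt := by
  intro l
  induction l with
  | zero => exact PT.const _
  | succ j ih =>
    refine PT.pair (compY_PT_copies (by fun_prop) ih.fst)
      (PT.append ?_ (compY_PT_copies (by fun_prop) ih.snd))
    fun_prop

end Pool.Agent.P.MP_9cbceb_lc
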