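import Mathlib
import Pool.Prelude.Def_H_3587d628

/-! Weighted sparsest cut. -/

namespace Pool.Agent.P.MP_9cbceb_lc

/-- Total weight of the pairs `(x, y, weight)` separated by the cut with indicator list `S`. -/
def cut (w : List (ℕ × ℕ × ℚ)) (S : List Bool) : ℚ :=
  (w.map fun e => if S.getD e.1 false = S.getD e.2.1 false then 0 else e.2.2).sum

/-- `w` lists distinct pairs `x < y` of vertices below `n` with nonnegative weights. -/
def Simple (n : ℕ) (w : List (ℕ × ℕ × ℚ)) : Prop :=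
  (w.map fun e => (e.1, e.2.1)).Nodup ∧ ∀ e ∈ w, e.1 < e.2.1 ∧ e.2.1 < n ∧ 0 ≤ e.2.2

/-- `w` lists every pair of vertices below `n`. -/
def Total (n : ℕ) (w : List (ℕ × ℕ × ℚ)) : Prop :=
  ∀ x y, x < y → y < n → ∃ r, (x, y, r) ∈ w

/-- On every instance (vertices, capacities, demands) with a cut of positive demand, `A` returns
a cut of positive demand whose sparsity is at most `C` times the sparsity of any such cut. -/
def Approx (C : ℝ) (A : ℕ × List (ℕ × ℕ × ℚ) × List (ℕ × ℕ × ℚ) → List Bool) : Prop :=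
  ∀ (n : ℕ) (c D : List (ℕ × ℕ × ℚ)), Simple n c → Simple n D → Total n D →
    ∀ T : List Bool, 0 < cut D T → 0 < cut D (A (n, c, D)) ∧
      ((cut c (A (n, c, D)) / cut D (A (n, c, D)) : ℚ) : ℝ) ≤ C * ((cut c T / cut D T : ℚ) : ℝ)

end Pool.Agent.P.MP_9cbceb_lc
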