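import Pool.Agent.P.MP_9cbceb_lc.DefG
import Pool.Agent.P.MP_9cbceb_lc.Stm

/-! Statements for the last step. -/

namespace Pool.Agent.P.MP_9cbceb_lc

open Pool.Agent.Lib.helper21

def ConvSt : Prop := ∃ conv : Prs × Prs → ℕ × List (ℕ × ℕ × ℚ) × List (ℕ × ℕ × ℚ),
  (PT fun p => N487b59b3.bitEncode (conv p)) ∧ ∀ p,
    Simple (conv p).1 (conv p).2.1 ∧ Simple (conv p).1 (conv p).2.2 ∧
    Total (conv p).1 (conv p).2.2 ∧
    (∀ T : List Bool, cut (conv p).2.1 T = cnt (fun x => T.getD x false) p.1 ∧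
      cut (conv p).2.2 T = cnt (fun x => T.getD x false) p.2) ∧
    ∀ S : ℕ → Bool, ∃ T : List Bool, cnt (fun x => T.getD x false) p.1 = cnt S p.1 ∧
      cnt (fun x => T.getD x false) p.2 = cnt S p.2

/-- Running a polynomial-time machine on computed inputs, and the easy inclusion. -/
def RunSt : Prop :=
  (∀ (α : Type) [N487b59b3 α] (A : α → List Bool) (F : List Bool → α), N68a2faeb.IsPolyTime A →
    (PT fun x => N487b59b3.bitEncode (F x)) → PT fun x => A (F x)) ∧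
  (∀ L : List Bool → Bool, PT L → L ∈ N68a2faeb.P) ∧ N68a2faeb.P ⊆ N68a2faeb.NP

def MainSt : Prop := ∀ (C : ℝ) (A : ℕ × List (ℕ × ℕ × ℚ) × List (ℕ × ℕ × ℚ) → List Bool),
  1 ≤ C → N68a2faeb.IsPolyTime A → Approx C A → N68a2faeb.P = N68a2faeb.NP

end Pool.Agent.P.MP_9cbceb_lc
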