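import Pool.Agent.P.MP_9cbceb_lc.DefP

/-! Definitions and statements for the reduction from gap constraint systems to sparsest cut. -/

namespace Pool.Agent.P.MP_9cbceb_lc

open Pool.Agent.Lib.helper21 Finset
open scoped BigOperators

/-! ### A. Recursive composition -/

abbrev Prs := List (ℕ × ℕ)

/-- Number of pairs separated by the cut `S`. -/
def cnt (S : ℕ → Bool) (L : Prs) : ℕ := L.countP fun p => S p.1 != S p.2

/-- Name of the vertex `x` of the copy that replaces edge number `a` of `B`. -/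
def emb (B : Prs) (a x : ℕ) : ℕ :=
  cond (decide (x = 0)) (2 * (B.getD a (0, 0)).1)
    (cond (decide (x = 2)) (2 * (B.getD a (0, 0)).2) (2 * Nat.pair a x + 1))

def copies (B L : Prs) : Prs :=
  (List.range B.length).flatMap fun a => L.map fun p => (emb B a p.1, emb B a p.2)

/-- Supply and demand pairs after `j` rounds; the base has terminals `0, 1`, the result `0, 2`. -/
def comp (B D : Prs) (M : ℕ) : ℕ → Prs × Prs
  | 0 => ([(0, 2)], [])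
  | j + 1 => (copies B (comp B D M j).1,
      (List.replicate (M ^ j) (D.map fun p => (2 * p.1, 2 * p.2))).flatten ++
        copies B (comp B D M j).2)

def CompYesSt : Prop := ∀ (B D : Prs) (M : ℕ) (S : ℕ → Bool), S 0 = true → S 1 = false →
  cnt S B = M → ∀ l, ∃ T : ℕ → Bool, T 0 = true ∧ T 2 = false ∧
    cnt T (comp B D M l).1 = M ^ l ∧ cnt T (comp B D M l).2 * M = l * cnt S D * M ^ l

def CompNoSt : Prop := ∀ (B D : Prs) (M l : ℕ) (η κ : ℝ), 0 < M → 0 < l → 0 < η → 0 ≤ κ →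
  M * κ ≤ l * η →
  (∀ S : ℕ → Bool, S 0 ≠ S 1 → M ≤ cnt S B ∧ cnt S D ≤ η + κ * (cnt S B - M)) →
  (∀ S : ℕ → Bool, S 0 = S 1 → cnt S D ≤ κ * cnt S B) →
  ∀ T : ℕ → Bool, (M : ℝ) * cnt T (comp B D M l).2 ≤ 2 * l * η * cnt T (comp B D M l).1

def CompPTSt : Prop := ∀ l : ℕ, PT fun p : Prs × Prs × ℕ => comp p.1 p.2.1 p.2.2 l

/-! ### B. Layered graphs -/

section Layer

variable {Z X : Type} [Fintype Z]

def sep (a b : Bool) : ℕ := if a = b then 0 else 1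
def bk (a b : Bool) : ℕ := if a = false ∧ b = true then 1 else 0

/-- Sum of `φ` over the level edges of the four arcs of the sample `z`. -/
def arcs (φ : Bool → Bool → ℕ) (L : ℕ) (P P' : Z → X) (S : X → ℕ → Bool) (z : Z) : ℕ :=
  ∑ i ∈ range L, (φ (S (P z) i) (S (P' z) (i + 1)) + φ (S (P' z) i) (S (P z) (i + 1)) +
    φ (S (P z) i) (S (P z) (i + 1)) + φ (S (P' z) i) (S (P' z) (i + 1)))

def capF (L : ℕ) (P P' : Z → X) (S : X → ℕ → Bool) : ℕ := ∑ z, arcs sep L P P' S z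
def backF (L : ℕ) (P P' : Z → X) (S : X → ℕ → Bool) : ℕ := ∑ z, arcs bk L P P' S z

/-- Height of the column of `x`. -/
def ht (L : ℕ) (S : X → ℕ → Bool) (x : X) : ℕ := #{i ∈ Ico 1 L | S x i = true}

end Layer

def LayerSt : Prop := ∀ (Z X : Type) [Fintype Z] (L : ℕ) (P P' : Z → X) (S : X → ℕ → Bool),
  0 < L →
  ((∀ x, S x 0 = true) → (∀ x, S x L = false) →
    capF L P P' S = 4 * Fintype.card Z + 2 * backF L P P' S ∧
    ∀ z, arcs bk L P P' S z = 0 →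
      (∀ i < L, S (P z) i = decide (i ≤ ht L S (P z))) ∧
      ht L S (P z) ≤ ht L S (P' z) + 1 ∧ ht L S (P' z) ≤ ht L S (P z) + 1) ∧
  ((∀ x, S x 0 = false) → (∀ x, S x L = false) → ∀ i < L,
    #{z | S (P z) i = true} ≤ capF L P P' S) ∧
  ∀ g : X → ℕ, (∀ z, g (P z) ≤ g (P' z) + 1 ∧ g (P' z) ≤ g (P z) + 1) →
    (∀ x i, S x i = decide (i ≤ g x)) → backF L P P' S = 0

/-! ### C. The gadget -/

/-- A two-prover game: constraint `e` joins the variables `v e` and `u e`. -/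
structure Game (E S : Type) where
  v : E → ℕ
  u : E → ℕ
  R : E → S → S → Bool

section Gadget

variable {E S ι : Type}

def Game.Yes (g : Game E S) : Prop :=
  ∃ l1 l2 : ℕ → S, ∀ e, g.R e (l1 (g.v e)) (l2 (g.u e)) = true

def Game.No [Fintype E] (g : Game E S) (γ : ℝ) : Prop :=
  ∀ l1 l2 : ℕ → S, γ * Fintype.card E ≤ #{e | g.R e (l1 (g.v e)) (l2 (g.u e)) = false}

variable [LinearOrder ι]

def key (a q : ι) : ι × ι := if a < q then (a, q) else (q, a)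

/-- What row `a` sees at port `q`. -/
def view (g : Game E S) (W : ι × ι → E) (a q : ι) : ℕ :=
  if a < q then g.v (W (a, q)) else g.u (W (q, a))

/-- The answers `x` (row `a`, port `q`) and `y` (row `q`, port `a`) violate the constraint. -/
def Lose (g : Game E S) (W : ι × ι → E) (a q : ι) (x y : S) : Prop :=
  if a < q then g.R (W (a, q)) x y = false else g.R (W (q, a)) y x = false

/-- Coordinates: a row and a label for each port. -/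
abbrev Co (ι S : Type) := ι × (ι → S)

def Clash (g : Game E S) (W : ι × ι → E) (c c' : Co ι S) : Prop :=
  c.1 = c'.1 ∨ Lose g W c.1 c'.1 (c.2 c'.1) (c'.2 c.1)

def Free (g : Game E S) (W : ι × ι → E) (A : Set (Co ι S)) : Prop := A.Pairwise (Clash g W)

def Valid (g : Game E S) (W : ι × ι → E) (Rm : Finset ι) (t t' : Co ι S → ℕ) : Prop :=
  (∀ c, t c ≤ t' c + 1 ∧ t' c ≤ t c + 1) ∧ Free g W {c | t c ≠ t' c} ∧ ∀ c, c.1 ∈ Rm → t' c = 0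

def mask (Rm : Finset ι) (X : ι → ι → ℕ) : ι → ι → ℕ := fun a => if a ∈ Rm then 0 else X a

def maskT (Rm : Finset ι) (t : Co ι S → ℕ) : Co ι S → ℕ := fun c => if c.1 ∈ Rm then 0 else t c

abbrev Pt (ι S : Type) := (ι → ι → ℕ) × (Co ι S → ℕ)

/-- `G` changes by at most one along every valid move for `W`. -/
def LipAt (g : Game E S) (h : ℕ) (G : Pt ι S → ℝ) (W : ι × ι → E) : Prop :=
  ∀ (Rm : Finset ι) (t t' : Co ι S → ℕ), (∀ c, t c ≤ h) → (∀ c, t' c ≤ h) → Valid g W Rm t t' →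
    |G (view g W, t) - G (mask Rm (view g W), t')| ≤ 1

abbrev Slot (ι S : Type) (h : ℕ) := Finset ι × (Co ι S → Fin (h + 1)) × (Co ι S → Fin (h + 1))

def pt1 (g : Game E S) (h : ℕ) (z : (ι × ι → E) × Slot ι S h) : Pt ι S :=
  (view g z.1, fun c => z.2.2.1 c)

open Classical in
noncomputable def pt2 (g : Game E S) (h : ℕ) (z : (ι × ι → E) × Slot ι S h) : Pt ι S :=
  if Valid g z.1 z.2.1 (fun c => z.2.2.1 c) (fun c => z.2.2.2 c) then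
    (mask z.2.1 (view g z.1), fun c => z.2.2.2 c) else pt1 g h z

end Gadget

/-! ### Random arrays -/

section Rnd

variable {Q : Type}

/-- `K` steps in the cube and a smoothing shift. -/
abbrev Om (Q : Type) (K w : ℕ) := (Fin K → Q → Bool) × (Q → Fin w)

def sums {K w : ℕ} (ω : Om Q K w) : Q → ℕ := fun c => ω.2 c + #{k | ω.1 k c = true}

def clamp (a0 h : ℕ) (s : Q → ℕ) : Q → ℕ := fun c => min h (s c - a0)

def chi (b : Bool) : ℝ := if b then 1 else -1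

variable [Fintype Q] [DecidableEq Q]

noncomputable def spread (K w : ℕ) (f : (Q → ℕ) → ℝ) : ℝ :=
  𝔼 ω : Om Q K w, 𝔼 ω' : Om Q K w, |f (sums ω) - f (sums ω')|

/-- Conditional expectation given the first `k` steps. -/
noncomputable def cex (K w : ℕ) (f : (Q → ℕ) → ℝ) (k : ℕ) (b : Fin K → Q → Bool) : ℝ :=
  𝔼 ω : Om Q K w, f (sums (fun j => if (j : ℕ) < k then b j else ω.1 j, ω.2))

/-- Shared randomness. -/
abbrev Xi (Q : Type) (K : ℕ) := Fin K × (Fin K → Q → Bool)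

/-- Correlation of step `ξ.1` at coordinate `c` with `f`, given the earlier steps. -/
noncomputable def psi (K w : ℕ) (f : (Q → ℕ) → ℝ) (ξ : Xi Q K) (c : Q) : ℝ :=
  𝔼 β : Q → Bool, cex K w f (ξ.1 + 1) (Function.update ξ.2 ξ.1 β) * chi (β c)

/-- Unit changes of one coordinate change `f` by at most one. -/
def Lip1 (f : (Q → ℕ) → ℝ) : Prop := ∀ s c, |f (Function.update s c (s c + 1)) - f s| ≤ 1

def ind (A : Finset Q) : Q → ℕ := fun c => if c ∈ A then 1 else 0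

end Rnd

def CubeSt : Prop := ∀ (Q : Type) [Fintype Q] [DecidableEq Q] (F : (Q → Bool) → ℝ),
  (∑ c, (𝔼 β, F β * chi (β c)) ^ 2 ≤ (𝔼 β, F β ^ 2) - (𝔼 β, F β) ^ 2) ∧
  ∀ (a0 e : ℝ) (D : Q → ℝ), (∀ β, |F β - a0 - ∑ c, if β c then D c else 0| ≤ e) →
    ((𝔼 β, F β ^ 2) - (𝔼 β, F β) ^ 2 ≤ ∑ c, (𝔼 β, F β * chi (β c)) ^ 2 + e ^ 2) ∧
    ∀ c, |(𝔼 β, F β * chi (β c)) - D c / 2| ≤ e

def MartSt : Prop := ∀ (Q : Type) [Fintype Q] [DecidableEq Q] (K w : ℕ) (f : (Q → ℕ) → ℝ), 0 < w →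
  (∑ k : Fin K, 𝔼 b : Fin K → Q → Bool,
      ((𝔼 β, cex K w f (k + 1) (Function.update b k β) ^ 2) -
        (𝔼 β, cex K w f (k + 1) (Function.update b k β)) ^ 2) =
    (𝔼 b : Fin K → Q → Bool, (𝔼 U : Q → Fin w, f (sums (b, U))) ^ 2) -
      (𝔼 ω : Om Q K w, f (sums ω)) ^ 2)

def SmoothSt : Prop := ∀ (Q : Type) [Fintype Q] [DecidableEq Q] (K w : ℕ) (f : (Q → ℕ) → ℝ),
  0 < w → Lip1 f → ∀ ξ : Xi Q K, ∃ (a0 : ℝ) (D : Q → ℝ), ∀ β : Q → Bool,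
    |cex K w f (ξ.1 + 1) (Function.update ξ.2 ξ.1 β) - a0 - ∑ c, if β c then D c else 0| ≤
      2 * (Fintype.card Q : ℝ) ^ 2 / w

def AnaASt : Prop := ∀ (Q : Type) [Fintype Q] [DecidableEq Q] (K w : ℕ) (f f' : (Q → ℕ) → ℝ)
  (ρ : ℝ), 0 < K → 0 < w → (∀ s, |f s - f' s| ≤ ρ) →
    𝔼 ξ : Xi Q K, ∑ c, (psi K w f ξ c - psi K w f' ξ c) ^ 2 ≤ ρ ^ 2 / K

def AnaBSt : Prop := ∀ (Q : Type) [Fintype Q] [DecidableEq Q] (K w : ℕ) (f : (Q → ℕ) → ℝ)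
  (β : ℝ), 0 < K → 0 < w → Lip1 f → (∀ s u : Q → ℕ, (∀ c, u c < w) → |f (s + u) - f s| ≤ β) →
    spread K w f ^ 2 ≤ 2 * (β ^ 2 + K * ((𝔼 ξ : Xi Q K, ∑ c, psi K w f ξ c ^ 2) +
      (2 * (Fintype.card Q : ℝ) ^ 2 / w) ^ 2))

def AnaCSt : Prop := ∀ (Q : Type) [Fintype Q] [DecidableEq Q] (K w : ℕ) (f : (Q → ℕ) → ℝ)
  (A : Finset Q), 0 < w → Lip1 f →
    (∀ s, ∀ A1 ⊆ A, ∀ A2 ⊆ A, f (s + ind A1) - f (s + ind A2) ≤ 1) → ∀ ξ : Xi Q K,
    ∑ c ∈ A, |psi K w f ξ c| ≤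
      1 / 2 + (Fintype.card Q + 1) * (2 * (Fintype.card Q : ℝ) ^ 2 / w)

def HonestSt : Prop := ∃ c0 : ℝ, 0 < c0 ∧ ∀ w : ℕ, 0 < w → ∀ K : ℕ, w ^ 2 ≤ K → 100 ≤ K →
  ∃ a0 h : ℕ, (h : ℝ) ^ 2 ≤ 4000 * K ∧ ∀ (Q : Type) [Fintype Q] [DecidableEq Q] (N : ℕ)
    (hc : Fin N → Q), Function.Injective hc →
    c0 * √(N * K) ≤ spread K w fun s : Q → ℕ => ∑ a, (clamp a0 h s (hc a) : ℝ)

def LipSt : Prop := ∀ (E S ι : Type) [Fintype ι] [LinearOrder ι] [Fintype S] [DecidableEq S]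
  (g : Game E S) (a0 h : ℕ) (G : Pt ι S → ℝ) (W : ι × ι → E), LipAt g h G W →
  Lip1 (fun s => G (view g W, clamp a0 h s)) ∧
  (∀ (w : ℕ) (s u : Co ι S → ℕ), (∀ c, u c < w) →
    |G (view g W, clamp a0 h (s + u)) - G (view g W, clamp a0 h s)| ≤ Fintype.card ι * w) ∧
  (∀ A : Finset (Co ι S), Free g W A → ∀ s, ∀ A1 ⊆ A, ∀ A2 ⊆ A,
    G (view g W, clamp a0 h (s + ind A1)) - G (view g W, clamp a0 h (s + ind A2)) ≤ 1) ∧
  ∀ (Rm : Finset ι) (s : Co ι S → ℕ), |G (view g W, clamp a0 h s) -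
    G (mask Rm (view g W), maskT Rm (clamp a0 h s))| ≤ #Rm * h + 1

/-! ### E. The no-signalling lemma -/

def GameSt : Prop := ∀ (E S : Type) [Fintype E] [Nonempty E] [Fintype S] [Nonempty S]
  (g : Game E S) (γ : ℝ), 0 ≤ γ → g.No γ → ∀ (x y : E → S → ℝ) (xb yb : ℝ),
  (∀ e a, 0 ≤ x e a) → (∀ e a, 0 ≤ y e a) → (∀ e, ∑ a, x e a ≤ 1) → (∀ e, ∑ a, y e a ≤ 1) →
  (∀ e e', g.v e = g.v e' → x e = x e') → (∀ e e', g.u e = g.u e' → y e = y e') →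
  0 ≤ xb → xb ≤ 1 → 0 ≤ yb → yb ≤ 1 →
  γ * (xb * yb) - (𝔼 e, |∑ a, x e a - xb|) - (𝔼 e, |∑ a, y e a - yb|) ≤
    𝔼 e, ∑ a, ∑ a', if g.R e a a' = false then x e a * y e a' else 0

/-- Average of `f` over the coordinates in `Z`. -/
noncomputable def eZ {κ E : Type} [Fintype κ] [DecidableEq κ] [Fintype E] (Z : Finset κ)
    (f : (κ → E) → ℝ) (W : κ → E) : ℝ :=
  𝔼 W' : κ → E, f (Z.piecewise W' W)

/-- `f` ignores the coordinates in `Z`. -/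
def Ign {κ E β : Type} (Z : Finset κ) (f : (κ → E) → β) : Prop :=
  ∀ W W', (∀ k, k ∉ Z → W k = W' k) → f W = f W'

def EZSt : Prop := ∀ (κ E : Type) [Fintype κ] [DecidableEq κ] [Fintype E] [Nonempty E],
  (∀ (Z : Finset κ) (f : (κ → E) → ℝ), 𝔼 W, eZ Z f W = 𝔼 W, f W) ∧
  (∀ (Z : Finset κ) (f : (κ → E) → ℝ), Ign Z (eZ Z f)) ∧
  (∀ (Z Z' : Finset κ) (f : (κ → E) → ℝ), eZ Z (eZ Z' f) = eZ (Z ∪ Z') f) ∧
  (∀ (Z : Finset κ) (f g : (κ → E) → ℝ), Ign Z f → ∀ W, eZ Z (fun V => f V * g V) W =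
    f W * eZ Z g W) ∧
  (∀ (Z Z1 : Finset κ) (f g : (κ → E) → ℝ), Z1 ⊆ Z → Ign (Z \ Z1) f → Ign Z1 g →
    ∀ W, eZ Z (fun V => f V * g V) W = eZ Z f W * eZ Z g W) ∧
  (∀ (k : κ) (f : (κ → E) → ℝ) (W : κ → E),
    eZ {k} f W = 𝔼 e : E, f (Function.update W k e)) ∧
  ∀ (Z Y : Finset κ) (f : (κ → E) → ℝ), Y ⊆ Z →
    ∑ k ∈ Y, 𝔼 W, (eZ (Z.erase k) f W - eZ Z f W) ^ 2 ≤ 𝔼 W, f W ^ 2

/-- Row `a` reads the coordinates in `B × B` only through its own view. -/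
def Local {E S ι β : Type} [LinearOrder ι] (g : Game E S) (B : Finset ι) (a : ι)
    (F : (ι × ι → E) → β) : Prop :=
  ∀ W W', (∀ k : ι × ι, ¬ (k.1 ∈ B ∧ k.2 ∈ B) → W k = W' k) →
    (∀ q ∈ B, view g W a q = view g W' a q) → F W = F W'

open Classical in
/-- Probability of an event. -/
noncomputable def pr {Ω : Type} [Fintype Ω] (p : Ω → Prop) : ℝ := 𝔼 W, if p W then (1 : ℝ) else 0

open Classical in
def PairSt : Prop := ∀ (E S ι : Type) [Fintype E] [Nonempty E] [Fintype S] [Nonempty S]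
  [Fintype ι] [LinearOrder ι] (g : Game E S) (γ : ℝ), 0 ≤ γ → g.No γ →
  ∀ (B : Finset ι) (a q : ι) (act act' : (ι × ι → E) → Prop) (ans ans' : (ι × ι → E) → S),
  a ∈ B → q ∈ B → a ≠ q → Local g B a act → Local g B a ans → Local g B q act' →
  Local g B q ans' →
  γ * (𝔼 W, eZ (B ×ˢ B) (fun V => if act V then (1 : ℝ) else 0) W *
      eZ (B ×ˢ B) (fun V => if act' V then (1 : ℝ) else 0) W) -
    (𝔼 W, |eZ ((B ×ˢ B).erase (key a q)) (fun V => if act V then (1 : ℝ) else 0) W -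
      eZ (B ×ˢ B) (fun V => if act V then (1 : ℝ) else 0) W|) -
    (𝔼 W, |eZ ((B ×ˢ B).erase (key a q)) (fun V => if act' V then (1 : ℝ) else 0) W -
      eZ (B ×ˢ B) (fun V => if act' V then (1 : ℝ) else 0) W|) ≤
  pr fun W => act W ∧ act' W ∧ Lose g W a q (ans W) (ans' W)

def StepSt : Prop := ∀ γ θ : ℝ, 0 < γ → 0 < θ → ∃ m0 : ℕ,
  ∀ (E S ι : Type) [Fintype E] [Nonempty E] [Fintype S] [Nonempty S] [Fintype ι] [LinearOrder ι]
    (g : Game E S), g.No γ → ∀ (B : Finset ι) (act : ι → (ι × ι → E) → Prop)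
    (ans : ι → (ι × ι → E) → ι → S), m0 ≤ #B →
    (∀ a ∈ B, Local g B a (act a) ∧ Local g B a (ans a)) → θ * #B ≤ ∑ a ∈ B, pr (act a) →
    ∃ a ∈ B, γ * θ ^ 2 / 2 * #(B.erase a) ≤ ∑ q ∈ B.erase a,
      pr fun W => act q W ∧ act a W ∧ Lose g W q a (ans q W a) (ans a W q)

def NSSt : Prop := ∀ γ : ℝ, 0 < γ → ∀ (r : ℕ) (θ : ℝ), 0 < θ → ∃ (m0 : ℕ) (p : ℝ), 0 < p ∧
  ∀ (E S ι : Type) [Fintype E] [Nonempty E] [Fintype S] [Nonempty S] [Fintype ι] [LinearOrder ι]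
    (g : Game E S), g.No γ → ∀ (B : Finset ι) (act : ι → (ι × ι → E) → Prop)
    (ans : ι → (ι × ι → E) → ι → S), m0 ≤ #B →
    (∀ a ∈ B, Local g B a (act a) ∧ Local g B a (ans a)) → θ * #B ≤ ∑ a ∈ B, pr (act a) →
    p ≤ pr fun W => ∃ I ⊆ B, #I = r ∧ (∀ a ∈ I, act a W) ∧
      ∀ a ∈ I, ∀ q ∈ I, a ≠ q → Lose g W a q (ans a W q) (ans q W a)

/-! ### D. The core theorem -/

section Core

variable {E S ι : Type} [Fintype ι] [LinearOrder ι] [Fintype S] [DecidableEq S]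

/-- Correlations computed after the rows in `Rm` have been removed. -/
noncomputable def psiR (g : Game E S) (K w a0 h : ℕ) (G : Pt ι S → ℝ) (Rm : Finset ι)
    (W : ι × ι → E) (ξ : Xi (Co ι S) K) (c : Co ι S) : ℝ :=
  psi K w (fun s => G (mask Rm (view g W), maskT Rm (clamp a0 h s))) ξ c

noncomputable def psiW (g : Game E S) (K w a0 h : ℕ) (G : Pt ι S → ℝ)
    (W : ι × ι → E) (ξ : Xi (Co ι S) K) (c : Co ι S) : ℝ :=
  psi K w (fun s => G (view g W, clamp a0 h s)) ξ c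

end Core

/-- The analytic facts about one good `W`, with all error terms simplified. -/
def GoodSt : Prop := ∀ (E S ι : Type) [Fintype ι] [LinearOrder ι] [Fintype S] [DecidableEq S]
  (g : Game E S) (K w a0 h : ℕ) (G : Pt ι S → ℝ) (W : ι × ι → E), 0 < K → 0 < w →
  4 * (Fintype.card (Co ι S) + 1) * Fintype.card (Co ι S) ^ 2 ≤ w → LipAt g h G W →
  (∀ A : Finset (Co ι S), Free g W A → ∀ ξ, ∑ c ∈ A, |psiW g K w a0 h G W ξ c| ≤ 1) ∧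
  (∀ Rm : Finset ι, 𝔼 ξ, ∑ c, (psiW g K w a0 h G W ξ c - psiR g K w a0 h G Rm W ξ c) ^ 2 ≤
    (#Rm * h + 1) ^ 2 / K) ∧
  spread K w (fun s => G (view g W, clamp a0 h s)) ^ 2 ≤ 2 * ((Fintype.card ι * w) ^ 2 +
    K * ((𝔼 ξ, ∑ c, psiW g K w a0 h G W ξ c ^ 2) + (2 * (Fintype.card (Co ι S) : ℝ) ^ 2 / w) ^ 2))

open Classical in
/-- Choice of the shared randomness and of the set of rows: an abstract averaging statement. -/
def PickSt : Prop := ∀ (Ω Ξ ι Λ : Type) [Fintype Ω] [Nonempty Ω] [Fintype Ξ] [Nonempty Ξ]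
  [Fintype ι] [DecidableEq ι] [Fintype Λ] (m n : ℕ) (_ : Fin m × Fin n ≃ ι)
  (Good : Ω → Prop) (Ψ : Ω → Ξ → ι × Λ → ℝ) (ΨR : Finset ι → Ω → Ξ → ι × Λ → ℝ) (θ M τ : ℝ),
  0 < m → 0 < n → 0 < θ → 0 < M →
  (∀ W, Good W → ∀ ξ a, ∑ j, |Ψ W ξ (a, j)| ≤ 1) →
  (∀ W, Good W → ∀ Rm : Finset ι, #Rm ≤ m → 𝔼 ξ, ∑ c, (Ψ W ξ c - ΨR Rm W ξ c) ^ 2 ≤ τ) →
  4 * θ * (m * n) ≤ (𝔼 W, if Good W then 𝔼 ξ, ∑ c, Ψ W ξ c ^ 2 else 0) →
  τ / n * (1 / (4 * θ) + M * m) ≤ θ →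
  ∃ (ξ : Ξ) (B : Finset ι), #B = m ∧
    θ * #B ≤ ∑ a ∈ B, pr (fun W => ∃ j, θ ≤ |ΨR (B.erase a) W ξ (a, j)|) ∧
    (𝔼 W, if Good W then ∑ a ∈ B, ∑ j, (Ψ W ξ (a, j) - ΨR (B.erase a) W ξ (a, j)) ^ 2 else 0) ≤
      1 / M

open Classical in
def CoreSt : Prop := ∀ δ γ : ℝ, 0 < δ → 0 < γ → ∀ q : ℕ, 0 < q → ∃ (N w K0 : ℕ) (p : ℝ),
  0 < N ∧ 0 < w ∧ 0 < p ∧ ∀ K : ℕ, K0 ≤ K → ∀ a0 h : ℕ, (h : ℝ) ^ 2 ≤ 4000 * K →
  ∀ (E : Type) [Fintype E] [Nonempty E] (g : Game E (Fin q)), g.No γ →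
  ∀ (G : Pt (Fin N) (Fin q) → ℝ) (Good : (Fin N × Fin N → E) → Prop),
    (∀ W, Good W → LipAt g h G W) →
    δ * √(N * K) ≤ (𝔼 W, if Good W then spread K w fun s => G (view g W, clamp a0 h s) else 0) →
    p ≤ pr fun W => ¬ Good W

/-! ### The base instance -/

section Base

variable {E : Type} [Fintype E] {N q : ℕ}

noncomputable def capG (g : Game E (Fin q)) (N h : ℕ) (S : Pt (Fin N) (Fin q) → ℕ → Bool) : ℕ :=
  capF (N * h + 1) (pt1 g h) (pt2 g h) S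

def demG (g : Game E (Fin q)) (N K w a0 h : ℕ) (S : Pt (Fin N) (Fin q) → ℕ → Bool) : ℕ :=
  ∑ W : Fin N × Fin N → E, ∑ ω : Om (Co (Fin N) (Fin q)) K w, ∑ ω' : Om (Co (Fin N) (Fin q)) K w,
    ∑ i ∈ range (N * h + 1), sep (S (view g W, clamp a0 h (sums ω)) i)
      (S (view g W, clamp a0 h (sums ω')) i)

end Base

/-- Number of arcs per choice of `W`. -/
def mu (N q h : ℕ) : ℕ := 4 * Fintype.card (Slot (Fin N) (Fin q) h)

def BaseYesSt : Prop := ∀ (N q K w a0 h : ℕ) (η : ℝ), 0 < w →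
  (∀ hc : Fin N → Co (Fin N) (Fin q), Function.Injective hc →
    η ≤ spread K w fun s : Co (Fin N) (Fin q) → ℕ => ∑ a, (clamp a0 h s (hc a) : ℝ)) →
  ∀ (E : Type) [Fintype E] (g : Game E (Fin q)), g.Yes →
  ∃ S : Pt (Fin N) (Fin q) → ℕ → Bool, (∀ x, S x 0 = true) ∧ (∀ x, S x (N * h + 1) = false) ∧
    capG g N h S = mu N q h * Fintype.card E ^ (N * N) ∧
    η * (Fintype.card (Om (Co (Fin N) (Fin q)) K w) : ℝ) ^ 2 * (Fintype.card E : ℝ) ^ (N * N) ≤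
      demG g N K w a0 h S

open Classical in
def BaseNoSt : Prop := ∀ (N q K w a0 h : ℕ) (η p : ℝ), 0 < w → 0 ≤ η → 0 < p → ∃ κ : ℝ, 0 ≤ κ ∧
  ∀ (E : Type) [Fintype E] [Nonempty E] (g : Game E (Fin q)),
  (∀ (G : Pt (Fin N) (Fin q) → ℝ) (Good : (Fin N × Fin N → E) → Prop),
    (∀ W, Good W → LipAt g h G W) →
    η ≤ (𝔼 W, if Good W then spread K w fun s => G (view g W, clamp a0 h s) else 0) →
    p ≤ pr fun W => ¬ Good W) →
  ∀ (S : Pt (Fin N) (Fin q) → ℕ → Bool) (s0 s1 : Bool), (∀ x, S x 0 = s0) →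
    (∀ x, S x (N * h + 1) = s1) →
    (s0 ≠ s1 → mu N q h * Fintype.card E ^ (N * N) ≤ capG g N h S ∧ demG g N K w a0 h S ≤
      η * (Fintype.card (Om (Co (Fin N) (Fin q)) K w) : ℝ) ^ 2 * (Fintype.card E : ℝ) ^ (N * N) +
        κ * (capG g N h S - (mu N q h * Fintype.card E ^ (N * N) : ℕ))) ∧
    (s0 = s1 → demG g N K w a0 h S ≤ κ * capG g N h S)

/-- The game of an instance. -/
def gameOf (q : ℕ) (I : Inst) : Game (Fin I.length) (Fin q) where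
  v e := I[e].1
  u e := I[e].2.1
  R e a b := rel q I[e].2.2 a b

def ConcSt : Prop := ∀ N q K w a0 h : ℕ, ∃ (nm : Pt (Fin N) (Fin q) → ℕ → ℕ)
  (f : Inst → Prs × Prs × ℕ), PT f ∧ (∀ x, nm x 0 = 0) ∧ (∀ x, nm x (N * h + 1) = 1) ∧
  (∀ S' : Pt (Fin N) (Fin q) → ℕ → Bool, (∀ x, S' x 0 = true) →
    (∀ x, S' x (N * h + 1) = false) → ∃ S : ℕ → Bool, S 0 = true ∧ S 1 = false ∧
      ∀ x, ∀ i ≤ N * h + 1, S (nm x i) = S' x i) ∧
  ∀ I, WF q I → (f I).2.2 = mu N q h * I.length ^ (N * N) ∧ ∀ S : ℕ → Bool,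
    cnt S (f I).1 = capG (gameOf q I) N h (fun x i => S (nm x i)) ∧
    cnt S (f I).2.1 = demG (gameOf q I) N K w a0 h fun x i => S (nm x i)

def GapSt : Prop := ∀ (C γ : ℝ) (q : ℕ), 0 < C → 0 < γ → 0 < q → ∃ τ : ℝ, 0 < τ ∧
  ∃ f : Inst → Prs × Prs, PT f ∧ ∀ I, WF q I →
    (Sat q I → ∃ S, 0 < cnt S (f I).2 ∧ cnt S (f I).1 ≤ τ * cnt S (f I).2) ∧
    (Gap2 q I γ → ∀ S, C * τ * cnt S (f I).2 ≤ cnt S (f I).1)

end Pool.Agent.P.MP_9cbceb_lc
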