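import Mathlib
import Pool.Agent.Lib.helper21.PTInt
import Pool.Agent.Lib.helper26.PTExtra
import Pool.Prelude.Def_H_3587d628

/-! Definitions and statements for the PCP theorem (proof by gap amplification). -/

namespace Pool.Agent.P.MP_9cbceb_lc

open Pool.Agent.Lib.helper21 Finset

/-! ### Binary constraint systems -/

/-- A list of constraints `(x, y, code)`. -/
abbrev Inst := List (ℕ × ℕ × ℕ)

/-- The relation on `range q` coded by `c`. -/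
def rel (q c a b : ℕ) : Bool := c.testBit (a * q + b)

/-- Number of constraints violated when first variables are read in `a`, second ones in `b`. -/
def viol (q : ℕ) (I : Inst) (a b : ℕ → ℕ) : ℕ :=
  I.countP fun e => !rel q e.2.2 (a e.1) (b e.2.1)

def Bnd (q : ℕ) (a : ℕ → ℕ) : Prop := ∀ x, a x < q

def Sat (q : ℕ) (I : Inst) : Prop := ∃ a, Bnd q a ∧ viol q I a a = 0

def Gap (q : ℕ) (I : Inst) (ε : ℝ) : Prop :=
  ∀ a, Bnd q a → ε * I.length ≤ viol q I a a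

def Gap2 (q : ℕ) (I : Inst) (ε : ℝ) : Prop :=
  ∀ a b, Bnd q a → Bnd q b → ε * I.length ≤ viol q I a b

def WF (q : ℕ) (I : Inst) : Prop := I ≠ [] ∧ ∀ e ∈ I, e.2.2 < 2 ^ (q * q)

def Ids (I : Inst) (B : ℕ) : Prop := ∀ e ∈ I, e.1 ≤ B ∧ e.2.1 ≤ B

/-! ### Regular graphs given by rotation maps -/

abbrev Rot := ℕ → ℕ → ℕ × ℕ

def IsRG (n d : ℕ) (ρ : Rot) : Prop :=
  ∀ v < n, ∀ i < d, (ρ v i).1 < n ∧ (ρ v i).2 < d ∧ ρ (ρ v i).1 (ρ v i).2 = (v, i)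

/-- The averaging operator. -/
noncomputable def avg (d : ℕ) (ρ : Rot) (f : ℕ → ℝ) (v : ℕ) : ℝ :=
  (∑ i ∈ range d, f (ρ v i).1) / d

def Exp (n d : ℕ) (ρ : Rot) (lam : ℝ) : Prop :=
  ∀ f : ℕ → ℝ, ∑ v ∈ range n, f v = 0 →
    ∑ v ∈ range n, avg d ρ f v ^ 2 ≤ lam ^ 2 * ∑ v ∈ range n, f v ^ 2

abbrev Tab := List (List (ℕ × ℕ))

def tab (X : Tab) : Rot := fun v i => (X.getD v []).getD i (0, 0)

/-- Square of a graph. -/
def sq (d : ℕ) (G : Rot) : Rot := fun v k =>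
  ((G (G v (k / d)).1 (k % d)).1, (G (G v (k / d)).1 (k % d)).2 * d + (G v (k / d)).2)

/-- Zig-zag product: `G` has degree `K`, `H` has `K` vertices and degree `D`. -/
def zz (K D : ℕ) (H G : Rot) : Rot := fun y k =>
  ((G (y / K) (H (y % K) (k / D)).1).1 * K + (H (G (y / K) (H (y % K) (k / D)).1).2 (k % D)).1,
    (H (G (y / K) (H (y % K) (k / D)).1).2 (k % D)).2 * D + (H (y % K) (k / D)).2)

/-- Union of a matching and two `d`-regular graphs. -/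
def uni (d : ℕ) (ext : ℕ → ℕ) (G H : Rot) : Rot := fun v i =>
  if i = 0 then (ext v, 0) else if i ≤ d then ((G v (i - 1)).1, (G v (i - 1)).2 + 1)
  else ((H v (i - 1 - d)).1, (H v (i - 1 - d)).2 + 1 + d)

def BaseXSt : Prop := ∃ (D : ℕ) (H : Rot), 2 ≤ D ∧ IsRG (D ^ 4) D H ∧ Exp (D ^ 4) D H (1 / 8)

def SqSt : Prop := ∀ (n d : ℕ) (G : Rot), 0 < d → IsRG n d G →
  IsRG n (d * d) (sq d G) ∧ ∀ lam : ℝ, Exp n d G lam → Exp n (d * d) (sq d G) (lam ^ 2)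

def ZzSt : Prop := ∀ (n K D : ℕ) (H G : Rot), 0 < K → 0 < D → IsRG n K G → IsRG K D H →
  IsRG (n * K) (D * D) (zz K D H G) ∧ ∀ lam mu : ℝ, 0 ≤ lam → 0 ≤ mu → Exp n K G lam →
    Exp K D H mu → Exp (n * K) (D * D) (zz K D H G) (lam + 2 * mu)

/-- A polynomial-time family of expanders. -/
def XpOK (d c : ℕ) (xp : ℕ → Tab) : Prop :=
  0 < d ∧ 0 < c ∧ PT xp ∧ ∀ s, 0 < s → s ≤ (xp s).length ∧ (xp s).length ≤ c * s ∧
    IsRG (xp s).length d (tab (xp s)) ∧ Exp (xp s).length d (tab (xp s)) (1 / 2)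

def XpSt : Prop := ∃ d c xp, XpOK d c xp

def UniSt : Prop := ∀ (n d : ℕ) (ext : ℕ → ℕ) (G H : Rot), 0 < d →
  (∀ v < n, ext v < n ∧ ext (ext v) = v) → IsRG n d G → IsRG n d H →
  IsRG n (1 + 2 * d) (uni d ext G H) ∧
    (Exp n d H (1 / 2) → Exp n (1 + 2 * d) (uni d ext G H) (7 / 8))

/-- Edge expansion for colourings. -/
def CloudSt : Prop := ∀ (n d : ℕ) (G : Rot) (a : ℕ → ℕ), 0 < n → 0 < d → IsRG n d G →
  Exp n d G (1 / 2) → ∃ v0 < n, d * #{v ∈ range n | a v ≠ a v0} ≤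
    2 * #{p ∈ range n ×ˢ range d | a p.1 ≠ a (G p.1 p.2).1}

/-! ### Constraint graphs -/

/-- Row `v`, entry `i` is `(neighbour, return direction, code)`. -/
abbrev Gr := List (List (ℕ × ℕ × ℕ))

def gat (G : Gr) (v i : ℕ) : ℕ × ℕ × ℕ := (G.getD v []).getD i (0, 0, 0)
def grot (G : Gr) : Rot := fun v i => ((gat G v i).1, (gat G v i).2.1)
def gcode (G : Gr) (v i : ℕ) : ℕ := (gat G v i).2.2

/-- Number of violated arcs. -/
def aviol (q n d : ℕ) (ρ : Rot) (c : ℕ → ℕ → ℕ) (a : ℕ → ℕ) : ℕ :=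
  #{p ∈ range n ×ˢ range d | rel q (c p.1 p.2) (a p.1) (a (ρ p.1 p.2).1) = false}

def GWF (q d : ℕ) (G : Gr) : Prop :=
  0 < G.length ∧ IsRG G.length d (grot G) ∧ ∀ v < G.length, ∀ i < d, gcode G v i < 2 ^ (q * q)

def GSat (q d : ℕ) (G : Gr) : Prop :=
  ∃ a, Bnd q a ∧ aviol q G.length d (grot G) (gcode G) a = 0

def GGap (q d : ℕ) (G : Gr) (ε : ℝ) : Prop :=
  ∀ a, Bnd q a → ε * (G.length * d) ≤ aviol q G.length d (grot G) (gcode G) a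

/-! ### Degree reduction -/

/-- Variable of the half-edge `h`. -/
def hv (I : Inst) (h : ℕ) : ℕ :=
  cond (decide (h % 2 = 0)) (I.getD (h / 2) (0, 0, 0)).1 (I.getD (h / 2) (0, 0, 0)).2.1
/-- Half-edges at the variable `x`. -/
def cloud (I : Inst) (x : ℕ) : List ℕ :=
  (List.range (2 * I.length)).filter fun h => decide (hv I h = x)
/-- Size of the padded cloud. -/
def csz (xp : ℕ → Tab) (I : Inst) (x : ℕ) : ℕ :=
  cond (decide ((cloud I x).length = 0)) 0 (xp (cloud I x).length).length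
def off (xp : ℕ → Tab) (I : Inst) (x : ℕ) : ℕ := ((List.range x).map (csz xp I)).sum
/-- A strict bound for the variables. -/
def vb (I : Inst) : ℕ := (I.map fun e => e.1 + e.2.1).sum + 1
def nv (xp : ℕ → Tab) (I : Inst) : ℕ := off xp I (vb I)
/-- The variable whose cloud contains the vertex `y`. -/
def who (xp : ℕ → Tab) (I : Inst) (y : ℕ) : ℕ :=
  ((List.range (vb I)).filter fun x => decide (off xp I (x + 1) ≤ y)).length
/-- The vertex of the half-edge `h`. -/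
def vert (xp : ℕ → Tab) (I : Inst) (h : ℕ) : ℕ :=
  off xp I (hv I h) + ((List.range h).filter fun k => decide (hv I k = hv I h)).length
/-- The vertex `y` stands for a half-edge. -/
def isReal (xp : ℕ → Tab) (I : Inst) (y : ℕ) : Bool :=
  decide (y < nv xp I) && decide (y - off xp I (who xp I y) < (cloud I (who xp I y)).length)
/-- The half-edge of the vertex `y`. -/
def half (xp : ℕ → Tab) (I : Inst) (y : ℕ) : ℕ :=
  (cloud I (who xp I y)).getD (y - off xp I (who xp I y)) 0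
def mate (h : ℕ) : ℕ := cond (decide (h % 2 = 0)) (h + 1) (h - 1)
def cext (xp : ℕ → Tab) (I : Inst) (y : ℕ) : ℕ :=
  cond (isReal xp I y) (vert xp I (mate (half xp I y))) y
/-- Code on the external arc; `2 ^ (q * q) - 1` is the full relation. -/
def ccode (q : ℕ) (xp : ℕ → Tab) (I : Inst) (y : ℕ) : ℕ :=
  cond (isReal xp I y && decide (half xp I y % 2 = 0)) (I.getD (half xp I y / 2) (0, 0, 0)).2.2
    (2 ^ (q * q) - 1)
def crot (xp : ℕ → Tab) (I : Inst) : Rot := fun y i =>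
  cond (decide (y < nv xp I))
    (off xp I (who xp I y) +
        (tab (xp (cloud I (who xp I y)).length) (y - off xp I (who xp I y)) i).1,
      (tab (xp (cloud I (who xp I y)).length) (y - off xp I (who xp I y)) i).2)
    (y, i)

/-- Index facts about clouds. -/
def IdxSt : Prop := ∀ d c xp, XpOK d c xp → ∀ I : Inst,
  (∀ y < nv xp I, who xp I y < vb I ∧ off xp I (who xp I y) ≤ y ∧
    y < off xp I (who xp I y) + csz xp I (who xp I y) ∧ 0 < (cloud I (who xp I y)).length) ∧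
  (∀ x < vb I, ∀ t < csz xp I x, off xp I x + t < nv xp I ∧ who xp I (off xp I x + t) = x) ∧
  (∀ h < 2 * I.length, isReal xp I (vert xp I h) = true ∧ who xp I (vert xp I h) = hv I h ∧
    half xp I (vert xp I h) = h) ∧
  (∀ y, isReal xp I y = true → half xp I y < 2 * I.length ∧ hv I (half xp I y) = who xp I y ∧
    vert xp I (half xp I y) = y) ∧
  nv xp I ≤ 2 * c * I.length ∧ (I ≠ [] → 0 < nv xp I)

def CloudPTSt : Prop := ∀ d c xp, XpOK d c xp → ∀ q : ℕ,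
  PT (nv xp) ∧ (PT fun p : Inst × ℕ => cext xp p.1 p.2) ∧
    (PT fun p : Inst × ℕ => ccode q xp p.1 p.2) ∧
    PT fun p : Inst × ℕ × ℕ => crot xp p.1 p.2.1 p.2.2

def CloudStructSt : Prop := ∀ d c xp, XpOK d c xp → ∀ (q : ℕ) (I : Inst) (n : ℕ), nv xp I ≤ n →
  (∀ y < n, cext xp I y < n ∧ cext xp I (cext xp I y) = y) ∧ IsRG n d (crot xp I) ∧
  (WF q I → ∀ y, ccode q xp I y < 2 ^ (q * q)) ∧
  ∀ a, Bnd q a → viol q I a a = 0 → ∃ b, Bnd q b ∧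
    (∀ y < n, rel q (ccode q xp I y) (b y) (b (cext xp I y)) = true) ∧
    ∀ y < n, ∀ i < d, b y = b (crot xp I y i).1

def CloudGapSt : Prop := ∀ d c xp, XpOK d c xp → ∀ (q : ℕ) (I : Inst) (n : ℕ), nv xp I ≤ n →
  ∀ b, Bnd q b → ∃ a, Bnd q a ∧ viol q I a a ≤
    #{y ∈ range n | rel q (ccode q xp I y) (b y) (b (cext xp I y)) = false} +
      2 * #{p ∈ range n ×ˢ range d | b p.1 ≠ b (crot xp I p.1 p.2).1}

def RegSt : Prop := ∃ d c : ℕ, 0 < d ∧ 0 < c ∧ ∀ q : ℕ, 0 < q → ∃ f : Inst → Gr, PT f ∧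
  ∀ I, WF q I → GWF q d (f I) ∧ (f I).length ≤ c * I.length ∧
    Exp (f I).length d (grot (f I)) (7 / 8) ∧ (Sat q I → GSat q d (f I)) ∧
    ∀ ε : ℝ, 0 ≤ ε → Gap q I ε → GGap q d (f I) (ε / c)

/-! ### Powering -/

/-- End of the walk from `v` with directions `σ`. -/
def wend (ρ : Rot) : ℕ → List ℕ → ℕ
  | v, [] => v
  | v, i :: σ => wend ρ (ρ v i).1 σ

/-- Directions of the reversed walk. -/
def wrev (ρ : Rot) : ℕ → List ℕ → List ℕ
  | _, [] => []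
  | v, i :: σ => wrev ρ (ρ v i).1 σ ++ [(ρ v i).2]

/-- All words of length `k` over `range d`. -/
def words (d : ℕ) : ℕ → List (List ℕ)
  | 0 => [[]]
  | k + 1 => (List.range d).flatMap fun i => (words d k).map (i :: ·)

def wd (d k : ℕ) : Finset (List ℕ) := (words d k).toFinset

def WalkSt : Prop :=
  (∀ d k, (words d k).Nodup) ∧
  (∀ d k σ, σ ∈ wd d k ↔ σ.length = k ∧ ∀ i ∈ σ, i < d) ∧
  (∀ d k, #(wd d k) = d ^ k) ∧
  (∀ (d a b : ℕ) (F : List ℕ → ℝ),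
    ∑ σ ∈ wd d (a + b), F σ = ∑ σ ∈ wd d a, ∑ τ ∈ wd d b, F (σ ++ τ)) ∧
  (∀ (d k : ℕ) (F : List ℕ → ℝ),
    ∑ σ ∈ wd d (k + 1), F σ = ∑ i ∈ range d, ∑ τ ∈ wd d k, F (i :: τ)) ∧
  (∀ (ρ : Rot) (v : ℕ) (σ τ : List ℕ), wend ρ v (σ ++ τ) = wend ρ (wend ρ v σ) τ) ∧
  (∀ (n d : ℕ) (ρ : Rot), IsRG n d ρ → ∀ k, ∀ v < n, ∀ σ ∈ wd d k,
    wend ρ v σ < n ∧ wrev ρ v σ ∈ wd d k ∧ wend ρ (wend ρ v σ) (wrev ρ v σ) = v ∧
      wrev ρ (wend ρ v σ) (wrev ρ v σ) = σ) ∧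
  (∀ (n d : ℕ) (ρ : Rot), IsRG n d ρ → ∀ (k : ℕ) (F : ℕ → List ℕ → ℝ),
    ∑ v ∈ range n, ∑ σ ∈ wd d k, F (wend ρ v σ) (wrev ρ v σ) =
      ∑ v ∈ range n, ∑ σ ∈ wd d k, F v σ)

/-- Opinion of the start of the walk about its vertex number `i`. -/
def opA (op : ℕ → List ℕ → ℕ) (v : ℕ) (σ : List ℕ) (i : ℕ) : ℕ := op v (σ.take i)

/-- Opinion of vertex number `l` of the walk about its vertex number `i + 1`. -/
def opB (ρ : Rot) (op : ℕ → List ℕ → ℕ) (v l : ℕ) (σ : List ℕ) (i : ℕ) : ℕ :=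
  op (wend ρ v (σ.take l)) (wrev ρ (wend ρ v (σ.take (i + 1))) ((σ.take l).drop (i + 1)))

/-- Number of steps of the walk on bad arcs at which both opinions agree with `A`. -/
def nGood (ρ : Rot) (op : ℕ → List ℕ → ℕ) (A : ℕ → ℕ) (bad : ℕ → ℕ → Bool) (T v l : ℕ)
    (σ : List ℕ) : ℕ :=
  #{i ∈ range l | i < T ∧ l - 1 - i < T ∧ bad (wend ρ v (σ.take i)) (σ.getD i 0) = true ∧
    opA op v σ i = A (wend ρ v (σ.take i)) ∧ opB ρ op v l σ i = A (wend ρ v (σ.take (i + 1)))}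

/-- Number of steps of the walk on bad arcs. -/
def nBad (ρ : Rot) (bad : ℕ → ℕ → Bool) (T v : ℕ) (σ : List ℕ) : ℕ :=
  #{i ∈ range (2 * T) | bad (wend ρ v (σ.take i)) (σ.getD i 0) = true}

def nArcs (n d : ℕ) (bad : ℕ → ℕ → Bool) : ℕ :=
  #{p ∈ range n ×ˢ range d | bad p.1 p.2 = true}

def PowFirstSt : Prop := ∀ (n d q T : ℕ) (ρ : Rot) (op : ℕ → List ℕ → ℕ), 0 < d → 0 < q → 0 < T →
  IsRG n d ρ → (∀ v σ, op v σ < q) → ∃ A, Bnd q A ∧ ∀ bad : ℕ → ℕ → Bool,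
    (nArcs n d bad : ℝ) * T ^ 2 * d ^ (2 * T - 1) ≤ q ^ 2 *
      ∑ v ∈ range n, ∑ l ∈ range (2 * T), ∑ σ ∈ wd d (2 * T), (nGood ρ op A bad T v (l + 1) σ : ℝ)

def PowSecondSt : Prop := ∀ (n d T : ℕ) (ρ : Rot) (bad : ℕ → ℕ → Bool), 0 < n → 0 < d →
  IsRG n d ρ → Exp n d ρ (7 / 8) → ∀ x : ℝ, x = 2 * T * nArcs n d bad / (n * d) →
    ∑ v ∈ range n, ∑ σ ∈ wd d (2 * T), (nBad ρ bad T v σ : ℝ) ^ 2 ≤
      n * d ^ (2 * T) * (x * (17 + x))

/-- The test of the powered instance rejects. -/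
def Rej (q : ℕ) (ρ : Rot) (c : ℕ → ℕ → ℕ) (op : ℕ → List ℕ → ℕ) (T v l : ℕ) (σ : List ℕ) : Prop :=
  ∃ i < l, i < T ∧ l - 1 - i < T ∧
    rel q (c (wend ρ v (σ.take i)) (σ.getD i 0)) (opA op v σ i) (opB ρ op v l σ i) = false

open Classical in
def PowMathSt : Prop := ∀ (n d q T : ℕ) (ρ : Rot) (c : ℕ → ℕ → ℕ) (op : ℕ → List ℕ → ℕ) (ε : ℝ),
  0 < n → 0 < d → 0 < q → 0 < T → IsRG n d ρ → Exp n d ρ (7 / 8) → (∀ v σ, op v σ < q) →
  0 ≤ ε → (∀ a, Bnd q a → ε * (n * d) ≤ aviol q n d ρ c a) →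
  min 1 (T * ε) / (152 * q ^ 4) * (n * (2 * T) * d ^ (2 * T)) ≤
    ∑ v ∈ range n, ∑ l ∈ range (2 * T), ∑ σ ∈ wd d (2 * T),
      if Rej q ρ c op T v (l + 1) σ then (1 : ℝ) else 0

def PowSt : Prop := ∀ q d T : ℕ, 0 < q → 0 < d → 0 < T → ∃ q' c : ℕ, 0 < q' ∧ ∃ f : Gr → Inst,
  PT f ∧ ∀ G, GWF q d G → WF q' (f G) ∧ (f G).length ≤ c * G.length ∧ Ids (f G) G.length ∧
    (GSat q d G → Sat q' (f G)) ∧ (Exp G.length d (grot G) (7 / 8) → ∀ ε : ℝ, 0 ≤ ε →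
      GGap q d G ε → Gap q' (f G) (min 1 (T * ε) / (152 * q ^ 4)))

/-! ### Alphabet reduction -/

def BLRSt : Prop := ∀ (G : Type) [AddCommGroup G] [Fintype G] (B : G → ZMod 2),
  6 * #{p : G × G | B p.1 + B p.2 ≠ B (p.1 + p.2)} < Fintype.card G ^ 2 →
  ∃ L : G →+ ZMod 2, #{x : G | B x ≠ L x} * Fintype.card G ≤
    2 * #{p : G × G | B p.1 + B p.2 ≠ B (p.1 + p.2)}

/-- The predicate on the ten queried bits. -/
def pass (b : Fin 10 → ZMod 2) : Prop :=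
  b 0 + b 1 = b 2 ∧ b 3 + b 4 = b 0 * b 1 ∧ b 5 + b 4 = 1 ∧ b 6 + b 4 = b 7 ∧ b 8 + b 4 = b 9

/-- Random choices of the test. -/
abbrev Smp (S : Type) :=
  (S × S → ZMod 2) × (S × S → ZMod 2) × (S × S → ZMod 2) × (S → ZMod 2)

/-- The ten bits read by the test; `r` is the indicator function of the relation. -/
def bits {S : Type} (r : S × S → ZMod 2) (B : (S × S → ZMod 2) → ZMod 2)
    (A1 A2 : (S → ZMod 2) → ZMod 2) (s : Smp S) : Fin 10 → ZMod 2 :=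
  ![B s.1, B s.2.1, B (s.1 + s.2.1), B (s.1 * s.2.1 + s.2.2.1), B s.2.2.1, B (r + s.2.2.1),
    B ((fun z => s.2.2.2 z.1) + s.2.2.1), A1 s.2.2.2,
    B ((fun z => s.2.2.2 z.2) + s.2.2.1), A2 s.2.2.2]

/-- `A` is close to the long code of `a`. -/
def Near {S : Type} [Fintype S] [DecidableEq S] (A : (S → ZMod 2) → ZMod 2) (a : S) : Prop :=
  4 * #{f : S → ZMod 2 | A f ≠ f a} < Fintype.card (S → ZMod 2)

open Classical in
def LongSt : Prop := ∀ (S : Type) [Fintype S] [DecidableEq S],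
  (∀ (A : (S → ZMod 2) → ZMod 2) (a a' : S), Near A a → Near A a' → a = a') ∧
  (∀ (r : S × S → ZMod 2) (z : S × S), r z = 1 → ∀ s : Smp S,
    pass (bits r (fun F => F z) (fun f => f z.1) (fun f => f z.2) s)) ∧
  ∀ (r : S × S → ZMod 2) (B : (S × S → ZMod 2) → ZMod 2) (A1 A2 : (S → ZMod 2) → ZMod 2),
    36 * #{s : Smp S | ¬ pass (bits r B A1 A2 s)} < Fintype.card (Smp S) →
    ∃ z : S × S, r z = 1 ∧ Near A1 z.1 ∧ Near A2 z.2

def ARSt : Prop := ∀ q : ℕ, 0 < q → ∃ (c : ℕ) (f : Inst → Inst), PT f ∧ ∀ I, WF q I →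
  WF 1024 (f I) ∧ (f I).length ≤ c * I.length ∧
    (∀ B, Ids I B → Ids (f I) (c * (B + I.length + 1))) ∧ (Sat q I → Sat 1024 (f I)) ∧
    ∀ ε : ℝ, 0 ≤ ε → Gap q I ε → Gap2 1024 (f I) (ε / 360)

/-! ### The theorem -/

def RoundSt : Prop := ∃ (c : ℕ) (γ : ℝ) (f : Inst → Inst), 0 < γ ∧ PT f ∧ ∀ I, WF 1024 I →
  WF 1024 (f I) ∧ (f I).length ≤ c * I.length ∧ Ids (f I) (c * I.length) ∧
    (Sat 1024 I → Sat 1024 (f I)) ∧
    ∀ ε : ℝ, 0 ≤ ε → Gap 1024 I ε → Gap2 1024 (f I) (min γ (2 * ε))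

def InitSt : Prop := ∀ L ∈ N68a2faeb.NP, ∃ f : List Bool → Inst, PT f ∧ ∀ x, WF 1024 (f x) ∧
  (L x = true ↔ Sat 1024 (f x))

def PCPSt : Prop := ∃ γ : ℝ, 0 < γ ∧ ∀ L ∈ N68a2faeb.NP, ∃ f : List Bool → Inst, PT f ∧ ∀ x,
  WF 1024 (f x) ∧ (L x = true → Sat 1024 (f x)) ∧ (L x = false → Gap2 1024 (f x) γ)

end Pool.Agent.P.MP_9cbceb_lc
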