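import Pool.Agent.P.MP_9cbceb_lc.Basic
import Pool.Agent.P.MP_9cbceb_lc.CE

/-! The no-signalling lemma. -/

namespace Pool.Agent.P.MP_9cbceb_lc

open Finset CE
open scoped BigOperators

noncomputable section

namespace NSI

open Classical in
/-- indicator of an event -/
def I {Ω : Type} (p : Ω → Prop) (W : Ω) : ℝ := if p W then 1 else 0

theorem I_nonneg {Ω : Type} (p : Ω → Prop) (W : Ω) : 0 ≤ I p W := by
  unfold I
  split_ifs <;> norm_num

theorem I_le {Ω : Type} (p : Ω → Prop) (W : Ω) : I p W ≤ 1 := by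
  unfold I
  split_ifs <;> norm_num

theorem pr_eq {Ω : Type} [Fintype Ω] (p : Ω → Prop) : pr p = 𝔼 W, I p W := rfl

theorem pr_mono {Ω : Type} [Fintype Ω] {p p' : Ω → Prop} (h : ∀ W, p W → p' W) : pr p ≤ pr p' := by
  refine expect_le_expect fun W _ => ?_
  by_cases hp : p W
  · rw [if_pos hp, if_pos (h W hp)]
  · rw [if_neg hp]
    split_ifs <;> norm_num

theorem sum_I {Ω S : Type} [Fintype S] (p : Ω → Prop) (f : Ω → S) (W : Ω) :
    ∑ x, I (fun V => p V ∧ f V = x) W = I p W := by
  classical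
  by_cases hp : p W <;> simp [I, hp]

variable {E S ι : Type} [LinearOrder ι] {g : Game E S} {B : Finset ι}

theorem view_congr {W W' : ι × ι → E} {a q : ι} (h : W (key a q) = W' (key a q)) :
    view g W a q = view g W' a q := by
  unfold key at h
  unfold view
  split_ifs with hl
  · rw [if_pos hl] at h
    rw [h]
  · rw [if_neg hl] at h
    rw [h]

theorem loc_I {a : ι} {act : (ι × ι → E) → Prop} {ans : (ι × ι → E) → S} (h1 : Local g B a act)
    (h2 : Local g B a ans) (x : S) : Local g B a (I fun V => act V ∧ ans V = x) :=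
  fun W W' e1 e2 => by
    have e : (act W ∧ ans W = x) = (act W' ∧ ans W' = x) := by rw [h1 W W' e1 e2, h2 W W' e1 e2]
    exact congrArg (fun P : Prop => I (fun _ : Unit => P) ()) e

theorem loc_ind {a : ι} {F : (ι × ι → E) → ℝ} (h : Local g B a F) {Y : Finset (ι × ι)}
    (hY : Y ⊆ B ×ˢ B) (hk : ∀ q ∈ B, key a q ∉ Y) : Ind Y F := fun _ _ =>
  h _ _ (fun _ hk' => piecewise_eq_of_notMem _ _ _ fun hm => hk' (mem_product.mp (hY hm)))
    fun q hq => view_congr (piecewise_eq_of_notMem _ _ _ (hk q hq))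

variable [Fintype E] [Nonempty E] [Fintype ι]

omit [Nonempty E] in
/-- the conditional strategy of a row only depends on its question -/
theorem loc_update {a c : ι} {F : (ι × ι → E) → ℝ} (h : Local g B a F) (ha : a ∈ B) (hc : c ∈ B)
    (W : ι × ι → E) {e e' : E} (he : (if a < c then g.v e else g.u e) =
      if a < c then g.v e' else g.u e') :
    cE ((B ×ˢ B).erase (key a c)) F (Function.update W (key a c) e) =
      cE ((B ×ˢ B).erase (key a c)) F (Function.update W (key a c) e') := by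
  have hkB : (key a c).1 ∈ B ∧ (key a c).2 ∈ B := by
    unfold key
    split_ifs <;> exact ⟨by assumption, by assumption⟩
  have hne : ∀ (V : ι × ι → E) (k : ι × ι), k ≠ key a c →
      ((B ×ˢ B).erase (key a c)).piecewise V (Function.update W (key a c) e) k =
        ((B ×ˢ B).erase (key a c)).piecewise V (Function.update W (key a c) e') k := by
    intro V k hk
    simp only [piecewise, Function.update_of_ne hk]
  refine expect_congr rfl fun V _ => h _ _ (fun k hk => hne V k fun h' => hk (h' ▸ hkB))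
    fun q _ => ?_
  by_cases hq : key a q = key a c
  · have hv : ∀ e0 : E, view g (((B ×ˢ B).erase (key a c)).piecewise V
        (Function.update W (key a c) e0)) a q = if a < c then g.v e0 else g.u e0 := by
      intro e0
      have h0 : ((B ×ˢ B).erase (key a c)).piecewise V (Function.update W (key a c) e0)
          (key a c) = e0 := by
        rw [piecewise_eq_of_notMem _ _ _ (notMem_erase _ _), Function.update_self]
      generalize ((B ×ˢ B).erase (key a c)).piecewise V (Function.update W (key a c) e0) = U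
        at h0
      rw [← hq] at h0
      unfold key at hq h0
      unfold view
      by_cases l1 : a < q <;> by_cases l2 : a < c <;>
        simp only [l1, l2, if_true, if_false, Prod.mk.injEq] at hq h0 ⊢
      · rw [h0]
      · exact absurd (hq.2 ▸ l1) (lt_irrefl _)
      · exact absurd (hq.2 ▸ l2) (lt_irrefl _)
      · rw [h0]
    rw [hv, hv, he]
  · exact view_congr (hne V _ hq)

variable [Fintype S] [Nonempty S]

theorem pair_lt {γ : ℝ} (hg : g.No γ) {a q : ι} {act act' : (ι × ι → E) → Prop}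
    {ans ans' : (ι × ι → E) → S} (ha : a ∈ B) (hq : q ∈ B) (hlt : a < q) (l1 : Local g B a act)
    (l2 : Local g B a ans) (l3 : Local g B q act') (l4 : Local g B q ans') :
    γ * (𝔼 W, cE (B ×ˢ B) (I act) W * cE (B ×ˢ B) (I act') W) -
      (𝔼 W, |cE ((B ×ˢ B).erase (key a q)) (I act) W - cE (B ×ˢ B) (I act) W|) -
      (𝔼 W, |cE ((B ×ˢ B).erase (key a q)) (I act') W - cE (B ×ˢ B) (I act') W|) ≤
      pr fun W => act W ∧ act' W ∧ Lose g W a q (ans W) (ans' W) := by
  classical
  have hk : key a q = (a, q) := if_pos hlt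
  have hk' : key q a = key a q := key_comm hlt.ne'
  set Z := (B ×ˢ B).erase (key a q) with hZ
  let L : E → S → S → ℝ := fun e x y => if g.R e x y = false then 1 else 0
  let X : S → (ι × ι → E) → ℝ := fun x => I fun V => act V ∧ ans V = x
  let Y : S → (ι × ι → E) → ℝ := fun y => I fun V => act' V ∧ ans' V = y
  have hZB : Z ⊆ B ×ˢ B := erase_subset _ _
  have hsplit : Z = Z.filter (fun c => c.1 = a ∨ c.2 = a) ∪ Z.filter fun c => ¬ (c.1 = a ∨ c.2 = a) :=
    (filter_union_filter_not_eq _ _).symm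
  have hX : ∀ x, Ind (Z.filter fun c => ¬ (c.1 = a ∨ c.2 = a)) (X x) := fun x =>
    loc_ind (loc_I l1 l2 x) ((filter_subset _ _).trans hZB) fun c _ hm => (mem_filter.mp hm).2 (by
      unfold key
      split_ifs <;> simp)
  have hY : ∀ y, Ind (Z.filter fun c => c.1 = a ∨ c.2 = a) (Y y) := fun y =>
    loc_ind (loc_I l3 l4 y) ((filter_subset _ _).trans hZB) fun c _ hm => by
      obtain ⟨h1, h2⟩ := mem_filter.mp hm
      have hc : c = a := by
        unfold key at h2
        split_ifs at h2 <;> rcases h2 with h2 | h2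
        · exact absurd h2 hlt.ne'
        · exact h2
        · exact h2
        · exact absurd h2 hlt.ne'
      exact (mem_erase.mp h1).1 (hc ▸ hk')
  have e1 : ∀ W, I (fun W => act W ∧ act' W ∧ Lose g W a q (ans W) (ans' W)) W =
      ∑ x, ∑ y, L (W (key a q)) x y * (X x W * Y y W) := by
    intro W
    rw [sum_eq_single_of_mem (ans W) (mem_univ _) fun x _ hx => by simp [X, I, hx.symm],
      sum_eq_single_of_mem (ans' W) (mem_univ _) fun y _ hy => by simp [Y, I, hy.symm]]
    by_cases h1 : act W <;> by_cases h2 : act' W <;> simp [X, Y, L, I, h1, h2, Lose, hlt, hk]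
  have e2 : ∀ W, cE Z (fun V => ∑ x, ∑ y, L (V (key a q)) x y * (X x V * Y y V)) W =
      ∑ x, ∑ y, cE Z (X x) W * cE Z (Y y) W * L (W (key a q)) x y := by
    intro W
    rw [cE_sum]
    refine sum_congr rfl fun x _ => ?_
    rw [cE_sum]
    refine sum_congr rfl fun y _ => ?_
    have hL : Ind Z fun V : ι × ι → E => L (V (key a q)) x y := fun V V' => by
      simp only [piecewise_eq_of_notMem _ _ _ (notMem_erase (key a q) (B ×ˢ B)), hZ]
    rw [cE_mul_left hL, mul_comm]
    congr 1
    rw [hsplit]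
    exact cE_mul (hX x) (hY y) W
  have hup : ∀ (F : (ι × ι → E) → ℝ) (W : ι × ι → E) (e : E),
      cE (B ×ˢ B) F (Function.update W (key a q) e) = cE (B ×ˢ B) F W := by
    intro F W e
    have := ind_cE (Z := B ×ˢ B) (Z' := {key a q})
      (singleton_subset_iff.mpr (hk ▸ mem_product.mpr ⟨ha, hq⟩)) F W fun _ => e
    rwa [piecewise_singleton] at this
  have sX : ∀ W, ∑ x, cE Z (X x) W = cE Z (I act) W := fun W => by
    rw [← cE_sum]
    exact congrArg (fun F => cE Z F W) (funext fun V => sum_I act ans V)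
  have sY : ∀ W, ∑ y, cE Z (Y y) W = cE Z (I act') W := fun W => by
    rw [← cE_sum]
    exact congrArg (fun F => cE Z F W) (funext fun V => sum_I act' ans' V)
  have hγ : ∀ m1 m2 : ℕ → S, γ ≤ 𝔼 e, L e (m1 (g.v e)) (m2 (g.u e)) := fun m1 m2 => by
    have hc : (0 : ℝ) < Fintype.card E := Nat.cast_pos.mpr Fintype.card_pos
    rw [Fintype.expect_eq_sum_div_card, le_div_iff₀ hc, sum_boole]
    exact hg m1 m2
  rw [pr_eq, expect_congr rfl fun W _ => e1 W, 
    ← expect_cE Z fun V => ∑ x, ∑ y, L (V (key a q)) x y * (X x V * Y y V),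
    expect_congr rfl fun W _ => e2 W,
    ← expect_update (key a q) fun W => ∑ x, ∑ y, cE Z (X x) W * cE Z (Y y) W * L (W (key a q)) x y,
    ← expect_update (key a q) fun W => |cE Z (I act) W - cE (B ×ˢ B) (I act) W|,
    ← expect_update (key a q) fun W => |cE Z (I act') W - cE (B ×ˢ B) (I act') W|, mul_expect,
    ← expect_sub_distrib, ← expect_sub_distrib]
  refine expect_le_expect fun W _ => ?_
  have h := game g.v g.u L (fun e x y => by simp only [L]; split_ifs <;> norm_num)
    (fun e x y => by simp only [L]; split_ifs <;> norm_num) hγ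
    (fun e x => cE Z (X x) (Function.update W (key a q) e))
    (fun e y => cE Z (Y y) (Function.update W (key a q) e))
    (fun e e' he => funext fun x =>
      loc_update (loc_I l1 l2 x) ha hq W (by rw [if_pos hlt, if_pos hlt, he]))
    (fun e e' he => funext fun y => by
      have := loc_update (loc_I l3 l4 y) hq ha W (e := e) (e' := e')
        (by rw [if_neg hlt.not_gt, if_neg hlt.not_gt, he])
      rwa [hk'] at this)
    (fun e x => cE_nonneg (I_nonneg _) _) (fun e y => cE_nonneg (I_nonneg _) _)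
    (fun e => by rw [sY]; exact cE_le (I_le _) _)
    (cE_nonneg (Z := B ×ˢ B) (I_nonneg act) W) (cE_le (I_le act) W)
    (cE_nonneg (Z := B ×ˢ B) (I_nonneg act') W)
  simpa only [sX, sY, hup, Function.update_self] using h

theorem pair {γ : ℝ} (hg : g.No γ) {a q : ι} {act act' : (ι × ι → E) → Prop}
    {ans ans' : (ι × ι → E) → S} (ha : a ∈ B) (hq : q ∈ B) (hne : a ≠ q) (l1 : Local g B a act)
    (l2 : Local g B a ans) (l3 : Local g B q act') (l4 : Local g B q ans') :
    γ * (𝔼 W, cE (B ×ˢ B) (I act) W * cE (B ×ˢ B) (I act') W) -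
      (𝔼 W, |cE ((B ×ˢ B).erase (key a q)) (I act) W - cE (B ×ˢ B) (I act) W|) -
      (𝔼 W, |cE ((B ×ˢ B).erase (key q a)) (I act') W - cE (B ×ˢ B) (I act') W|) ≤
      pr fun W => act W ∧ act' W ∧ Lose g W a q (ans W) (ans' W) := by
  rcases lt_or_gt_of_ne hne with h | h
  · rw [key_comm hne.symm]
    exact pair_lt hg ha hq h l1 l2 l3 l4
  · have h1 := pair_lt hg hq ha h l3 l4 l1 l2
    have h2 := pr_mono (p := fun W => act' W ∧ act W ∧ Lose g W q a (ans' W) (ans W))
      (p' := fun W => act W ∧ act' W ∧ Lose g W a q (ans W) (ans' W))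
      fun W hW => ⟨hW.2.1, hW.1, hW.2.2.symm hne.symm⟩
    rw [key_comm hne]
    simp only [mul_comm (cE (B ×ˢ B) (I act') _)] at h1
    linarith

omit [Fintype S] [Nonempty S] in
theorem err_le (B : Finset ι) (a : ι) (p : (ι × ι → E) → Prop) {ε : ℝ} (hε : 0 < ε) :
    ∑ q ∈ B.erase a, 𝔼 W, |cE ((B ×ˢ B).erase (key a q)) (I p) W - cE (B ×ˢ B) (I p) W| ≤
      ε / 2 * #B + 1 / (2 * ε) := by
  have hinj : Set.InjOn (key a) (B.erase a : Finset ι) := by
    intro q hq c hc h
    have h1 := (mem_erase.mp hq).1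
    have h2 := (mem_erase.mp hc).1
    unfold key at h
    split_ifs at h <;> simp only [Prod.mk.injEq] at h
    · exact h.2
    · exact absurd h.2 h1
    · exact absurd h.1 h1
    · exact h.1
  have hb := bessel (B.erase a) (key a) (B ×ˢ B) hinj (I p)
  have h1 : 𝔼 W, I p W ^ 2 ≤ 1 :=
    expect_le univ_nonempty fun W _ => pow_le_one₀ (I_nonneg _ _) (I_le _ _)
  have h2 : ∀ x : ℝ, |x| ≤ ε / 2 + 1 / (2 * ε) * x ^ 2 := fun x => by
    have e : ε / 2 + 1 / (2 * ε) * x ^ 2 - |x| = (|x| - ε) ^ 2 / (2 * ε) := by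
      rw [← sq_abs x]
      field_simp
      ring
    have : 0 ≤ (|x| - ε) ^ 2 / (2 * ε) := by positivity
    linarith
  have h3 : (#(B.erase a) : ℝ) ≤ #B := Nat.cast_le.mpr card_erase_le
  calc _ ≤ ∑ q ∈ B.erase a, (ε / 2 + 1 / (2 * ε) *
        𝔼 W, (cE ((B ×ˢ B).erase (key a q)) (I p) W - cE (B ×ˢ B) (I p) W) ^ 2) := by
        refine sum_le_sum fun q _ => (expect_le_expect fun W _ => h2 _).trans (le_of_eq ?_)
        rw [expect_add_distrib, Fintype.expect_const, mul_expect]
    _ ≤ _ := by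
        rw [sum_add_distrib, ← mul_sum, sum_const, nsmul_eq_mul, mul_comm]
        have h4 : 0 < 1 / (2 * ε) := by positivity
        nlinarith [mul_le_mul_of_nonneg_left (hb.trans h1) h4.le]

end NSI

open NSI

theorem step_ok' : StepSt := by
  intro γ θ hγ hθ
  set ε := γ * θ ^ 2 / 4 with hε
  have hε0 : 0 < ε := by positivity
  refine ⟨⌈(γ + 1 / ε) / ε⌉₊ + 1, ?_⟩
  intro E S ι _ _ _ _ _ _ g hg B act ans hB hloc hact
  have hne : B.Nonempty := card_pos.mp (by omega)
  have hb : γ + 1 / ε ≤ ε * #B := by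
    have h1 : (γ + 1 / ε) / ε ≤ #B := (Nat.le_ceil _).trans (Nat.cast_le.mpr (by omega))
    rwa [div_le_iff₀ hε0, mul_comm] at h1
  refine exists_le_of_sum_le hne ?_
  let th : ι → (ι × ι → E) → ℝ := fun a => cE (B ×ˢ B) (I (act a))
  let er : ι → ι → ℝ := fun a q => 𝔼 W, |cE ((B ×ˢ B).erase (key a q)) (I (act a)) W - th a W|
  have h1 : ∑ a ∈ B, ∑ q ∈ B.erase a, (γ * (𝔼 W, th q W * th a W) - er q a - er a q) ≤
      ∑ a ∈ B, ∑ q ∈ B.erase a,
        pr fun W => act q W ∧ act a W ∧ Lose g W q a (ans q W a) (ans a W q) := by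
    refine sum_le_sum fun a ha => sum_le_sum fun q hq => ?_
    obtain ⟨hqa, hq⟩ := mem_erase.mp hq
    exact pair hg hq ha hqa (hloc q hq).1
      (fun W W' e1 e2 => congrFun ((hloc q hq).2 W W' e1 e2) a) (hloc a ha).1
      fun W W' e1 e2 => congrFun ((hloc a ha).2 W W' e1 e2) q
  have h2 : ∑ a ∈ B, ∑ q ∈ B.erase a, er a q ≤ #B * (ε / 2 * #B + 1 / (2 * ε)) := by
    rw [← nsmul_eq_mul]
    exact sum_le_card_nsmul _ _ _ fun a _ => err_le B a (act a) hε0
  have h3 : ∑ a ∈ B, ∑ q ∈ B.erase a, er q a = ∑ a ∈ B, ∑ q ∈ B.erase a, er a q :=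
    sum_comm' fun a q => by
      simp only [mem_erase]
      exact ⟨fun h => ⟨⟨h.2.1.symm, h.1⟩, h.2.2⟩, fun h => ⟨h.1.2, h.1.1.symm, h.2⟩⟩
  have h4 : (θ * #B) ^ 2 ≤ 𝔼 W, (∑ a ∈ B, th a W) ^ 2 := by
    have e1 : 𝔼 W, ∑ a ∈ B, th a W = ∑ a ∈ B, pr (act a) := by
      rw [expect_sum_comm]
      exact sum_congr rfl fun a _ => expect_cE _ _
    have e2 := expect_mul_sq_le_sq_mul_sq univ (fun W => ∑ a ∈ B, th a W) fun _ => (1 : ℝ)
    simp only [mul_one, one_pow, Fintype.expect_const] at e2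
    exact (pow_le_pow_left₀ (by positivity) (hact.trans e1.ge) 2).trans e2
  have h5 : (𝔼 W, (∑ a ∈ B, th a W) ^ 2) - #B ≤ ∑ a ∈ B, ∑ q ∈ B.erase a, 𝔼 W, th q W * th a W := by
    simp only [← expect_sum_comm]
    rw [← Fintype.expect_const (ι := ι × ι → E) (#B : ℝ), ← expect_sub_distrib]
    refine expect_le_expect fun W _ => ?_
    have e : ∀ a ∈ B, (∑ q ∈ B, th q W) * th a W - 1 ≤ ∑ q ∈ B.erase a, th q W * th a W := by
      intro a ha
      rw [← sum_mul, ← add_sum_erase B _ ha, add_mul]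
      have := mul_le_one₀ (cE_le (Z := B ×ˢ B) (I_le (act a)) W)
        (cE_nonneg (Z := B ×ˢ B) (I_nonneg (act a)) W) (cE_le (Z := B ×ˢ B) (I_le (act a)) W)
      simp only [th]
      linarith
    have := sum_le_sum e
    rwa [sum_sub_distrib, ← mul_sum, ← pow_two, sum_const, nsmul_eq_mul, mul_one] at this
  have h6 : ∑ a ∈ B, γ * θ ^ 2 / 2 * (#(B.erase a) : ℝ) ≤ #B * (γ * θ ^ 2 / 2 * #B) := by
    rw [← nsmul_eq_mul]
    exact sum_le_card_nsmul _ _ _ fun a _ =>
      mul_le_mul_of_nonneg_left (Nat.cast_le.mpr card_erase_le) (by positivity)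
  simp only [sum_sub_distrib, ← mul_sum] at h1
  rw [h3] at h1
  have h7 := mul_le_mul_of_nonneg_left ((sub_le_sub_right h4 _).trans h5) hγ.le
  have h8 := mul_le_mul_of_nonneg_left hb (Nat.cast_nonneg (α := ℝ) #B)
  have e1 : 1 / (2 * ε) = 1 / ε / 2 := by field_simp
  have e2 : γ * θ ^ 2 = 4 * ε := by rw [hε]; ring
  have e3 : γ * ((θ * #B) ^ 2 - #B) = 4 * ε * #B ^ 2 - γ * #B := by rw [← e2]; ring
  rw [e1] at h2
  rw [e3] at h7
  rw [e2] at h6 ⊢
  nlinarith

theorem ns_ok (h : StepSt) : NSSt := by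
  intro γ hγ r
  rcases r with _ | r
  · refine fun θ _ => ⟨0, 1, one_pos, ?_⟩
    intro E S ι _ _ _ _ _ _ g _ B act ans _ _ _
    refine le_expect univ_nonempty fun W _ => ?_
    rw [if_pos ⟨∅, empty_subset _, rfl, by simp, by simp⟩]
  induction r with
  | zero =>
    refine fun θ hθ => ⟨1, θ, hθ, ?_⟩
    intro E S ι _ _ _ _ _ _ g _ B act ans hB _ hact
    obtain ⟨a, ha, h1⟩ := exists_le_of_sum_le (card_pos.mp hB) (f := fun _ => θ)
      (g := fun a => pr (act a)) (by rwa [sum_const, nsmul_eq_mul, mul_comm])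
    exact h1.trans (pr_mono fun W hW => ⟨{a}, singleton_subset_iff.mpr ha, rfl, by simpa using hW,
      by simp⟩)
  | succ r ih =>
    intro θ hθ
    obtain ⟨m1, h1⟩ := h γ θ hγ hθ
    obtain ⟨m2, p, hp, h2⟩ := ih (γ * θ ^ 2 / 2) (by positivity)
    refine ⟨m1 + m2 + 1, p, hp, ?_⟩
    intro E S ι _ _ _ _ _ _ g hg B act ans hB hloc hact
    obtain ⟨a, ha, h3⟩ := h1 E S ι g hg B act ans (by omega) hloc hact
    have hloc' : ∀ q ∈ B.erase a, Local g (B.erase a) q
        (fun W => act q W ∧ act a W ∧ Lose g W q a (ans q W a) (ans a W q)) ∧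
        Local g (B.erase a) q (ans q) := by
      intro q hq
      obtain ⟨hqa, hq⟩ := mem_erase.mp hq
      have aux : ∀ W W' : ι × ι → E,
          (∀ k : ι × ι, ¬ (k.1 ∈ B.erase a ∧ k.2 ∈ B.erase a) → W k = W' k) →
          (∀ c ∈ B.erase a, view g W q c = view g W' q c) →
          (∀ k : ι × ι, ¬ (k.1 ∈ B ∧ k.2 ∈ B) → W k = W' k) ∧ (∀ c, W (key a c) = W' (key a c)) ∧
            ∀ c ∈ B, view g W q c = view g W' q c := by
        intro W W' e1 e2
        have e3 : ∀ c, W (key a c) = W' (key a c) := fun c => e1 _ (by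
          unfold key
          split_ifs <;> simp)
        refine ⟨fun k hk => e1 k fun h' => hk ⟨mem_of_mem_erase h'.1, mem_of_mem_erase h'.2⟩, e3,
          fun c hc => ?_⟩
        by_cases hca : c = a
        · rw [hca]
          exact view_congr (by rw [key_comm hqa]; exact e3 q)
        · exact e2 c (mem_erase.mpr ⟨hca, hc⟩)
      refine ⟨fun W W' e1 e2 => ?_, fun W W' e1 e2 =>
        (hloc q hq).2 W W' (aux W W' e1 e2).1 (aux W W' e1 e2).2.2⟩
      obtain ⟨e3, e4, e5⟩ := aux W W' e1 e2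
      have e6 : ∀ c ∈ B, view g W a c = view g W' a c := fun c _ => view_congr (e4 c)
      have e7 := e4 q
      rw [← key_comm hqa] at e7
      simp only [(hloc q hq).1 W W' e3 e5, (hloc q hq).2 W W' e3 e5, (hloc a ha).1 W W' e3 e6,
        (hloc a ha).2 W W' e3 e6]
      unfold key at e7
      unfold Lose
      split_ifs at e7 ⊢ <;> rw [e7]
    have h4 := h2 E S ι g hg (B.erase a) _ ans (by rw [card_erase_of_mem ha]; omega) hloc' h3
    refine h4.trans (pr_mono ?_)
    rintro W ⟨J, hJ, hc, h5, h6⟩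
    have haJ : a ∉ J := fun h' => notMem_erase a B (hJ h')
    obtain ⟨c, hcJ⟩ : J.Nonempty := card_pos.mp (by omega)
    refine ⟨insert a J, insert_subset ha (hJ.trans (erase_subset _ _)),
      by rw [card_insert_of_notMem haJ, hc], ?_, ?_⟩
    · intro x hx
      rcases mem_insert.mp hx with rfl | hx
      · exact (h5 c hcJ).2.1
      · exact (h5 x hx).1
    · intro x hx y hy hxy
      rcases mem_insert.mp hx with rfl | hx' <;> rcases mem_insert.mp hy with rfl | hy'
      · exact absurd rfl hxy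
      · exact (h5 y hy').2.2.symm hxy.symm
      · exact (h5 x hx').2.2
      · exact h6 x hx' y hy' hxy

theorem ns_ok' : NSSt := ns_ok step_ok'

end

end Pool.Agent.P.MP_9cbceb_lc
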