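import Pool.Agent.P.MP_9cbceb_lc.Basic

/-! A polynomial-time family of expanders, by iterated squaring and zig-zag products. -/

namespace Pool.Agent.P.MP_9cbceb_lc

open Pool.Agent.Lib.helper21 Pool.Agent.Lib.helper26 Finset

/-- The table of a rotation map. -/
def xpTab (n d : ℕ) (ρ : Rot) : Tab := (List.range n).map fun v => (List.range d).map fun i => ρ v i

theorem xp_len (n d : ℕ) (ρ : Rot) : (xpTab n d ρ).length = n := by simp [xpTab]

theorem xp_tab {n d : ℕ} (ρ : Rot) : ∀ v < n, ∀ i < d, tab (xpTab n d ρ) v i = ρ v i := by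
  intro v hv i hi
  simp [tab, xpTab, List.getD_eq_getElem?_getD, hv, hi]

theorem xp_sz {n d : ℕ} {ρ : Rot} (h : IsRG n d ρ) :
    sz (xpTab n d ρ) ≤ n * (2 * (d * (2 * (2 * n + d + 1) + 2) + 1) + 2) + 1 := by
  have h1 := sz_list_le (xpTab n d ρ) (d * (2 * (2 * n + d + 1) + 2) + 1) fun r hr => by
    obtain ⟨v, hv, rfl⟩ := List.mem_map.1 hr
    have h2 := sz_list_le ((List.range d).map fun i => ρ v i) (2 * n + d + 1) fun p hp => by
      obtain ⟨i, hi, rfl⟩ := List.mem_map.1 hp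
      have := h v (List.mem_range.1 hv) i (List.mem_range.1 hi)
      rw [sz_prod, sz_nat, sz_nat]
      omega
    simpa using h2
  rwa [xp_len] at h1

/-- One round: square, then zig-zag product with the constant graph. -/
def xpStep (D : ℕ) (HT X : Tab) : Tab :=
  xpTab (X.length * (D * D * (D * D))) (D * D)
    (zz (D * D * (D * D)) D (tab HT) (sq (D * D) (tab X)))

theorem xp_stepPT (D : ℕ) (HT : Tab) : PT (xpStep D HT) := by
  unfold xpStep xpTab zz sq tab
  fun_prop

def xpNext (D : ℕ) (HT : Tab) (s : ℕ) (X : Tab) : Tab :=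
  cond (decide (X.length < s)) (xpStep D HT X) X

def xpZero (D : ℕ) : Tab := xpTab (D * D) (D * D) fun v i => (i, v)

def xpFam (D : ℕ) (HT : Tab) (s : ℕ) : Tab := (xpNext D HT s)^[s] (xpZero D)

/-- The invariant of the iteration. -/
def xpInv (D : ℕ) (X : Tab) : Prop :=
  ∃ n ρ, X = xpTab n (D * D) ρ ∧ 0 < n ∧ IsRG n (D * D) ρ ∧ Exp n (D * D) ρ (1 / 2)

theorem xp_invZero {D : ℕ} (hD : 2 ≤ D) : xpInv D (xpZero D) := by
  refine ⟨D * D, _, rfl, by positivity, fun v hv i hi => ⟨hi, hv, rfl⟩, fun f hf => ?_⟩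
  have : ∀ v, avg (D * D) (fun v i => (i, v)) f v = 0 := fun v => by simp [avg, hf]
  simp only [this]
  simp only [ne_eq, OfNat.ofNat_ne_zero, not_false_eq_true, zero_pow, sum_const_zero]
  positivity

theorem xp_invStep (h2 : SqSt) (h3 : ZzSt) {D : ℕ} (hD : 2 ≤ D) {HT : Tab}
    (hH : IsRG (D * D * (D * D)) D (tab HT)) (hE : Exp (D * D * (D * D)) D (tab HT) (1 / 8))
    {X : Tab} (hX : xpInv D X) : xpInv D (xpStep D HT X) := by
  obtain ⟨n, ρ, rfl, hn, hr, he⟩ := hX
  have hd : 0 < D * D := by positivity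
  have hr' := hr.congr (xp_tab ρ)
  have he' := he.congr (xp_tab ρ)
  obtain ⟨s1, s2⟩ := h2 n (D * D) _ hd hr'
  obtain ⟨z1, z2⟩ := h3 n (D * D * (D * D)) D (tab HT) _ (by positivity) (by omega) s1 hH
  refine ⟨n * (D * D * (D * D)), _, by rw [xpStep, xp_len], by positivity, z1, ?_⟩
  have := z2 ((1 / 2) ^ 2) (1 / 8) (by positivity) (by positivity) (s2 _ he') hE
  norm_num at this ⊢
  exact this

theorem xp_iter (h2 : SqSt) (h3 : ZzSt) {D : ℕ} (hD : 2 ≤ D) {HT : Tab}
    (hH : IsRG (D * D * (D * D)) D (tab HT)) (hE : Exp (D * D * (D * D)) D (tab HT) (1 / 8))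
    {s : ℕ} (hs : 0 < s) (j : ℕ) :
    xpInv D ((xpNext D HT s)^[j] (xpZero D)) ∧
      min s j ≤ ((xpNext D HT s)^[j] (xpZero D)).length ∧
      ((xpNext D HT s)^[j] (xpZero D)).length ≤ D * D * (D * D) * s := by
  have hd : 4 ≤ D * D := by nlinarith
  induction j with
  | zero =>
    refine ⟨xp_invZero hD, by simp, ?_⟩
    rw [Function.iterate_zero, id, xpZero, xp_len]
    calc D * D = D * D * 1 * 1 := by ring
      _ ≤ D * D * (D * D) * s := by gcongr <;> omega
  | succ j ih =>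
    rw [Function.iterate_succ_apply']
    generalize (xpNext D HT s)^[j] (xpZero D) = X at ih ⊢
    obtain ⟨i1, i2, i3⟩ := ih
    by_cases hl : X.length < s
    · have e : xpNext D HT s X = xpStep D HT X := by simp [xpNext, hl]
      rw [e]
      refine ⟨xp_invStep h2 h3 hD hH hE i1, ?_, ?_⟩
      · obtain ⟨n, ρ, rfl, hn, -⟩ := i1
        rw [xpStep, xp_len]
        rw [xp_len] at i2 ⊢
        have : n * 2 ≤ n * (D * D * (D * D)) := Nat.mul_le_mul_left _ (by nlinarith)
        omega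
      · rw [xpStep, xp_len, mul_comm]
        exact Nat.mul_le_mul_left _ hl.le
    · have e : xpNext D HT s X = X := by simp [xpNext, hl]
      rw [e]
      exact ⟨i1, by omega, i3⟩

theorem xp_ok (h1 : BaseXSt) (h2 : SqSt) (h3 : ZzSt) : XpSt := by
  obtain ⟨D, H, hD, hH, hE⟩ := h1
  have e4 : D ^ 4 = D * D * (D * D) := by ring
  rw [e4] at hH hE
  set K := D * D * (D * D) with hK
  have hH' := hH.congr (xp_tab H)
  have hE' := hE.congr (xp_tab H)
  set HT := xpTab K D H
  have hit := fun s hs j => xp_iter h2 h3 hD hH' hE' (s := s) hs j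
  refine ⟨D * D, K, xpFam D HT, by positivity, by positivity, ?_, fun s hs => ?_⟩
  · have hst := xp_stepPT D HT
    refine PT.iterate (f := xpNext D HT) (n := fun s => s) (init := fun _ => xpZero D)
      (by unfold xpNext; fun_prop) PT.id (PT.const _)
      (fun s => K * s * (2 * (D * D * (2 * (2 * (K * s) + D * D + 1) + 2) + 1) + 2) + 1)
      (PT.bdNat (by fun_prop)) fun s j hj => ?_
    obtain ⟨⟨n, ρ, e, -, hr, -⟩, -, i3⟩ := hit s (by omega) j
    rw [e] at i3 ⊢
    rw [xp_len] at i3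
    refine (xp_sz hr).trans ?_
    gcongr
  · obtain ⟨⟨n, ρ, e, -, hr, he⟩, i2, i3⟩ := hit s hs s
    rw [xpFam]
    refine ⟨by simpa using i2, i3, ?_⟩
    rw [e, xp_len]
    exact ⟨hr.congr (xp_tab ρ), he.congr (xp_tab ρ)⟩

end Pool.Agent.P.MP_9cbceb_lc
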